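import Pool.Agent.Q145.SZ.SufE

/-!
# Project SZ: sufficiency, from zero-free regions to the formula
-/

set_option autoImplicit false

namespace Pool.Agent.Q145.SZ

open Finset Filter

lemma ll_conseq {X : ℕ} {M : ℝ} (hM : 1 ≤ M) (h : M ≤ Real.log (Real.log X)) :
    M ≤ Real.log X ∧ M ≤ X ∧ 3 ≤ X := by
  set l := Real.log (Real.log X) with hl
  have hl0 : 0 < l := by linarith
  have hL0 : 0 < Real.log X := by
    by_contra h0
    push Not at h0
    have hX : 0 ≤ Real.log X := Real.log_natCast_nonneg X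
    have : Real.log X = 0 := le_antisymm h0 hX
    rw [hl, this] at hl0
    simp at hl0
  have hLe : Real.log X = Real.exp l := (Real.exp_log hL0).symm
  have h1 : M + 1 ≤ Real.log X := by rw [hLe]; linarith [Real.add_one_le_exp l]
  have hX0 : (0 : ℝ) < X := by
    rcases Nat.eq_zero_or_pos X with h | h
    · rw [h] at hL0; simp at hL0
    · exact_mod_cast h
  have h2 : Real.log X + 1 ≤ X := by
    have := Real.add_one_le_exp (Real.log X)
    rwa [Real.exp_log hX0] at this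
  refine ⟨by linarith, by linarith, ?_⟩
  have : (3 : ℝ) ≤ X := by linarith
  exact_mod_cast this

lemma an (ms : S_MS') (h1 : S_H1) (h2 : S_H2') (pb : S_PWB) (A : ℕ) : ∃ (B : ℕ) (C₀ : ℝ), 1 ≤ B ∧ 64 ≤ C₀ ∧
    ∀ (z X : ℕ) (ω T : ℝ), C₀ ≤ Real.log (Real.log X) → C₀ * Real.log (Real.log X) ≤ z → C₀ * z * Real.log (Real.log X) ≤ Real.log X →
      0 < ω → ω ≤ 1 / 4 → C₀ * Real.log (Real.log X) ≤ ω * Real.log X → 0 < T → 120 * B * z ≤ Real.log T → 6 * √(Real.log X) ≤ Real.log T →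
      ZF (PW z ^ B) ω T → H1c A z X ∧ H2c A z X := by
  obtain ⟨b, A', C₁, X₁, hh2⟩ := h2 A
  obtain ⟨Cm, Xm, hCm, hms⟩ := ms (max (2 * A) A')
  refine ⟨b + 1, 64 + C₁ + 2 * (b + 1) * Cm + X₁ + Xm, by omega, ?_, ?_⟩
  · have : 0 < 2 * ((b : ℝ) + 1) * Cm := by positivity
    have h2 : (0 : ℝ) ≤ C₁ := by positivity
    have h3 : (0 : ℝ) ≤ X₁ := by positivity
    have h4 : (0 : ℝ) ≤ Xm := by positivity
    linarith
  intro z X ω T hl hz hzL hω hω4 hωL hT hTz hTL hZF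
  set C₀ : ℝ := 64 + C₁ + 2 * (b + 1) * Cm + X₁ + Xm with hC₀
  have q1 : 0 < 2 * ((b : ℝ) + 1) * Cm := by positivity
  have q2 : (0 : ℝ) ≤ C₁ := by positivity
  have q3 : (0 : ℝ) ≤ X₁ := by positivity
  have q4 : (0 : ℝ) ≤ Xm := by positivity
  have q5 : Cm ≤ 2 * ((b : ℝ) + 1) * Cm := by
    have : (0 : ℝ) ≤ b := by positivity
    nlinarith
  have hC64 : 64 ≤ C₀ := by linarith
  obtain ⟨hL0, hLM, hzM, hzL', hzl, hXe, hLe, hl1, hlL⟩ := elem (C := C₀) (M := C₀) hC64 (by linarith) hl hz hzL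
  obtain ⟨c1, c2, hX3⟩ := ll_conseq (M := C₀) (by linarith) hl
  set L := Real.log X with hL
  set l := Real.log L with hl'
  have hl0 : 0 < l := by linarith
  have hz0 : (0 : ℝ) < z := by linarith
  have hX1 : X₁ ≤ X := by
    have : (X₁ : ℝ) ≤ X := by linarith
    exact_mod_cast this
  have hXm : Xm ≤ X := by
    have : (Xm : ℝ) ≤ X := by linarith
    exact_mod_cast this
  have hWe : (PW z : ℝ) ≤ Real.exp (2 * z) := PW_le pb z
  have hW1 := one_le_PW z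
  have hF1 : 1 ≤ PW z ^ (b + 1) := Nat.one_le_pow _ _ (PW_pos z)
  have hlogF : Real.log ((PW z ^ (b + 1) : ℕ) : ℝ) ≤ (b + 1) * (2 * z) := by
    push_cast
    rw [Real.log_pow]
    push_cast
    have : Real.log (PW z) ≤ 2 * z := by
      rw [Real.log_le_iff_le_exp (by linarith)]; exact hWe
    gcongr
  have hzlpos : 0 < (z : ℝ) * l := by positivity
  have hM : MSq (max (2 * A) A') X (PW z ^ (b + 1)) := by
    refine hms X (PW z ^ (b + 1)) ω T hXm hF1 ?_ hω hω4 ?_ ?_ ?_ hZF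
    · calc Cm * Real.log ((PW z ^ (b + 1) : ℕ) : ℝ) * l ≤ Cm * ((b + 1) * (2 * z)) * l := by gcongr
        _ = (2 * (b + 1) * Cm) * (z * l) := by ring
        _ ≤ C₀ * (z * l) := by gcongr; linarith
        _ = C₀ * z * l := by ring
        _ ≤ L := hzL
    · calc Cm * l ≤ C₀ * l := by gcongr; linarith
        _ ≤ ω * L := hωL
    · push_cast
      rw [← pow_mul]
      calc (PW z : ℝ) ^ ((b + 1) * 60) ≤ (Real.exp (2 * z)) ^ ((b + 1) * 60) := by gcongr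
        _ = Real.exp (120 * ((b + 1 : ℕ) : ℝ) * z) := by rw [← Real.exp_nat_mul]; push_cast; ring_nf
        _ ≤ Real.exp (Real.log T) := Real.exp_le_exp.2 hTz
        _ = T := Real.exp_log hT
    · calc Real.exp (6 * √L) ≤ Real.exp (Real.log T) := Real.exp_le_exp.2 hTL
        _ = T := Real.exp_log hT
  constructor
  · have h4 : (PW z : ℝ) ^ 4 ≤ X := by
      calc (PW z : ℝ) ^ 4 ≤ (Real.exp (2 * z)) ^ 4 := by gcongr
        _ = Real.exp (8 * z) := by rw [← Real.exp_nat_mul]; ring_nf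
        _ ≤ Real.exp L := Real.exp_le_exp.2 (by linarith)
        _ = X := hXe.symm
    exact h1 A z X (PW z ^ (b + 1)) hX3 h4 (Nat.le_self_pow (by omega) _) (msq_mono hX3 (le_max_left _ _) hM)
  · refine hh2 z X hX1 ?_ ?_ (msq_mono hX3 (le_max_right _ _) hM)
    · calc (C₁ : ℝ) * l ≤ C₀ * l := by gcongr; linarith
        _ ≤ z := hz
    · calc (C₁ : ℝ) * z ≤ C₀ * z := by gcongr; linarith
        _ = C₀ * z * 1 := by ring
        _ ≤ C₀ * z * l := by gcongr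
        _ ≤ L := hzL

open Classical in
/-- **Sufficiency**: a zero-free region gives the formula for long tuples -/
def S_SUF : Prop := ∃ (B : ℕ) (C₀ : ℝ), 1 ≤ B ∧ 64 ≤ C₀ ∧ ∀ ε : ℝ, 0 < ε → ∃ M : ℝ, C₀ ≤ M ∧
    ∀ (z X : ℕ) (ω T : ℝ), M ≤ Real.log (Real.log X) → C₀ * Real.log (Real.log X) ≤ z → C₀ * z * Real.log (Real.log X) ≤ Real.log X →
      0 < ω → ω ≤ 1 / 4 → C₀ * Real.log (Real.log X) ≤ ω * Real.log X → 0 < T → 120 * B * z ≤ Real.log T → 6 * √(Real.log X) ≤ Real.log T →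
      ZF (PW z ^ B) ω T → ∀ K : ℕ, 16 * K ≤ z → HLK X K ε

lemma suf (h1 : S_LAW1) (h2 : S_LAW2') (m1 : S_MOM1) (m2 : S_MOM2) (hs : S_HS') (sv : S_SIEVE) (pb : S_PWB) (pc : S_PWC) (us : S_US)
    (mbs : S_MBS) (tr : S_TRANS) (tail : S_TAIL') (ms : S_MS') (hh1 : S_H1) (hh2 : S_H2') : S_SUF := by
  obtain ⟨a, hvb⟩ := var_bound h1 h2 m1 m2 hs sv pb pc us
  obtain ⟨B, C₀, hB, hC₀, han⟩ := an ms hh1 hh2 pb (2 * a)
  refine ⟨B, C₀, hB, hC₀, fun ε hε => ?_⟩
  obtain ⟨M, hM, hh⟩ := hlk_bound hvb mbs tr tail pb ε hε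
  refine ⟨M + C₀, by linarith, ?_⟩
  intro z X ω T hl hz hzL hω hω4 hωL hT hTz hTL hZF K hK
  obtain ⟨a1, a2⟩ := han z X ω T (by linarith) hz hzL hω hω4 hωL hT hTz hTL hZF
  have hl0 : 0 < Real.log (Real.log X) := by linarith
  have hz0 : (0 : ℝ) ≤ z := by positivity
  refine hh z X K (by linarith) ?_ ?_ hK a1 a2
  · exact le_trans (by gcongr) hz
  · exact le_trans (by gcongr) hzL

end Pool.Agent.Q145.SZ
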