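import Pool.Agent.Q145.SZ.Stm3

/-!
# DL2 (helper143): lower bound for the logarithmic derivative with finitely many zeros
-/

set_option autoImplicit false

namespace Pool.Agent.Q145.SZ

open Finset Filter Complex MeasureTheory Metric
open scoped Real
open Pool.Agent.W66 Pool.Agent.W66L H370 H370.Loc

theorem t_DL2 : S_DL2 := by
  obtain ⟨K1, hK1pos, hball⟩ := LF_const
  refine ⟨K1, hK1pos, fun Q _ χ hχ t σ h1 h2 S hS => ?_⟩
  obtain ⟨M, hM1, hMb, -, hbd⟩ := hball Q χ hχ t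
  have hc : χ.LFunction ⟨2, t⟩ ≠ 0 := LF_ne_zero hχ (by norm_num)
  have hcb : ‖χ.LFunction ⟨2, t⟩‖ ≤ M := hMb _ (mem_closedBall_self (by norm_num))
  obtain ⟨s, hs1, hs2, hs3⟩ := landau_re (f := χ.LFunction) (c := ⟨2, t⟩) (r := 3 / 2)
    (r1 := 11 / 8) (r2 := 9 / 8) (R := 7 / 4) (M := M) (by norm_num) (by norm_num) (by norm_num)
    (by norm_num) (by norm_num) hM1 hcb
    (fun z _ => (DirichletCharacter.differentiable_LFunction hχ).analyticAt z) hc hMb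
  have hz : (⟨σ, t⟩ : ℂ) ∈ closedBall (⟨2, t⟩ : ℂ) (9 / 8) := by
    rw [mem_closedBall, dist_eq_norm]
    have e : (⟨σ, t⟩ : ℂ) - ⟨2, t⟩ = ((σ - 2 : ℝ) : ℂ) := by
      apply Complex.ext <;> simp
    rw [e, Complex.norm_real, Real.norm_eq_abs, abs_le]
    constructor <;> linarith
  have hre : ∀ ρ ∈ s, ρ.re < 1 := by
    intro ρ hρ
    by_contra hcon
    exact LF_ne_zero hχ (not_lt.1 hcon) (hs1 ρ hρ).2
  have hzne : ∀ ρ ∈ s, (⟨σ, t⟩ : ℂ) ≠ ρ := by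
    intro ρ hρ he
    have := hre ρ hρ
    rw [← he] at this
    simp at this
    linarith
  have hmain2 := (hs3 _ hz hzne).trans hbd
  have hpos : ∀ ρ ∈ s, 0 ≤ (1 / ((⟨σ, t⟩ : ℂ) - ρ)).re := by
    intro a ha
    have := hre a ha
    rw [one_div, Complex.inv_re]
    apply div_nonneg _ (Complex.normSq_nonneg _)
    simp only [sub_re]
    linarith
  have hsum : (((s.map (fun ρ => 1 / ((⟨σ, t⟩ : ℂ) - ρ))).sum).re) =
      (s.map (fun ρ => (1 / ((⟨σ, t⟩ : ℂ) - ρ)).re)).sum := by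
    have := (Complex.reAddGroupHom).map_multiset_sum (s.map (fun ρ => 1 / ((⟨σ, t⟩ : ℂ) - ρ)))
    rw [Multiset.map_map] at this
    simpa using this
  have hSs : S.val ≤ s := by
    rw [Multiset.le_iff_subset S.nodup]
    intro ρ hρ
    exact hs2 ρ (hS ρ hρ).1 (hS ρ hρ).2
  have hle : ∑ ρ ∈ S, (1 / ((⟨σ, t⟩ : ℂ) - ρ)).re ≤ (s.map (fun ρ => (1 / ((⟨σ, t⟩ : ℂ) - ρ)).re)).sum := by
    obtain ⟨u, rfl⟩ := Multiset.le_iff_exists_add.1 hSs
    rw [Multiset.map_add, Multiset.sum_add]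
    have h3 : 0 ≤ (u.map (fun ρ => (1 / ((⟨σ, t⟩ : ℂ) - ρ)).re)).sum := by
      apply Multiset.sum_nonneg
      intro x hx
      obtain ⟨ρ, hρ, rfl⟩ := Multiset.mem_map.1 hx
      exact hpos ρ (Multiset.mem_add.2 (Or.inr hρ))
    have h4 : ∑ ρ ∈ S, (1 / ((⟨σ, t⟩ : ℂ) - ρ)).re = (S.val.map (fun ρ => (1 / ((⟨σ, t⟩ : ℂ) - ρ)).re)).sum := rfl
    rw [h4]
    linarith
  have hdiff := (Complex.abs_re_le_norm _).trans hmain2
  rw [sub_re, hsum, abs_le] at hdiff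
  have hd : (DX χ ⟨σ, t⟩).re = (deriv χ.LFunction ⟨σ, t⟩ / χ.LFunction ⟨σ, t⟩).re := rfl
  rw [hd]
  linarith [hdiff.1]

end Pool.Agent.Q145.SZ
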