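import Pool.Agent.Q145.SZ.Stm2
import Pool.Agent.H385R2.Char
import Pool.Agent.H385R2.Gauss
import Pool.Agent.Helper112.Arith

/-!
# Project SZ, job GS: Gauss sums
-/

set_option autoImplicit false

namespace Pool.Agent.Q145.SZ

open Finset
open Pool.Agent.H807R2.Dav (ee)

namespace GSx

/-- all characters modulo `D` against the primitive ones of conductor dividing `D` -/
theorem prim_sum (D : ℕ) [NeZero D] (w : DirichletCharacter ℂ D → ℝ) (hw : ∀ χ, 0 ≤ w χ)
    (W : (f : ℕ) → DirichletCharacter ℂ f → ℝ)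
    (hW : ∀ f (h : f ∣ D) (ψ : DirichletCharacter ℂ f), ψ.IsPrimitive →
      w (DirichletCharacter.changeLevel h ψ) ≤ W f ψ) :
    ∑ χ : DirichletCharacter ℂ D, w χ ≤ ∑ f ∈ D.divisors, ∑ ψ ∈ prim f, W f ψ := by
  classical
  have h1 : ∀ χ ∈ (univ : Finset (DirichletCharacter ℂ D)), χ.conductor ∈ D.divisors := by
    intro χ _
    exact Nat.mem_divisors.mpr ⟨χ.conductor_dvd_level, NeZero.ne D⟩
  rw [← sum_fiberwise_of_maps_to h1]
  apply sum_le_sum
  intro f hf
  rw [Nat.mem_divisors] at hf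
  have hfm := hf.1
  have h2 : ((univ : Finset (DirichletCharacter ℂ D)).filter (fun χ => χ.conductor = f)) ⊆
      (prim f).image (DirichletCharacter.changeLevel hfm) := by
    intro χ hχ
    rw [mem_filter] at hχ
    obtain ⟨_, hc⟩ := hχ
    subst hc
    rw [mem_image]
    refine ⟨χ.primitiveCharacter, ?_, χ.changeLevel_primitiveCharacter⟩
    unfold prim
    rw [mem_filter]
    exact ⟨mem_univ _, χ.primitiveCharacter_isPrimitive⟩
  calc _ ≤ ∑ χ ∈ (prim f).image (DirichletCharacter.changeLevel hfm), w χ :=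
        sum_le_sum_of_subset_of_nonneg h2 fun χ _ _ => hw χ
    _ = ∑ ψ ∈ prim f, w (DirichletCharacter.changeLevel hfm ψ) := by
        rw [sum_image]
        intro x _ y _ hxy
        exact DirichletCharacter.changeLevel_injective hfm hxy
    _ ≤ _ := sum_le_sum fun ψ hψ => hW f hfm ψ (by
        unfold prim at hψ
        exact (mem_filter.mp hψ).2)

/-- sums over `D` and its divisors -/
theorem swap_sum (N : ℕ) (P : ℕ → ℝ) (hP : ∀ f, 0 ≤ P f) :
    ∑ D ∈ Icc 1 N, 1 / (Nat.totient D : ℝ) * ∑ f ∈ D.divisors, P f ≤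
      (∑ f ∈ Icc 1 N, 1 / (Nat.totient f : ℝ) * P f) *
        ∑ g ∈ Icc 1 N, 1 / (Nat.totient g : ℝ) := by
  have h1 : ∑ D ∈ Icc 1 N, 1 / (Nat.totient D : ℝ) *
      ∑ f ∈ D.divisors, P f =
      ∑ f ∈ Icc 1 N, ∑ D ∈ (Icc 1 N).filter (fun D => f ∣ D),
        1 / (Nat.totient D : ℝ) * P f := by
    simp_rw [mul_sum]
    refine sum_comm' fun D f => ?_
    simp only [mem_Icc, mem_filter, Nat.mem_divisors]
    constructor
    · rintro ⟨⟨h2, h3⟩, ⟨h4, h5⟩⟩
      have h7 : f ≤ D := Nat.le_of_dvd (by omega) h4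
      have h8 : 0 < f := Nat.pos_of_dvd_of_pos h4 (by omega)
      exact ⟨⟨⟨h2, h3⟩, h4⟩, by omega, by omega⟩
    · rintro ⟨⟨⟨h2, h3⟩, h4⟩, ⟨h5, h5'⟩⟩
      exact ⟨⟨h2, h3⟩, h4, by omega⟩
  rw [h1, sum_mul]
  refine sum_le_sum fun f hf => ?_
  rw [mem_Icc] at hf
  rw [← sum_mul]
  have htf : (0 : ℝ) < Nat.totient f := by exact_mod_cast Nat.totient_pos.2 (by omega)
  have h2 : ∑ D ∈ (Icc 1 N).filter (fun D => f ∣ D), 1 / (Nat.totient D : ℝ) ≤
      1 / (Nat.totient f : ℝ) * ∑ g ∈ Icc 1 N, 1 / (Nat.totient g : ℝ) := by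
    rw [mul_sum]
    have h3 : ∑ D ∈ (Icc 1 N).filter (fun D => f ∣ D), 1 / (Nat.totient D : ℝ) ≤
        ∑ D ∈ (Icc 1 N).filter (fun D => f ∣ D),
          1 / (Nat.totient f : ℝ) * (1 / (Nat.totient (D / f) : ℝ)) := by
      refine sum_le_sum fun D hD => ?_
      rw [mem_filter, mem_Icc] at hD
      obtain ⟨⟨h4, h5⟩, g, rfl⟩ := hD
      have hg : 0 < g := Nat.pos_of_ne_zero (by rintro rfl; simp at h4)
      rw [Nat.mul_div_cancel_left g (by omega : 0 < f)]
      have htg : (0 : ℝ) < Nat.totient g := by exact_mod_cast Nat.totient_pos.2 hg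
      rw [one_div_mul_one_div]
      apply one_div_le_one_div_of_le (by positivity)
      exact_mod_cast Nat.totient_super_multiplicative f g
    refine h3.trans ?_
    have hinj : Set.InjOn (fun D => D / f) ((Icc 1 N).filter (fun D => f ∣ D) : Finset ℕ) := by
      intro a ha b hb hab
      rw [mem_coe, mem_filter] at ha hb
      simp only at hab
      rw [← Nat.div_mul_cancel ha.2, ← Nat.div_mul_cancel hb.2, hab]
    rw [← sum_image (f := fun g => 1 / (Nat.totient f : ℝ) * (1 / (Nat.totient g : ℝ))) hinj]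
    apply sum_le_sum_of_subset_of_nonneg
    · intro g hg
      rw [mem_image] at hg
      obtain ⟨D, hD, rfl⟩ := hg
      rw [mem_filter, mem_Icc] at hD
      rw [mem_Icc]
      exact ⟨Nat.div_pos (Nat.le_of_dvd (by omega) hD.2) (by omega),
        (Nat.div_le_self _ _).trans hD.1.2⟩
    · intro g _ _
      positivity
  calc (∑ D ∈ (Icc 1 N).filter (fun D => f ∣ D), 1 / (Nat.totient D : ℝ)) * P f ≤
      (1 / (Nat.totient f : ℝ) * ∑ g ∈ Icc 1 N, 1 / (Nat.totient g : ℝ)) * P f :=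
        mul_le_mul_of_nonneg_right h2 (hP f)
    _ = _ := by ring

/-- `∑ 1/φ(r) ≤ C (1 + log Y)` -/
theorem sum_inv_tot : ∃ C : ℝ, 0 < C ∧ ∀ Y : ℕ, 1 ≤ Y →
    ∑ r ∈ Icc 1 Y, 1 / (Nat.totient r : ℝ) ≤ C * (1 + Real.log Y) := by
  obtain ⟨C, hC, h⟩ := Pool.Agent.Helper112.sum_ratio_sq
  refine ⟨C, hC, fun Y hY => le_trans (sum_le_sum fun r hr => ?_) (h Y hY)⟩
  rw [mem_Icc] at hr
  have hr0 : (0 : ℝ) < r := by exact_mod_cast (by omega : 0 < r)
  have ht : (0 : ℝ) < Nat.totient r := by exact_mod_cast Nat.totient_pos.2 (by omega)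
  have hle : (Nat.totient r : ℝ) ≤ r := by exact_mod_cast Nat.totient_le r
  have h1 : 1 ≤ (r : ℝ) / Nat.totient r := by rw [one_le_div ht]; exact hle
  have h2 : (r : ℝ) / Nat.totient r ≤ ((r : ℝ) / Nat.totient r) ^ 2 := by nlinarith
  calc 1 / (Nat.totient r : ℝ) = 1 / (r : ℝ) * ((r : ℝ) / Nat.totient r) := by field_simp
    _ ≤ 1 / (r : ℝ) * ((r : ℝ) / Nat.totient r) ^ 2 :=
      mul_le_mul_of_nonneg_left h2 (by positivity)

/-- Gauss sums of induced characters -/
theorem tau_le (f q : ℕ) [NeZero q] (h : f ∣ q) (ψ : DirichletCharacter ℂ f)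
    (hψ : ψ.IsPrimitive) : ‖H385.tau q (DirichletCharacter.changeLevel h ψ)‖ ^ 2 ≤ f := by
  obtain ⟨k, rfl⟩ := h
  have hf0 : f ≠ 0 := by
    rintro rfl
    exact NeZero.ne (0 * k) (by simp)
  have hk0 : k ≠ 0 := by
    rintro rfl
    exact NeZero.ne (f * 0) (by simp)
  have : NeZero f := ⟨hf0⟩
  rw [H385.GaussAux.tau_changeLevel f k hk0 ψ, norm_mul, mul_pow, H385.tau_primitive f ψ hψ]
  have h1 : ‖((ArithmeticFunction.moebius k : ℤ) : ℂ) * ψ (k : ZMod f)‖ ≤ 1 := by
    rw [norm_mul]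
    have h2 : ‖((ArithmeticFunction.moebius k : ℤ) : ℂ)‖ ≤ 1 := by
      rw [Complex.norm_intCast]
      exact_mod_cast ArithmeticFunction.abs_moebius_le_one
    calc _ ≤ (1 : ℝ) * 1 := mul_le_mul h2 (ψ.norm_le_one _) (norm_nonneg _) zero_le_one
      _ = 1 := one_mul 1
  have h3 : ‖((ArithmeticFunction.moebius k : ℤ) : ℂ) * ψ (k : ZMod f)‖ ^ 2 ≤ 1 :=
    pow_le_one₀ (norm_nonneg _) h1
  have hf1 : (0 : ℝ) ≤ f := Nat.cast_nonneg f
  nlinarith

/-- the Gauss sum of the principal character -/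
theorem tau_one (q : ℕ) [NeZero q] :
    H385.tau q (1 : DirichletCharacter ℂ q) = ((ArithmeticFunction.moebius q : ℤ) : ℂ) := by
  have h := H385.GaussAux.tau_changeLevel 1 q (NeZero.ne q) (1 : DirichletCharacter ℂ 1)
  have h2 : H385.tau 1 (1 : DirichletCharacter ℂ 1) = 1 := by
    have h4 : (1 : DirichletCharacter ℂ 1) 0 = 1 := by
      rw [show (0 : ZMod 1) = 1 from Subsingleton.elim _ _, map_one]
    simp [H385.tau, H385.ee, h4]
  rw [h2, DirichletCharacter.changeLevel_one] at h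
  have h3 : (1 : DirichletCharacter ℂ 1) (q : ZMod 1) = 1 := by
    rw [show ((q : ZMod 1)) = 1 from Subsingleton.elim _ _, map_one]
  rw [h3, mul_one, mul_one] at h
  have key : ∀ m : ℕ, m = q → H385.tau m (1 : DirichletCharacter ℂ m) =
      ((ArithmeticFunction.moebius q : ℤ) : ℂ) → H385.tau q (1 : DirichletCharacter ℂ q) =
      ((ArithmeticFunction.moebius q : ℤ) : ℂ) := by
    intro m hm hh
    subst hm
    exact hh
  exact key (1 * q) (one_mul q) h

/-- the coefficients -/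
noncomputable def aa (n : ℕ) (β : ℝ) (u : ℕ) : ℂ := if n < u then ((wt u : ℝ) : ℂ) * ee (u * β) else 0

theorem aa_cop {q n : ℕ} (hq : 1 ≤ q) (hqn : q ≤ n) (β : ℝ) (u : ℕ) (hu : ¬ Nat.Coprime u q) :
    aa n β u = 0 := by
  unfold aa
  split_ifs with h
  · have h1 : wt u = 0 := by
      unfold wt
      rw [if_neg]
      intro hp
      apply hu
      rw [Nat.coprime_comm]
      exact Nat.Coprime.symm ((Nat.Prime.coprime_iff_not_dvd hp).mpr fun hd => by
        have := Nat.le_of_dvd (by omega) hd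
        omega)
    rw [h1]; simp
  · rfl

theorem sum_aa (n n' : ℕ) (β : ℝ) (g : ℕ → ℂ) :
    ∑ u ∈ Icc 1 n', aa n β u * g u = ∑ u ∈ Ioc n n', (((wt u : ℝ) : ℂ) * ee (u * β)) * g u := by
  have h1 : Ioc n n' = (Icc 1 n').filter (fun u => n < u) := by
    ext u
    simp only [mem_Ioc, mem_filter, mem_Icc]
    omega
  rw [h1, sum_filter]
  refine sum_congr rfl fun u _ => ?_
  unfold aa
  split_ifs <;> simp

theorem level_sum (q n n' : ℕ) [NeZero q] (hqn : q ≤ n) (β : ℝ) :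
    ∑ r ∈ (range q).filter (fun r => r.Coprime q),
      ‖∑ u ∈ Ioc n n', ((wt u : ℝ) : ℂ) * ee (u * ((r : ℝ) / q + β)) -
        (((ArithmeticFunction.moebius q : ℤ) : ℂ) / (Nat.totient q : ℂ)) *
          ∑ u ∈ Ioc n n', ee (u * β)‖ ^ 2 ≤
    1 / (Nat.totient q : ℝ) * ∑ f ∈ q.divisors, (f : ℝ) * ∑ ψ ∈ prim f, ‖DC ψ n n' β‖ ^ 2 := by
  classical
  have hq : 1 ≤ q := NeZero.one_le
  have hφ : (0 : ℝ) < Nat.totient q := by exact_mod_cast Nat.totient_pos.mpr hq
  have hφc : (Nat.totient q : ℂ) ≠ 0 := by exact_mod_cast hφ.ne'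
  set M : ℂ := ∑ u ∈ Ioc n n', ee (u * β) with hM
  set κ : ℂ := (((ArithmeticFunction.moebius q : ℤ) : ℂ) / (Nat.totient q : ℂ)) * M with hκ
  set S : ZMod q → ℂ := fun z => ∑ u ∈ Icc 1 n', aa n β u * ZMod.stdAddChar ((u : ZMod q) * z) - κ
    with hS
  -- the left side in terms of `S`
  have hL : ∀ r : ℕ, ∑ u ∈ Ioc n n', ((wt u : ℝ) : ℂ) * ee (u * ((r : ℝ) / q + β)) - κ =
      S (r : ZMod q) := by
    intro r
    simp only [hS]
    rw [sum_aa]
    congr 1
    refine sum_congr rfl fun u _ => ?_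
    have h1 := H385.ee_eq (q := q) ((u : ℤ) * r)
    push_cast at h1
    rw [← h1, mul_assoc]
    congr 1
    have h2 : (u : ℝ) * ((r : ℝ) / q + β) = u * β + (u : ℝ) * r / q := by ring
    rw [h2, Pool.Agent.H807R2.Dav.ee_add]
    rfl
  have hL2 : ∑ r ∈ (range q).filter (fun r => r.Coprime q),
      ‖∑ u ∈ Ioc n n', ((wt u : ℝ) : ℂ) * ee (u * ((r : ℝ) / q + β)) - κ‖ ^ 2 =
      ∑ z ∈ (univ : Finset (ZMod q)).filter (fun z => IsUnit z), ‖S z‖ ^ 2 := by
    simp_rw [hL]
    exact H385.sum_coprime_eq (q := q) (fun z => ‖S z‖ ^ 2)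
  rw [hL2]
  have hpar := H385.parseval (q := q) S
  have hval : ∑ z ∈ (univ : Finset (ZMod q)).filter (fun z => IsUnit z), ‖S z‖ ^ 2 =
      1 / (Nat.totient q : ℝ) * ∑ χ : DirichletCharacter ℂ q, ‖∑ z : ZMod q, χ⁻¹ z * S z‖ ^ 2 := by
    rw [hpar]; field_simp
  rw [hval]
  refine mul_le_mul_of_nonneg_left ?_ (by positivity)
  -- the sums over characters
  have hchar : ∀ χ : DirichletCharacter ℂ q, ∑ z : ZMod q, χ⁻¹ z * S z =
      H385.tau q χ⁻¹ * (∑ u ∈ Icc 1 n', aa n β u * χ (u : ZMod q) - if χ = 1 then M else 0) := by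
    intro χ
    have h1 : ∑ z : ZMod q, χ⁻¹ z * S z =
        ∑ z : ZMod q, χ⁻¹ z * ∑ u ∈ Icc 1 n', aa n β u * ZMod.stdAddChar ((u : ZMod q) * z) -
          (∑ z : ZMod q, χ⁻¹ z) * κ := by
      rw [sum_mul, ← sum_sub_distrib]
      refine sum_congr rfl fun z _ => ?_
      simp only [hS]
      ring
    rw [h1, ← H385.tau_mul_sum χ n' (aa n β) (aa_cop hq hqn β), mul_sub]
    congr 1
    by_cases hχ : χ = 1
    · subst hχ
      rw [if_pos rfl, inv_one, tau_one]
      have h2 : ∑ z : ZMod q, (1 : DirichletCharacter ℂ q) z = (Nat.totient q : ℂ) := by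
        have := MulChar.sum_one_eq_card_units (R := ZMod q) (R' := ℂ)
        rw [this, ZMod.card_units_eq_totient]
      rw [h2, hκ]
      field_simp
    · rw [if_neg hχ, mul_zero, MulChar.sum_eq_zero_of_ne_one (inv_ne_one.mpr hχ), zero_mul]
  simp_rw [hchar, norm_mul, mul_pow, H385.norm_tau_inv]
  have hfin := prim_sum q (fun χ => ‖H385.tau q χ‖ ^ 2 *
      ‖∑ u ∈ Icc 1 n', aa n β u * χ (u : ZMod q) - if χ = 1 then M else 0‖ ^ 2)
    (fun χ => by positivity) (fun f ψ => (f : ℝ) * ‖DC ψ n n' β‖ ^ 2) (by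
      intro f hf ψ hψ
      have hDC : ∑ u ∈ Icc 1 n', aa n β u * (DirichletCharacter.changeLevel hf ψ) (u : ZMod q) -
          (if DirichletCharacter.changeLevel hf ψ = 1 then M else 0) = DC ψ n n' β := by
        unfold DC
        have hiff : DirichletCharacter.changeLevel hf ψ = 1 ↔ f = 1 := by
          have hf0 : f ≠ 0 := by
            rintro rfl
            exact NeZero.ne q (Nat.eq_zero_of_zero_dvd hf)
          have : NeZero f := ⟨hf0⟩
          rw [← DirichletCharacter.changeLevel_one hf,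
            (DirichletCharacter.changeLevel_injective hf).eq_iff,
            DirichletCharacter.eq_one_iff_conductor_eq_one]
          rw [DirichletCharacter.isPrimitive_def] at hψ
          rw [hψ]
        rw [sum_aa]
        simp_rw [sub_mul, sum_sub_distrib]
        congr 1
        · refine sum_congr rfl fun u hu => ?_
          rw [mem_Ioc] at hu
          by_cases hw : wt u = 0
          · rw [hw]; simp
          · have hp : u.Prime := by
              by_contra hcon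
              exact hw (by unfold wt; rw [if_neg hcon])
            have hcop : u.Coprime q := (Nat.Prime.coprime_iff_not_dvd hp).mpr fun hd => by
              have := Nat.le_of_dvd (by omega) hd
              omega
            have h2 := DirichletCharacter.changeLevel_eq_cast_of_dvd' ψ hf (a := (u : ℤ))
              (by exact_mod_cast Nat.isCoprime_iff_coprime.mpr hcop)
            push_cast at h2
            rw [h2]
            ring
        · by_cases h1 : f = 1
          · rw [if_pos (hiff.mpr h1), hM]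
            simp [h1]
          · rw [if_neg (fun h => h1 (hiff.mp h))]
            simp [h1]
      rw [hDC]
      exact mul_le_mul_of_nonneg_right (tau_le f q hf ψ hψ) (by positivity))
  refine hfin.trans (le_of_eq ?_)
  refine sum_congr rfl fun f _ => ?_
  rw [mul_sum]

end GSx

open GSx in
theorem t_GS : S_GS := by
  classical
  obtain ⟨C, hC, hsum⟩ := sum_inv_tot
  refine ⟨C, hC, fun Q n n' β hQ hQn => ?_⟩
  have h1 : ∀ q ∈ Icc 1 Q, ∑ r ∈ (range q).filter (fun r => r.Coprime q),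
      ‖∑ u ∈ Ioc n n', ((wt u : ℝ) : ℂ) * ee (u * ((r : ℝ) / q + β)) -
        (((ArithmeticFunction.moebius q : ℤ) : ℂ) / (Nat.totient q : ℂ)) *
          ∑ u ∈ Ioc n n', ee (u * β)‖ ^ 2 ≤
      1 / (Nat.totient q : ℝ) * ∑ f ∈ q.divisors, (f : ℝ) * ∑ ψ ∈ prim f, ‖DC ψ n n' β‖ ^ 2 := by
    intro q hq
    rw [mem_Icc] at hq
    have : NeZero q := ⟨by omega⟩
    exact level_sum q n n' (by omega) β
  refine (sum_le_sum h1).trans ?_
  refine (swap_sum Q (fun f => (f : ℝ) * ∑ ψ ∈ prim f, ‖DC ψ n n' β‖ ^ 2)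
    (fun f => by positivity)).trans ?_
  have h2 : ∑ f ∈ Icc 1 Q, 1 / (Nat.totient f : ℝ) * ((f : ℝ) * ∑ ψ ∈ prim f, ‖DC ψ n n' β‖ ^ 2) =
      ∑ f ∈ Icc 1 Q, ((f : ℝ) / Nat.totient f) * ∑ χ ∈ prim f, ‖DC χ n n' β‖ ^ 2 := by
    refine sum_congr rfl fun f _ => ?_
    ring
  rw [h2, mul_comm]
  refine mul_le_mul_of_nonneg_right (hsum Q hQ) ?_
  exact sum_nonneg fun f _ => by positivity

end Pool.Agent.Q145.SZ
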