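import Pool.Agent.Q145.SZ.Stm3

/-!
# GOOD (helper143): arbitrarily large levels without exceptional zeros
-/

set_option autoImplicit false

namespace Pool.Agent.Q145.SZ

open Finset Filter Complex MeasureTheory Metric
open scoped Real Topology
open Pool.Agent.W66 Pool.Agent.W66L

/-- two primitive characters with the same lift are equal -/
theorem prim_eq {r₁ r₂ : ℕ} [NeZero r₁] [NeZero r₂] {χ₁ : DirichletCharacter ℂ r₁} {χ₂ : DirichletCharacter ℂ r₂}
    (p1 : χ₁.IsPrimitive) (p2 : χ₂.IsPrimitive)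
    (h : DirichletCharacter.changeLevel (Nat.dvd_mul_right r₁ r₂) χ₁ = DirichletCharacter.changeLevel (Nat.dvd_mul_left r₂ r₁) χ₂) :
    (⟨r₁, χ₁⟩ : Σ r : ℕ, DirichletCharacter ℂ r) = ⟨r₂, χ₂⟩ := by
  have : NeZero (r₁ * r₂) := ⟨mul_ne_zero (NeZero.ne r₁) (NeZero.ne r₂)⟩
  have h4 := DirichletCharacter.conductor_changeLevel χ₁ (Nat.dvd_mul_right r₁ r₂)
  have h5 := DirichletCharacter.conductor_changeLevel χ₂ (Nat.dvd_mul_left r₂ r₁)
  rw [h, h5, p1, p2] at h4
  subst h4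
  have := DirichletCharacter.changeLevel_injective (Nat.dvd_mul_right r₂ r₂) h
  rw [this]

/-- bad data at level `Q` -/
def Bad (c : ℝ) (Q : ℕ) (d : Σ r : ℕ, DirichletCharacter ℂ r) : Prop :=
  ∃ _ : NeZero d.1, 1 < d.1 ∧ d.1 ≤ Q ∧ d.2.IsPrimitive ∧ d.2 ^ 2 = 1 ∧ d.2 ≠ 1 ∧
    ∃ β : ℝ, d.2.LFunction β = 0 ∧ 1 - c / Real.log Q < β

theorem t_GOOD : S_GOOD := by
  intro hDL2 hZR hPAGE
  obtain ⟨cZ, hcZ, hZ⟩ := hZR hDL2
  obtain ⟨cP, hcP, hP⟩ := hPAGE hDL2
  set c : ℝ := min cZ (cP / 3) with hc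
  have hc0 : 0 < c := lt_min hcZ (by positivity)
  refine ⟨c, hc0, fun Q₀ => ?_⟩
  by_contra hcon
  push Not at hcon
  -- bad data at all levels
  have hbad : ∀ Q : ℕ, max Q₀ 3 ≤ Q → ∃ d, Bad c Q d := by
    intro Q hQ
    obtain ⟨f, hf, hf1, hfQ, χ, hχ, s, hs, hre⟩ := hcon Q (le_trans (le_max_left _ _) hQ)
    have hQ3 : 3 ≤ Q := le_trans (le_max_right _ _) hQ
    have hχ1 : χ ≠ 1 := by
      intro h
      have h2 : χ.conductor = f := hχ
      rw [h, DirichletCharacter.conductor_one] at h2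
      omega
    have hlf : 0 < lq f s.im := by linarith [one_le_lq f s.im]
    have hlog : Real.log f ≤ Real.log Q :=
      Real.log_le_log (by exact_mod_cast (by omega : 0 < f)) (by exact_mod_cast hfQ)
    have hlfQ : lq f s.im ≤ lq Q s.im := by
      unfold lq
      linarith
    have h1 : c / lq Q s.im ≤ cZ / lq f s.im :=
      div_le_div₀ hcZ.le (min_le_left _ _) hlf hlfQ
    obtain ⟨h2, h3⟩ := hZ f χ hχ1 s hs (by linarith)
    refine ⟨⟨f, χ⟩, hf, hf1, hfQ, hχ, h2, hχ1, s.re, ?_, ?_⟩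
    · have : s = ((s.re : ℝ) : ℂ) := by
        apply Complex.ext
        · simp
        · simp [h3]
      rw [← this]
      exact hs
    · have hlQ : 0 < Real.log Q := Real.log_pos (by exact_mod_cast (by omega : 1 < Q))
      have h4 : Real.log Q ≤ lq Q s.im := by
        unfold lq
        have := Pool.Agent.W66.one_le_ell s.im
        linarith
      have h5 : c / lq Q s.im ≤ c / Real.log Q := div_le_div_of_nonneg_left hc0.le hlQ h4
      linarith
  -- the data do not change from `Q` to `Q ^ 2`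
  have hstep : ∀ (Q : ℕ) (d : Σ r : ℕ, DirichletCharacter ℂ r), max Q₀ 3 ≤ Q → Bad c Q d → Bad c (Q ^ 2) d := by
    intro Q d hQ hd
    have hQ3 : 3 ≤ Q := le_trans (le_max_right _ _) hQ
    have hlQ : 0 < Real.log Q := Real.log_pos (by exact_mod_cast (by omega : 1 < Q))
    obtain ⟨d', hd'⟩ := hbad (Q ^ 2) (hQ.trans (by nlinarith))
    have e : d = d' := by
      obtain ⟨r₁, χ₁⟩ := d
      obtain ⟨r₂, χ₂⟩ := d'
      obtain ⟨i1, a1, b1, p1, s1, n1, β₁, z1, w1⟩ := hd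
      obtain ⟨i2, a2, b2, p2, s2, n2, β₂, z2, w2⟩ := hd'
      simp only at i1 a1 b1 p1 s1 n1 z1 w1 i2 a2 b2 p2 s2 n2 z2 w2
      by_contra hne
      have h1 := hP r₁ r₂ χ₁ χ₂ s1 s2 n1 n2 (fun h => hne (prim_eq p1 p2 h)) β₁ β₂ z1 z2
      have h2 : Real.log ((r₁ : ℝ) * r₂) ≤ 3 * Real.log Q := by
        have e3 : 3 * Real.log Q = Real.log ((Q : ℝ) ^ 3) := by
          rw [Real.log_pow]
          norm_num
        rw [e3]
        refine Real.log_le_log (by positivity) ?_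
        have hh1 : (r₁ : ℝ) ≤ Q := by exact_mod_cast b1
        have hh2 : (r₂ : ℝ) ≤ (Q : ℝ) ^ 2 := by exact_mod_cast b2
        calc (r₁ : ℝ) * r₂ ≤ Q * (Q : ℝ) ^ 2 := by gcongr
          _ = _ := by ring
      have h3 : 0 < Real.log ((r₁ : ℝ) * r₂) := by
        apply Real.log_pos
        have hh1 : (1 : ℝ) < r₁ := by exact_mod_cast a1
        have hh2 : (1 : ℝ) < r₂ := by exact_mod_cast a2
        nlinarith
      have h4 : c / Real.log Q ≤ cP / Real.log ((r₁ : ℝ) * r₂) := by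
        have : c ≤ cP / 3 := min_le_right _ _
        calc c / Real.log Q ≤ (cP / 3) / Real.log Q := div_le_div_of_nonneg_right this hlQ.le
          _ = cP / (3 * Real.log Q) := by rw [div_div]
          _ ≤ _ := div_le_div_of_nonneg_left hcP.le h3 h2
      have h5 : c / Real.log ((Q ^ 2 : ℕ) : ℝ) ≤ c / Real.log Q := by
        apply div_le_div_of_nonneg_left hc0.le hlQ
        apply Real.log_le_log (by positivity)
        have : (3 : ℝ) ≤ Q := by exact_mod_cast hQ3
        push_cast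
        nlinarith
      rcases min_le_iff.1 h1 with h6 | h6
      · linarith
      · linarith
    rw [e]
    exact hd'
  obtain ⟨d, hd⟩ := hbad (max Q₀ 3) le_rfl
  have hall : ∀ k : ℕ, max Q₀ 3 ≤ (max Q₀ 3) ^ (2 ^ k) ∧ Bad c ((max Q₀ 3) ^ (2 ^ k)) d := by
    intro k
    induction k with
    | zero => exact ⟨by simp, by simpa using hd⟩
    | succ k ih =>
      have e : (max Q₀ 3) ^ (2 ^ (k + 1)) = ((max Q₀ 3) ^ (2 ^ k)) ^ 2 := by
        rw [← pow_mul, pow_succ]
      rw [e]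
      refine ⟨ih.1.trans ?_, hstep _ _ ih.1 ih.2⟩
      have : 1 ≤ (max Q₀ 3) ^ (2 ^ k) := Nat.one_le_iff_ne_zero.2 (by positivity)
      nlinarith
  obtain ⟨i1, -, -, -, -, n1, -⟩ := hd
  have hcont : Continuous d.2.LFunction := (DirichletCharacter.differentiable_LFunction n1).continuous
  -- the zeros tend to one
  have hz : ∀ ε : ℝ, 0 < ε → ∃ β : ℝ, d.2.LFunction β = 0 ∧ |β - 1| < ε := by
    intro ε hε
    obtain ⟨k, hk⟩ := exists_nat_gt (c / ε)
    obtain ⟨-, i2, -, -, -, -, n2, β, z, w⟩ := hall k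
    refine ⟨β, z, ?_⟩
    have hβ : β < 1 := by
      by_contra hc'
      exact DirichletCharacter.LFunction_ne_zero_of_one_le_re d.2 (Or.inl n2)
        (by simpa using not_lt.1 hc') z
    rw [abs_lt]
    refine ⟨?_, by linarith⟩
    have hk2 : (k : ℝ) ≤ Real.log (((max Q₀ 3) ^ (2 ^ k) : ℕ) : ℝ) := by
      push_cast
      rw [Real.log_pow]
      have h3 : (1 : ℝ) ≤ Real.log ((max Q₀ 3 : ℕ) : ℝ) := by
        rw [Real.le_log_iff_exp_le (by positivity)]
        have h5 : Real.exp 1 < 2.7182818286 := Real.exp_one_lt_d9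
        have h6 : (3 : ℝ) ≤ ((max Q₀ 3 : ℕ) : ℝ) := by exact_mod_cast le_max_right _ _
        linarith
      have h4 : (k : ℝ) ≤ ((2 ^ k : ℕ) : ℝ) := by exact_mod_cast Nat.lt_two_pow_self.le
      push_cast at h3 h4 ⊢
      nlinarith
    have hk0 : (0 : ℝ) < k := lt_of_le_of_lt (by positivity) hk
    have h7 : c / Real.log (((max Q₀ 3) ^ (2 ^ k) : ℕ) : ℝ) ≤ c / k :=
      div_le_div_of_nonneg_left hc0.le hk0 hk2
    have h8 : c / k < ε := by
      rw [div_lt_iff₀ hk0]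
      rw [div_lt_iff₀ hε] at hk
      linarith
    linarith
  have h1 : d.2.LFunction 1 = 0 := by
    by_contra hne
    have hcont1 : ContinuousAt (fun x : ℝ => d.2.LFunction (x : ℂ)) 1 :=
      (hcont.comp Complex.continuous_ofReal).continuousAt
    have := hcont1.eventually_ne (y := (0 : ℂ)) (by simpa using hne)
    obtain ⟨ε, hε, hball⟩ := Metric.eventually_nhds_iff.1 this
    obtain ⟨β, z, w⟩ := hz ε hε
    exact hball (by rw [Real.dist_eq]; exact w) z
  exact DirichletCharacter.LFunction_ne_zero_of_one_le_re d.2 (Or.inl n1) (by simp) h1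

end Pool.Agent.Q145.SZ
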