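import Pool.Agent.Q145.SZ.Stm2
import Pool.Agent.H385R2.Gauss
import Pool.Agent.H442R2.EHI.Bounds

/-!
# Project SZ, job MODA: the model outside the major arcs
-/

set_option autoImplicit false

namespace Pool.Agent.Q145.SZ

open Finset
open Pool.Agent.H807R2.Dav (ee)

namespace MODx

theorem ee_nat (n : ℕ) : ee (n : ℝ) = 1 := by
  have := Pool.Agent.H807R2.Dav.ee_int (n : ℤ)
  simpa using this

/-- complete sums -/
theorem full_sum (m u : ℕ) (hm : 1 ≤ m) :
    ∑ s ∈ range m, ee (u * ((s : ℝ) / m)) = if m ∣ u then (m : ℂ) else 0 := by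
  have hm0 : (m : ℝ) ≠ 0 := by positivity
  have h1 : ∀ s : ℕ, ee (u * ((s : ℝ) / m)) = ee ((u : ℝ) / m) ^ s := by
    intro s
    rw [← Pool.Agent.H807R2.Dav.ee_pow]
    congr 1
    field_simp
  simp_rw [h1]
  split_ifs with h
  · obtain ⟨t, rfl⟩ := h
    have h2 : ee (((m * t : ℕ) : ℝ) / m) = 1 := by
      have : ((m * t : ℕ) : ℝ) / m = t := by push_cast; field_simp
      rw [this, ee_nat]
    rw [h2]
    simp
  · have hne : ee ((u : ℝ) / m) ≠ 1 := by
      intro h2
      unfold Pool.Agent.H807R2.Dav.ee at h2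
      rw [Complex.exp_eq_one_iff] at h2
      obtain ⟨k, hk⟩ := h2
      have hpi : (2 * (Real.pi : ℂ) * Complex.I) ≠ 0 := Complex.two_pi_I_ne_zero
      have h3 : (((u : ℝ) / m : ℝ) : ℂ) = k := by
        have : (2 * (Real.pi : ℂ) * Complex.I) * (((u : ℝ) / m : ℝ) : ℂ) =
            (2 * (Real.pi : ℂ) * Complex.I) * k := by
          rw [hk]; ring
        exact mul_left_cancel₀ hpi this
      have h4 : (u : ℝ) / m = k := by exact_mod_cast h3
      have h5 : (u : ℝ) = k * m := by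
        rw [← h4]; field_simp
      have h6 : (u : ℤ) = k * m := by exact_mod_cast h5
      apply h
      have : (m : ℤ) ∣ (u : ℤ) := ⟨k, by rw [h6]; ring⟩
      exact_mod_cast this
    rw [geom_sum_eq hne, ← Pool.Agent.H807R2.Dav.ee_pow]
    have : (m : ℝ) * ((u : ℝ) / m) = u := by field_simp
    rw [this, ee_nat, sub_self, zero_div]

/-- Ramanujan sums -/
theorem rsum_eq (D u : ℕ) (hD : D ≠ 0) :
    ((rsum D u : ℝ) : ℂ) = ∑ r ∈ (range D).filter (fun r => r.Coprime D), ee (u * ((r : ℝ) / D)) := by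
  have h1 : ∑ r ∈ (range D).filter (fun r => r.Coprime D), ee (u * ((r : ℝ) / D)) =
      ∑ r ∈ range D, ∑ d ∈ D.divisors, if d ∣ r then
        ((ArithmeticFunction.moebius d : ℤ) : ℂ) * ee (u * ((r : ℝ) / D)) else 0 := by
    rw [sum_filter]
    refine sum_congr rfl fun r _ => ?_
    rw [← sum_filter, ← sum_mul, H385.GaussAux.sum_moebius_gcd r D hD]
    split_ifs <;> simp
  rw [h1, sum_comm]
  have h2 : ∀ d ∈ D.divisors, (∑ r ∈ range D, if d ∣ r then
        ((ArithmeticFunction.moebius d : ℤ) : ℂ) * ee (u * ((r : ℝ) / D)) else 0) =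
      ((ArithmeticFunction.moebius d : ℤ) : ℂ) * (if (D / d) ∣ u then ((D / d : ℕ) : ℂ) else 0) := by
    intro d hd
    rw [Nat.mem_divisors] at hd
    obtain ⟨⟨e, rfl⟩, _⟩ := hd
    have hd0 : d ≠ 0 := by rintro rfl; simp at hD
    have he0 : e ≠ 0 := by rintro rfl; simp at hD
    rw [Nat.mul_div_cancel_left e (Nat.pos_of_ne_zero hd0), ← full_sum e u (Nat.pos_of_ne_zero he0),
      ← sum_filter, mul_sum]
    refine sum_nbij' (fun b => b / d) (fun b => d * b) ?_ ?_ ?_ ?_ ?_
    · intro b hb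
      rw [mem_filter, mem_range] at hb
      rw [mem_range]
      exact Nat.div_lt_of_lt_mul hb.1
    · intro b hb
      rw [mem_range] at hb
      rw [mem_filter, mem_range]
      exact ⟨Nat.mul_lt_mul_of_pos_left hb (Nat.pos_of_ne_zero hd0), dvd_mul_right d b⟩
    · intro b hb
      rw [mem_filter] at hb
      exact Nat.mul_div_cancel' hb.2
    · intro b _
      exact Nat.mul_div_cancel_left b (Nat.pos_of_ne_zero hd0)
    · intro b hb
      rw [mem_filter] at hb
      obtain ⟨_, c, rfl⟩ := hb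
      rw [Nat.mul_div_cancel_left c (Nat.pos_of_ne_zero hd0)]
      congr 2
      have hd1 : (d : ℝ) ≠ 0 := by exact_mod_cast hd0
      have he1 : (e : ℝ) ≠ 0 := by exact_mod_cast he0
      push_cast
      field_simp
  rw [sum_congr rfl h2]
  unfold rsum
  rw [sum_filter, ← Nat.sum_div_divisors]
  push_cast
  refine sum_congr rfl fun d hd => ?_
  rw [Nat.mem_divisors] at hd
  rw [Nat.div_div_self hd.1 hD]
  split_ifs
  · push_cast; ring
  · simp

/-- `d ↦ d [d | u]` -/
noncomputable def gd (u : ℕ) : ArithmeticFunction ℝ :=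
  ⟨fun d => if d ∣ u then (d : ℝ) else 0, by simp⟩

theorem gd_apply (u d : ℕ) : gd u d = if d ∣ u then (d : ℝ) else 0 := rfl

/-- `rsum` is multiplicative in the modulus -/
theorem rsum_mul (u a b : ℕ) (hab : a.Coprime b) : rsum (a * b) u = rsum a u * rsum b u := by
  have hg : ArithmeticFunction.IsMultiplicative (gd u) := by
    constructor
    · simp [gd_apply]
    · intro m n hmn
      rw [gd_apply, gd_apply, gd_apply]
      by_cases h1 : m ∣ u
      · by_cases h2 : n ∣ u
        · rw [if_pos h1, if_pos h2, if_pos (hmn.mul_dvd_of_dvd_of_dvd h1 h2)]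
          push_cast; ring
        · rw [if_neg h2, if_neg (fun h => h2 ((dvd_mul_left n m).trans h)), mul_zero]
      · rw [if_neg h1, if_neg (fun h => h1 ((dvd_mul_right m n).trans h)), zero_mul]
  have hm : ArithmeticFunction.IsMultiplicative
      ((ArithmeticFunction.moebius : ArithmeticFunction ℤ) : ArithmeticFunction ℝ) :=
    ArithmeticFunction.isMultiplicative_moebius.intCast
  have hmul := hg.mul hm
  have hval : ∀ q : ℕ, rsum q u =
      (gd u * ((ArithmeticFunction.moebius : ArithmeticFunction ℤ) : ArithmeticFunction ℝ)) q := by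
    intro q
    rw [ArithmeticFunction.mul_apply, Nat.sum_divisorsAntidiagonal
      (fun a b => gd u a *
        ((ArithmeticFunction.moebius : ArithmeticFunction ℤ) : ArithmeticFunction ℝ) b)]
    unfold rsum
    rw [sum_filter]
    refine sum_congr rfl fun d _ => ?_
    simp only [gd_apply, ArithmeticFunction.intCoe_apply]
    split_ifs <;> simp
  rw [hval, hval, hval]
  exact hmul.map_mul_of_coprime hab

theorem rsum_one (u : ℕ) : rsum 1 u = 1 := by
  unfold rsum
  rw [sum_filter]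
  simp

/-- the coefficient -/
noncomputable def cf (u D : ℕ) : ℝ :=
  ((ArithmeticFunction.moebius D : ℤ) : ℝ) / (Nat.totient D : ℝ) * rsum D u

theorem cf_mul (u a b : ℕ) (hab : a.Coprime b) : cf u (a * b) = cf u a * cf u b := by
  unfold cf
  rw [rsum_mul u a b hab, ArithmeticFunction.isMultiplicative_moebius.map_mul_of_coprime hab,
    Nat.totient_mul hab]
  push_cast
  rw [mul_div_mul_comm]
  ring

theorem cf_prime (u p : ℕ) (hp : p.Prime) :
    1 + cf u p = if p ∣ u then 0 else (p : ℝ) / (p - 1) := by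
  have hp1 : (1 : ℝ) < p := by exact_mod_cast hp.one_lt
  have hpos : (p : ℝ) - 1 ≠ 0 := by linarith
  have hr : rsum p u = -1 + if p ∣ u then (p : ℝ) else 0 := by
    unfold rsum
    rw [sum_filter, hp.sum_divisors, Nat.div_one, Nat.div_self hp.pos]
    rw [ArithmeticFunction.moebius_apply_prime hp, ArithmeticFunction.moebius_apply_one]
    simp [add_comm]
  have hφ : (Nat.totient p : ℝ) = p - 1 := by
    rw [Nat.totient_prime hp, Nat.cast_sub hp.one_lt.le]; simp
  unfold cf
  rw [hr, hφ, ArithmeticFunction.moebius_apply_prime hp]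
  split_ifs
  · push_cast; field_simp; ring
  · push_cast; field_simp; ring

/-- the expansion of the sieve weight -/
theorem vv_expand (W u : ℕ) (hW : Squarefree W) :
    (if u.Coprime W then vv W else 0) = ∑ V ∈ W.divisors, cf u V := by
  have hW0 : W ≠ 0 := hW.ne_zero
  have hmul : ArithmeticFunction.IsMultiplicative
      (⟨fun D => cf u D, by simp [cf]⟩ : ArithmeticFunction ℝ) := by
    constructor
    · simp [cf, rsum_one]
    · intro m n hmn
      exact cf_mul u m n hmn
  have h1 := hmul.prodPrimeFactors_one_add_of_squarefree hW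
  simp only [ArithmeticFunction.coe_mk] at h1
  rw [← h1]
  have h2 : ∏ p ∈ W.primeFactors, (1 + cf u p) =
      ∏ p ∈ W.primeFactors, (if p ∣ u then 0 else (p : ℝ) / (p - 1)) :=
    prod_congr rfl fun p hp => cf_prime u p (Nat.prime_of_mem_primeFactors hp)
  rw [h2]
  split_ifs with hc
  · have h3 : ∏ p ∈ W.primeFactors, (if p ∣ u then 0 else (p : ℝ) / (p - 1)) =
        ∏ p ∈ W.primeFactors, (1 - (p : ℝ)⁻¹)⁻¹ := by
      refine prod_congr rfl fun p hp => ?_
      have hpp := Nat.prime_of_mem_primeFactors hp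
      have hp1 : (1 : ℝ) < p := by exact_mod_cast hpp.one_lt
      have hnd : ¬ p ∣ u := fun hd =>
        hpp.one_lt.ne' (Nat.dvd_one.mp (hc ▸ Nat.dvd_gcd hd (Nat.dvd_of_mem_primeFactors hp)))
      rw [if_neg hnd]
      have : (p : ℝ) - 1 ≠ 0 := by linarith
      field_simp
    rw [h3, prod_inv_distrib]
    have h4 : ((Nat.totient W : ℝ)) = W * ∏ p ∈ W.primeFactors, (1 - (p : ℝ)⁻¹) := by
      have := Nat.totient_eq_mul_prod_factors W
      have h5 : (((Nat.totient W : ℚ)) : ℝ) = ((W * ∏ p ∈ W.primeFactors, (1 - (p : ℚ)⁻¹) : ℚ) : ℝ) := by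
        rw [this]
      push_cast at h5
      exact h5
    unfold vv
    rw [h4]
    have hW1 : (W : ℝ) ≠ 0 := by exact_mod_cast hW0
    rw [div_mul_eq_div_div, div_self hW1, one_div]
  · have hex : ∃ p ∈ W.primeFactors, p ∣ u := by
      by_contra hcon
      push Not at hcon
      apply hc
      rw [Nat.coprime_comm]
      refine Nat.Coprime.symm (Nat.coprime_of_dvd fun p hp hpu hpW => ?_)
      exact hcon p (Nat.mem_primeFactors.mpr ⟨hp, hpW, hW0⟩) hpu
    obtain ⟨p, hp, hpu⟩ := hex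
    exact (prod_eq_zero hp (by rw [if_pos hpu])).symm

/-- the index set of the fractions -/
noncomputable def IX (W R : ℕ) : Finset (Σ _ : ℕ × ℕ, ℕ) :=
  (W.divisors ×ˢ (Icc 1 R).filter (fun q => q.Coprime W)).sigma
    fun p => (range (p.1 * p.2)).filter (fun r => r.Coprime (p.1 * p.2))

/-- the coefficient of a fraction -/
noncomputable def cD (D : ℕ) : ℂ := ((ArithmeticFunction.moebius D : ℤ) : ℂ) / (Nat.totient D : ℂ)

theorem md_expand (W R u : ℕ) (hW : Squarefree W) :
    ((md W R u : ℝ) : ℂ) = ∑ i ∈ IX W R,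
      cD (i.1.1 * i.1.2) * ee (u * ((i.2 : ℝ) / ((i.1.1 * i.1.2 : ℕ) : ℝ))) := by
  have hW0 : W ≠ 0 := hW.ne_zero
  have h1 : md W R u = ∑ p ∈ W.divisors ×ˢ (Icc 1 R).filter (fun q => q.Coprime W),
      cf u (p.1 * p.2) := by
    rw [sum_product]
    have h2 : md W R u = (if u.Coprime W then vv W else 0) *
        ∑ q ∈ (Icc 1 R).filter (fun q => q.Coprime W), cf u q := by
      unfold md
      split_ifs
      · rfl
      · simp
    rw [h2, vv_expand W u hW, sum_mul_sum]
    refine sum_congr rfl fun V hV => sum_congr rfl fun q hq => ?_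
    rw [Nat.mem_divisors] at hV
    rw [mem_filter] at hq
    exact (cf_mul u V q (Nat.Coprime.coprime_dvd_left hV.1 hq.2.symm)).symm
  rw [h1]
  unfold IX
  rw [sum_sigma]
  push_cast
  refine sum_congr rfl fun p hp => ?_
  rw [mem_product, Nat.mem_divisors, mem_filter, mem_Icc] at hp
  have hp0 : p.1 * p.2 ≠ 0 := by
    have h3 : p.1 ≠ 0 := by
      rintro h3
      rw [h3] at hp
      exact hW0 (Nat.eq_zero_of_zero_dvd hp.1.1)
    have h4 : p.2 ≠ 0 := by omega
    exact mul_ne_zero h3 h4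
  rw [← mul_sum]
  unfold cf cD
  rw [Complex.ofReal_mul, rsum_eq _ _ hp0]
  push_cast
  rfl

theorem norm_cD (D : ℕ) : ‖cD D‖ ≤ 1 / (Nat.totient D : ℝ) := by
  unfold cD
  rw [norm_div, Complex.norm_natCast, Complex.norm_intCast]
  gcongr
  exact_mod_cast ArithmeticFunction.abs_moebius_le_one

/-- geometric sums -/
theorem G_le (n n' : ℕ) (θ δ : ℝ) (hδ : 0 < δ) (h : ∀ k : ℤ, δ ≤ |θ - k|) :
    ‖∑ u ∈ Ioc n n', ee (u * θ)‖ ≤ 1 / (2 * δ) := by
  have h1 : 4 * δ ≤ Pool.Agent.H807R2.Dav.dd θ := by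
    have h2 := Pool.Agent.H807R2.Dav.dd_ge (Int.fract_nonneg θ) (Int.fract_lt_one θ).le
    have h3 : Pool.Agent.H807R2.Dav.dd (Int.fract θ) = Pool.Agent.H807R2.Dav.dd θ := by
      have := Pool.Agent.H807R2.Dav.dd_add_int (Int.fract θ) ⌊θ⌋
      rw [Int.fract_add_floor] at this
      exact this.symm
    rw [h3] at h2
    have h4 : δ ≤ Int.fract θ := by
      have := h ⌊θ⌋
      rwa [Int.self_sub_floor, abs_of_nonneg (Int.fract_nonneg θ)] at this
    have h5 : δ ≤ 1 - Int.fract θ := by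
      have := h (⌊θ⌋ + 1)
      push_cast at this
      rw [show θ - ((⌊θ⌋ : ℝ) + 1) = -(1 - Int.fract θ) by
        rw [← Int.self_sub_floor]; ring, abs_neg,
        abs_of_nonneg (by linarith [Int.fract_lt_one θ])] at this
      exact this
    have h6 : δ ≤ min (Int.fract θ) (1 - Int.fract θ) := le_min h4 h5
    linarith
  rcases le_or_gt n n' with hn | hn
  · have hI : Ioc n n' = Ico (n + 1) (n' + 1) := by
      ext u; simp only [mem_Ioc, mem_Ico]; omega
    set S : ℂ := ∑ u ∈ Ioc n n', ee (u * θ) with hS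
    have h2 : Pool.Agent.H807R2.Dav.dd θ * ‖S‖ ≤ 2 := by
      have h3 : (1 - ee θ) * S = ee θ ^ (n + 1) - ee θ ^ (n' + 1) := by
        rw [hS, hI]
        simp only [Pool.Agent.H807R2.Dav.ee_pow]
        have := geom_sum_Ico_mul (ee θ) (by omega : n + 1 ≤ n' + 1)
        linear_combination -this
      have h4 : Pool.Agent.H807R2.Dav.dd θ * ‖S‖ = ‖ee θ ^ (n + 1) - ee θ ^ (n' + 1)‖ := by
        rw [← h3, norm_mul]; rfl
      rw [h4]
      refine (norm_sub_le _ _).trans ?_
      rw [norm_pow, norm_pow, Pool.Agent.H807R2.Dav.norm_ee]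
      norm_num
    rw [le_div_iff₀ (by positivity)]
    have h5 : 4 * δ * ‖S‖ ≤ 2 := (mul_le_mul_of_nonneg_right h1 (norm_nonneg S)).trans h2
    linarith
  · rw [Ioc_eq_empty (by omega)]
    simp only [sum_empty, norm_zero]
    positivity

theorem G_triv (n n' X : ℕ) (h1 : n ≤ n') (h2 : n' ≤ n + 2 * X) (θ : ℝ) :
    ‖∑ u ∈ Ioc n n', ee (u * θ)‖ ≤ 2 * X := by
  refine (norm_sum_le _ _).trans ?_
  simp only [Pool.Agent.H807R2.Dav.norm_ee, sum_const, Nat.card_Ioc, nsmul_eq_mul, mul_one]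
  have : n' - n ≤ 2 * X := by omega
  exact_mod_cast this

theorem IX_mem {W R : ℕ} {i : Σ _ : ℕ × ℕ, ℕ} (h : i ∈ IX W R) :
    i.1.1 ∣ W ∧ W ≠ 0 ∧ 1 ≤ i.1.2 ∧ i.1.2 ≤ R ∧ i.1.2.Coprime W ∧ i.2 < i.1.1 * i.1.2 ∧
      i.2.Coprime (i.1.1 * i.1.2) := by
  unfold IX at h
  rw [mem_sigma, mem_product, Nat.mem_divisors, mem_filter, mem_Icc, mem_filter, mem_range] at h
  obtain ⟨⟨⟨h1, h2⟩, ⟨h3, h4⟩, h5⟩, h6, h7⟩ := h
  exact ⟨h1, h2, h3, h4, h5, h6, h7⟩

/-- different fractions are far apart -/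
theorem IX_gap {W R : ℕ} {i j : Σ _ : ℕ × ℕ, ℕ} (hi : i ∈ IX W R) (hj : j ∈ IX W R) (k : ℤ)
    (h : |(i.2 : ℝ) / ((i.1.1 * i.1.2 : ℕ) : ℝ) - (j.2 : ℝ) / ((j.1.1 * j.1.2 : ℕ) : ℝ) - k| <
      1 / ((W : ℝ) * R) ^ 2) : i = j := by
  obtain ⟨⟨V, q⟩, r⟩ := i
  obtain ⟨⟨V', q'⟩, r'⟩ := j
  obtain ⟨a1, a2, a3, a4, a5, a6, a7⟩ := IX_mem hi
  obtain ⟨b1, _, b3, b4, b5, b6, b7⟩ := IX_mem hj
  simp only at a1 a3 a4 a5 a6 a7 b1 b3 b4 b5 b6 b7 h
  have hW : 0 < W := Nat.pos_of_ne_zero a2
  have hV : 0 < V := Nat.pos_of_dvd_of_pos a1 hW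
  have hV' : 0 < V' := Nat.pos_of_dvd_of_pos b1 hW
  set D := V * q with hD
  set D' := V' * q' with hD'
  have hD0 : 0 < D := Nat.mul_pos hV (by omega)
  have hD0' : 0 < D' := Nat.mul_pos hV' (by omega)
  have hDle : D ≤ W * R := Nat.mul_le_mul (Nat.le_of_dvd hW a1) a4
  have hDle' : D' ≤ W * R := Nat.mul_le_mul (Nat.le_of_dvd hW b1) b4
  have hDr : (0 : ℝ) < D := by exact_mod_cast hD0
  have hDr' : (0 : ℝ) < D' := by exact_mod_cast hD0'
  have hDler : (D : ℝ) ≤ W * R := by exact_mod_cast hDle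
  have hDler' : (D' : ℝ) ≤ W * R := by exact_mod_cast hDle'
  have hWR : (0 : ℝ) < W * R := lt_of_lt_of_le hDr hDler
  -- the integer `r D' - r' D - k D D'` vanishes
  have h1 : |(r : ℝ) * D' - r' * D - k * (D * D')| < 1 := by
    have e1 : (r : ℝ) * D' - r' * D - k * (D * D') = ((r : ℝ) / D - (r' : ℝ) / D' - k) * (D * D') := by
      field_simp
    rw [e1, abs_mul, abs_of_pos (mul_pos hDr hDr')]
    calc |(r : ℝ) / D - (r' : ℝ) / D' - k| * (D * D') < 1 / ((W : ℝ) * R) ^ 2 * (D * D') :=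
          mul_lt_mul_of_pos_right h (mul_pos hDr hDr')
      _ ≤ 1 / ((W : ℝ) * R) ^ 2 * ((W * R) * (W * R)) := by gcongr
      _ = 1 := by
          rw [← sq, one_div_mul_cancel (pow_pos hWR 2).ne']
  have h2 : (r : ℤ) * D' - r' * D - k * (D * D') = 0 := by
    have h3 : |(r : ℤ) * D' - r' * D - k * (D * D')| < 1 := by exact_mod_cast h1
    exact Int.abs_lt_one_iff.mp h3
  -- `k = 0`
  have hk : k = 0 := by
    have h4 : (r : ℝ) / D < 1 := by rw [div_lt_one hDr]; exact_mod_cast a6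
    have h5 : (r' : ℝ) / D' < 1 := by rw [div_lt_one hDr']; exact_mod_cast b6
    have h6 : (0 : ℝ) ≤ (r : ℝ) / D := by positivity
    have h7 : (0 : ℝ) ≤ (r' : ℝ) / D' := by positivity
    have h8 : (k : ℝ) = (r : ℝ) / D - (r' : ℝ) / D' := by
      have h9 : (r : ℝ) * D' - r' * D - k * (D * D') = 0 := by exact_mod_cast h2
      field_simp
      linarith
    have h9 : (k : ℝ) < 1 := by linarith
    have h10 : (-1 : ℝ) < k := by linarith
    have h11 : k < 1 := by exact_mod_cast h9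
    have h12 : -1 < k := by exact_mod_cast h10
    omega
  rw [hk, zero_mul, sub_zero] at h2
  have h3 : r * D' = r' * D := by
    have : (r : ℤ) * D' = r' * D := by linarith
    exact_mod_cast this
  have hdvd : D ∣ D' := by
    have : D ∣ r * D' := ⟨r', by rw [h3]; ring⟩
    exact (Nat.Coprime.dvd_mul_left a7.symm).mp this
  have hdvd' : D' ∣ D := by
    have : D' ∣ r' * D := ⟨r, by rw [← h3]; ring⟩
    exact (Nat.Coprime.dvd_mul_left b7.symm).mp this
  have hDD : D = D' := Nat.dvd_antisymm hdvd hdvd'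
  have hrr : r = r' := by
    rw [← hDD] at h3
    exact Nat.eq_of_mul_eq_mul_right hD0 h3
  have hVg : ∀ V q : ℕ, V ∣ W → q.Coprime W → Nat.gcd (V * q) W = V := by
    intro V q h1 h2
    rw [Nat.Coprime.gcd_mul_right_cancel V h2]
    exact Nat.gcd_eq_left h1
  have hVV : V = V' := by
    rw [← hVg V q a1 a5, ← hVg V' q' b1 b5, ← hD, ← hD', hDD]
  subst hVV
  have hqq : q = q' := by
    rw [hD, hD'] at hDD
    exact Nat.eq_of_mul_eq_mul_left hV hDD
  subst hqq
  subst hrr
  rfl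

/-- the coefficients add up -/
theorem IX_sum (W R : ℕ) : ∑ i ∈ IX W R, 1 / (Nat.totient (i.1.1 * i.1.2) : ℝ) ≤ (W : ℝ) * R := by
  unfold IX
  rw [sum_sigma]
  have h1 : ∀ p ∈ W.divisors ×ˢ (Icc 1 R).filter (fun q => q.Coprime W),
      ∑ r ∈ (range (p.1 * p.2)).filter (fun r => r.Coprime (p.1 * p.2)),
        1 / (Nat.totient (p.1 * p.2) : ℝ) ≤ 1 := by
    intro p _
    rw [sum_const, nsmul_eq_mul]
    have h2 : ((range (p.1 * p.2)).filter (fun r => r.Coprime (p.1 * p.2))).card =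
        Nat.totient (p.1 * p.2) := by
      rw [Nat.totient_eq_card_coprime]
      congr 1
      ext b
      simp only [mem_filter, mem_range, and_congr_right_iff]
      intro _
      exact Nat.coprime_comm
    rw [h2]
    rcases Nat.eq_zero_or_pos (Nat.totient (p.1 * p.2)) with h | h
    · rw [h]; simp
    · have : (0 : ℝ) < Nat.totient (p.1 * p.2) := by exact_mod_cast h
      rw [mul_one_div_cancel this.ne']
  refine (sum_le_sum h1).trans ?_
  rw [sum_const, nsmul_eq_mul, mul_one, card_product]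
  push_cast
  have h3 : (W.divisors.card : ℝ) ≤ W := by exact_mod_cast Nat.card_divisors_le_self W
  have h4 : ((((Icc 1 R).filter (fun q => q.Coprime W)).card : ℕ) : ℝ) ≤ R := by
    have := card_filter_le (Icc 1 R) (fun q => q.Coprime W)
    rw [Nat.card_Icc, Nat.add_sub_cancel] at this
    exact_mod_cast this
  exact mul_le_mul h3 h4 (by positivity) (by positivity)

theorem tot_ratio (q : ℕ) (hq : 1 ≤ q) : (q : ℝ) / (Nat.totient q : ℝ) ≤ 2 * (1 + Real.log q) := by
  have h := Pool.Agent.H442R2.EHI.Bd.inv_tot q hq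
  have hq0 : (0 : ℝ) < q := by exact_mod_cast hq
  calc (q : ℝ) / (Nat.totient q : ℝ) = q * (1 / (Nat.totient q : ℝ)) := by ring
    _ ≤ q * (2 * (1 + Real.log q) / q) := by gcongr
    _ = 2 * (1 + Real.log q) := by field_simp

end MODx

open MODx in
theorem t_MODA : S_MODA := by
  classical
  intro W R Q X n n' α hW hR hQ hX hn hn' hα
  have hW0 : W ≠ 0 := hW.ne_zero
  have hWr : (0 : ℝ) < W := by exact_mod_cast Nat.pos_of_ne_zero hW0
  have hRr : (0 : ℝ) < R := by exact_mod_cast hR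
  have hQr : (0 : ℝ) < Q := by exact_mod_cast hQ
  have hXr : (0 : ℝ) < X := by exact_mod_cast hX
  set θ : (Σ _ : ℕ × ℕ, ℕ) → ℝ := fun i => α + (i.2 : ℝ) / ((i.1.1 * i.1.2 : ℕ) : ℝ) with hθ
  -- expansion
  have h1 : ∑ u ∈ Ioc n n', ((md W R u : ℝ) : ℂ) * ee (u * α) =
      ∑ i ∈ IX W R, cD (i.1.1 * i.1.2) * ∑ u ∈ Ioc n n', ee (u * θ i) := by
    simp_rw [md_expand W R _ hW, sum_mul, mul_sum]
    rw [sum_comm]
    refine sum_congr rfl fun i _ => sum_congr rfl fun u _ => ?_
    rw [mul_assoc, ← Pool.Agent.H807R2.Dav.ee_add]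
    congr 2
    simp only [hθ]
    ring
  rw [h1]
  refine (norm_sum_le _ _).trans ?_
  simp_rw [norm_mul]
  -- near and far fractions
  set NR : (Σ _ : ℕ × ℕ, ℕ) → Prop := fun i => ∃ k : ℤ, |θ i - k| < 1 / (2 * ((W : ℝ) * R) ^ 2) with hNR
  rw [← sum_filter_add_sum_filter_not (IX W R) NR]
  refine add_le_add ?_ ?_
  · -- near
    have hcard : ((IX W R).filter NR).card ≤ 1 := by
      rw [card_le_one]
      intro i hi j hj
      rw [mem_filter] at hi hj
      obtain ⟨hi, k, hk⟩ := hi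
      obtain ⟨hj, l, hl⟩ := hj
      refine IX_gap hi hj (k - l) ?_
      have e1 : (i.2 : ℝ) / ((i.1.1 * i.1.2 : ℕ) : ℝ) - (j.2 : ℝ) / ((j.1.1 * j.1.2 : ℕ) : ℝ) -
          ((k - l : ℤ) : ℝ) = (θ i - k) - (θ j - l) := by
        simp only [hθ]; push_cast; ring
      rw [e1]
      calc |(θ i - k) - (θ j - l)| ≤ |θ i - k| + |θ j - l| := abs_sub _ _
        _ < 1 / (2 * ((W : ℝ) * R) ^ 2) + 1 / (2 * ((W : ℝ) * R) ^ 2) := add_lt_add hk hl
        _ = 1 / ((W : ℝ) * R) ^ 2 := by field_simp; norm_num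
    have hterm : ∀ i ∈ (IX W R).filter NR, ‖cD (i.1.1 * i.1.2)‖ * ‖∑ u ∈ Ioc n n', ee (u * θ i)‖ ≤
        4 * (1 + Real.log R) * X / Q := by
      intro i hi
      rw [mem_filter] at hi
      obtain ⟨a1, a2, a3, a4, a5, a6, a7⟩ := IX_mem hi.1
      obtain ⟨⟨V, q⟩, r⟩ := i
      simp only at a1 a3 a4 a5 a6 a7 ⊢
      have hV : 0 < V := Nat.pos_of_dvd_of_pos a1 (Nat.pos_of_ne_zero a2)
      have hq0 : (0 : ℝ) < q := by exact_mod_cast a3
      have hVr : (0 : ℝ) < V := by exact_mod_cast hV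
      have hφq : (0 : ℝ) < Nat.totient q := by exact_mod_cast Nat.totient_pos.mpr a3
      have hc : ‖cD (V * q)‖ ≤ 1 / (Nat.totient q : ℝ) := by
        refine (norm_cD _).trans ?_
        apply one_div_le_one_div_of_le hφq
        have : Nat.totient q ≤ Nat.totient (V * q) :=
          Nat.le_of_dvd (Nat.totient_pos.mpr (Nat.mul_pos hV a3))
            (Nat.totient_dvd_of_dvd (dvd_mul_left q V))
        exact_mod_cast this
      have hG : ‖∑ u ∈ Ioc n n', ee (u * θ ⟨(V, q), r⟩)‖ ≤ 2 * (q * X / Q) := by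
        rcases le_or_gt q Q with hqQ | hqQ
        · have hnot : ∀ k : ℤ, (Q : ℝ) / (q * X) ≤ |θ ⟨(V, q), r⟩ - k| := by
            intro k
            obtain ⟨e, he⟩ := a1
            have hbig : (W : ℝ) * Q / X < |(q : ℝ) * W * α - ((q * W * k - e * r : ℤ) : ℝ)| := by
              by_contra hcon
              exact hα ⟨q, a3, hqQ, q * W * k - e * r, not_lt.mp hcon⟩
            have e2 : (q : ℝ) * W * α - ((q * W * k - e * r : ℤ) : ℝ) =
                q * W * (θ ⟨(V, q), r⟩ - k) := by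
              simp only [hθ]
              have hWe : (W : ℝ) = V * e := by exact_mod_cast he
              push_cast
              rw [hWe]
              field_simp
              ring
            rw [e2, abs_mul, abs_of_pos (mul_pos hq0 hWr)] at hbig
            rw [div_le_iff₀ (by positivity)]
            rw [div_lt_iff₀ hXr] at hbig
            have h5 : (W : ℝ) * Q ≤ W * (|θ ⟨(V, q), r⟩ - k| * (q * X)) := by
              calc (W : ℝ) * Q ≤ q * W * |θ ⟨(V, q), r⟩ - k| * X := hbig.le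
                _ = W * (|θ ⟨(V, q), r⟩ - k| * (q * X)) := by ring
            exact le_of_mul_le_mul_left h5 hWr
          refine (G_le n n' _ _ (by positivity) hnot).trans ?_
          have e3 : 1 / (2 * ((Q : ℝ) / (q * X))) = (q * X / Q) / 2 := by
            field_simp
          rw [e3]
          have : 0 ≤ (q : ℝ) * X / Q := by positivity
          linarith
        · refine (G_triv n n' X hn hn' _).trans ?_
          have hqQr : (Q : ℝ) ≤ q := by exact_mod_cast hqQ.le
          have : (X : ℝ) ≤ q * X / Q := by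
            rw [le_div_iff₀ hQr]
            nlinarith
          linarith
      have hratio := tot_ratio q a3
      have hlog : Real.log q ≤ Real.log R := Real.log_le_log hq0 (by exact_mod_cast a4)
      calc ‖cD (V * q)‖ * ‖∑ u ∈ Ioc n n', ee (u * θ ⟨(V, q), r⟩)‖
          ≤ 1 / (Nat.totient q : ℝ) * (2 * (q * X / Q)) :=
            mul_le_mul hc hG (norm_nonneg _) (by positivity)
        _ = 2 * ((q : ℝ) / (Nat.totient q : ℝ)) * (X / Q) := by field_simp
        _ ≤ 2 * (2 * (1 + Real.log R)) * (X / Q) := by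
            apply mul_le_mul_of_nonneg_right _ (by positivity)
            linarith
        _ = 4 * (1 + Real.log R) * X / Q := by ring
    have hnn : 0 ≤ 4 * (1 + Real.log R) * X / Q := by
      have : 0 ≤ Real.log R := Real.log_nonneg (by exact_mod_cast hR)
      positivity
    calc ∑ i ∈ (IX W R).filter NR, ‖cD (i.1.1 * i.1.2)‖ * ‖∑ u ∈ Ioc n n', ee (u * θ i)‖
        ≤ ∑ _i ∈ (IX W R).filter NR, 4 * (1 + Real.log R) * X / Q := sum_le_sum hterm
      _ = ((IX W R).filter NR).card * (4 * (1 + Real.log R) * X / Q) := by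
          rw [sum_const, nsmul_eq_mul]
      _ ≤ 1 * (4 * (1 + Real.log R) * X / Q) := by
          apply mul_le_mul_of_nonneg_right _ hnn
          exact_mod_cast hcard
      _ = _ := one_mul _
  · -- far
    have hterm : ∀ i ∈ (IX W R).filter (fun i => ¬ NR i),
        ‖cD (i.1.1 * i.1.2)‖ * ‖∑ u ∈ Ioc n n', ee (u * θ i)‖ ≤
        1 / (Nat.totient (i.1.1 * i.1.2) : ℝ) * ((W : ℝ) * R) ^ 2 := by
      intro i hi
      rw [mem_filter] at hi
      have hfar : ∀ k : ℤ, 1 / (2 * ((W : ℝ) * R) ^ 2) ≤ |θ i - k| := by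
        intro k
        by_contra hcon
        exact hi.2 ⟨k, not_le.mp hcon⟩
      have hG := G_le n n' (θ i) _ (by positivity) hfar
      have e4 : 1 / (2 * (1 / (2 * ((W : ℝ) * R) ^ 2))) = ((W : ℝ) * R) ^ 2 := by
        field_simp
      rw [e4] at hG
      exact mul_le_mul (norm_cD _) hG (norm_nonneg _) (by positivity)
    refine (sum_le_sum hterm).trans ?_
    rw [← sum_mul]
    have h2 : ∑ i ∈ (IX W R).filter (fun i => ¬ NR i), 1 / (Nat.totient (i.1.1 * i.1.2) : ℝ) ≤
        (W : ℝ) * R :=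
      (sum_le_sum_of_subset_of_nonneg (filter_subset _ _) fun i _ _ => by positivity).trans
        (IX_sum W R)
    calc _ ≤ ((W : ℝ) * R) * ((W : ℝ) * R) ^ 2 := mul_le_mul_of_nonneg_right h2 (by positivity)
      _ = ((W : ℝ) * R) ^ 3 := by ring

end Pool.Agent.Q145.SZ
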