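import Pool.Agent.Q145.SZ.Nec3

/-!
# Project SZ: necessity (4)
-/

set_option autoImplicit false

namespace Pool.Agent.Q145.SZ

open Finset Filter Complex
open Pool.Agent.W66 Pool.Agent.W66L

theorem nec (coin : S_COIN) (slow : S_SLOW) (padm : S_PADM) (fm : S_FM) (few : S_FEW) (zr : S_ZR') (pb : S_PWB) {κ : ℝ} (hκ : 0 < κ) (hκ1 : κ ≤ 1)
    (h : ∀ κ' : ℝ, 0 < κ' → κ' < κ → LBP κ') : RZ κ := by
  by_contra hcon
  unfold RZ at hcon
  push Not at hcon
  obtain ⟨A, hA, hbad⟩ := hcon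
  have hκinv : 1 ≤ 1 / κ := by rw [le_div_iff₀ hκ]; linarith
  have hA1 : 1 < A := by linarith
  have hA0 : 0 < A := by linarith
  have hAκ : 1 / A < κ := by
    rw [div_lt_iff₀ hA0]; rw [div_lt_iff₀ hκ] at hA; linarith
  set κ' := (1 / A + κ) / 2 with hκ'
  have hAinv : 0 < 1 / A := by positivity
  have k1 : 1 / A < κ' := by rw [hκ']; linarith
  have k2 : κ' < κ := by rw [hκ']; linarith
  have k0 : 0 < κ' := by linarith
  have k3 : κ' < 1 := by linarith
  have k4 : 1 / κ' < A := by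
    rw [div_lt_iff₀ k0]; rw [div_lt_iff₀ hA0] at k1; linarith
  have k5 : 1 < 1 / κ' := by rw [lt_div_iff₀ k0]; linarith
  set a := (1 / κ' + A) / 2 with ha
  have a1 : 1 / κ' < a := by rw [ha]; linarith
  have a2 : a < A := by rw [ha]; linarith
  have a3 : 1 < a := by linarith
  have a0 : 0 < a := by linarith
  set θ := 1 / a with hθ
  have hθ0 : 0 < θ := by positivity
  have hθκ : θ < κ' := by
    rw [hθ, div_lt_iff₀ a0]; rw [div_lt_iff₀ k0] at a1; linarith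
  have hθ1 : θ ≤ 1 := by linarith
  obtain ⟨C, δ, hC, hδ, hlb⟩ := h κ' k0 k2
  obtain ⟨c₂, hc₂, hslow⟩ := slow
  obtain ⟨c₃, hc₃, hpadm⟩ := padm
  obtain ⟨C₁, X₁, hC₁, hfm⟩ := fm
  obtain ⟨c, hc, hzr⟩ := zr
  set t : ℝ := c₂ * c₃ / (2 * C * C₁) with ht
  have ht0 : 0 < t := by positivity
  set ε₀ : ℝ := min 1 (t ^ 4) with hε₀
  have hε0 : 0 < ε₀ := by positivity
  have hε1 : ε₀ ≤ 1 := min_le_left _ _
  have hεt : ε₀ ^ (1 / 4 : ℝ) ≤ t := by
    have : ε₀ ≤ t ^ 4 := min_le_right _ _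
    calc ε₀ ^ (1 / 4 : ℝ) ≤ (t ^ 4) ^ (1 / 4 : ℝ) := by gcongr
      _ = t := by
        rw [← Real.rpow_natCast, ← Real.rpow_mul ht0.le]; norm_num
  have hsmall : C * C₁ * ε₀ ^ (1 / 4 : ℝ) ≤ c₂ * c₃ / 2 := by
    calc C * C₁ * ε₀ ^ (1 / 4 : ℝ) ≤ C * C₁ * t := by gcongr
      _ = c₂ * c₃ / 2 := by rw [ht]; field_simp
  obtain ⟨CF, Y₀, hCF, hfew⟩ := few ε₀ hε0
  -- eventual conditions in X
  obtain ⟨K₀, hK₀⟩ := exists_pow_lt_of_lt_one (show 0 < δ / 4 by positivity) (by norm_num : (1 / 2 : ℝ) < 1)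
  have hevX := (hlb.and ((asym1 k0 k3 hθ0 hθκ pb).and ((asym2 hθ0 hθκ (show 0 < δ / 4 by positivity)).and
    ((asym3 k0 k3 hc₃ (show 0 < δ / 4 by positivity)).and (((K_tendsto k0).eventually_ge_atTop (K₀ + 2)).and
      ((eventually_ge_atTop (X₁ + 3)).and (log_tendsto.eventually_ge_atTop (1 : ℝ))))))))
  obtain ⟨X₂, hX₂⟩ := eventually_atTop.1 hevX
  -- eventual conditions in r
  have e1 : ∀ᶠ r : ℕ in atTop, CF * (Real.log r + 1) ≤ Real.log r ^ a := by
    filter_upwards [ev_rpow_rpow (2 * CF) (a := 1) (b := a) a3, log_tendsto.eventually_ge_atTop 1] with r h1 h2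
    rw [Real.rpow_one] at h1
    nlinarith
  have e2 : ∀ᶠ r : ℕ in atTop, CF * (Real.log r ^ (-A) * Real.log r ^ a) ≤ 1 := by
    filter_upwards [ev_rpow_rpow CF (a := a - A) (b := 0) (by linarith), log_tendsto.eventually_ge_atTop 1] with r h1 h2
    rw [Real.rpow_zero] at h1
    rw [← Real.rpow_add (by linarith)]
    have : -A + a = a - A := by ring
    rw [this]
    exact h1
  have e3 : ∀ᶠ r : ℕ in atTop, Real.log r ^ (-A) * (Real.log r + Real.log (0 + 3)) ≤ c := by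
    filter_upwards [ev_rpow_rpow (3 / c) (a := 1 - A) (b := 0) (by linarith), log_tendsto.eventually_ge_atTop 1] with r h1 h2
    rw [Real.rpow_zero] at h1
    have h3 : Real.log (0 + 3) ≤ 2 := by
      rw [zero_add]
      exact (Real.log_le_sub_one_of_pos (by norm_num)).trans (by norm_num)
    have h4 : Real.log r ^ (-A) * (Real.log r + Real.log (0 + 3)) ≤ Real.log r ^ (-A) * (3 * Real.log r) := by
      have : 0 < Real.log r ^ (-A) := Real.rpow_pos_of_pos (by linarith) _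
      gcongr
      linarith
    have h5 : Real.log r ^ (-A) * (3 * Real.log r) = 3 * Real.log r ^ (1 - A) := by
      have : Real.log r ^ (1 - A) = Real.log r ^ (-A) * Real.log r := by
        nth_rewrite 3 [← Real.rpow_one (Real.log r)]
        rw [← Real.rpow_add (by linarith)]; ring_nf
      rw [this]; ring
    rw [h5] at h4
    refine h4.trans ?_
    rw [div_mul_eq_mul_div, div_le_one hc] at h1
    exact h1
  have e4 : ∀ᶠ r : ℕ in atTop, max Y₀ (2 * ((X₂ : ℝ) + 1)) ≤ Real.log r ^ a :=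
    ((tendsto_rpow_atTop a0).comp log_tendsto).eventually_ge_atTop _
  have e5 := log_tendsto.eventually_ge_atTop (1 : ℝ)
  obtain ⟨R, hR⟩ := eventually_atTop.1 (e1.and (e2.and (e3.and (e4.and (e5.and (eventually_ge_atTop 3))))))
  obtain ⟨r, hr0, hrR, χ, hχp, β, hβ0, hβ⟩ := hbad R
  obtain ⟨r1, r2, r3, r4, r5, r6⟩ := hR r hrR
  have hχ : χ ≠ 1 := prim_ne_one (by omega) hχp
  set ρ := Real.log r with hρ
  have hρ0 : 0 < ρ := by linarith
  have hβlt : β < 1 := by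
    by_contra hge
    push Not at hge
    exact DirichletCharacter.LFunction_ne_zero_of_one_le_re χ (Or.inl hχ) (by simpa using hge) hβ0
  have hlq : lq r (β : ℂ).im ≤ ρ + Real.log (0 + 3) := by
    apply lq_le le_rfl
    simp
  have hχ2 : χ ^ 2 = 1 := by
    refine (hzr r χ hχ β hβ0 ?_).1
    have h1 := lq_pos (f := r) (s := (β : ℂ).im)
    have h2 : ρ ^ (-A) ≤ c / lq r (β : ℂ).im := by
      rw [le_div_iff₀ h1]
      refine le_trans ?_ r3
      have : 0 < ρ ^ (-A) := Real.rpow_pos_of_pos hρ0 _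
      gcongr
    rw [Complex.ofReal_re]
    linarith
  set Y := ρ ^ a with hY
  have hY0 : 0 < Y := Real.rpow_pos_of_pos hρ0 _
  obtain ⟨X, hX1, hX2, hX3⟩ := hfew r χ hχ2 hχ β Y ((le_max_left _ _).trans r4) hβ0 hβlt (by
    refine le_trans ?_ r2
    have : 1 - β ≤ ρ ^ (-A) := by linarith
    gcongr) r1
  have hLX : (X₂ : ℝ) + 1 ≤ Real.log X := by
    have := (le_max_right _ _).trans r4
    linarith
  have hX₂X : X₂ ≤ X := by
    have h1 : 0 < Real.log X := by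
      have : (0 : ℝ) ≤ X₂ := by positivity
      linarith
    have hX0 : (0 : ℝ) < X := by
      rcases Nat.eq_zero_or_pos X with h | h
      · rw [h] at h1; simp at h1
      · exact_mod_cast h
    have h2 := Real.add_one_le_exp (Real.log X)
    rw [Real.exp_log hX0] at h2
    have : (X₂ : ℝ) ≤ X := by linarith
    exact_mod_cast this
  obtain ⟨x1, x2, x3, x4, x5, x6, x7⟩ := hX₂ X hX₂X
  set K := ⌊Real.log X ^ κ'⌋₊ with hK
  have hL0 : 0 < Real.log X := by linarith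
  have hr : (r : ℝ) ≤ Real.exp (2 * Real.log X ^ θ) := by
    have hr0 : (0 : ℝ) < r := by positivity
    rw [← Real.log_le_iff_le_exp hr0]
    have h1 : Y ≤ 2 * Real.log X := by linarith
    have h2 : ρ = Y ^ θ := by
      rw [hY, hθ, ← Real.rpow_mul hρ0.le, mul_one_div_cancel a0.ne', Real.rpow_one]
    have h3 : Y ^ θ ≤ (2 * Real.log X) ^ θ := by gcongr
    have h4 : (2 * Real.log X) ^ θ = 2 ^ θ * Real.log X ^ θ := Real.mul_rpow (by norm_num) hL0.le
    have h5 : (2 : ℝ) ^ θ ≤ 2 := by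
      calc (2 : ℝ) ^ θ ≤ 2 ^ (1 : ℝ) := Real.rpow_le_rpow_of_exponent_le (by norm_num) hθ1
        _ = 2 := Real.rpow_one _
    have h6 : 0 < Real.log X ^ θ := Real.rpow_pos_of_pos hL0 _
    calc Real.log r = Y ^ θ := h2
      _ ≤ 2 ^ θ * Real.log X ^ θ := by rw [← h4]; exact h3
      _ ≤ 2 * Real.log X ^ θ := by gcongr
  have hfin := nec_core coin hc₂ hc₃ hC₁ hC hε0 hε1 hsmall hslow hpadm
    (fun X K ε P h1 h2 h3 h4 => hfm X K ε P h1 h2 h3 h4) χ hχ2 hχ X K (by omega) (by omega) (by omega) (x2 r hr) hX3 x1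
  have y1 := x3 r hr
  have y2 : (1 / 2 : ℝ) ^ K ≤ δ / 4 := by
    calc (1 / 2 : ℝ) ^ K ≤ (1 / 2) ^ K₀ := pow_le_pow_of_le_one (by norm_num) (by norm_num) (by omega)
      _ ≤ δ / 4 := hK₀.le
  linarith

end Pool.Agent.Q145.SZ
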