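import Pool.Agent.Q145.SZ.Stm2
import Pool.Agent.W66.PF

/-!
# Project SZ, job SHARP: from smoothed sums in short windows to sharp cut-offs
-/

set_option autoImplicit false

namespace Pool.Agent.Q145.SZ

open Finset Filter Complex MeasureTheory
open scoped Real FourierTransform
open Pool.Agent.W66 Pool.Agent.W66L
open Pool.Agent.H807R2.Dav (ee)

namespace SHx

lemma ee_lip (x y : ℝ) : ‖ee x - ee y‖ ≤ 2 * π * |x - y| := by
  have h1 : ee x - ee y = -(ee y * (1 - ee (x - y))) := by
    have : ee x = ee y * ee (x - y) := by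
      rw [← Pool.Agent.H807R2.Dav.ee_add]; congr 1; ring
    rw [this]; ring
  rw [h1, norm_neg, norm_mul, Pool.Agent.H807R2.Dav.norm_ee, one_mul]
  exact Pool.Agent.H807R2.Dav.dd_le (x - y)

lemma ee_cont : Continuous ee := by
  unfold Pool.Agent.H807R2.Dav.ee
  fun_prop

lemma tri_cont_c (h c : ℝ) : Continuous fun z : ℝ => tri h (z - c) :=
  (tri_continuous h).comp (by fun_prop)

lemma int_tri_le {h : ℝ} (hh : 0 < h) (a b c : ℝ) (hab : a ≤ b) :
    ∫ z in a..b, tri h (z - c) ≤ 1 := by
  rw [intervalIntegral.integral_of_le hab]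
  have h1 : ∫ z, tri h (z - c) = 1 := by
    rw [integral_sub_right_eq_self (fun z => tri h z) c, integral_tri hh]
  rw [← h1]
  exact setIntegral_le_integral ((tri_integrable hh).comp_sub_right c)
    (Eventually.of_forall fun z => tri_nonneg hh _)

lemma int_tri_eq {h : ℝ} (hh : 0 < h) (a b c : ℝ) (h1 : a + h ≤ c) (h2 : c + h ≤ b) :
    ∫ z in a..b, tri h (z - c) = 1 := by
  have h3 : ∫ z, tri h (z - c) = 1 := by
    rw [integral_sub_right_eq_self (fun z => tri h z) c, integral_tri hh]
  rw [← h3]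
  apply intervalIntegral.integral_eq_integral_of_support_subset
  intro z hz
  rw [Function.mem_support] at hz
  have h4 : |z - c| < h := by
    by_contra hcon
    exact hz (tri_zero_of hh (not_lt.mp hcon))
  rw [abs_lt] at h4
  exact ⟨by linarith, by linarith⟩

/-- the kernel -/
noncomputable def ker (h a b β : ℝ) (m : ℕ) : ℂ :=
  ∫ z in a..b, ((Real.exp z / m : ℝ) : ℂ) * ee (Real.exp z * β) * triC h (z - Real.log m)

lemma ker_cont (h β : ℝ) (m : ℕ) : Continuous fun z : ℝ =>
    ((Real.exp z / m : ℝ) : ℂ) * ee (Real.exp z * β) * triC h (z - Real.log m) := by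
  have h1 : Continuous fun z : ℝ => ((Real.exp z / m : ℝ) : ℂ) :=
    Complex.continuous_ofReal.comp (by fun_prop)
  have h2 : Continuous fun z : ℝ => ee (Real.exp z * β) := ee_cont.comp (by fun_prop)
  have h3 : Continuous fun z : ℝ => triC h (z - Real.log m) :=
    (triC_continuous h).comp (by fun_prop)
  exact (h1.mul h2).mul h3

lemma exp_ratio {z : ℝ} {m : ℕ} (hm : 1 ≤ m) :
    Real.exp z / m = Real.exp (z - Real.log m) := by
  rw [Real.exp_sub, Real.exp_log (by exact_mod_cast hm)]

/-- the trivial bound for the kernel -/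
lemma ker_le {h : ℝ} (hh : 0 < h) (hh4 : h ≤ 1 / 4) (a b β : ℝ) (hab : a ≤ b) {m : ℕ}
    (hm : 1 ≤ m) : ‖ker h a b β m‖ ≤ 2 := by
  unfold ker
  have h1 : ‖∫ z in a..b, ((Real.exp z / m : ℝ) : ℂ) * ee (Real.exp z * β) *
      triC h (z - Real.log m)‖ ≤ ∫ z in a..b, 2 * tri h (z - Real.log m) := by
    apply intervalIntegral.norm_integral_le_of_norm_le hab
    · refine Eventually.of_forall fun z _ => ?_
      rw [norm_mul, norm_mul, Pool.Agent.H807R2.Dav.norm_ee, mul_one, Complex.norm_real,
        Real.norm_of_nonneg (by positivity)]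
      unfold triC
      rw [Complex.norm_real, Real.norm_of_nonneg (tri_nonneg hh _)]
      rcases lt_or_ge |z - Real.log m| h with h2 | h2
      · apply mul_le_mul_of_nonneg_right _ (tri_nonneg hh _)
        rw [exp_ratio hm]
        have h3 := Real.abs_exp_sub_one_le (x := z - Real.log m) (by linarith)
        have h4 := (abs_le.mp h3).2
        linarith
      · rw [tri_zero_of hh h2]; simp
    · exact (continuous_const.mul (tri_cont_c h _)).intervalIntegrable _ _
  refine h1.trans ?_
  rw [intervalIntegral.integral_const_mul]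
  have := int_tri_le hh a b (Real.log m) hab
  linarith

/-- the kernel vanishes far away -/
lemma ker_zero {h : ℝ} (hh : 0 < h) (a b β : ℝ) (hab : a ≤ b) {m : ℕ}
    (hm : Real.log m ≤ a - h ∨ b + h ≤ Real.log m) : ker h a b β m = 0 := by
  unfold ker
  rw [intervalIntegral.integral_of_le hab]
  apply setIntegral_eq_zero_of_forall_eq_zero
  intro z hz
  have h1 : h ≤ |z - Real.log m| := by
    rcases hm with hm | hm
    · exact le_trans (by linarith [hz.1]) (le_abs_self _)
    · exact le_trans (by linarith [hz.2]) (neg_le_abs _)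
  unfold triC
  rw [tri_zero_of hh h1]
  simp

/-- the kernel inside -/
lemma ker_in {h : ℝ} (hh : 0 < h) (hh4 : h ≤ 1 / 4) (a b β : ℝ) {m : ℕ}
    (hm : 1 ≤ m) (h1 : a + h ≤ Real.log m) (h2 : Real.log m + h ≤ b) :
    ‖ker h a b β m - ee (m * β)‖ ≤ 2 * h * (1 + 2 * π * (m * |β|)) := by
  have hab : a ≤ b := by linarith
  have hm0 : (0 : ℝ) < m := by exact_mod_cast hm
  have e1 : ee (m * β) = ∫ z in a..b, ee (m * β) * triC h (z - Real.log m) := by
    rw [intervalIntegral.integral_const_mul]
    have : ∫ z in a..b, triC h (z - Real.log m) = ((∫ z in a..b, tri h (z - Real.log m) : ℝ) : ℂ) := by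
      rw [← intervalIntegral.integral_ofReal]
      rfl
    rw [this, int_tri_eq hh a b _ h1 h2]
    simp
  have hc2 : Continuous fun z : ℝ => ee (m * β) * triC h (z - Real.log m) :=
    continuous_const.mul ((triC_continuous h).comp (by fun_prop))
  have e2 : ker h a b β m - ee (m * β) = ∫ z in a..b,
      (((Real.exp z / m : ℝ) : ℂ) * ee (Real.exp z * β) - ee (m * β)) * triC h (z - Real.log m) := by
    conv_lhs => rw [e1]
    unfold ker
    rw [← intervalIntegral.integral_sub ((ker_cont h β m).intervalIntegrable _ _)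
      (hc2.intervalIntegrable _ _)]
    congr 1
    ext z
    ring
  rw [e2]
  have h3 : ‖∫ z in a..b, (((Real.exp z / m : ℝ) : ℂ) * ee (Real.exp z * β) - ee (m * β)) *
      triC h (z - Real.log m)‖ ≤
      ∫ z in a..b, (2 * h * (1 + 2 * π * (m * |β|))) * tri h (z - Real.log m) := by
    apply intervalIntegral.norm_integral_le_of_norm_le hab
    · refine Eventually.of_forall fun z _ => ?_
      rw [norm_mul]
      unfold triC
      rw [Complex.norm_real, Real.norm_of_nonneg (tri_nonneg hh _)]
      rcases lt_or_ge |z - Real.log m| h with h4 | h4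
      · apply mul_le_mul_of_nonneg_right _ (tri_nonneg hh _)
        have h5 := Real.abs_exp_sub_one_le (x := z - Real.log m) (by linarith)
        rw [← exp_ratio hm] at h5
        have h6 : |Real.exp z / m - 1| ≤ 2 * h := h5.trans (by linarith)
        have e3 : ((Real.exp z / m : ℝ) : ℂ) * ee (Real.exp z * β) - ee (m * β) =
            ((Real.exp z / m - 1 : ℝ) : ℂ) * ee (Real.exp z * β) +
              (ee (Real.exp z * β) - ee (m * β)) := by push_cast; ring
        rw [e3]
        refine (norm_add_le _ _).trans ?_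
        rw [norm_mul, Pool.Agent.H807R2.Dav.norm_ee, mul_one, Complex.norm_real, Real.norm_eq_abs]
        have h7 := ee_lip (Real.exp z * β) (m * β)
        have h8 : |Real.exp z * β - m * β| ≤ 2 * h * (m * |β|) := by
          have : Real.exp z * β - m * β = (Real.exp z / m - 1) * (m * β) := by
            field_simp
          rw [this, abs_mul, abs_mul, abs_of_pos hm0]
          exact mul_le_mul_of_nonneg_right h6 (by positivity)
        have h9 : 2 * π * |Real.exp z * β - m * β| ≤ 2 * π * (2 * h * (m * |β|)) :=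
          mul_le_mul_of_nonneg_left h8 (by positivity)
        calc |Real.exp z / m - 1| + ‖ee (Real.exp z * β) - ee (m * β)‖
            ≤ 2 * h + 2 * π * (2 * h * (m * |β|)) := add_le_add h6 (h7.trans h9)
          _ = 2 * h * (1 + 2 * π * (m * |β|)) := by ring
      · rw [tri_zero_of hh h4]; simp
    · exact (continuous_const.mul (tri_cont_c h _)).intervalIntegrable _ _
  refine h3.trans (le_of_eq ?_)
  rw [intervalIntegral.integral_const_mul, int_tri_eq hh a b _ h1 h2, mul_one]

/-- the number of integers with logarithm close to `log n` -/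
lemma count_near {h : ℝ} (hh : 0 < h) (hh4 : h ≤ 1 / 4) (n N : ℕ) (hn : 1 ≤ n) :
    (((Ioc 0 N).filter fun m : ℕ => |Real.log m - Real.log n| < h).card : ℝ) ≤ 4 * h * n + 1 := by
  have hn0 : (0 : ℝ) < n := by exact_mod_cast hn
  have hsub : (Ioc 0 N).filter (fun m : ℕ => |Real.log m - Real.log n| < h) ⊆
      Ioc ⌊(n : ℝ) * Real.exp (-h)⌋₊ ⌊(n : ℝ) * Real.exp h⌋₊ := by
    intro m hm
    rw [mem_filter, mem_Ioc] at hm
    obtain ⟨⟨hm0, _⟩, h1⟩ := hm
    have hm1 : (0 : ℝ) < m := by exact_mod_cast hm0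
    rw [abs_lt] at h1
    rw [mem_Ioc]
    constructor
    · rw [Nat.floor_lt (by positivity)]
      have : Real.log (n * Real.exp (-h)) < Real.log m := by
        rw [Real.log_mul hn0.ne' (Real.exp_pos _).ne', Real.log_exp]
        linarith
      exact (Real.log_lt_log_iff (by positivity) hm1).mp this
    · apply Nat.le_floor
      have : Real.log m < Real.log (n * Real.exp h) := by
        rw [Real.log_mul hn0.ne' (Real.exp_pos _).ne', Real.log_exp]
        linarith
      exact ((Real.log_lt_log_iff hm1 (by positivity)).mp this).le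
  have h1 := card_le_card hsub
  rw [Nat.card_Ioc] at h1
  have hle : ⌊(n : ℝ) * Real.exp (-h)⌋₊ ≤ ⌊(n : ℝ) * Real.exp h⌋₊ := by
    apply Nat.floor_le_floor
    apply mul_le_mul_of_nonneg_left _ hn0.le
    exact Real.exp_le_exp.mpr (by linarith)
  have h2 : ((⌊(n : ℝ) * Real.exp h⌋₊ - ⌊(n : ℝ) * Real.exp (-h)⌋₊ : ℕ) : ℝ) ≤
      n * Real.exp h - n * Real.exp (-h) + 1 := by
    rw [Nat.cast_sub hle]
    have h3 := Nat.floor_le (show 0 ≤ (n : ℝ) * Real.exp h by positivity)
    have h4 := Nat.lt_floor_add_one ((n : ℝ) * Real.exp (-h))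
    linarith
  have h5 : Real.exp h ≤ 1 + 2 * h := by
    have := (abs_le.mp (Real.abs_exp_sub_one_le (x := h) (by rw [abs_of_pos hh]; linarith))).2
    rw [abs_of_pos hh] at this
    linarith
  have h6 : 1 - h ≤ Real.exp (-h) := by
    have := Real.add_one_le_exp (-h)
    linarith
  have h7 : (n : ℝ) * Real.exp h - n * Real.exp (-h) ≤ 4 * h * n := by
    nlinarith
  have h8 : (((Ioc 0 N).filter fun m : ℕ => |Real.log m - Real.log n| < h).card : ℝ) ≤
      ((⌊(n : ℝ) * Real.exp h⌋₊ - ⌊(n : ℝ) * Real.exp (-h)⌋₊ : ℕ) : ℝ) := by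
    exact_mod_cast h1
  linarith

/-- the integral of the smoothed function -/
noncomputable def GG {f : ℕ} (χ : DirichletCharacter ℂ f) (κ : ℂ) (h : ℝ) (N : ℕ) (a b β : ℝ) : ℂ :=
  ∫ z in a..b, ((Real.exp z : ℝ) : ℂ) * ee (Real.exp z * β) * (TX χ h N z - κ)

lemma GG_eq {f : ℕ} (χ : DirichletCharacter ℂ f) (κ : ℂ) (h : ℝ) (N : ℕ) (a b β : ℝ) :
    GG χ κ h N a b β = ∑ m ∈ Ioc 0 N,
      ((ArithmeticFunction.vonMangoldt m : ℝ) : ℂ) * χ m * ker h a b β m -
      κ * ∫ z in a..b, ((Real.exp z : ℝ) : ℂ) * ee (Real.exp z * β) := by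
  have hc0 : Continuous fun z : ℝ => ((Real.exp z : ℝ) : ℂ) * ee (Real.exp z * β) :=
    (Complex.continuous_ofReal.comp (by fun_prop)).mul (ee_cont.comp (by fun_prop))
  have hcA : Continuous fun z : ℝ => ((Real.exp z : ℝ) : ℂ) * ee (Real.exp z * β) * TX χ h N z :=
    hc0.mul (TX_continuous χ h N)
  have hcB : Continuous fun z : ℝ => ((Real.exp z : ℝ) : ℂ) * ee (Real.exp z * β) * κ :=
    hc0.mul continuous_const
  unfold GG
  simp_rw [mul_sub]
  rw [intervalIntegral.integral_sub (hcA.intervalIntegrable _ _)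
    (hcB.intervalIntegrable _ _), intervalIntegral.integral_mul_const]
  congr 1
  · have h1 : ∀ z : ℝ, ((Real.exp z : ℝ) : ℂ) * ee (Real.exp z * β) * TX χ h N z =
        ∑ m ∈ Ioc 0 N, ((ArithmeticFunction.vonMangoldt m : ℝ) : ℂ) * χ m *
          (((Real.exp z / m : ℝ) : ℂ) * ee (Real.exp z * β) * triC h (z - Real.log m)) := by
      intro z
      unfold TX
      rw [mul_sum]
      refine sum_congr rfl fun m hm => ?_
      push_cast
      ring
    simp_rw [h1]
    rw [intervalIntegral.integral_finsetSum]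
    · refine sum_congr rfl fun m _ => ?_
      rw [intervalIntegral.integral_const_mul]
      rfl
    · intro m _
      exact (continuous_const.mul (ker_cont h β m)).intervalIntegrable _ _
  · ring

/-- comparison of the integral and the sum of `ee (u β)` -/
lemma int_sum (n n' : ℕ) (hn : 1 ≤ n) (hnn : n ≤ n') (β : ℝ) :
    ‖(∫ z in (Real.log n)..(Real.log n'), ((Real.exp z : ℝ) : ℂ) * ee (Real.exp z * β)) -
      ∑ u ∈ Ioc n n', ee (u * β)‖ ≤ 2 * π * |β| * ((n' : ℝ) - n) := by
  have hn0 : (0 : ℝ) < n := by exact_mod_cast hn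
  have hn0' : (0 : ℝ) < n' := by exact_mod_cast (by omega : 0 < n')
  have hsub : (∫ z in (Real.log n)..(Real.log n'), ((Real.exp z : ℝ) : ℂ) * ee (Real.exp z * β)) =
      ∫ y in (n : ℝ)..n', ee (y * β) := by
    have h1 := intervalIntegral.integral_deriv_smul_comp' (a := Real.log n) (b := Real.log n')
      (f := Real.exp) (f' := Real.exp) (g := fun y : ℝ => ee (y * β))
      (fun x _ => Real.hasDerivAt_exp x) Real.continuous_exp.continuousOn
      ((ee_cont.comp (by fun_prop : Continuous fun y : ℝ => y * β)).continuousOn)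
    rw [Real.exp_log hn0, Real.exp_log hn0'] at h1
    rw [← h1]
    congr 1
  rw [hsub]
  clear hsub
  induction n', hnn using Nat.le_induction with
  | base => simp
  | succ m hm ih =>
    have hm0 : (0 : ℝ) < m := by
      have : 0 < m := by omega
      exact_mod_cast this
    have ih' := ih hm0
    have hI : Ioc n (m + 1) = insert (m + 1) (Ioc n m) := by
      ext u; simp only [mem_Ioc, mem_insert]; omega
    have hcont : Continuous fun y : ℝ => ee (y * β) := ee_cont.comp (by fun_prop)
    rw [hI, sum_insert (by simp), ← intervalIntegral.integral_add_adjacent_intervals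
      (hcont.intervalIntegrable (n : ℝ) m) (hcont.intervalIntegrable _ _)]
    have h2 : ‖(∫ y in (m : ℝ)..((m + 1 : ℕ) : ℝ), ee (y * β)) - ee (((m + 1 : ℕ) : ℝ) * β)‖ ≤
        2 * π * |β| := by
      have h3 : ee (((m + 1 : ℕ) : ℝ) * β) = ∫ _y in (m : ℝ)..((m + 1 : ℕ) : ℝ), ee (((m + 1 : ℕ) : ℝ) * β) := by
        rw [intervalIntegral.integral_const]
        push_cast
        rw [add_sub_cancel_left, one_smul]
      rw [h3, ← intervalIntegral.integral_sub (hcont.intervalIntegrable _ _)
        (continuous_const.intervalIntegrable _ _)]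
      have h4 : ‖∫ y in (m : ℝ)..((m + 1 : ℕ) : ℝ), (ee (y * β) - ee (((m + 1 : ℕ) : ℝ) * β))‖ ≤
          2 * π * |β| * |((m + 1 : ℕ) : ℝ) - m| := by
        apply intervalIntegral.norm_integral_le_of_norm_le_const
        intro y hy
        rw [Set.uIoc_of_le (by push_cast; linarith)] at hy
        refine (ee_lip _ _).trans ?_
        rw [← sub_mul, abs_mul]
        have h5 : |y - ((m + 1 : ℕ) : ℝ)| ≤ 1 := by
          have := hy.1
          have := hy.2
          push_cast at *
          rw [abs_le]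
          constructor <;> linarith
        calc 2 * π * (|y - ((m + 1 : ℕ) : ℝ)| * |β|) ≤ 2 * π * (1 * |β|) := by gcongr
          _ = 2 * π * |β| := by ring
      refine h4.trans (le_of_eq ?_)
      push_cast
      rw [add_sub_cancel_left, abs_one, mul_one]
    have h6 : (∫ y in (n : ℝ)..m, ee (y * β)) + (∫ y in (m : ℝ)..((m + 1 : ℕ) : ℝ), ee (y * β)) -
        (ee (((m + 1 : ℕ) : ℝ) * β) + ∑ u ∈ Ioc n m, ee (u * β)) =
        ((∫ y in (n : ℝ)..m, ee (y * β)) - ∑ u ∈ Ioc n m, ee (u * β)) +
        ((∫ y in (m : ℝ)..((m + 1 : ℕ) : ℝ), ee (y * β)) - ee (((m + 1 : ℕ) : ℝ) * β)) := by ring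
    rw [h6]
    refine (norm_add_le _ _).trans ?_
    calc _ ≤ 2 * π * |β| * ((m : ℝ) - n) + 2 * π * |β| := add_le_add ih' h2
      _ = _ := by push_cast; ring

/-- the sharp sum against the integral of the smoothed one -/
lemma sharp_smooth {f : ℕ} (χ : DirichletCharacter ℂ f) (κ : ℂ) (X n n' N : ℕ) (β h : ℝ)
    (hκ : ‖κ‖ ≤ 1) (hX : 3 ≤ X) (hn : X ≤ n) (hnn : n ≤ n') (hn' : n' ≤ 3 * X) (hh : 0 < h)
    (hh4 : h ≤ 1 / 4) (hhX : 1 ≤ h * X) (hN : Real.exp (Real.log X + 4) ≤ N) :
    ‖∑ u ∈ Ioc n n', (((ArithmeticFunction.vonMangoldt u : ℝ) : ℂ) * χ u - κ) * ee (u * β) -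
      GG χ κ h N (Real.log n) (Real.log n') β‖ ≤ 500 * (h * X * (1 + X * |β|) * Real.log X) := by
  classical
  have hX0 : (0 : ℝ) < X := by positivity
  have hX3 : (3 : ℝ) ≤ X := by exact_mod_cast hX
  have hn1 : 1 ≤ n := by omega
  have hn0 : (0 : ℝ) < n := by exact_mod_cast hn1
  have hn0' : (0 : ℝ) < n' := by exact_mod_cast (by omega : 0 < n')
  have hlogX : 1 ≤ Real.log X := by
    rw [Real.le_log_iff_exp_le hX0]
    exact (Real.exp_one_lt_d9.le.trans (by norm_num)).trans hX3
  have hlog3 : Real.log 3 ≤ Real.log X := Real.log_le_log (by norm_num) hX3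
  have hlog4 : Real.log 4 ≤ 2 * Real.log X := by
    have : Real.log 4 ≤ Real.log (3 ^ 2) := Real.log_le_log (by norm_num) (by norm_num)
    rw [Real.log_pow] at this
    push_cast at this
    linarith
  set a := Real.log n with ha
  set b := Real.log n' with hb
  have hab : a ≤ b := Real.log_le_log hn0 (by exact_mod_cast hnn)
  have hn'3 : (n' : ℝ) ≤ 3 * X := by exact_mod_cast hn'
  have hnX : (X : ℝ) ≤ n := by exact_mod_cast hn
  have hn'N : n' ≤ N := by
    have h1 : (n' : ℝ) ≤ N := by
      refine hn'3.trans (le_trans ?_ hN)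
      rw [Real.exp_add, Real.exp_log hX0]
      have : (5 : ℝ) ≤ Real.exp 4 := by
        have := Real.add_one_le_exp (4 : ℝ)
        linarith
      nlinarith
    exact_mod_cast h1
  -- the difference
  have hLam : ∑ u ∈ Ioc n n', (((ArithmeticFunction.vonMangoldt u : ℝ) : ℂ) * χ u - κ) * ee (u * β) =
      ∑ m ∈ Ioc 0 N, ((ArithmeticFunction.vonMangoldt m : ℝ) : ℂ) * χ m *
        (if m ∈ Ioc n n' then ee (m * β) else 0) - κ * ∑ u ∈ Ioc n n', ee (u * β) := by
    have h1 : ∑ m ∈ Ioc 0 N, ((ArithmeticFunction.vonMangoldt m : ℝ) : ℂ) * χ m *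
        (if m ∈ Ioc n n' then ee (m * β) else 0) =
        ∑ m ∈ Ioc n n', ((ArithmeticFunction.vonMangoldt m : ℝ) : ℂ) * χ m * ee (m * β) := by
      simp_rw [mul_ite, mul_zero]
      rw [← sum_filter]
      congr 1
      ext m
      simp only [mem_filter, mem_Ioc]
      omega
    rw [h1, mul_sum, ← sum_sub_distrib]
    refine sum_congr rfl fun u _ => by ring
  rw [hLam, GG_eq]
  have hsplit : ∑ m ∈ Ioc 0 N, ((ArithmeticFunction.vonMangoldt m : ℝ) : ℂ) * χ m *
        (if m ∈ Ioc n n' then ee (m * β) else 0) - κ * ∑ u ∈ Ioc n n', ee (u * β) -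
      (∑ m ∈ Ioc 0 N, ((ArithmeticFunction.vonMangoldt m : ℝ) : ℂ) * χ m * ker h a b β m -
        κ * ∫ z in a..b, ((Real.exp z : ℝ) : ℂ) * ee (Real.exp z * β)) =
      ∑ m ∈ Ioc 0 N, ((ArithmeticFunction.vonMangoldt m : ℝ) : ℂ) * χ m *
        ((if m ∈ Ioc n n' then ee (m * β) else 0) - ker h a b β m) +
      κ * ((∫ z in a..b, ((Real.exp z : ℝ) : ℂ) * ee (Real.exp z * β)) -
        ∑ u ∈ Ioc n n', ee (u * β)) := by
    simp_rw [mul_sub, sum_sub_distrib]
    ring
  rw [hsplit]
  refine (norm_add_le _ _).trans ?_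
  have hβ : 0 ≤ |β| := abs_nonneg β
  set T := h * X * (1 + X * |β|) * Real.log X with hT
  have hhX0 : 0 < h * X := by positivity
  have hT1 : h * X * Real.log X ≤ T := by
    rw [hT]
    have : 1 ≤ 1 + X * |β| := by
      have : 0 ≤ X * |β| := by positivity
      linarith
    have h2 : h * X * 1 ≤ h * X * (1 + X * |β|) := mul_le_mul_of_nonneg_left this hhX0.le
    calc h * X * Real.log X = h * X * 1 * Real.log X := by ring
      _ ≤ h * X * (1 + X * |β|) * Real.log X := mul_le_mul_of_nonneg_right h2 (by linarith)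
  -- second part
  have hpart2 : ‖κ * ((∫ z in a..b, ((Real.exp z : ℝ) : ℂ) * ee (Real.exp z * β)) -
        ∑ u ∈ Ioc n n', ee (u * β))‖ ≤ 20 * T := by
    rw [norm_mul]
    have h1 := int_sum n n' hn1 hnn β
    rw [← ha, ← hb] at h1
    have h2 : (n' : ℝ) - n ≤ 2 * X := by linarith
    have h3 : 2 * π * |β| * ((n' : ℝ) - n) ≤ 20 * T := by
      have h4 : 2 * π * |β| * ((n' : ℝ) - n) ≤ 2 * π * |β| * (2 * X) :=
        mul_le_mul_of_nonneg_left h2 (by positivity)
      have h5 : X * |β| ≤ T := by
        rw [hT]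
        have h6 : X * |β| ≤ 1 + X * |β| := by linarith
        have h7 : 1 * (1 + X * |β|) * 1 ≤ h * X * (1 + X * |β|) * Real.log X := by
          apply mul_le_mul _ hlogX zero_le_one (by positivity)
          exact mul_le_mul_of_nonneg_right hhX (by positivity)
        linarith
      have hpi : π < 4 := Real.pi_lt_four
      have h8 : 2 * π * |β| * (2 * X) = 4 * π * (X * |β|) := by ring
      have h9 : 4 * π * (X * |β|) ≤ 16 * (X * |β|) := by
        apply mul_le_mul_of_nonneg_right _ (by positivity)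
        linarith
      have h10 : 0 ≤ T := by positivity
      linarith
    calc ‖κ‖ * ‖(∫ z in a..b, ((Real.exp z : ℝ) : ℂ) * ee (Real.exp z * β)) -
        ∑ u ∈ Ioc n n', ee (u * β)‖ ≤ 1 * (2 * π * |β| * ((n' : ℝ) - n)) :=
          mul_le_mul hκ h1 (norm_nonneg _) zero_le_one
      _ ≤ 20 * T := by rw [one_mul]; exact h3
  -- first part
  have hpart1 : ‖∑ m ∈ Ioc 0 N, ((ArithmeticFunction.vonMangoldt m : ℝ) : ℂ) * χ m *
        ((if m ∈ Ioc n n' then ee (m * β) else 0) - ker h a b β m)‖ ≤ 480 * T := by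
    refine (norm_sum_le _ _).trans ?_
    set NB : ℕ → Prop := fun m => |Real.log m - a| < h ∨ |Real.log m - b| < h with hNB
    have hΛ : ∀ m : ℕ, 1 ≤ m → (m : ℝ) ≤ 4 * X →
        ArithmeticFunction.vonMangoldt m ≤ 3 * Real.log X := by
      intro m hm hm4
      refine ArithmeticFunction.vonMangoldt_le_log.trans ?_
      have : Real.log m ≤ Real.log (4 * X) :=
        Real.log_le_log (by exact_mod_cast hm) hm4
      rw [Real.log_mul (by norm_num) hX0.ne'] at this
      linarith
    have hterm : ∀ m ∈ Ioc 0 N, ‖((ArithmeticFunction.vonMangoldt m : ℝ) : ℂ) * χ m *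
        ((if m ∈ Ioc n n' then ee (m * β) else 0) - ker h a b β m)‖ ≤
        (if NB m then 9 * Real.log X else 0) +
        (if m ∈ Ioc n n' then 3 * Real.log X * (2 * h * (1 + 2 * π * (3 * (X * |β|)))) else 0) := by
      intro m hm
      rw [mem_Ioc] at hm
      have hm1 : 1 ≤ m := hm.1
      have hm0 : (0 : ℝ) < m := by exact_mod_cast hm1
      rw [norm_mul, norm_mul, Complex.norm_real,
        Real.norm_of_nonneg ArithmeticFunction.vonMangoldt_nonneg]
      have hχ : ‖χ m‖ ≤ 1 := χ.norm_le_one _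
      have hsec : 0 ≤ (if m ∈ Ioc n n' then 3 * Real.log X *
          (2 * h * (1 + 2 * π * (3 * (X * |β|)))) else 0) := by
        split_ifs <;> positivity
      by_cases hnb : NB m
      · rw [if_pos hnb]
        have hm4 : (m : ℝ) ≤ 4 * X := by
          have h1 : Real.log m ≤ Real.log (n' * Real.exp h) := by
            rw [Real.log_mul hn0'.ne' (Real.exp_pos _).ne', Real.log_exp]
            rcases hnb with h2 | h2
            · have := (abs_lt.mp h2).2
              linarith
            · have := (abs_lt.mp h2).2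
              linarith
          have h3 := (Real.log_le_log_iff hm0 (by positivity)).mp h1
          have h5 : Real.exp h ≤ 4 / 3 := by
            have h6 := Real.exp_bound' hh.le (by linarith : h ≤ 1) (n := 2) (by norm_num)
            norm_num [Finset.sum_range_succ] at h6
            nlinarith
          calc (m : ℝ) ≤ n' * Real.exp h := h3
            _ ≤ (3 * X) * (4 / 3) := by gcongr
            _ = 4 * X := by ring
        have h1 := hΛ m hm1 hm4
        have h2 : ‖(if m ∈ Ioc n n' then ee (m * β) else 0) - ker h a b β m‖ ≤ 3 := by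
          refine (norm_sub_le _ _).trans ?_
          have h3 : ‖(if m ∈ Ioc n n' then ee (m * β) else 0)‖ ≤ 1 := by
            split_ifs
            · rw [Pool.Agent.H807R2.Dav.norm_ee]
            · simp
          have := ker_le hh hh4 a b β hab hm1
          linarith
        have hΛ0 : 0 ≤ ArithmeticFunction.vonMangoldt m := ArithmeticFunction.vonMangoldt_nonneg
        have h5 : ArithmeticFunction.vonMangoldt m * ‖χ m‖ ≤ 3 * Real.log X * 1 :=
          mul_le_mul h1 hχ (norm_nonneg _) (by positivity)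
        have h4 : ArithmeticFunction.vonMangoldt m * ‖χ m‖ *
            ‖(if m ∈ Ioc n n' then ee (m * β) else 0) - ker h a b β m‖ ≤ (3 * Real.log X * 1) * 3 :=
          mul_le_mul h5 h2 (norm_nonneg _) (by positivity)
        linarith
      · rw [if_neg hnb, zero_add]
        have hnb1 : h ≤ |Real.log m - a| := by
          by_contra hcon
          exact hnb (Or.inl (not_le.mp hcon))
        have hnb2 : h ≤ |Real.log m - b| := by
          by_contra hcon
          exact hnb (Or.inr (not_le.mp hcon))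
        by_cases hin : m ∈ Ioc n n'
        · rw [if_pos hin, if_pos hin]
          rw [mem_Ioc] at hin
          have h1 : a ≤ Real.log m := Real.log_le_log hn0 (by exact_mod_cast hin.1.le)
          have h2 : Real.log m ≤ b := Real.log_le_log hm0 (by exact_mod_cast hin.2)
          rw [abs_of_nonneg (by linarith)] at hnb1
          rw [abs_of_nonpos (by linarith)] at hnb2
          have h3 := ker_in hh hh4 a b β hm1 (by linarith) (by linarith)
          rw [norm_sub_rev]
          have hm3 : (m : ℝ) ≤ 3 * X := le_trans (by exact_mod_cast hin.2) hn'3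
          have h4 : 2 * h * (1 + 2 * π * (m * |β|)) ≤ 2 * h * (1 + 2 * π * (3 * (X * |β|))) := by
            have : (m : ℝ) * |β| ≤ 3 * (X * |β|) := by nlinarith
            gcongr
          have h5 := hΛ m hm1 (by linarith)
          have hΛ0 : 0 ≤ ArithmeticFunction.vonMangoldt m := ArithmeticFunction.vonMangoldt_nonneg
          have h6 : ArithmeticFunction.vonMangoldt m * ‖χ m‖ ≤ 3 * Real.log X * 1 :=
            mul_le_mul h5 hχ (norm_nonneg _) (by positivity)
          calc _ ≤ (3 * Real.log X * 1) * (2 * h * (1 + 2 * π * (3 * (X * |β|)))) :=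
                mul_le_mul h6 (h3.trans h4) (norm_nonneg _) (by positivity)
            _ = _ := by ring
        · rw [if_neg hin, if_neg hin]
          have h1 : ker h a b β m = 0 := by
            apply ker_zero hh a b β hab
            rw [mem_Ioc] at hin
            rcases Nat.lt_or_ge n m with h2 | h2
            · right
              have h3 : n' ≤ m := by omega
              have h4 : b ≤ Real.log m := Real.log_le_log hn0' (by exact_mod_cast h3)
              rw [abs_of_nonneg (by linarith)] at hnb2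
              linarith
            · left
              have h4 : Real.log m ≤ a := Real.log_le_log hm0 (by exact_mod_cast h2)
              rw [abs_of_nonpos (by linarith)] at hnb1
              linarith
          rw [h1]
          simp
    refine (sum_le_sum hterm).trans ?_
    rw [sum_add_distrib]
    have hA : ∑ m ∈ Ioc 0 N, (if NB m then 9 * Real.log X else 0) ≤ 252 * T := by
      rw [← sum_filter, sum_const, nsmul_eq_mul]
      have hc : (((Ioc 0 N).filter NB).card : ℝ) ≤ 28 * (h * X) := by
        have h1 : (Ioc 0 N).filter NB ⊆ (Ioc 0 N).filter (fun m : ℕ => |Real.log m - Real.log n| < h) ∪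
            (Ioc 0 N).filter (fun m : ℕ => |Real.log m - Real.log n'| < h) := by
          intro m hm
          rw [mem_filter] at hm
          rw [mem_union, mem_filter, mem_filter]
          rcases hm.2 with h2 | h2
          · exact Or.inl ⟨hm.1, h2⟩
          · exact Or.inr ⟨hm.1, h2⟩
        have h2 := (card_le_card h1).trans (card_union_le _ _)
        have h3 := count_near hh hh4 n N hn1
        have h4 := count_near hh hh4 n' N (by omega)
        have h5 : (((Ioc 0 N).filter NB).card : ℝ) ≤ (4 * h * n + 1) + (4 * h * n' + 1) := by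
          refine le_trans ?_ (add_le_add h3 h4)
          exact_mod_cast h2
        have h6 : h * (n : ℝ) ≤ h * (3 * X) := by
          apply mul_le_mul_of_nonneg_left _ hh.le
          have : (n : ℝ) ≤ n' := by exact_mod_cast hnn
          linarith
        have h7 : h * (n' : ℝ) ≤ h * (3 * X) := mul_le_mul_of_nonneg_left hn'3 hh.le
        nlinarith
      calc (((Ioc 0 N).filter NB).card : ℝ) * (9 * Real.log X) ≤ (28 * (h * X)) * (9 * Real.log X) :=
            mul_le_mul_of_nonneg_right hc (by positivity)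
        _ = 252 * (h * X * Real.log X) := by ring
        _ ≤ 252 * T := by linarith
    have hB : ∑ m ∈ Ioc 0 N, (if m ∈ Ioc n n' then 3 * Real.log X *
        (2 * h * (1 + 2 * π * (3 * (X * |β|)))) else 0) ≤ 228 * T + 0 := by
      have h1 : ∑ m ∈ Ioc 0 N, (if m ∈ Ioc n n' then 3 * Real.log X *
        (2 * h * (1 + 2 * π * (3 * (X * |β|)))) else 0) = ((n' - n : ℕ) : ℝ) *
          (3 * Real.log X * (2 * h * (1 + 2 * π * (3 * (X * |β|))))) := by
        rw [← sum_filter, sum_const, nsmul_eq_mul]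
        congr 2
        rw [← Nat.card_Ioc]
        congr 1
        ext m
        simp only [mem_filter, mem_Ioc]
        omega
      rw [h1, Nat.cast_sub hnn]
      have h2 : (n' : ℝ) - n ≤ 2 * X := by linarith
      have hpi : π < 3.1416 := Real.pi_lt_d4
      have h3 : 1 + 2 * π * (3 * (X * |β|)) ≤ 19 * (1 + X * |β|) := by
        have h4 : 0 ≤ X * |β| := by positivity
        nlinarith
      calc ((n' : ℝ) - n) * (3 * Real.log X * (2 * h * (1 + 2 * π * (3 * (X * |β|)))))
          ≤ (2 * X) * (3 * Real.log X * (2 * h * (19 * (1 + X * |β|)))) := by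
            gcongr
        _ = 228 * T + 0 := by rw [hT]; ring
    have hT0 : 0 ≤ T := by positivity
    linarith
  linarith


lemma cs_int (a b : ℝ) (hab : a ≤ b) (F : ℝ → ℝ) (hF : Continuous F) :
    (∫ y in a..b, F y) ^ 2 ≤ (b - a) * ∫ y in a..b, F y ^ 2 := by
  rcases eq_or_lt_of_le hab with rfl | hlt
  · simp
  · have hpos : 0 < b - a := by linarith
    set I := ∫ y in a..b, F y with hI
    set t := I / (b - a) with ht
    have h1 : 0 ≤ ∫ y in a..b, (F y - t) ^ 2 :=
      intervalIntegral.integral_nonneg hab fun y _ => sq_nonneg _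
    have h2 : ∫ y in a..b, (F y - t) ^ 2 = (∫ y in a..b, F y ^ 2) - 2 * t * I + t ^ 2 * (b - a) := by
      have h3 : ∀ y, (F y - t) ^ 2 = F y ^ 2 - 2 * t * F y + t ^ 2 := fun y => by ring
      simp_rw [h3]
      have c1 : Continuous fun y => F y ^ 2 := hF.pow 2
      have c2 : Continuous fun y => 2 * t * F y := continuous_const.mul hF
      have c3 : Continuous fun y => F y ^ 2 - 2 * t * F y := c1.sub c2
      rw [intervalIntegral.integral_add (c3.intervalIntegrable _ _)
        (continuous_const.intervalIntegrable _ _), intervalIntegral.integral_sub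
        (c1.intervalIntegrable _ _) (c2.intervalIntegrable _ _),
        intervalIntegral.integral_const_mul, intervalIntegral.integral_const, smul_eq_mul]
      ring
    rw [h2] at h1
    have h4 : t * (b - a) = I := by rw [ht]; field_simp
    have h5 : t ^ 2 * (b - a) = t * I := by rw [← h4]; ring
    rw [h5] at h1
    have h6 : t * I ≤ ∫ y in a..b, F y ^ 2 := by linarith
    calc I ^ 2 = (b - a) * (t * I) := by rw [← h4]; ring
      _ ≤ (b - a) * ∫ y in a..b, F y ^ 2 := mul_le_mul_of_nonneg_left h6 hpos.le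

/-- the function on the line -/
noncomputable def gf {f : ℕ} (χ : DirichletCharacter ℂ f) (κ : ℂ) (h : ℝ) (N n n' : ℕ) : ℝ → ℂ :=
  (Set.Ioc (n : ℝ) n').indicator fun y => TX χ h N (Real.log (max y 1)) - κ

lemma ef_cont {f : ℕ} (χ : DirichletCharacter ℂ f) (κ : ℂ) (h : ℝ) (N : ℕ) :
    Continuous fun y : ℝ => TX χ h N (Real.log (max y 1)) - κ := by
  have h1 : Continuous fun y : ℝ => Real.log (max y 1) :=
    (continuous_id.max continuous_const).log fun y => by
      have : (1 : ℝ) ≤ max y 1 := le_max_right _ _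
      simp only [id]
      linarith
  exact ((TX_continuous χ h N).comp h1).sub continuous_const

lemma gf_integrable {f : ℕ} (χ : DirichletCharacter ℂ f) (κ : ℂ) (h : ℝ) (N n n' : ℕ) :
    Integrable (gf χ κ h N n n') := by
  unfold gf
  rw [integrable_indicator_iff measurableSet_Ioc]
  exact ((ef_cont χ κ h N).integrableOn_Icc).mono_set Set.Ioc_subset_Icc_self

lemma gf_memLp {f : ℕ} (χ : DirichletCharacter ℂ f) (κ : ℂ) (h : ℝ) (N n n' : ℕ) :
    MemLp (gf χ κ h N n n') 2 := by
  rw [memLp_two_iff_integrable_sq_norm (gf_integrable χ κ h N n n').1]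
  have h1 : (fun y => ‖gf χ κ h N n n' y‖ ^ 2) =
      (Set.Ioc (n : ℝ) n').indicator fun y => ‖TX χ h N (Real.log (max y 1)) - κ‖ ^ 2 := by
    ext y
    unfold gf
    by_cases hy : y ∈ Set.Ioc (n : ℝ) n'
    · rw [Set.indicator_of_mem hy, Set.indicator_of_mem hy]
    · rw [Set.indicator_of_notMem hy, Set.indicator_of_notMem hy]; simp
  rw [h1, integrable_indicator_iff measurableSet_Ioc]
  exact (((ef_cont χ κ h N).norm.pow 2).integrableOn_Icc).mono_set Set.Ioc_subset_Icc_self

lemma change_var {E : Type} [NormedAddCommGroup E] [NormedSpace ℝ E] (n n' : ℕ) (hn : 1 ≤ n)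
    (hnn : n ≤ n') (g : ℝ → E) (hg : Continuous g) :
    ∫ y in (n : ℝ)..n', g y = ∫ z in (Real.log n)..(Real.log n'), Real.exp z • g (Real.exp z) := by
  have hn0 : (0 : ℝ) < n := by exact_mod_cast hn
  have hn0' : (0 : ℝ) < n' := by exact_mod_cast (by omega : 0 < n')
  have h1 := intervalIntegral.integral_deriv_smul_comp' (a := Real.log n) (b := Real.log n')
    (f := Real.exp) (f' := Real.exp) (g := g)
    (fun x _ => Real.hasDerivAt_exp x) Real.continuous_exp.continuousOn hg.continuousOn
  rw [Real.exp_log hn0, Real.exp_log hn0'] at h1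
  rw [← h1]
  rfl

lemma four_gf {f : ℕ} (χ : DirichletCharacter ℂ f) (κ : ℂ) (h : ℝ) (N n n' : ℕ) (hn : 1 ≤ n)
    (hnn : n ≤ n') (ξ : ℝ) :
    𝓕 (gf χ κ h N n n') ξ = GG χ κ h N (Real.log n) (Real.log n') (-ξ) := by
  have hnn' : (n : ℝ) ≤ n' := by exact_mod_cast hnn
  have hn0 : (0 : ℝ) < n := by exact_mod_cast hn
  rw [four_eq]
  have h1 : ∀ y : ℝ, cexp (-(((2 * π * ξ * y : ℝ) : ℂ) * I)) * gf χ κ h N n n' y =
      (Set.Ioc (n : ℝ) n').indicator (fun y => ee (y * (-ξ)) *
        (TX χ h N (Real.log (max y 1)) - κ)) y := by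
    intro y
    unfold gf
    by_cases hy : y ∈ Set.Ioc (n : ℝ) n'
    · rw [Set.indicator_of_mem hy, Set.indicator_of_mem hy]
      congr 1
      unfold Pool.Agent.H807R2.Dav.ee
      congr 1
      push_cast
      ring
    · rw [Set.indicator_of_notMem hy, Set.indicator_of_notMem hy, mul_zero]
  simp_rw [h1]
  have hcc : Continuous fun y : ℝ => ee (y * (-ξ)) * (TX χ h N (Real.log (max y 1)) - κ) :=
    (ee_cont.comp (by fun_prop : Continuous fun y : ℝ => y * (-ξ))).mul (ef_cont χ κ h N)
  rw [integral_indicator measurableSet_Ioc, ← intervalIntegral.integral_of_le hnn',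
    change_var n n' hn hnn _ hcc]
  unfold GG
  apply intervalIntegral.integral_congr
  intro z hz
  have hz1 : 1 ≤ Real.exp z := by
    rw [Set.uIcc_of_le (Real.log_le_log hn0 hnn')] at hz
    have h2 : 0 ≤ Real.log n := Real.log_nonneg (by exact_mod_cast hn)
    exact Real.one_le_exp (h2.trans hz.1)
  simp only
  rw [max_eq_left hz1, Real.log_exp, Complex.real_smul]
  ring

lemma GG_cont {f : ℕ} (χ : DirichletCharacter ℂ f) (κ : ℂ) (h : ℝ) (N : ℕ) (a b : ℝ) :
    Continuous fun β => GG χ κ h N a b β := by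
  unfold GG
  apply intervalIntegral.continuous_parametric_intervalIntegral_of_continuous'
  have h1 : Continuous fun p : ℝ × ℝ => ((Real.exp p.2 : ℝ) : ℂ) :=
    Complex.continuous_ofReal.comp (by fun_prop)
  have h2 : Continuous fun p : ℝ × ℝ => ee (Real.exp p.2 * p.1) := ee_cont.comp (by fun_prop)
  have h3 : Continuous fun p : ℝ × ℝ => TX χ h N p.2 - κ :=
    ((TX_continuous χ h N).comp continuous_snd).sub continuous_const
  exact (h1.mul h2).mul h3

lemma gf_sq {f : ℕ} (χ : DirichletCharacter ℂ f) (κ : ℂ) (h : ℝ) (N n n' : ℕ) (hn : 1 ≤ n)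
    (hnn : n ≤ n') :
    ∫ y, ‖gf χ κ h N n n' y‖ ^ 2 =
      ∫ z in (Real.log n)..(Real.log n'), Real.exp z * ‖TX χ h N z - κ‖ ^ 2 := by
  have hnn' : (n : ℝ) ≤ n' := by exact_mod_cast hnn
  have hn0 : (0 : ℝ) < n := by exact_mod_cast hn
  have h1 : (fun y => ‖gf χ κ h N n n' y‖ ^ 2) =
      (Set.Ioc (n : ℝ) n').indicator fun y => ‖TX χ h N (Real.log (max y 1)) - κ‖ ^ 2 := by
    ext y
    unfold gf
    by_cases hy : y ∈ Set.Ioc (n : ℝ) n'
    · rw [Set.indicator_of_mem hy, Set.indicator_of_mem hy]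
    · rw [Set.indicator_of_notMem hy, Set.indicator_of_notMem hy]; simp
  have hcc : Continuous fun y : ℝ => ‖TX χ h N (Real.log (max y 1)) - κ‖ ^ 2 :=
    (ef_cont χ κ h N).norm.pow 2
  rw [h1, integral_indicator measurableSet_Ioc, ← intervalIntegral.integral_of_le hnn',
    change_var n n' hn hnn _ hcc]
  apply intervalIntegral.integral_congr
  intro z hz
  have hz1 : 1 ≤ Real.exp z := by
    rw [Set.uIcc_of_le (Real.log_le_log hn0 hnn')] at hz
    have h2 : 0 ≤ Real.log n := Real.log_nonneg (by exact_mod_cast hn)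
    exact Real.one_le_exp (h2.trans hz.1)
  simp only
  rw [max_eq_left hz1, Real.log_exp, smul_eq_mul]

/-- Plancherel -/
lemma GG_l2 {f : ℕ} (χ : DirichletCharacter ℂ f) (κ : ℂ) (h : ℝ) (N n n' : ℕ) (hn : 1 ≤ n)
    (hnn : n ≤ n') (B : ℝ) (hB : 0 ≤ B) :
    ∫ β in (-B)..B, ‖GG χ κ h N (Real.log n) (Real.log n') β‖ ^ 2 ≤
      ∫ y, ‖gf χ κ h N n n' y‖ ^ 2 := by
  have hcont : Continuous fun β => ‖GG χ κ h N (Real.log n) (Real.log n') β‖ ^ 2 :=
    (GG_cont χ κ h N _ _).norm.pow 2
  have hm := gf_memLp χ κ h N n n'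
  have hi := gf_integrable χ κ h N n n'
  have p1 := Pool.Agent.Helper76.NormalHP.plancherel_lintegral _ hi hm
  rw [intervalIntegral.integral_of_le (by linarith)]
  refine (ENNReal.ofReal_le_ofReal_iff (integral_nonneg fun y => by positivity)).1 ?_
  rw [← lint_sq hm, ← p1, ofReal_integral_eq_lintegral_ofReal
    ((hcont.integrableOn_Icc).mono_set Set.Ioc_subset_Icc_self)
    (Eventually.of_forall fun β => by simp only [Pi.zero_apply]; positivity)]
  have h1 : ∫⁻ ξ, ‖𝓕 (gf χ κ h N n n') ξ‖ₑ ^ 2 =
      ∫⁻ β, ENNReal.ofReal (‖GG χ κ h N (Real.log n) (Real.log n') β‖ ^ 2) := by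
    rw [← lintegral_neg_eq_self (μ := volume) (fun β : ℝ =>
      ENNReal.ofReal (‖GG χ κ h N (Real.log n) (Real.log n') β‖ ^ 2))]
    congr 1
    ext ξ
    rw [four_gf χ κ h N n n' hn hnn ξ, ← ofReal_norm, ← ENNReal.ofReal_pow (norm_nonneg _)]
  rw [h1]
  exact setLIntegral_le_lintegral _ _

end SHx

open SHx in
theorem t_SHARP : S_SHARP := by
  refine ⟨1000000, by norm_num, ?_⟩
  intro f χ κ X n n' N B h hκ hX hn hnn hn' hh hh4 hhX hB hB1 hN
  have hX0 : (0 : ℝ) < X := by positivity
  have hX3 : (3 : ℝ) ≤ X := by exact_mod_cast hX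
  have hn1 : 1 ≤ n := by omega
  have hn0 : (0 : ℝ) < n := by exact_mod_cast hn1
  have hn0' : (0 : ℝ) < n' := by exact_mod_cast (by omega : 0 < n')
  have hn'3 : (n' : ℝ) ≤ 3 * X := by exact_mod_cast hn'
  have hlogX : 1 ≤ Real.log X := by
    rw [Real.le_log_iff_exp_le hX0]
    exact (Real.exp_one_lt_d9.le.trans (by norm_num)).trans hX3
  have hab : Real.log n ≤ Real.log n' := Real.log_le_log hn0 (by exact_mod_cast hnn)
  have haX : Real.log X ≤ Real.log n := Real.log_le_log hX0 (by exact_mod_cast hn)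
  have hbX : Real.log n' ≤ Real.log X + 2 := by
    have h1 : Real.log n' ≤ Real.log (3 * X) := Real.log_le_log hn0' hn'3
    rw [Real.log_mul (by norm_num) hX0.ne'] at h1
    have h2 : Real.log 3 ≤ 2 := by
      have := Real.log_le_sub_one_of_pos (show (0 : ℝ) < 3 by norm_num)
      linarith
    linarith
  set J := ∫ z in (Real.log X)..(Real.log X + 2), ‖TX χ h N z - κ‖ ^ 2 with hJ
  have hEc : Continuous fun z => ‖TX χ h N z - κ‖ := ((TX_continuous χ h N).sub continuous_const).norm
  have hJ0 : 0 ≤ J := intervalIntegral.integral_nonneg (by linarith) fun z _ => by positivity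
  have hJab : ∫ z in (Real.log n)..(Real.log n'), ‖TX χ h N z - κ‖ ^ 2 ≤ J := by
    rw [hJ]
    apply intervalIntegral.integral_mono_interval haX hab hbX
    · exact Eventually.of_forall fun z => by simp only [Pi.zero_apply]; positivity
    · exact (hEc.pow 2).intervalIntegrable _ _
  have hexp3 : ∀ z ∈ Set.Icc (Real.log n) (Real.log n'), Real.exp z ≤ 3 * X := by
    intro z hz
    calc Real.exp z ≤ Real.exp (Real.log n') := Real.exp_le_exp.mpr hz.2
      _ = n' := Real.exp_log hn0'
      _ ≤ 3 * X := hn'3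
  have hg2 : ∫ y, ‖gf χ κ h N n n' y‖ ^ 2 ≤ 3 * X * J := by
    rw [gf_sq χ κ h N n n' hn1 hnn]
    calc ∫ z in (Real.log n)..(Real.log n'), Real.exp z * ‖TX χ h N z - κ‖ ^ 2
        ≤ ∫ z in (Real.log n)..(Real.log n'), 3 * X * ‖TX χ h N z - κ‖ ^ 2 := by
          apply intervalIntegral.integral_mono_on hab
          · exact (Real.continuous_exp.mul (hEc.pow 2)).intervalIntegrable _ _
          · exact (continuous_const.mul (hEc.pow 2)).intervalIntegrable _ _
          · intro z hz
            exact mul_le_mul_of_nonneg_right (hexp3 z hz) (by positivity)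
      _ = 3 * X * ∫ z in (Real.log n)..(Real.log n'), ‖TX χ h N z - κ‖ ^ 2 := by
          rw [intervalIntegral.integral_const_mul]
      _ ≤ 3 * X * J := mul_le_mul_of_nonneg_left hJab (by positivity)
  have hSG := fun β => sharp_smooth χ κ X n n' N β h hκ hX hn hnn hn' hh hh4 hhX hN
  constructor
  · set R := h * X * (1 + X * B) * Real.log X with hR
    have hR0 : 0 ≤ R := by positivity
    have hSc : Continuous fun β : ℝ => ∑ u ∈ Ioc n n',
        (((ArithmeticFunction.vonMangoldt u : ℝ) : ℂ) * χ u - κ) * ee (u * β) := by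
      apply continuous_finsetSum
      intro u _
      exact continuous_const.mul (ee_cont.comp (by fun_prop))
    have hGc : Continuous fun β => GG χ κ h N (Real.log n) (Real.log n') β := GG_cont χ κ h N _ _
    calc ∫ β in (-B)..B, ‖∑ u ∈ Ioc n n',
          (((ArithmeticFunction.vonMangoldt u : ℝ) : ℂ) * χ u - κ) * ee (u * β)‖ ^ 2
        ≤ ∫ β in (-B)..B, (2 * ‖GG χ κ h N (Real.log n) (Real.log n') β‖ ^ 2 + 2 * (500 * R) ^ 2) := by
          apply intervalIntegral.integral_mono_on (by linarith)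
          · exact (hSc.norm.pow 2).intervalIntegrable _ _
          · exact ((continuous_const.mul (hGc.norm.pow 2)).add continuous_const).intervalIntegrable _ _
          · intro β hβ
            have h1 := hSG β
            have h2 : |β| ≤ B := abs_le.mpr ⟨hβ.1, hβ.2⟩
            have h3 : 500 * (h * X * (1 + X * |β|) * Real.log X) ≤ 500 * R := by
              rw [hR]
              gcongr
            have h4 := norm_sub_norm_le (∑ u ∈ Ioc n n',
              (((ArithmeticFunction.vonMangoldt u : ℝ) : ℂ) * χ u - κ) * ee (u * β))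
              (GG χ κ h N (Real.log n) (Real.log n') β)
            set s := ‖∑ u ∈ Ioc n n',
              (((ArithmeticFunction.vonMangoldt u : ℝ) : ℂ) * χ u - κ) * ee (u * β)‖
            set g := ‖GG χ κ h N (Real.log n) (Real.log n') β‖
            have hs : s ≤ g + 500 * R := by linarith
            have hs0 : 0 ≤ s := norm_nonneg _
            calc s ^ 2 ≤ (g + 500 * R) ^ 2 := by gcongr
              _ ≤ 2 * g ^ 2 + 2 * (500 * R) ^ 2 := by nlinarith [sq_nonneg (g - 500 * R)]
      _ = 2 * (∫ β in (-B)..B, ‖GG χ κ h N (Real.log n) (Real.log n') β‖ ^ 2) +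
            (2 * B) * (2 * (500 * R) ^ 2) := by
          have hc1 : Continuous fun β => 2 * ‖GG χ κ h N (Real.log n) (Real.log n') β‖ ^ 2 :=
            continuous_const.mul (hGc.norm.pow 2)
          rw [intervalIntegral.integral_add (hc1.intervalIntegrable _ _)
            (continuous_const.intervalIntegrable _ _),
            intervalIntegral.integral_const_mul, intervalIntegral.integral_const, smul_eq_mul]
          ring
      _ ≤ 2 * (3 * X * J) + (2 * B) * (2 * (500 * R) ^ 2) := by
          have := (GG_l2 χ κ h N n n' hn1 hnn B hB).trans hg2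
          linarith
      _ ≤ 1000000 * X * J + 1000000 * B * R ^ 2 := by
          have h5 : 0 ≤ X * J := by positivity
          have h6 : 0 ≤ B * R ^ 2 := by positivity
          nlinarith
  · have h1 := hSG 0
    rw [abs_zero, mul_zero, add_zero, mul_one] at h1
    have h2 : ∑ u ∈ Ioc n n', (((ArithmeticFunction.vonMangoldt u : ℝ) : ℂ) * χ u - κ) * ee (u * 0) =
        ∑ u ∈ Ioc n n', (((ArithmeticFunction.vonMangoldt u : ℝ) : ℂ) * χ u - κ) := by
      refine sum_congr rfl fun u _ => ?_
      rw [mul_zero, Pool.Agent.H807R2.Dav.ee_zero, mul_one]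
    rw [h2] at h1
    have hG0 : ‖GG χ κ h N (Real.log n) (Real.log n') 0‖ ^ 2 ≤ 18 * (X : ℝ) ^ 2 * J := by
      have h3 : ‖GG χ κ h N (Real.log n) (Real.log n') 0‖ ≤
          ∫ z in (Real.log n)..(Real.log n'), 3 * X * ‖TX χ h N z - κ‖ := by
        unfold GG
        apply intervalIntegral.norm_integral_le_of_norm_le hab
        · refine Eventually.of_forall fun z hz => ?_
          rw [norm_mul, norm_mul, Pool.Agent.H807R2.Dav.norm_ee, mul_one, Complex.norm_real,
            Real.norm_of_nonneg (Real.exp_pos z).le]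
          exact mul_le_mul_of_nonneg_right (hexp3 z ⟨hz.1.le, hz.2⟩) (norm_nonneg _)
        · exact (continuous_const.mul hEc).intervalIntegrable _ _
      rw [intervalIntegral.integral_const_mul] at h3
      have h4 := cs_int (Real.log n) (Real.log n') hab _ hEc
      have h5 : (∫ z in (Real.log n)..(Real.log n'), ‖TX χ h N z - κ‖) ^ 2 ≤ 2 * J := by
        refine h4.trans ?_
        have h6 : Real.log n' - Real.log n ≤ 2 := by linarith
        have h7 : 0 ≤ ∫ z in (Real.log n)..(Real.log n'), ‖TX χ h N z - κ‖ ^ 2 :=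
          intervalIntegral.integral_nonneg hab fun z _ => by positivity
        calc _ ≤ 2 * ∫ z in (Real.log n)..(Real.log n'), ‖TX χ h N z - κ‖ ^ 2 :=
              mul_le_mul_of_nonneg_right h6 h7
          _ ≤ 2 * J := by linarith
      calc ‖GG χ κ h N (Real.log n) (Real.log n') 0‖ ^ 2
          ≤ (3 * X * ∫ z in (Real.log n)..(Real.log n'), ‖TX χ h N z - κ‖) ^ 2 := by
            gcongr
        _ = 9 * (X : ℝ) ^ 2 * (∫ z in (Real.log n)..(Real.log n'), ‖TX χ h N z - κ‖) ^ 2 := by ring
        _ ≤ 9 * (X : ℝ) ^ 2 * (2 * J) := by gcongr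
        _ = 18 * (X : ℝ) ^ 2 * J := by ring
    have h4 := norm_sub_norm_le (∑ u ∈ Ioc n n',
      (((ArithmeticFunction.vonMangoldt u : ℝ) : ℂ) * χ u - κ))
      (GG χ κ h N (Real.log n) (Real.log n') 0)
    set s := ‖∑ u ∈ Ioc n n', (((ArithmeticFunction.vonMangoldt u : ℝ) : ℂ) * χ u - κ)‖
    set g := ‖GG χ κ h N (Real.log n) (Real.log n') 0‖
    set R := h * X * Real.log X
    have hs : s ≤ g + 500 * R := by linarith
    have hs0 : 0 ≤ s := norm_nonneg _
    calc s ^ 2 ≤ (g + 500 * R) ^ 2 := by gcongr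
      _ ≤ 2 * g ^ 2 + 2 * (500 * R) ^ 2 := by nlinarith [sq_nonneg (g - 500 * R)]
      _ ≤ 2 * (18 * (X : ℝ) ^ 2 * J) + 2 * (500 * R) ^ 2 := by linarith
      _ ≤ 1000000 * (X : ℝ) ^ 2 * J + 1000000 * R ^ 2 := by
          have h5 : 0 ≤ (X : ℝ) ^ 2 * J := by positivity
          have h6 : 0 ≤ R ^ 2 := by positivity
          nlinarith

end Pool.Agent.Q145.SZ
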