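import Pool.Agent.Q145.SZ.Stm
import Pool.Agent.H373R2.T7.Fund

/-!
# Project SZ (helper145), job SIEVE (helper91): upper bound sieve for two linear forms in a class
-/

set_option autoImplicit false

namespace Pool.Agent.Q145.SZ.SIEVE

open Finset Filter
open Pool.Agent.H373R2.T7 (pz nuB PerB mem_pz sys_fund)

/-! ### Mertens lower bound -/

/-- `n ↦ 1/n` -/
noncomputable def fi : ℕ →* ℝ where
  toFun n := (n : ℝ)⁻¹
  map_one' := by simp
  map_mul' a b := by push_cast; rw [mul_inv]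

/-- `∏_{p ≤ z} (1 - 1/p)⁻¹` -/
noncomputable def V (z : ℕ) : ℝ := ∏ p ∈ (Icc 1 z).filter Nat.Prime, (1 - (p : ℝ)⁻¹)⁻¹

theorem log_le_V {K : ℕ} (hK : 1 ≤ K) : Real.log K ≤ V K := by
  unfold V
  have h1 : ∀ {p : ℕ}, p.Prime → ‖fi p‖ < 1 := by
    intro p hp
    show ‖(p : ℝ)⁻¹‖ < 1
    rw [norm_inv, Real.norm_natCast]
    exact inv_lt_one_of_one_lt₀ (by exact_mod_cast hp.one_lt)
  have h2 := (EulerProduct.summable_and_hasSum_smoothNumbers_prod_primesBelow_geometric h1 (K + 1)).2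
  have h3 : (Icc 1 K).filter Nat.Prime = (K + 1).primesBelow := by
    ext q
    rw [mem_filter, mem_Icc, Nat.mem_primesBelow]
    constructor
    · rintro ⟨⟨a, b⟩, c⟩; exact ⟨by omega, c⟩
    · rintro ⟨a, c⟩; exact ⟨⟨c.one_lt.le, by omega⟩, c⟩
  rw [h3]
  have h4 : ∏ p ∈ (K + 1).primesBelow, (1 - (p : ℝ)⁻¹)⁻¹ = ∏ p ∈ (K + 1).primesBelow, (1 - fi p)⁻¹ := rfl
  rw [h4]
  have h5 : HasSum (fun m : ((K + 1).smoothNumbers : Set ℕ) => fi (m : ℕ))
      (∏ p ∈ (K + 1).primesBelow, (1 - fi p)⁻¹) := h2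
  have h6 := (hasSum_subtype_iff_indicator (f := fun n : ℕ => fi n)
    (s := ((K + 1).smoothNumbers : Set ℕ))).1 h5
  have h7 := sum_le_hasSum (Icc 1 K) (fun n _ => Set.indicator_nonneg (fun n _ => by
    show 0 ≤ (n : ℝ)⁻¹
    positivity) n) h6
  refine le_trans ?_ h7
  have h8 : ∀ n ∈ Icc 1 K, ((K + 1).smoothNumbers : Set ℕ).indicator (fun n : ℕ => fi n) n = (n : ℝ)⁻¹ := by
    intro n hn
    rw [mem_Icc] at hn
    rw [Set.indicator_of_mem]
    · rfl
    · rw [Nat.mem_smoothNumbers']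
      intro p _ hpn
      have := Nat.le_of_dvd (by omega) hpn
      omega
  rw [sum_congr rfl h8]
  have h9 := log_add_one_le_harmonic K
  rw [harmonic_eq_sum_Icc] at h9
  push_cast at h9
  refine le_trans (Real.log_le_log (by exact_mod_cast hK) ?_) h9
  linarith

theorem base_pos {p : ℕ} (hp : p.Prime) : (0 : ℝ) < 1 - (p : ℝ)⁻¹ := by
  have h1 : (p : ℝ)⁻¹ < 1 := inv_lt_one_of_one_lt₀ (by exact_mod_cast hp.one_lt)
  linarith

theorem base_le (p : ℕ) : 1 - (p : ℝ)⁻¹ ≤ 1 := by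
  have : (0 : ℝ) ≤ (p : ℝ)⁻¹ := by positivity
  linarith

/-! ### step lemmas -/

theorem set_prime {z : ℕ} (h : (z + 1).Prime) :
    (Icc 1 (z + 1)).filter Nat.Prime = insert (z + 1) ((Icc 1 z).filter Nat.Prime) := by
  ext q
  simp only [mem_filter, mem_Icc, mem_insert]
  constructor
  · rintro ⟨⟨a, b⟩, c⟩
    rcases Nat.lt_or_ge z q with hq | hq
    · left; omega
    · right; exact ⟨⟨a, hq⟩, c⟩
  · rintro (rfl | ⟨⟨a, b⟩, c⟩)
    · exact ⟨⟨by omega, le_rfl⟩, h⟩
    · exact ⟨⟨a, by omega⟩, c⟩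

theorem set_not {z : ℕ} (h : ¬ (z + 1).Prime) :
    (Icc 1 (z + 1)).filter Nat.Prime = (Icc 1 z).filter Nat.Prime := by
  ext q
  simp only [mem_filter, mem_Icc]
  constructor
  · rintro ⟨⟨a, b⟩, c⟩
    refine ⟨⟨a, ?_⟩, c⟩
    rcases Nat.lt_or_ge z q with hq | hq
    · have : q = z + 1 := by omega
      rw [this] at c
      exact absurd c h
    · exact hq
  · rintro ⟨⟨a, b⟩, c⟩
    exact ⟨⟨a, by omega⟩, c⟩

theorem PW_coprime {z q : ℕ} (hq : q.Prime) (h : z < q) : (PW z).Coprime q := by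
  unfold PW
  refine Nat.Coprime.prod_left fun p hp => ?_
  rw [mem_filter, mem_Icc] at hp
  exact (Nat.coprime_primes hp.2 hq).2 (by omega)

theorem vv_PW (z : ℕ) : vv (PW z) = V z := by
  induction z with
  | zero =>
    have h1 : PW 0 = 1 := by unfold PW; simp
    unfold vv V
    rw [h1]
    simp
  | succ z ih =>
    by_cases hp : (z + 1).Prime
    · have h1 : PW (z + 1) = PW z * (z + 1) := by
        unfold PW
        rw [set_prime hp, prod_insert (by simp), mul_comm]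
      have h2 : V (z + 1) = V z * (1 - ((z + 1 : ℕ) : ℝ)⁻¹)⁻¹ := by
        unfold V
        rw [set_prime hp, prod_insert (by simp), mul_comm]
      rw [h2, ← ih]
      unfold vv
      rw [h1, Nat.totient_mul (PW_coprime hp (by omega)), Nat.totient_prime hp]
      have h3 := hp.two_le
      have hz : (0 : ℝ) < z := by exact_mod_cast (by omega : 0 < z)
      rw [Nat.add_sub_cancel]
      push_cast
      have h5 : (1 - ((z : ℝ) + 1)⁻¹)⁻¹ = ((z : ℝ) + 1) / z := by
        have h6 : 1 - ((z : ℝ) + 1)⁻¹ = z / (z + 1) := by field_simp; ring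
        rw [h6, inv_div]
      rw [h5]
      rw [mul_div_mul_comm]
    · have h1 : PW (z + 1) = PW z := by
        unfold PW
        rw [set_not hp]
      have h2 : V (z + 1) = V z := by
        unfold V
        rw [set_not hp]
      rw [h1, h2, ih]

theorem V_ge_one (z : ℕ) : 1 ≤ V z := by
  unfold V
  have : ∏ p ∈ (Icc 1 z).filter Nat.Prime, (1 : ℝ) ≤ ∏ p ∈ (Icc 1 z).filter Nat.Prime, (1 - (p : ℝ)⁻¹)⁻¹ := by
    refine prod_le_prod (fun _ _ => zero_le_one) fun p hp => ?_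
    rw [mem_filter] at hp
    exact (one_le_inv₀ (base_pos hp.2)).2 (base_le p)
  simpa using this

/-! ### the singular series of pairs -/

/-- the factor of `SP` -/
noncomputable def fac (h p : ℕ) : ℝ := if p ∣ h then (p : ℝ) / (p - 1) else 1 - 1 / ((p : ℝ) - 1) ^ 2

theorem SP_eq (z X h : ℕ) : SP z X h = ∏ p ∈ (Ioc z X).filter Nat.Prime, fac h p := rfl

theorem SP_succ_prime {z X h : ℕ} (hzX : z ≤ X) (hp : (X + 1).Prime) :
    SP z (X + 1) h = SP z X h * fac h (X + 1) := by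
  rw [SP_eq, SP_eq]
  have h1 : (Ioc z (X + 1)).filter Nat.Prime = insert (X + 1) ((Ioc z X).filter Nat.Prime) := by
    ext q
    simp only [mem_filter, mem_Ioc, mem_insert]
    constructor
    · rintro ⟨⟨a, b⟩, c⟩
      rcases Nat.lt_or_ge X q with hq | hq
      · left; omega
      · right; exact ⟨⟨a, hq⟩, c⟩
    · rintro (rfl | ⟨⟨a, b⟩, c⟩)
      · exact ⟨⟨by omega, le_rfl⟩, hp⟩
      · exact ⟨⟨a, by omega⟩, c⟩
  rw [h1, prod_insert, mul_comm]
  simp

theorem SP_succ_not {z X h : ℕ} (hp : ¬ (X + 1).Prime) : SP z (X + 1) h = SP z X h := by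
  rw [SP_eq, SP_eq]
  congr 1
  ext q
  simp only [mem_filter, mem_Ioc]
  constructor
  · rintro ⟨⟨a, b⟩, c⟩
    refine ⟨⟨a, ?_⟩, c⟩
    rcases Nat.lt_or_ge X q with hq | hq
    · have : q = X + 1 := by omega
      rw [this] at c
      exact absurd c hp
    · exact hq
  · rintro ⟨⟨a, b⟩, c⟩
    exact ⟨⟨a, by omega⟩, c⟩

theorem SP_ge {z h : ℕ} (hz : 3 ≤ z) : ∀ X : ℕ, z ≤ X →
    2 / 3 * ((X : ℝ) / ((X : ℝ) - 1)) ≤ SP z X h := by
  intro X hX
  induction X, hX using Nat.le_induction with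
  | base =>
    have h1 : SP z z h = 1 := by
      unfold SP
      simp
    rw [h1]
    have h2 : (3 : ℝ) ≤ z := by exact_mod_cast hz
    have h3 : (0 : ℝ) < (z : ℝ) - 1 := by linarith
    rw [← mul_div_assoc, div_le_one h3]
    linarith
  | succ X hX ih =>
    have h2 : (3 : ℝ) ≤ X := by exact_mod_cast hz.trans hX
    have h3 : (0 : ℝ) < (X : ℝ) - 1 := by linarith
    have h0 : (0 : ℝ) < X := by linarith
    have e1 : ((X + 1 : ℕ) : ℝ) - 1 = X := by push_cast; ring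
    by_cases hp : (X + 1).Prime
    · rw [SP_succ_prime hX hp]
      have h4 : 1 - 1 / (X : ℝ) ^ 2 ≤ fac h (X + 1) := by
        unfold fac
        rw [e1]
        split_ifs
        · have h5 : 1 ≤ ((X + 1 : ℕ) : ℝ) / X := by
            rw [one_le_div h0]; push_cast; linarith
          have h6 : 0 ≤ 1 / (X : ℝ) ^ 2 := by positivity
          linarith
        · exact le_rfl
      have h5 : 0 ≤ 1 - 1 / (X : ℝ) ^ 2 := by
        have : 1 / (X : ℝ) ^ 2 ≤ 1 := by
          rw [div_le_one (by positivity)]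
          nlinarith
        linarith
      have h6 : 0 ≤ SP z X h := le_trans (by positivity) ih
      calc 2 / 3 * (((X + 1 : ℕ) : ℝ) / (((X + 1 : ℕ) : ℝ) - 1)) =
            2 / 3 * ((X : ℝ) / ((X : ℝ) - 1)) * (1 - 1 / (X : ℝ) ^ 2) := by
            rw [e1]; push_cast; field_simp; ring
        _ ≤ SP z X h * (1 - 1 / (X : ℝ) ^ 2) := mul_le_mul_of_nonneg_right ih h5
        _ ≤ _ := mul_le_mul_of_nonneg_left h4 h6
    · rw [SP_succ_not hp]
      refine le_trans ?_ ih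
      refine mul_le_mul_of_nonneg_left ?_ (by norm_num)
      rw [e1, div_le_div_iff₀ h0 h3]
      push_cast
      nlinarith

theorem SP_half {z X h : ℕ} (hz : 3 ≤ z) : 1 / 2 ≤ SP z X h := by
  rcases le_or_gt z X with hX | hX
  · have h1 := SP_ge (h := h) hz X hX
    have h2 : (3 : ℝ) ≤ X := by exact_mod_cast hz.trans hX
    have h3 : (0 : ℝ) < (X : ℝ) - 1 := by linarith
    have h4 : 1 ≤ (X : ℝ) / ((X : ℝ) - 1) := by
      rw [one_le_div h3]; linarith
    linarith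
  · have : SP z X h = 1 := by
      unfold SP
      rw [Ioc_eq_empty_of_le hX.le]
      simp
    rw [this]
    norm_num

theorem ioc_split {a b c : ℕ} (h1 : a ≤ b) (h2 : b ≤ c) : (Ioc a c).filter Nat.Prime =
    (Ioc a b).filter Nat.Prime ∪ (Ioc b c).filter Nat.Prime := by
  ext q
  simp only [mem_filter, mem_union, mem_Ioc]
  constructor
  · rintro ⟨⟨h3, h4⟩, h5⟩
    rcases Nat.lt_or_ge b q with hq | hq
    · right; exact ⟨⟨hq, h4⟩, h5⟩
    · left; exact ⟨⟨h3, hq⟩, h5⟩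
  · rintro (⟨⟨h3, h4⟩, h5⟩ | ⟨⟨h3, h4⟩, h5⟩)
    · exact ⟨⟨h3, h4.trans h2⟩, h5⟩
    · exact ⟨⟨by omega, h4⟩, h5⟩

theorem ioc_disj (a b c : ℕ) : Disjoint ((Ioc a b).filter Nat.Prime) ((Ioc b c).filter Nat.Prime) := by
  rw [disjoint_left]
  intro q h1 h2
  rw [mem_filter, mem_Ioc] at h1 h2
  omega

theorem SP_mul {a b c h : ℕ} (h1 : a ≤ b) (h2 : b ≤ c) : SP a c h = SP a b h * SP b c h := by
  rw [SP_eq, SP_eq, SP_eq, ioc_split h1 h2, prod_union (ioc_disj a b c)]

theorem fac_nonneg {h p : ℕ} (hp : 2 ≤ p) : 0 ≤ fac h p := by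
  unfold fac
  have h1 : (2 : ℝ) ≤ p := by exact_mod_cast hp
  split_ifs
  · exact div_nonneg (by linarith) (by linarith)
  · have : 1 / ((p : ℝ) - 1) ^ 2 ≤ 1 := by
      rw [div_le_one (by nlinarith)]
      nlinarith
    linarith

theorem SP_nonneg (a b h : ℕ) : 0 ≤ SP a b h := by
  rw [SP_eq]
  refine prod_nonneg fun p hp => ?_
  rw [mem_filter] at hp
  exact fac_nonneg hp.2.two_le

/-- for `z ≥ 2` the product is bounded below -/
theorem SP_low {z X h : ℕ} (hz : 2 ≤ z) : 3 / 8 ≤ SP z X h := by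
  rcases Nat.lt_or_ge 2 z with h1 | h1
  · have := SP_half (X := X) (h := h) h1
    linarith
  · have e : z = 2 := by omega
    subst e
    rcases Nat.lt_or_ge X 3 with h2 | h2
    · have : SP 2 X h = 1 := by
        unfold SP
        rw [Ioc_eq_empty_of_le (by omega)]
        simp
      rw [this]
      norm_num
    · rw [SP_mul (by norm_num : 2 ≤ 3) h2]
      have h3 := SP_half (z := 3) (X := X) (h := h) le_rfl
      have h4 : SP 2 3 h = SP 2 2 h * fac h 3 := SP_succ_prime le_rfl Nat.prime_three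
      have h5 : SP 2 2 h = 1 := by unfold SP; simp
      rw [h5, one_mul] at h4
      have h6 : 3 / 4 ≤ fac h 3 := by
        unfold fac
        split_ifs <;> norm_num
      rw [h4]
      nlinarith

theorem SP_cut {z y X h : ℕ} (hy : 3 ≤ y) (hyX : y ≤ X) : SP z y h ≤ 2 * SP z X h := by
  rcases le_or_gt z y with h1 | h1
  · rw [SP_mul h1 hyX]
    have h2 := SP_half (z := y) (X := X) (h := h) hy
    have h3 := SP_nonneg z y h
    nlinarith
  · have h2 : SP z y h = 1 := by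
      unfold SP
      rw [Ioc_eq_empty_of_le h1.le]
      simp
    rw [h2]
    have := SP_half (z := z) (X := X) (h := h) (by omega)
    linarith

theorem V_cut {z y : ℕ} (hy : 2 ≤ y) :
    (∏ p ∈ (Ioc z y).filter Nat.Prime, (1 - (p : ℝ)⁻¹)) * Real.log y ≤ V z := by
  have hl : 0 ≤ Real.log y := Real.log_nonneg (by exact_mod_cast (by omega : 1 ≤ y))
  rcases le_or_gt z y with h1 | h1
  · have h2 : V y = V z * ∏ p ∈ (Ioc z y).filter Nat.Prime, (1 - (p : ℝ)⁻¹)⁻¹ := by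
      have hs : (Icc 1 y).filter Nat.Prime = (Icc 1 z).filter Nat.Prime ∪ (Ioc z y).filter Nat.Prime := by
        ext q
        simp only [mem_filter, mem_Icc, mem_union, mem_Ioc]
        constructor
        · rintro ⟨⟨h1, h2⟩, h3⟩
          rcases Nat.lt_or_ge z q with hq | hq
          · right; exact ⟨⟨hq, h2⟩, h3⟩
          · left; exact ⟨⟨h1, hq⟩, h3⟩
        · rintro (⟨⟨h3, h4⟩, h5⟩ | ⟨⟨h3, h4⟩, h5⟩)
          · exact ⟨⟨h3, h4.trans h1⟩, h5⟩
          · exact ⟨⟨by omega, h4⟩, h5⟩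
      have hd : Disjoint ((Icc 1 z).filter Nat.Prime) ((Ioc z y).filter Nat.Prime) := by
        rw [disjoint_left]
        intro q h1 h2
        rw [mem_filter, mem_Icc] at h1
        rw [mem_filter, mem_Ioc] at h2
        omega
      unfold V
      rw [hs, prod_union hd]
    have h3 : 0 < ∏ p ∈ (Ioc z y).filter Nat.Prime, (1 - (p : ℝ)⁻¹) := prod_pos fun p hp => by
      rw [mem_filter] at hp
      exact base_pos hp.2
    have h4 := log_le_V (by omega : 1 ≤ y)
    rw [h2, prod_inv_distrib] at h4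
    calc _ ≤ (∏ p ∈ (Ioc z y).filter Nat.Prime, (1 - (p : ℝ)⁻¹)) *
          (V z * (∏ p ∈ (Ioc z y).filter Nat.Prime, (1 - (p : ℝ)⁻¹))⁻¹) :=
          mul_le_mul_of_nonneg_left h4 h3.le
      _ = V z := by
        rw [mul_left_comm, mul_inv_cancel₀ h3.ne', mul_one]
  · rw [Ioc_eq_empty_of_le h1.le]
    rw [filter_empty, prod_empty, one_mul]
    refine le_trans ?_ (log_le_V (by omega : 1 ≤ z))
    exact Real.log_le_log (by exact_mod_cast (by omega : 0 < y)) (by exact_mod_cast h1.le)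

/-! ### the sieve conditions -/

/-- the condition at `p`: the forms are `a + W t`, `b + W t` -/
def QQ (z W a b p t : ℕ) : Prop := z < p ∧ (p ∣ a + W * t ∨ p ∣ b + W * t)

theorem dvd_mod (W a p t : ℕ) : p ∣ a + W * t ↔ p ∣ a + W * (t % p) := by
  have h1 : a + W * t ≡ a + W * (t % p) [MOD p] :=
    Nat.ModEq.add_left a (Nat.ModEq.mul_left W (Nat.mod_modEq t p).symm)
  rw [← Nat.modEq_zero_iff_dvd, ← Nat.modEq_zero_iff_dvd]
  exact ⟨fun h => h1.symm.trans h, fun h => h1.trans h⟩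

theorem root_unique {W a p : ℕ} (hW : W.Coprime p) {r r' : ℕ} (h1 : r < p) (h2 : r' < p)
    (h3 : p ∣ a + W * r) (h4 : p ∣ a + W * r') : r = r' := by
  have h5 : a + W * r ≡ a + W * r' [MOD p] :=
    ((Nat.modEq_zero_iff_dvd).2 h3).trans ((Nat.modEq_zero_iff_dvd).2 h4).symm
  have h6 : W * r ≡ W * r' [MOD p] := Nat.ModEq.add_left_cancel' a h5
  have h7 : r ≡ r' [MOD p] := Nat.ModEq.cancel_left_of_coprime (by rw [Nat.gcd_comm]; exact hW) h6
  exact Nat.ModEq.eq_of_lt_of_lt h7 h1 h2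

theorem root_exists {W a p : ℕ} (hp : p.Prime) (hW : W.Coprime p) : ∃ r, r < p ∧ p ∣ a + W * r := by
  have : Fact p.Prime := ⟨hp⟩
  have hu : (W : ZMod p) ≠ 0 := ((ZMod.isUnit_iff_coprime W p).2 hW).ne_zero
  refine ⟨(-(a : ZMod p) * (W : ZMod p)⁻¹).val, ZMod.val_lt _, ?_⟩
  rw [← ZMod.natCast_eq_zero_iff]
  push_cast
  rw [ZMod.natCast_zmod_val]
  have h1 : (W : ZMod p) * (W : ZMod p)⁻¹ = 1 := mul_inv_cancel₀ hu
  linear_combination (-(a : ZMod p)) * h1

open Classical in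
theorem perB (z W a b : ℕ) (hW : ∀ p : ℕ, p.Prime → z < p → W.Coprime p) : PerB (QQ z W a b) 2 where
  per p n := by
    unfold QQ
    rw [dvd_mod W a p n, dvd_mod W b p n]
  few p hp := by
    unfold nuB
    by_cases hz : z < p
    · have hc := hW p hp hz
      have h1 : ((range p).filter fun r => QQ z W a b p r) ⊆
          ((range p).filter fun r => p ∣ a + W * r) ∪ ((range p).filter fun r => p ∣ b + W * r) := by
        intro r hr
        rw [mem_filter] at hr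
        rw [mem_union, mem_filter, mem_filter]
        rcases hr.2.2 with h | h
        · left; exact ⟨hr.1, h⟩
        · right; exact ⟨hr.1, h⟩
      have h2 : ∀ c : ℕ, ((range p).filter fun r => p ∣ c + W * r).card ≤ 1 := by
        intro c
        rw [card_le_one]
        intro r hr r' hr'
        rw [mem_filter, mem_range] at hr hr'
        exact root_unique hc hr.1 hr'.1 hr.2 hr'.2
      refine (card_le_card h1).trans ((card_union_le _ _).trans ?_)
      have h3 := h2 a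
      have h4 := h2 b
      omega
    · have : ((range p).filter fun r => QQ z W a b p r) = ∅ := by
        rw [filter_eq_empty_iff]
        intro r _ h
        exact hz h.1
      rw [this]
      simp

theorem nuB_one {z W a b p : ℕ} (hp : p.Prime) (hz : z < p) (hW : W.Coprime p) : 1 ≤ nuB (QQ z W a b) p := by
  classical
  unfold nuB
  obtain ⟨r, h1, h2⟩ := root_exists (a := a) hp hW
  rw [Nat.succ_le_iff, card_pos]
  exact ⟨r, mem_filter.2 ⟨mem_range.2 h1, hz, Or.inl h2⟩⟩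

theorem nuB_two {z W a b p : ℕ} (hp : p.Prime) (hz : z < p) (hW : W.Coprime p) (hd : ¬ p ∣ dst a b) :
    2 ≤ nuB (QQ z W a b) p := by
  classical
  unfold nuB
  obtain ⟨r, h1, h2⟩ := root_exists (a := a) hp hW
  obtain ⟨r', h3, h4⟩ := root_exists (a := b) hp hW
  have hne : r ≠ r' := by
    rintro rfl
    apply hd
    unfold dst
    rcases Nat.le_total a b with h | h
    · have h5 := Nat.dvd_sub h4 h2
      have h6 : b + W * r - (a + W * r) = b - a := by omega
      rw [h6] at h5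
      have : a - b + (b - a) = b - a := by omega
      rw [this]; exact h5
    · have h5 := Nat.dvd_sub h2 h4
      have h6 : a + W * r - (b + W * r) = a - b := by omega
      rw [h6] at h5
      have : a - b + (b - a) = a - b := by omega
      rw [this]; exact h5
  have h5 : ({r, r'} : Finset ℕ) ⊆ (range p).filter fun r => QQ z W a b p r := by
    intro x hx
    rw [mem_insert, mem_singleton] at hx
    rcases hx with rfl | rfl
    · exact mem_filter.2 ⟨mem_range.2 h1, hz, Or.inl h2⟩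
    · exact mem_filter.2 ⟨mem_range.2 h3, hz, Or.inr h4⟩
  have h6 := card_le_card h5
  rw [card_pair hne] at h6
  exact h6

theorem factor_le {z W a b p : ℕ} (hp : p.Prime) (hz : z < p) (hW : W.Coprime p) :
    1 - (nuB (QQ z W a b) p : ℝ) / p ≤ (1 - (p : ℝ)⁻¹) ^ 2 * fac (dst a b) p := by
  have hp1 : (1 : ℝ) < p := by exact_mod_cast hp.one_lt
  have hp0 : (0 : ℝ) < p := by linarith
  have hp2 : (0 : ℝ) < (p : ℝ) - 1 := by linarith
  unfold fac
  split_ifs with hd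
  · have h1 : (1 : ℝ) ≤ nuB (QQ z W a b) p := by exact_mod_cast nuB_one (a := a) (b := b) hp hz hW
    have h2 : (1 - (p : ℝ)⁻¹) ^ 2 * ((p : ℝ) / (p - 1)) = 1 - 1 / p := by
      field_simp
    rw [h2]
    have := div_le_div_of_nonneg_right h1 hp0.le
    linarith
  · have h1 : (2 : ℝ) ≤ nuB (QQ z W a b) p := by exact_mod_cast nuB_two (a := a) (b := b) hp hz hW hd
    have h2 : (1 - (p : ℝ)⁻¹) ^ 2 * (1 - 1 / ((p : ℝ) - 1) ^ 2) = 1 - 2 / p := by
      field_simp
      ring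
    rw [h2]
    have := div_le_div_of_nonneg_right h1 hp0.le
    linarith

theorem prod_nu {z W a b y X : ℕ} (hW : ∀ p : ℕ, p.Prime → z < p → W.Coprime p) (hy : 3 ≤ y) (hyX : y ≤ X) :
    (∏ p ∈ pz y, (1 - (nuB (QQ z W a b) p : ℝ) / p)) * Real.log y ^ 2 ≤ 2 * V z ^ 2 * SP z X (dst a b) := by
  have h1 : ∏ p ∈ pz y, (1 - (nuB (QQ z W a b) p : ℝ) / p) ≤
      ∏ p ∈ pz y, (if z < p then (1 - (p : ℝ)⁻¹) ^ 2 * fac (dst a b) p else 1) := by
    refine prod_le_prod (fun p hp => ?_) fun p hp => ?_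
    · rw [mem_pz] at hp
      have hp0 : (0 : ℝ) < p := by exact_mod_cast hp.2.pos
      rw [sub_nonneg, div_le_one hp0]
      exact_mod_cast Pool.Agent.H373R2.T7.nuB_le (QQ z W a b) p
    · rw [mem_pz] at hp
      split_ifs with hz
      · exact factor_le hp.2 hz (hW p hp.2 hz)
      · have : 0 ≤ (nuB (QQ z W a b) p : ℝ) / p := by positivity
        linarith
  have h2 : (pz y).filter (fun p => z < p) = (Ioc z y).filter Nat.Prime := by
    ext q
    rw [mem_filter, mem_pz, mem_filter, mem_Ioc]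
    constructor
    · rintro ⟨⟨a, b⟩, c⟩; exact ⟨⟨c, a⟩, b⟩
    · rintro ⟨⟨a, b⟩, c⟩; exact ⟨⟨b, c⟩, a⟩
  rw [← prod_filter, h2, prod_mul_distrib, prod_pow, ← SP_eq] at h1
  obtain ⟨P, hP⟩ : ∃ P : ℝ, P = ∏ p ∈ (Ioc z y).filter Nat.Prime, (1 - (p : ℝ)⁻¹) := ⟨_, rfl⟩
  have hP0 : 0 ≤ P := by
    rw [hP]
    exact prod_nonneg fun p hp => by rw [mem_filter] at hp; exact (base_pos hp.2).le
  have h3 : P * Real.log y ≤ V z := by rw [hP]; exact V_cut (by omega)
  rw [← hP] at h1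
  have hl : 0 ≤ Real.log y := Real.log_nonneg (by exact_mod_cast (by omega : 1 ≤ y))
  have h4 : (P * Real.log y) ^ 2 ≤ V z ^ 2 := pow_le_pow_left₀ (by positivity) h3 2
  have h5 := SP_cut (z := z) (h := dst a b) hy hyX
  have h6 := SP_nonneg z y (dst a b)
  calc _ ≤ (P ^ 2 * SP z y (dst a b)) * Real.log y ^ 2 := mul_le_mul_of_nonneg_right h1 (by positivity)
    _ = (P * Real.log y) ^ 2 * SP z y (dst a b) := by ring
    _ ≤ V z ^ 2 * (2 * SP z X (dst a b)) := mul_le_mul h4 h5 h6 (by positivity)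
    _ = _ := by ring

/-! ### counting -/

open Classical in
/-- the points of the class with both forms prime -/
noncomputable def AA {W : ℕ} (X n m : ℕ) (β : ZMod W) : Finset ℕ :=
  (cls X β).filter fun s => (n + s).Prime ∧ (m + s).Prime

open Classical in
theorem card_AA {z X n m y : ℕ} (hn : X < n) (hm : X < m) (hyX : y ≤ X) (β : ZMod (PW z)) :
    ∃ a b : ℕ, dst a b = dst n m ∧ (AA X n m β).card ≤
      1 + ((Icc 1 (X / PW z)).filter fun t => ∀ p ∈ pz y, ¬ QQ z (PW z) a b p t).card := by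
  rcases (AA X n m β).eq_empty_or_nonempty with h0 | h0
  · exact ⟨n, m, rfl, by rw [h0, card_empty]; omega⟩
  · obtain ⟨s1, hs1⟩ : ∃ s1, s1 = (AA X n m β).min' h0 := ⟨_, rfl⟩
    have hmem : s1 ∈ AA X n m β := by rw [hs1]; exact min'_mem _ _
    have hmin : ∀ s ∈ AA X n m β, s1 ≤ s := fun s hs => by rw [hs1]; exact min'_le _ _ hs
    have hW0 : 0 < PW z := Nat.pos_of_ne_zero (NeZero.ne _)
    refine ⟨n + s1, m + s1, by unfold dst; omega, ?_⟩
    have hdiv : ∀ s ∈ AA X n m β, PW z ∣ s - s1 := by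
      intro s hs
      unfold AA cls at hs hmem
      rw [mem_filter, mem_filter] at hs hmem
      have h1 : (s : ZMod (PW z)) = (s1 : ZMod (PW z)) := hs.1.2.trans hmem.1.2.symm
      exact (Nat.modEq_iff_dvd' (hmin s (by unfold AA cls; rw [mem_filter, mem_filter]; exact hs))).1
        ((ZMod.natCast_eq_natCast_iff _ _ _).1 h1.symm)
    have hsub : (AA X n m β).image (fun s => (s - s1) / PW z) ⊆
        insert 0 ((Icc 1 (X / PW z)).filter fun t => ∀ p ∈ pz y, ¬ QQ z (PW z) (n + s1) (m + s1) p t) := by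
      intro t ht
      rw [mem_image] at ht
      obtain ⟨s, hs, rfl⟩ := ht
      rw [mem_insert]
      rcases Nat.eq_zero_or_pos ((s - s1) / PW z) with h1 | h1
      · left; exact h1
      · right
        have hd := hdiv s hs
        have hle := hmin s hs
        have hs' := hs
        unfold AA cls at hs'
        rw [mem_filter, mem_filter, mem_Icc] at hs'
        rw [mem_filter, mem_Icc]
        refine ⟨⟨h1, Nat.div_le_div_right (by omega)⟩, fun p hp hQ => ?_⟩
        rw [mem_pz] at hp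
        have h2 : PW z * ((s - s1) / PW z) = s - s1 := Nat.mul_div_cancel' hd
        unfold QQ at hQ
        rw [h2] at hQ
        have e1 : n + s1 + (s - s1) = n + s := by omega
        have e2 : m + s1 + (s - s1) = m + s := by omega
        rw [e1, e2] at hQ
        rcases hQ.2 with h3 | h3
        · have := (Nat.prime_dvd_prime_iff_eq hp.2 hs'.2.1).1 h3
          omega
        · have := (Nat.prime_dvd_prime_iff_eq hp.2 hs'.2.2).1 h3
          omega
    have hinj : Set.InjOn (fun s => (s - s1) / PW z) (AA X n m β : Set ℕ) := by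
      intro s hs s' hs' h
      simp only at h
      have h1 := Nat.mul_div_cancel' (hdiv s hs)
      have h2 := Nat.mul_div_cancel' (hdiv s' hs')
      have h3 := hmin s hs
      have h4 := hmin s' hs'
      rw [h] at h1
      omega
    have h1 := card_le_card hsub
    rw [card_image_of_injOn hinj] at h1
    refine h1.trans ((card_insert_le _ _).trans ?_)
    omega

theorem wt_le {X u : ℕ} (hX : 3 ≤ X) (hu : u ≤ 3 * X) : wt u ≤ 2 * Real.log X := by
  have hX' : (3 : ℝ) ≤ X := by exact_mod_cast hX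
  have hl : 0 ≤ Real.log X := Real.log_nonneg (by linarith)
  unfold wt
  split_ifs with hp
  · have h1 : (u : ℝ) ≤ X ^ 2 := by
      have : (u : ℝ) ≤ 3 * X := by exact_mod_cast hu
      nlinarith
    have h2 : Real.log u ≤ Real.log ((X : ℝ) ^ 2) :=
      Real.log_le_log (by exact_mod_cast hp.pos) h1
    rw [Real.log_pow] at h2
    push_cast at h2
    exact h2
  · linarith

theorem wt_nonneg (u : ℕ) : 0 ≤ wt u := by
  unfold wt
  split_ifs with hp
  · exact Real.log_nonneg (by exact_mod_cast hp.one_lt.le)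
  · exact le_rfl

theorem sum_le {W X n m : ℕ} (hX : 3 ≤ X) (hn : n ≤ 2 * X) (hm : m ≤ 2 * X) (β : ZMod W) :
    ∑ s ∈ cls X β, wt (n + s) * wt (m + s) ≤ 4 * Real.log X ^ 2 * (AA X n m β).card := by
  classical
  have hl : 0 ≤ Real.log X := Real.log_nonneg (by exact_mod_cast (by omega : 1 ≤ X))
  have h1 : ∑ s ∈ cls X β, wt (n + s) * wt (m + s) =
      ∑ s ∈ (cls X β).filter (fun s => (n + s).Prime ∧ (m + s).Prime), wt (n + s) * wt (m + s) := by
    rw [sum_filter]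
    refine sum_congr rfl fun s _ => ?_
    split_ifs with h
    · rfl
    · unfold wt
      by_cases h2 : (n + s).Prime
      · have h3 : ¬ (m + s).Prime := fun h3 => h ⟨h2, h3⟩
        rw [if_neg h3, mul_zero]
      · rw [if_neg h2, zero_mul]
  have h2 : (cls X β).filter (fun s => (n + s).Prime ∧ (m + s).Prime) = AA X n m β := by
    unfold AA
    congr
  rw [h1, h2]
  have h3 : ∑ s ∈ AA X n m β, wt (n + s) * wt (m + s) ≤ ∑ s ∈ AA X n m β, 4 * Real.log X ^ 2 := by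
    refine sum_le_sum fun s hs => ?_
    unfold AA cls at hs
    rw [mem_filter, mem_filter, mem_Icc] at hs
    have h4 := wt_le hX (u := n + s) (by omega)
    have h5 := wt_le hX (u := m + s) (by omega)
    calc wt (n + s) * wt (m + s) ≤ (2 * Real.log X) * (2 * Real.log X) :=
          mul_le_mul h4 h5 (wt_nonneg _) (by linarith)
      _ = _ := by ring
  refine h3.trans ?_
  rw [sum_const, nsmul_eq_mul]
  linarith

/-- the choice of the sieving level -/
theorem level (K x0 : ℕ) (hK : 1 ≤ K) : ∃ X₀ : ℕ, 3 ≤ X₀ ∧ ∀ X : ℕ, X₀ ≤ X → ∃ y : ℕ, x0 ≤ y ∧ 3 ≤ y ∧ y ≤ X ∧ y ^ K ≤ X ∧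
    Real.log X ≤ 2 * K * Real.log y := by
  refine ⟨(x0 + 3) ^ K + 3, by omega, fun X hX => ?_⟩
  obtain ⟨y, hy⟩ : ∃ y, y = Nat.findGreatest (fun y => y ^ K ≤ X) X := ⟨_, rfl⟩
  have h1 : (x0 + 3) ^ K ≤ X := by omega
  have h2 : x0 + 3 ≤ X := le_trans (Nat.le_self_pow (by omega) _) h1
  have h3 : y ^ K ≤ X := by
    rw [hy]
    exact Nat.findGreatest_spec (P := fun y => y ^ K ≤ X) h2 h1
  have h4 : x0 + 3 ≤ y := by
    rw [hy]
    exact Nat.le_findGreatest h2 h1
  have h5 : y ≤ X := by rw [hy]; exact Nat.findGreatest_le X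
  have h6 : X < (y + 1) ^ K := by
    by_contra hcon
    rw [not_lt] at hcon
    have h7 : y + 1 ≤ X := le_trans (Nat.le_self_pow (by omega) _) hcon
    have h8 := Nat.le_findGreatest (P := fun y => y ^ K ≤ X) h7 hcon
    rw [← hy] at h8
    omega
  refine ⟨y, by omega, by omega, h5, h3, ?_⟩
  have h7 : X ≤ y ^ (2 * K) := by
    refine h6.le.trans ?_
    rw [pow_mul]
    refine Nat.pow_le_pow_left ?_ K
    nlinarith
  have h8 : (X : ℝ) ≤ (y : ℝ) ^ (2 * K) := by exact_mod_cast h7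
  have hX0 : (0 : ℝ) < X := by exact_mod_cast (by omega : 0 < X)
  have h9 := Real.log_le_log hX0 h8
  rw [Real.log_pow] at h9
  push_cast at h9
  exact h9

theorem error_le {X : ℝ} (hX : 1 ≤ X) : Real.log X ^ 2 * (√X + 1) ≤ 128 * X ^ (3 / 4 : ℝ) := by
  have h0 : (0 : ℝ) < X := by linarith
  have h1 : Real.log X ≤ X ^ (1 / 8 : ℝ) / (1 / 8) := Real.log_le_rpow_div h0.le (by norm_num)
  have hl : 0 ≤ Real.log X := Real.log_nonneg hX
  have h2 : Real.log X ^ 2 ≤ 64 * X ^ (1 / 4 : ℝ) := by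
    have h3 := pow_le_pow_left₀ hl h1 2
    refine h3.trans (le_of_eq ?_)
    rw [div_pow, ← Real.rpow_natCast (X ^ (1 / 8 : ℝ)), ← Real.rpow_mul h0.le]
    norm_num
    ring
  have h3 : √X + 1 ≤ 2 * X ^ (1 / 2 : ℝ) := by
    rw [Real.sqrt_eq_rpow]
    have : 1 ≤ X ^ (1 / 2 : ℝ) := Real.one_le_rpow hX (by norm_num)
    linarith
  calc Real.log X ^ 2 * (√X + 1) ≤ (64 * X ^ (1 / 4 : ℝ)) * (2 * X ^ (1 / 2 : ℝ)) :=
        mul_le_mul h2 h3 (by positivity) (by positivity)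
    _ = 128 * (X ^ (1 / 4 : ℝ) * X ^ (1 / 2 : ℝ)) := by ring
    _ = 128 * X ^ (3 / 4 : ℝ) := by
        rw [← Real.rpow_add h0]
        norm_num

theorem main_large {X W : ℝ} (hX : 1 ≤ X) (hW : 1 ≤ W) (h : W ^ 20 ≤ X) : X ^ (3 / 4 : ℝ) ≤ X / W := by
  have h0 : (0 : ℝ) < X := by linarith
  have h1 : W ^ 4 ≤ X := (pow_le_pow_right₀ hW (by norm_num)).trans h
  have h2 : W ≤ X ^ (1 / 4 : ℝ) := by
    have h3 := Real.rpow_le_rpow (by positivity) h1 (by norm_num : (0 : ℝ) ≤ 1 / 4)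
    rw [← Real.rpow_natCast W, ← Real.rpow_mul (by linarith)] at h3
    norm_num at h3
    norm_num
    exact h3
  rw [le_div_iff₀ (by linarith)]
  calc X ^ (3 / 4 : ℝ) * W ≤ X ^ (3 / 4 : ℝ) * X ^ (1 / 4 : ℝ) := mul_le_mul_of_nonneg_left h2 (by positivity)
    _ = X := by
        rw [← Real.rpow_add h0]
        norm_num

end Pool.Agent.Q145.SZ.SIEVE

namespace Pool.Agent.Q145.SZ

open Finset Filter SIEVE
open Pool.Agent.H373R2.T7 (pz nuB PerB mem_pz sys_fund)

theorem t_SIEVE : S_SIEVE := by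
  classical
  obtain ⟨K, x0, hK, hF⟩ := sys_fund 2 (by norm_num) 1 one_pos
  obtain ⟨X₀, hX₀3, hlev⟩ := level K x0 hK
  refine ⟨64 * (K : ℝ) ^ 2 + 2000, X₀, by positivity, ?_⟩
  intro z X hX hz hW20 n hn m hm hnm β
  obtain ⟨y, hy0, hy3, hyX, hyK, hlog⟩ := hlev X hX
  rw [mem_Ioc] at hn hm
  have hX3 : 3 ≤ X := hX₀3.trans hX
  have hX1 : (1 : ℝ) ≤ X := by exact_mod_cast (by omega : 1 ≤ X)
  have hX0 : (0 : ℝ) < X := by linarith
  have hW0 : 0 < PW z := Nat.pos_of_ne_zero (NeZero.ne _)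
  have hW1 : (1 : ℝ) ≤ PW z := by exact_mod_cast hW0
  have hl : 0 ≤ Real.log X := Real.log_nonneg hX1
  obtain ⟨a, b, hab, hcard⟩ := card_AA (z := z) (y := y) hn.1 hm.1 hyX β
  have hcop : ∀ p : ℕ, p.Prime → z < p → (PW z).Coprime p := fun p hp h => PW_coprime hp h
  have h1 := hF X y hy0 hyK (QQ z (PW z) a b) (perB z (PW z) a b hcop) (X / PW z)
  have h2 := prod_nu (a := a) (b := b) hcop hy3 hyX
  rw [hab] at h2
  obtain ⟨Pi0, hPi⟩ : ∃ Pi0 : ℝ, Pi0 = ∏ p ∈ pz y, (1 - (nuB (QQ z (PW z) a b) p : ℝ) / p) := ⟨_, rfl⟩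
  rw [← hPi] at h1 h2
  have hPi0 : 0 ≤ Pi0 := by
    rw [hPi]
    refine prod_nonneg fun p hp => ?_
    rw [mem_pz] at hp
    have hp0 : (0 : ℝ) < p := by exact_mod_cast hp.2.pos
    rw [sub_nonneg, div_le_one hp0]
    exact_mod_cast Pool.Agent.H373R2.T7.nuB_le _ p
  obtain ⟨S, hS⟩ : ∃ S : ℝ, S = SP z X (dst n m) := ⟨_, rfl⟩
  rw [← hS] at h2
  have hS0 : 3 / 8 ≤ S := by rw [hS]; exact SP_low hz
  have hv : vv (PW z) = V z := vv_PW z
  have hV1 : 1 ≤ V z := V_ge_one z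
  rw [← hS, hv]
  obtain ⟨N, hN⟩ : ∃ N : ℕ, N = ((Icc 1 (X / PW z)).filter fun t => ∀ p ∈ pz y, ¬ QQ z (PW z) a b p t).card := ⟨_, rfl⟩
  have h3 : (N : ℝ) ≤ 2 * ((X : ℝ) / PW z * Pi0) + √(X : ℝ) := by
    have h4 : |(N : ℝ) - ((X / PW z : ℕ) : ℝ) * Pi0| ≤ 1 * (((X / PW z : ℕ) : ℝ) * Pi0) + √(X : ℝ) := by
      rw [hN]
      convert h1 using 6
    have h5 := (abs_le.1 h4).2
    have h6 : ((X / PW z : ℕ) : ℝ) ≤ (X : ℝ) / PW z := Nat.cast_div_le
    have h7 := mul_le_mul_of_nonneg_right h6 hPi0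
    linarith
  have h4 : ((AA X n m β).card : ℝ) ≤ 1 + N := by
    rw [hN]
    exact_mod_cast hcard
  have h5 : Real.log X ^ 2 ≤ 4 * (K : ℝ) ^ 2 * Real.log y ^ 2 := by
    have h6 := pow_le_pow_left₀ hl hlog 2
    refine h6.trans (le_of_eq ?_)
    ring
  have h6 : Real.log X ^ 2 * Pi0 ≤ 8 * (K : ℝ) ^ 2 * (V z ^ 2 * S) := by
    calc Real.log X ^ 2 * Pi0 ≤ (4 * (K : ℝ) ^ 2 * Real.log y ^ 2) * Pi0 := mul_le_mul_of_nonneg_right h5 hPi0
      _ = 4 * (K : ℝ) ^ 2 * (Pi0 * Real.log y ^ 2) := by ring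
      _ ≤ 4 * (K : ℝ) ^ 2 * (2 * V z ^ 2 * S) := mul_le_mul_of_nonneg_left h2 (by positivity)
      _ = _ := by ring
  have h7 := error_le hX1
  have h8 := main_large hX1 hW1 hW20
  have h9 : 3 / 8 ≤ V z ^ 2 * S := by
    have : 1 ≤ V z ^ 2 := one_le_pow₀ hV1
    nlinarith
  have hXW : 0 ≤ (X : ℝ) / PW z := by positivity
  have h10 : Real.log X ^ 2 * (√(X : ℝ) + 1) ≤ 400 * ((X : ℝ) / PW z * (V z ^ 2 * S)) := by
    calc Real.log X ^ 2 * (√(X : ℝ) + 1) ≤ 128 * (X : ℝ) ^ (3 / 4 : ℝ) := h7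
      _ ≤ 128 * ((X : ℝ) / PW z) := mul_le_mul_of_nonneg_left h8 (by norm_num)
      _ ≤ 400 * ((X : ℝ) / PW z * (V z ^ 2 * S)) := by nlinarith [mul_le_mul_of_nonneg_left h9 hXW]
  have h11 : ((X : ℝ) / PW z) * (Real.log X ^ 2 * Pi0) ≤ ((X : ℝ) / PW z) * (8 * (K : ℝ) ^ 2 * (V z ^ 2 * S)) :=
    mul_le_mul_of_nonneg_left h6 hXW
  have h12 := sum_le hX3 hn.2 hm.2 β
  refine h12.trans ?_
  calc 4 * Real.log X ^ 2 * ((AA X n m β).card : ℝ) ≤
        4 * Real.log X ^ 2 * (1 + (2 * ((X : ℝ) / PW z * Pi0) + √(X : ℝ))) :=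
        mul_le_mul_of_nonneg_left (by linarith) (by positivity)
    _ = 8 * (((X : ℝ) / PW z) * (Real.log X ^ 2 * Pi0)) + 4 * (Real.log X ^ 2 * (√(X : ℝ) + 1)) := by ring
    _ ≤ 8 * (((X : ℝ) / PW z) * (8 * (K : ℝ) ^ 2 * (V z ^ 2 * S))) +
        4 * (400 * ((X : ℝ) / PW z * (V z ^ 2 * S))) := by linarith
    _ ≤ (64 * (K : ℝ) ^ 2 + 2000) * ((X : ℝ) / PW z) * V z ^ 2 * S := by
        have : 0 ≤ (X : ℝ) / PW z * (V z ^ 2 * S) := mul_nonneg hXW (by linarith)
        nlinarith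

end Pool.Agent.Q145.SZ
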