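import Pool.Agent.Q145.SZ.Stm3

/-!
# Project SZ (helper145), job SLOW (helper91): lower bound of the singular series
-/

set_option autoImplicit false

namespace Pool.Agent.Q145.SZ.SLOW

open Finset Filter

/-! ### Mertens lower bound -/

/-- `n ↦ 1/n` -/
noncomputable def fi : ℕ →* ℝ where
  toFun n := (n : ℝ)⁻¹
  map_one' := by simp
  map_mul' a b := by push_cast; rw [mul_inv]

theorem log_le_prod {K : ℕ} (hK : 1 ≤ K) :
    Real.log K ≤ ∏ p ∈ (Icc 1 K).filter Nat.Prime, (1 - (p : ℝ)⁻¹)⁻¹ := by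
  have h1 : ∀ {p : ℕ}, p.Prime → ‖fi p‖ < 1 := by
    intro p hp
    show ‖(p : ℝ)⁻¹‖ < 1
    rw [norm_inv, Real.norm_natCast]
    exact inv_lt_one_of_one_lt₀ (by exact_mod_cast hp.one_lt)
  have h2 := (EulerProduct.summable_and_hasSum_smoothNumbers_prod_primesBelow_geometric h1 (K + 1)).2
  have h3 : (Icc 1 K).filter Nat.Prime = (K + 1).primesBelow := by
    ext q
    rw [mem_filter, mem_Icc, Nat.mem_primesBelow]
    constructor
    · rintro ⟨⟨a, b⟩, c⟩; exact ⟨by omega, c⟩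
    · rintro ⟨a, c⟩; exact ⟨⟨c.one_lt.le, by omega⟩, c⟩
  rw [h3]
  have h4 : ∏ p ∈ (K + 1).primesBelow, (1 - (p : ℝ)⁻¹)⁻¹ = ∏ p ∈ (K + 1).primesBelow, (1 - fi p)⁻¹ := rfl
  rw [h4]
  have h5 : HasSum (fun m : ((K + 1).smoothNumbers : Set ℕ) => fi (m : ℕ))
      (∏ p ∈ (K + 1).primesBelow, (1 - fi p)⁻¹) := h2
  have h6 := (hasSum_subtype_iff_indicator (f := fun n : ℕ => fi n)
    (s := ((K + 1).smoothNumbers : Set ℕ))).1 h5
  have h7 := sum_le_hasSum (Icc 1 K) (fun n _ => Set.indicator_nonneg (fun n _ => by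
    show 0 ≤ (n : ℝ)⁻¹
    positivity) n) h6
  refine le_trans ?_ h7
  have h8 : ∀ n ∈ Icc 1 K, ((K + 1).smoothNumbers : Set ℕ).indicator (fun n : ℕ => fi n) n = (n : ℝ)⁻¹ := by
    intro n hn
    rw [mem_Icc] at hn
    rw [Set.indicator_of_mem]
    · rfl
    · rw [Nat.mem_smoothNumbers']
      intro p _ hpn
      have := Nat.le_of_dvd (by omega) hpn
      omega
  rw [sum_congr rfl h8]
  have h9 := log_add_one_le_harmonic K
  rw [harmonic_eq_sum_Icc] at h9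
  push_cast at h9
  refine le_trans (Real.log_le_log (by exact_mod_cast hK) ?_) h9
  linarith

/-! ### local factors -/

theorem nu_le {K : ℕ} (s : Fin K → ℕ) (p : ℕ) : nu s p ≤ K := by
  unfold nu
  refine card_image_le.trans ?_
  simp

theorem nu_eq {K : ℕ} {s : Fin K → ℕ} (hs : Function.Injective s) {p : ℕ} (hp : ∀ i, s i < p) :
    nu s p = K := by
  unfold nu
  rw [card_image_of_injective]
  · simp
  · intro i j hij
    simp only at hij
    rw [Nat.mod_eq_of_lt (hp i), Nat.mod_eq_of_lt (hp j)] at hij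
    exact hs hij

theorem base_pos {p : ℕ} (hp : p.Prime) : (0 : ℝ) < 1 - 1 / (p : ℝ) := by
  have h1 : (1 : ℝ) < p := by exact_mod_cast hp.one_lt
  have h2 : 1 / (p : ℝ) < 1 := by rw [div_lt_one (by linarith)]; exact h1
  linarith

theorem base_le {p : ℕ} : 1 - 1 / (p : ℝ) ≤ 1 := by
  have : (0 : ℝ) ≤ 1 / (p : ℝ) := by positivity
  linarith

theorem loc_pos {K : ℕ} {s : Fin K → ℕ} {p : ℕ} (hp : p.Prime) (h : nu s p < p) : 0 < loc s p := by
  unfold loc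
  have h0 := base_pos hp
  have hp0 : (0 : ℝ) < p := by exact_mod_cast hp.pos
  refine div_pos ?_ (pow_pos h0 K)
  rw [sub_pos, div_lt_one hp0]
  exact_mod_cast h

/-- small primes -/
theorem loc_small {K : ℕ} {s : Fin K → ℕ} {p : ℕ} (hp : p.Prime) (h : nu s p < p) :
    (p : ℝ)⁻¹ * ((1 - (p : ℝ)⁻¹)⁻¹) ^ K ≤ loc s p := by
  unfold loc
  have h0 := base_pos hp
  have hp0 : (0 : ℝ) < p := by exact_mod_cast hp.pos
  have h1 : (p : ℝ)⁻¹ ≤ 1 - (nu s p : ℝ) / p := by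
    have h2 : (nu s p : ℝ) + 1 ≤ p := by exact_mod_cast h
    have h3 : 1 - (nu s p : ℝ) / p - (p : ℝ)⁻¹ = (p - (nu s p + 1)) / p := by field_simp; ring
    have h4 : 0 ≤ (p - ((nu s p : ℝ) + 1)) / p := div_nonneg (by linarith) hp0.le
    linarith
  rw [div_eq_mul_inv, ← inv_pow]
  have e : (1 - 1 / (p : ℝ)) = 1 - (p : ℝ)⁻¹ := by rw [one_div]
  rw [e] at h0 ⊢
  exact mul_le_mul_of_nonneg_right h1 (by positivity)

/-- medium primes -/
theorem loc_medium {K : ℕ} {s : Fin K → ℕ} {p : ℕ} (hp : p.Prime) (h1 : K < p) (h2 : p ≤ 2 * K) :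
    (((2 * K : ℕ) : ℝ))⁻¹ ≤ loc s p := by
  unfold loc
  have h0 := base_pos hp
  have hp0 : (0 : ℝ) < p := by exact_mod_cast hp.pos
  have h3 : (nu s p : ℝ) ≤ K := by exact_mod_cast nu_le s p
  have h4 : (K : ℝ) + 1 ≤ p := by exact_mod_cast h1
  have h5 : (p : ℝ) ≤ ((2 * K : ℕ) : ℝ) := by exact_mod_cast h2
  have h6 : (((2 * K : ℕ) : ℝ))⁻¹ ≤ 1 - (nu s p : ℝ) / p := by
    have h7 : (((2 * K : ℕ) : ℝ))⁻¹ ≤ (p : ℝ)⁻¹ := inv_anti₀ hp0 h5
    have h8 : 1 - (nu s p : ℝ) / p - (p : ℝ)⁻¹ = (p - (nu s p + 1)) / p := by field_simp; ring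
    have h9 : 0 ≤ (p - ((nu s p : ℝ) + 1)) / p := div_nonneg (by linarith) hp0.le
    linarith
  have h7 : (1 - 1 / (p : ℝ)) ^ K ≤ 1 := pow_le_one₀ h0.le base_le
  rw [le_div_iff₀ (pow_pos h0 K)]
  calc (((2 * K : ℕ) : ℝ))⁻¹ * (1 - 1 / (p : ℝ)) ^ K ≤ (((2 * K : ℕ) : ℝ))⁻¹ * 1 :=
        mul_le_mul_of_nonneg_left h7 (by positivity)
    _ ≤ _ := by rw [mul_one]; exact h6

/-- large primes -/
theorem loc_large {K : ℕ} {s : Fin K → ℕ} {p : ℕ} (hp : p.Prime) (h1 : K ≤ p) :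
    1 - (K : ℝ) ^ 2 / (p : ℝ) ^ 2 ≤ loc s p := by
  unfold loc
  have h0 := base_pos hp
  have hp0 : (0 : ℝ) < p := by exact_mod_cast hp.pos
  have h3 : (nu s p : ℝ) ≤ K := by exact_mod_cast nu_le s p
  have h4 : (K : ℝ) ≤ p := by exact_mod_cast h1
  have h5 : (1 - 1 / (p : ℝ)) ^ K * (1 + 1 / (p : ℝ)) ^ K ≤ 1 := by
    rw [← mul_pow]
    refine pow_le_one₀ (mul_nonneg h0.le (by positivity)) ?_
    have : (1 - 1 / (p : ℝ)) * (1 + 1 / (p : ℝ)) = 1 - (1 / (p : ℝ)) ^ 2 := by ring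
    rw [this]
    have := sq_nonneg (1 / (p : ℝ))
    linarith
  have h6 : 1 + K * (1 / (p : ℝ)) ≤ (1 + 1 / (p : ℝ)) ^ K :=
    one_add_mul_le_pow (by have : (0:ℝ) ≤ 1 / (p : ℝ) := by positivity
                           linarith) K
  have h7 : (1 + K * (1 / (p : ℝ))) * (1 - 1 / (p : ℝ)) ^ K ≤ 1 := by
    refine le_trans ?_ h5
    rw [mul_comm]
    exact mul_le_mul_of_nonneg_left h6 (by positivity)
  have h8 : 0 ≤ 1 - (K : ℝ) / p := by
    rw [sub_nonneg, div_le_one hp0]; exact h4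
  have h9 : 1 - (K : ℝ) / p ≤ 1 - (nu s p : ℝ) / p := by
    have := div_le_div_of_nonneg_right h3 hp0.le
    linarith
  rw [le_div_iff₀ (pow_pos h0 K)]
  calc (1 - (K : ℝ) ^ 2 / (p : ℝ) ^ 2) * (1 - 1 / (p : ℝ)) ^ K =
        (1 - (K : ℝ) / p) * ((1 + K * (1 / (p : ℝ))) * (1 - 1 / (p : ℝ)) ^ K) := by ring
    _ ≤ (1 - (K : ℝ) / p) * 1 := mul_le_mul_of_nonneg_left h7 h8
    _ ≤ _ := by rw [mul_one]; exact h9

/-- very large primes -/
theorem loc_le_one {K : ℕ} {s : Fin K → ℕ} (hs : Function.Injective s) {p : ℕ} (hp : p.Prime)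
    (h1 : ∀ i, s i < p) : loc s p ≤ 1 := by
  unfold loc
  have h0 := base_pos hp
  rw [nu_eq hs h1, div_le_one (pow_pos h0 K)]
  have h2 := one_add_mul_le_pow (a := -(1 / (p : ℝ))) (by
    have := base_pos hp
    linarith) K
  have h3 : 1 + (K : ℝ) * -(1 / (p : ℝ)) = 1 - (K : ℝ) / p := by ring
  have h4 : 1 + -(1 / (p : ℝ)) = 1 - 1 / (p : ℝ) := by ring
  rw [h3, h4] at h2
  exact h2

/-! ### the partial products -/

theorem singP_pos {K : ℕ} {s : Fin K → ℕ} (ha : Adm s) (w : ℕ) : 0 < singP s w := by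
  unfold singP
  refine prod_pos fun p hp => ?_
  rw [mem_filter] at hp
  exact loc_pos hp.2 (ha p hp.2)

theorem singP_prime {K : ℕ} (s : Fin K → ℕ) {w : ℕ} (hp : (w + 1).Prime) :
    singP s (w + 1) = singP s w * loc s (w + 1) := by
  unfold singP
  have h1 : (Icc 1 (w + 1)).filter Nat.Prime = insert (w + 1) ((Icc 1 w).filter Nat.Prime) := by
    ext q
    simp only [mem_filter, mem_Icc, mem_insert]
    constructor
    · rintro ⟨⟨a, b⟩, c⟩
      rcases Nat.lt_or_ge w q with hq | hq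
      · left; omega
      · right; exact ⟨⟨a, hq⟩, c⟩
    · rintro (rfl | ⟨⟨a, b⟩, c⟩)
      · exact ⟨⟨by omega, le_rfl⟩, hp⟩
      · exact ⟨⟨a, by omega⟩, c⟩
  rw [h1, prod_insert, mul_comm]
  simp

theorem singP_not {K : ℕ} (s : Fin K → ℕ) {w : ℕ} (hp : ¬ (w + 1).Prime) :
    singP s (w + 1) = singP s w := by
  unfold singP
  congr 1
  ext q
  simp only [mem_filter, mem_Icc]
  constructor
  · rintro ⟨⟨a, b⟩, c⟩
    refine ⟨⟨a, ?_⟩, c⟩
    rcases Nat.lt_or_ge w q with hq | hq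
    · have : q = w + 1 := by omega
      rw [this] at c
      exact absurd c hp
    · exact hq
  · rintro ⟨⟨a, b⟩, c⟩
    exact ⟨⟨a, by omega⟩, c⟩

theorem PW_le (z : ℕ) : (∏ p ∈ (Icc 1 z).filter Nat.Prime, p) ≤ 4 ^ z := by
  have h1 : (Icc 1 z).filter Nat.Prime = (range (z + 1)).filter Nat.Prime := by
    ext q
    simp only [mem_filter, mem_Icc, mem_range]
    constructor
    · rintro ⟨⟨a, b⟩, c⟩; exact ⟨by omega, c⟩
    · rintro ⟨a, c⟩; exact ⟨⟨c.one_lt.le, by omega⟩, c⟩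
  rw [h1]
  exact primorial_le_four_pow z

theorem singP_K {K : ℕ} {s : Fin K → ℕ} (hK : 1 ≤ K) (ha : Adm s) :
    (Real.log K / 4) ^ K ≤ singP s K := by
  have h1 : ∏ p ∈ (Icc 1 K).filter Nat.Prime, ((p : ℝ)⁻¹ * ((1 - (p : ℝ)⁻¹)⁻¹) ^ K) ≤ singP s K := by
    unfold singP
    refine prod_le_prod (fun p hp => ?_) fun p hp => ?_
    · rw [mem_filter] at hp
      have := base_pos hp.2
      rw [one_div] at this
      positivity
    · rw [mem_filter] at hp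
      exact loc_small hp.2 (ha p hp.2)
  refine le_trans ?_ h1
  rw [prod_mul_distrib, prod_pow, prod_inv_distrib]
  have h2 : ((∏ p ∈ (Icc 1 K).filter Nat.Prime, (p : ℝ))) ≤ 4 ^ K := by
    have h := (Nat.cast_le (α := ℝ)).2 (PW_le K)
    rwa [Nat.cast_prod, Nat.cast_pow, Nat.cast_ofNat] at h
  have h3 : 0 < ∏ p ∈ (Icc 1 K).filter Nat.Prime, (p : ℝ) :=
    prod_pos fun p hp => by
      rw [mem_filter] at hp
      exact_mod_cast hp.2.pos
  have h4 : ((4 : ℝ) ^ K)⁻¹ ≤ (∏ p ∈ (Icc 1 K).filter Nat.Prime, (p : ℝ))⁻¹ := inv_anti₀ h3 h2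
  have h5 := log_le_prod hK
  have h6 : 0 ≤ Real.log K := Real.log_nonneg (by exact_mod_cast hK)
  calc (Real.log K / 4) ^ K = ((4 : ℝ) ^ K)⁻¹ * Real.log K ^ K := by
        rw [div_pow]; ring
    _ ≤ _ := mul_le_mul h4 (pow_le_pow_left₀ h6 h5 K) (by positivity) (by positivity)

theorem filter_split {a b : ℕ} (h : a ≤ b) : (Icc 1 b).filter Nat.Prime =
    (Icc 1 a).filter Nat.Prime ∪ (Ioc a b).filter Nat.Prime := by
  ext q
  simp only [mem_filter, mem_Icc, mem_union, mem_Ioc]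
  constructor
  · rintro ⟨⟨h1, h2⟩, h3⟩
    rcases Nat.lt_or_ge a q with hq | hq
    · right; exact ⟨⟨hq, h2⟩, h3⟩
    · left; exact ⟨⟨h1, hq⟩, h3⟩
  · rintro (⟨⟨h1, h2⟩, h3⟩ | ⟨⟨h1, h2⟩, h3⟩)
    · exact ⟨⟨h1, h2.trans h⟩, h3⟩
    · exact ⟨⟨by omega, h2⟩, h3⟩

theorem filter_disj (a b : ℕ) : Disjoint ((Icc 1 a).filter Nat.Prime) ((Ioc a b).filter Nat.Prime) := by
  rw [disjoint_left]
  intro q h1 h2
  rw [mem_filter, mem_Icc] at h1
  rw [mem_filter, mem_Ioc] at h2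
  omega

theorem count_medium (K : ℕ) : ((2 * K) ^ ((Ioc K (2 * K)).filter Nat.Prime).card : ℕ) ≤ 32 ^ K := by
  have h1 : ((Ioc K (2 * K)).filter Nat.Prime).card ≤ K := by
    refine (card_filter_le _ _).trans ?_
    rw [Nat.card_Ioc]
    omega
  have h2 : K ^ ((Ioc K (2 * K)).filter Nat.Prime).card ≤ ∏ p ∈ (Ioc K (2 * K)).filter Nat.Prime, p := by
    rw [← prod_const]
    refine prod_le_prod' fun p hp => ?_
    rw [mem_filter, mem_Ioc] at hp
    exact hp.1.1.le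
  have h3 : ∏ p ∈ (Ioc K (2 * K)).filter Nat.Prime, p ≤ ∏ p ∈ (Icc 1 (2 * K)).filter Nat.Prime, p := by
    rw [filter_split (by omega : K ≤ 2 * K), prod_union (filter_disj _ _)]
    refine Nat.le_mul_of_pos_left _ (prod_pos fun p hp => ?_)
    rw [mem_filter] at hp
    exact hp.2.pos
  have h4 := PW_le (2 * K)
  calc (2 * K) ^ ((Ioc K (2 * K)).filter Nat.Prime).card =
        2 ^ ((Ioc K (2 * K)).filter Nat.Prime).card * K ^ ((Ioc K (2 * K)).filter Nat.Prime).card := mul_pow _ _ _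
    _ ≤ 2 ^ K * 4 ^ (2 * K) := Nat.mul_le_mul (Nat.pow_le_pow_right (by norm_num) h1) (h2.trans (h3.trans h4))
    _ = 32 ^ K := by rw [pow_mul, ← mul_pow]; norm_num

theorem singP_2K {K : ℕ} {s : Fin K → ℕ} (hK : 1 ≤ K) (ha : Adm s) :
    (Real.log K / 128) ^ K ≤ singP s (2 * K) := by
  have h0 : 0 ≤ Real.log K := Real.log_nonneg (by exact_mod_cast hK)
  have h1 : singP s (2 * K) = singP s K * ∏ p ∈ (Ioc K (2 * K)).filter Nat.Prime, loc s p := by
    unfold singP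
    rw [filter_split (by omega : K ≤ 2 * K), prod_union (filter_disj _ _)]
  have h2 : ((32 : ℝ) ^ K)⁻¹ ≤ ∏ p ∈ (Ioc K (2 * K)).filter Nat.Prime, loc s p := by
    have h3 : ∏ p ∈ (Ioc K (2 * K)).filter Nat.Prime, (((2 * K : ℕ) : ℝ))⁻¹ ≤
        ∏ p ∈ (Ioc K (2 * K)).filter Nat.Prime, loc s p := by
      refine prod_le_prod (fun p _ => by positivity) fun p hp => ?_
      rw [mem_filter, mem_Ioc] at hp
      exact loc_medium hp.2 hp.1.1 hp.1.2
    refine le_trans ?_ h3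
    rw [prod_const, inv_pow]
    refine inv_anti₀ ?_ ?_
    · have : (0 : ℝ) < ((2 * K : ℕ) : ℝ) := by exact_mod_cast (by omega : 0 < 2 * K)
      positivity
    · exact_mod_cast count_medium K
  rw [h1]
  calc (Real.log K / 128) ^ K = (Real.log K / 4) ^ K * ((32 : ℝ) ^ K)⁻¹ := by
        rw [div_pow, div_pow, div_mul_eq_mul_div, div_eq_div_iff (by positivity) (by positivity)]
        rw [show (128 : ℝ) = 4 * 32 by norm_num, mul_pow]
        field_simp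
    _ ≤ _ := mul_le_mul (singP_K hK ha) h2 (by positivity) (singP_pos ha K).le

theorem exp_step {x : ℝ} (h0 : 0 ≤ x) (h1 : x ≤ 1 / 4) : Real.exp (-(2 * x)) ≤ 1 - x := by
  have h2 : 1 + 2 * x ≤ Real.exp (2 * x) := by
    have := Real.add_one_le_exp (2 * x); linarith
  rw [Real.exp_neg, inv_le_comm₀ (Real.exp_pos _) (by linarith)]
  refine le_trans ?_ h2
  rw [inv_le_iff_one_le_mul₀ (by linarith)]
  nlinarith

theorem singP_large {K : ℕ} {s : Fin K → ℕ} (hK : 1 ≤ K) (ha : Adm s) : ∀ w : ℕ, 2 * K ≤ w →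
    singP s (2 * K) * Real.exp (-(2 * (K : ℝ) ^ 2 * (1 / (2 * K : ℝ) - 1 / w))) ≤ singP s w := by
  intro w hw
  have hK0 : (0 : ℝ) < K := by exact_mod_cast hK
  induction w, hw using Nat.le_induction with
  | base =>
    push_cast
    rw [sub_self, mul_zero, neg_zero, Real.exp_zero, mul_one]
  | succ w hw ih =>
    have hw0 : (0 : ℝ) < w := by exact_mod_cast (by omega : 0 < w)
    have hwK : 2 * (K : ℝ) ≤ w := by exact_mod_cast hw
    have h1 : 1 / ((w + 1 : ℕ) : ℝ) ≤ 1 / (w : ℝ) :=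
      one_div_le_one_div_of_le hw0 (by push_cast; linarith)
    by_cases hp : (w + 1).Prime
    · rw [singP_prime s hp]
      have h2 : Real.exp (-(2 * ((K : ℝ) ^ 2 / (((w + 1 : ℕ) : ℝ)) ^ 2))) ≤ loc s (w + 1) := by
        refine le_trans (exp_step (by positivity) ?_) (loc_large hp (by omega))
        rw [div_le_iff₀ (by positivity)]
        push_cast
        nlinarith
      have h3 : Real.exp (-(2 * (K : ℝ) ^ 2 * (1 / (2 * K : ℝ) - 1 / ((w + 1 : ℕ) : ℝ)))) ≤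
          Real.exp (-(2 * (K : ℝ) ^ 2 * (1 / (2 * K : ℝ) - 1 / w))) *
            Real.exp (-(2 * ((K : ℝ) ^ 2 / (((w + 1 : ℕ) : ℝ)) ^ 2))) := by
        rw [← Real.exp_add, Real.exp_le_exp]
        have h4 : 1 / (((w + 1 : ℕ) : ℝ)) ^ 2 ≤ 1 / w - 1 / ((w + 1 : ℕ) : ℝ) := by
          push_cast
          rw [div_sub_div _ _ hw0.ne' (by positivity), div_le_div_iff₀ (by positivity) (by positivity)]
          nlinarith
        have h5 : 0 ≤ 2 * (K : ℝ) ^ 2 := by positivity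
        have h6 := mul_le_mul_of_nonneg_left h4 h5
        have h7 : 2 * ((K : ℝ) ^ 2 / (((w + 1 : ℕ) : ℝ)) ^ 2) = 2 * (K : ℝ) ^ 2 * (1 / (((w + 1 : ℕ) : ℝ)) ^ 2) := by ring
        rw [h7]
        linarith
      calc _ ≤ singP s (2 * K) * (Real.exp (-(2 * (K : ℝ) ^ 2 * (1 / (2 * K : ℝ) - 1 / w))) *
            Real.exp (-(2 * ((K : ℝ) ^ 2 / (((w + 1 : ℕ) : ℝ)) ^ 2)))) :=
            mul_le_mul_of_nonneg_left h3 (singP_pos ha _).le
        _ = (singP s (2 * K) * Real.exp (-(2 * (K : ℝ) ^ 2 * (1 / (2 * K : ℝ) - 1 / w)))) *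
            Real.exp (-(2 * ((K : ℝ) ^ 2 / (((w + 1 : ℕ) : ℝ)) ^ 2))) := by ring
        _ ≤ _ := mul_le_mul ih h2 (Real.exp_pos _).le (singP_pos ha _).le
    · rw [singP_not s hp]
      refine le_trans ?_ ih
      refine mul_le_mul_of_nonneg_left ?_ (singP_pos ha _).le
      rw [Real.exp_le_exp]
      have h5 : 0 ≤ 2 * (K : ℝ) ^ 2 := by positivity
      nlinarith

theorem singP_lower {K : ℕ} {s : Fin K → ℕ} (hK : 1 ≤ K) (ha : Adm s) {w : ℕ} (hw : 2 * K ≤ w) :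
    (Real.exp (-1) / 128 * Real.log K) ^ K ≤ singP s w := by
  refine le_trans ?_ (singP_large hK ha w hw)
  have hK0 : (0 : ℝ) < K := by exact_mod_cast hK
  have h0 : 0 ≤ Real.log K := Real.log_nonneg (by exact_mod_cast hK)
  have h1 : Real.exp (-(K : ℝ)) ≤ Real.exp (-(2 * (K : ℝ) ^ 2 * (1 / (2 * K : ℝ) - 1 / w))) := by
    rw [Real.exp_le_exp]
    have h2 : 2 * (K : ℝ) ^ 2 * (1 / (2 * K : ℝ) - 1 / w) = K - 2 * (K : ℝ) ^ 2 * (1 / w) := by
      field_simp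
    rw [h2]
    have : 0 ≤ 2 * (K : ℝ) ^ 2 * (1 / (w : ℝ)) := by positivity
    linarith
  have h2 : Real.exp (-1) ^ K = Real.exp (-(K : ℝ)) := by
    rw [← Real.exp_nat_mul]; congr 1; ring
  calc (Real.exp (-1) / 128 * Real.log K) ^ K = (Real.log K / 128) ^ K * Real.exp (-(K : ℝ)) := by
        rw [← h2, ← mul_pow]; congr 1; ring
    _ ≤ _ := mul_le_mul (singP_2K hK ha) h1 (Real.exp_pos _).le (singP_pos ha _).le

end Pool.Agent.Q145.SZ.SLOW

namespace Pool.Agent.Q145.SZ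

open Finset Filter

theorem t_SLOW : S_SLOW := by
  refine ⟨Real.exp (-1) / 128, by positivity, fun K s hK hs ha => ?_⟩
  obtain ⟨B, hB⟩ : ∃ B : ℕ, ∀ i, s i ≤ B := by
    refine ⟨∑ i, s i, fun i => ?_⟩
    exact single_le_sum (f := s) (fun i _ => Nat.zero_le _) (mem_univ i)
  have hanti : Antitone fun w => singP s (w + B) := by
    refine antitone_nat_of_succ_le fun w => ?_
    show singP s (w + 1 + B) ≤ singP s (w + B)
    have e : w + 1 + B = (w + B) + 1 := by ring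
    rw [e]
    by_cases hp : (w + B + 1).Prime
    · rw [SLOW.singP_prime s hp]
      refine mul_le_of_le_one_right (SLOW.singP_pos ha _).le ?_
      exact SLOW.loc_le_one hs hp fun i => by have := hB i; omega
    · rw [SLOW.singP_not s hp]
  have hbd : BddBelow (Set.range fun w => singP s (w + B)) := by
    refine ⟨0, ?_⟩
    rintro _ ⟨w, rfl⟩
    exact (SLOW.singP_pos ha _).le
  have h1 := tendsto_atTop_ciInf hanti hbd
  have h2 := (tendsto_add_atTop_iff_nat (f := singP s) B).1 h1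
  have h3 : sing s = ⨅ w, singP s (w + B) := by
    unfold sing
    exact h2.limUnder_eq
  rw [h3]
  refine ge_of_tendsto h2 ?_
  filter_upwards [eventually_ge_atTop (2 * K)] with w hw
  exact SLOW.singP_lower (by omega) ha hw

end Pool.Agent.Q145.SZ
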