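import Pool.Agent.Q145.SZ.Stm3
import Pool.Agent.Y568.FK.LD
import Pool.Agent.Y960.FK.Zfr

/-!
# ZR and PAGE (helper143): zero-free region for all characters, Landau-Page
-/

set_option autoImplicit false

namespace Pool.Agent.Q145.SZ

open Finset Filter Complex MeasureTheory Metric
open scoped Real
open Pool.Agent.W66 Pool.Agent.W66L Pool.Agent.Y960.FK

theorem t_ZR : S_ZR := by
  intro _
  obtain ⟨c1, hc1, hc1', h1⟩ := zfl
  obtain ⟨c2, hc2, h2⟩ := Pool.Agent.Y960.FK.t_ZFR Pool.Agent.Y568.FK.t_LD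
  refine ⟨min c1 c2, lt_min hc1 hc2, fun f _ χ hχ s hs hre => ?_⟩
  have hl : 0 < lq f s.im := by linarith [one_le_lq f s.im]
  have a1 : min c1 c2 / lq f s.im ≤ c1 / lq f s.im := div_le_div_of_nonneg_right (min_le_left _ _) hl.le
  have a2 : min c1 c2 / lq f s.im ≤ c2 / lq f s.im := div_le_div_of_nonneg_right (min_le_right _ _) hl.le
  by_cases hq : χ ^ 2 = 1
  · refine ⟨hq, ?_⟩
    have hT : 2 ≤ |s.im| + 2 := by linarith [abs_nonneg s.im]
    obtain ⟨β, hβ, hβ'⟩ := h2 f χ hq hχ (|s.im| + 2) hT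
    have hf : (1 : ℝ) ≤ f := by exact_mod_cast NeZero.one_le
    have hlog : Real.log (f * (|s.im| + 2)) ≤ lq f s.im := by
      unfold lq Pool.Agent.W66.ell
      rw [Real.log_mul (by positivity) (by positivity)]
      have : Real.log (|s.im| + 2) ≤ Real.log (|s.im| + 3) := Real.log_le_log (by positivity) (by linarith)
      linarith
    have hlog0 : 0 < Real.log (f * (|s.im| + 2)) := Real.log_pos (by nlinarith)
    have a3 : c2 / lq f s.im ≤ c2 / Real.log (f * (|s.im| + 2)) :=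
      div_le_div_of_nonneg_left hc2.le hlog0 hlog
    have := (hβ' s (by linarith) (by linarith) hs).1
    rw [this, Complex.ofReal_im]
  · exfalso
    have := h1 f χ hq s hs
    linarith

/-- the values of a real character at units -/
theorem val3 {q : ℕ} [NeZero q] {χ : DirichletCharacter ℂ q} (h2 : χ ^ 2 = 1) {n : ZMod q} (hn : IsUnit n) :
    χ n = 1 ∨ χ n = -1 := by
  have h1 : (χ n) ^ 2 = 1 := by
    rw [← MulChar.pow_apply' _ (by norm_num), h2, MulChar.one_apply hn]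
  exact sq_eq_one_iff.1 h1

/-- `(1 + χ₁)(1 + χ₂) ≥ 0` for the logarithmic derivatives -/
theorem comb4 {q : ℕ} [NeZero q] {χ₁ χ₂ : DirichletCharacter ℂ q} (h1 : χ₁ ^ 2 = 1) (h2 : χ₂ ^ 2 = 1)
    {σ : ℝ} (hσ : 1 < σ) :
    0 ≤ FF (1 : DirichletCharacter ℂ q) (σ + (0 : ℝ) * I) + FF χ₁ (σ + (0 : ℝ) * I) +
      FF χ₂ (σ + (0 : ℝ) * I) + FF (χ₁ * χ₂) (σ + (0 : ℝ) * I) := by
  have hre : 1 < ((σ : ℂ) + (0 : ℝ) * I).re := by simpa using hσ
  have s0 := cf_re_sum (1 : DirichletCharacter ℂ q) hre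
  have s1 := cf_re_sum χ₁ hre
  have s2 := cf_re_sum χ₂ hre
  have s3 := cf_re_sum (χ₁ * χ₂) hre
  rw [FF_eq _ hre, FF_eq _ hre, FF_eq _ hre, FF_eq _ hre, ← s0.tsum_add s1,
    ← (s0.add s1).tsum_add s2, ← ((s0.add s1).add s2).tsum_add s3]
  refine tsum_nonneg fun n => ?_
  rcases eq_or_ne n 0 with rfl | hn
  · simp
  rw [term_eq _ _ _ hn, term_eq _ _ _ hn, term_eq _ _ _ hn, term_eq _ _ _ hn, re_ofReal_mul,
    re_ofReal_mul, re_ofReal_mul, re_ofReal_mul, ← mul_add, ← mul_add, ← mul_add]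
  refine mul_nonneg (AA_nonneg σ n) ?_
  have e1 : (n : ℂ) ^ ((0 : ℝ) * I) = 1 := by simp
  rw [e1, div_one, div_one, div_one, div_one]
  by_cases hu : IsUnit (n : ZMod q)
  · rw [MulChar.one_apply hu, MulChar.mul_apply]
    rcases val3 h1 hu with h3 | h3 <;> rcases val3 h2 hu with h4 | h4 <;> rw [h3, h4] <;> norm_num
  · rw [MulChar.map_nonunit _ hu, MulChar.map_nonunit _ hu, MulChar.map_nonunit _ hu,
      MulChar.map_nonunit _ hu]
    simp

theorem t_PAGE : S_PAGE := by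
  intro _
  obtain ⟨C, hC, hLD, hLD0⟩ := Pool.Agent.Y568.FK.t_LD
  set a : ℝ := 1 / (20 * (C + 1)) with ha
  have ha0 : 0 < a := by positivity
  have ha1 : a ≤ 1 / 20 := by
    rw [ha]
    apply one_div_le_one_div_of_le (by norm_num)
    linarith
  refine ⟨a / 4, by positivity, fun r₁ r₂ _ _ χ₁ χ₂ h1 h2 n1 n2 hne β₁ β₂ z1 z2 => ?_⟩
  by_contra hcon
  push Not at hcon
  obtain ⟨hb1, hb2⟩ := lt_min_iff.1 hcon
  set l : ℝ := Real.log ((r₁ : ℝ) * r₂) with hl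
  have hr : ∀ (r : ℕ) [NeZero r] (χ : DirichletCharacter ℂ r), χ ≠ 1 → (2 : ℝ) ≤ r := by
    intro r _ χ hχ
    have h0 : r ≠ 0 := NeZero.ne r
    have h3 : r ≠ 1 := fun h => hχ (DirichletCharacter.level_one' χ h)
    exact_mod_cast (by omega : 2 ≤ r)
  have hr1 := hr r₁ χ₁ n1
  have hr2 := hr r₂ χ₂ n2
  have hl1 : Real.log 4 ≤ l := Real.log_le_log (by norm_num) (by nlinarith)
  have hl4 : (1.38 : ℝ) < Real.log 4 := by
    have : Real.log 4 = 2 * Real.log 2 := by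
      rw [show (4 : ℝ) = 2 ^ 2 by norm_num, Real.log_pow]
      norm_num
    rw [this]
    have := Real.log_two_gt_d9
    linarith
  have hl0 : 0 < l := by linarith
  have d1 : r₁ ∣ r₁ * r₂ := Nat.dvd_mul_right r₁ r₂
  have d2 : r₂ ∣ r₁ * r₂ := Nat.dvd_mul_left r₂ r₁
  have : NeZero (r₁ * r₂) := ⟨mul_ne_zero (NeZero.ne r₁) (NeZero.ne r₂)⟩
  set ψ₁ := DirichletCharacter.changeLevel d1 χ₁ with hψ1
  set ψ₂ := DirichletCharacter.changeLevel d2 χ₂ with hψ2
  have q1 : ψ₁ ^ 2 = 1 := by rw [hψ1, ← map_pow, h1, map_one]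
  have q2 : ψ₂ ^ 2 = 1 := by rw [hψ2, ← map_pow, h2, map_one]
  have m1 : ψ₁ ≠ 1 := fun h => n1 ((DirichletCharacter.changeLevel_eq_one_iff d1).1 h)
  have m2 : ψ₂ ≠ 1 := fun h => n2 ((DirichletCharacter.changeLevel_eq_one_iff d2).1 h)
  have m3 : ψ₁ * ψ₂ ≠ 1 := by
    intro h
    apply hne
    have : ψ₁ * ψ₂ * ψ₂ = ψ₂ := by rw [h, one_mul]
    rw [mul_assoc, ← sq, q2, mul_one] at this
    exact this
  have Z1 : DirichletCharacter.LFunction ψ₁ (β₁ : ℂ) = 0 := by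
    rw [hψ1, DirichletCharacter.LFunction_changeLevel d1 χ₁ (Or.inl n1), z1, zero_mul]
  have Z2 : DirichletCharacter.LFunction ψ₂ (β₂ : ℂ) = 0 := by
    rw [hψ2, DirichletCharacter.LFunction_changeLevel d2 χ₂ (Or.inl n2), z2, zero_mul]
  have L1 : β₁ < 1 := by
    by_contra hc
    exact DirichletCharacter.LFunction_ne_zero_of_one_le_re χ₁ (Or.inl n1)
      (by simpa using not_lt.1 hc) z1
  have L2 : β₂ < 1 := by
    by_contra hc
    exact DirichletCharacter.LFunction_ne_zero_of_one_le_re χ₂ (Or.inl n2)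
      (by simpa using not_lt.1 hc) z2
  set σ : ℝ := 1 + a / l with hσ
  have hal : a / l ≤ 1 / 20 := by
    rw [div_le_iff₀ hl0]
    nlinarith
  have hal0 : 0 < a / l := by positivity
  have hσ1 : 1 < σ := by linarith
  set s : ℂ := (σ : ℂ) + (0 : ℝ) * I with hs
  have hsre : s.re = σ := by simp [hs]
  have hsim : s.im = 0 := by simp [hs]
  have hcomb := comb4 q1 q2 hσ1
  rw [← hs] at hcomb
  have hlog : C * Real.log (((r₁ * r₂ : ℕ) : ℝ) * (|s.im| + 3)) ≤ 2 * C * l := by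
    rw [hsim, abs_zero, zero_add, Nat.cast_mul, Real.log_mul (by positivity) (by norm_num)]
    have h3 : Real.log 3 ≤ l := by
      have : Real.log 3 ≤ Real.log 4 := Real.log_le_log (by norm_num) (by norm_num)
      linarith
    have : Real.log ((r₁ : ℝ) * r₂) + Real.log 3 ≤ 2 * l := by linarith
    calc C * (Real.log ((r₁ : ℝ) * r₂) + Real.log 3) ≤ C * (2 * l) := mul_le_mul_of_nonneg_left this hC
      _ = _ := by ring
  have key : ∀ β : ℝ, β < 1 → 1 - a / 4 / l < β → ‖s - (β : ℂ)‖ ≤ 1 / 8 ∧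
      4 / 5 * (l / a) ≤ (1 / (s - (β : ℂ))).re := by
    intro β hβ hβ2
    have e : s - (β : ℂ) = ((σ - β : ℝ) : ℂ) := by
      apply Complex.ext <;> simp [hs]
    have h5 : a / 4 / l = 1 / 4 * (a / l) := by ring
    rw [h5] at hβ2
    have h6 : 0 < σ - β := by linarith
    have h7 : σ - β ≤ 5 / 4 * (a / l) := by rw [hσ]; linarith
    refine ⟨?_, ?_⟩
    · rw [e, Complex.norm_real, Real.norm_eq_abs, abs_of_pos h6]
      linarith
    · rw [e, ← Complex.ofReal_one, ← Complex.ofReal_div, Complex.ofReal_re, le_div_iff₀ h6]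
      have h8 : 4 / 5 * (l / a) * (5 / 4 * (a / l)) = 1 := by
        field_simp
      calc 4 / 5 * (l / a) * (σ - β) ≤ 4 / 5 * (l / a) * (5 / 4 * (a / l)) :=
            mul_le_mul_of_nonneg_left h7 (by positivity)
        _ = 1 := h8
  obtain ⟨k1, k1'⟩ := key β₁ L1 hb1
  obtain ⟨k2, k2'⟩ := key β₂ L2 hb2
  have hs1 : 1 < s.re := by rw [hsre]; exact hσ1
  have hs2 : s.re ≤ 3 / 2 := by rw [hsre]; linarith
  have f0 := hLD0 (r₁ * r₂) s hs1 hs2
  have f1 := (hLD (r₁ * r₂) ψ₁ m1 s hs1 hs2).2.1 β₁ Z1 k1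
  have f2 := (hLD (r₁ * r₂) ψ₂ m2 s hs1 hs2).2.1 β₂ Z2 k2
  have f3 := (hLD (r₁ * r₂) (ψ₁ * ψ₂) m3 s hs1 hs2).1
  have e0 : (1 / (s - 1)).re = l / a := by
    have e : s - 1 = ((a / l : ℝ) : ℂ) := by
      apply Complex.ext <;> simp [hs, hσ]
    rw [e, ← Complex.ofReal_one, ← Complex.ofReal_div, Complex.ofReal_re, one_div_div]
  rw [e0] at f0
  unfold Pool.Agent.Y960.FK.FF at hcomb
  have h9 : 3 / 5 * (l / a) ≤ 8 * C * l := by linarith
  have h10 : l / a = 20 * (C + 1) * l := by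
    rw [ha]
    field_simp
  rw [h10] at h9
  nlinarith

end Pool.Agent.Q145.SZ
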