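import Pool.Agent.Q145.SZ.Stm2
import Pool.Agent.H410R2.Iface

/-!
# Project SZ (helper145). Part 3: assembly of the pair correlations, zeros, necessity
-/

set_option autoImplicit false

namespace Pool.Agent.Q145.SZ

open Finset Filter Complex MeasureTheory Metric
open scoped Real
open Pool.Agent.W66 Pool.Agent.W66L

/-- **PWB**: `e^{z/2} ≤ PW z ≤ 4^z` (Chebyshev; upper bound `primorial_le_four_pow`, lower bound: `θ(z) ≥ z/2` for large `z`, in Mathlib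
(`Chebyshev`) or the library). -/
def S_PWB : Prop := (∀ z : ℕ, (PW z : ℝ) ≤ 4 ^ z) ∧ ∃ z₀ : ℕ, ∀ z : ℕ, z₀ ≤ z → Real.exp ((z : ℝ) / 2) ≤ PW z

/-- **PWC** (Mertens upper bounds): `vv (PW z) = ∏_{p ≤ z} (1 - 1/p)⁻¹ ≤ C log z`, `C18 (PW z) ≤ exp (18 ∑_{p ≤ z} 1/p) ≤ C (log z)^18`. -/
def S_PWC : Prop := ∃ C : ℝ, 0 < C ∧ ∀ z : ℕ, 2 ≤ z → vv (PW z) ≤ C * Real.log z ∧ C18 (PW z) ≤ C * Real.log z ^ 18

/-- **US**: for `n ≡ m` mod 2, `|Us n m| = ∏_{p ≤ z} (p - ν_p) ≥ PW z / z²` (`ν_2 = 1`, `ν_p ≤ 2`;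
`∏_{3 ≤ p ≤ z} (1 - 2/p) ≥ ∏_{k=3}^{z} (1 - 2/k) = 2/(z(z-1))`, CRT); for `n ≢ m` mod 2 the set `Us` is empty. Also `SP z X h ≥ 1/2` for `z ≥ 3`. -/
def S_US : Prop := (∀ z n m : ℕ, 2 ≤ z → n % 2 = m % 2 → (PW z : ℝ) / (z : ℝ) ^ 2 ≤ ((Us (n : ZMod (PW z)) (m : ZMod (PW z))).card : ℝ)) ∧
  (∀ z n m : ℕ, 2 ≤ z → n % 2 ≠ m % 2 → Us (n : ZMod (PW z)) (m : ZMod (PW z)) = ∅) ∧
  ∀ z X h : ℕ, 3 ≤ z → 1 / 2 ≤ SP z X h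

open Classical in
/-- **H2** (second moment input; from ENG, MAJ, MIN, MODA, MODC, MODE, US, PWB). Proof. `L = log X`, `W = PW z`, `b = 2A + 12`, `Q = W^b`, `R = F = Q W`, `A' = 2A + 16`; `C₁` large. By PWB
`W ≥ e^{z/2} ≥ L^{C₁/2}` and `F^{40} ≤ 4^{40 (b+1) z} ≤ X`. Fix `n ∈ (X, 2X]`. ENG with `M = 3X`, `F u = wt u [n < u ≤ n + X]`, `F' u = md W R u [n < u ≤ n + X]`, `G u = wt u [X < u ≤ 3X]`,
`G' u = md W R u [X < u ≤ 3X]`, `E = Maj Q W X` (closed; `qW(α + 1/W) = qWα + q`). `δ = 2 X L^9/√Q ≤ X/W^{b/2 - 1}` by MIN and MODA. `DF, DG ≤ X/L^{A'-2}` by MAJ. `EG ≤ (3X/W + 1)(2L)² ≤ 20 X L²/W`. `EF`: MODC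
with `m = n`, `SR W R 0 ≤ ∑_{q ≤ R} 1/φ(q) ≤ L²`, `vv W ≤ z ≤ L` (telescoping), so `EF ≤ X L⁵/W`; also `∑ G² ≤ 12 X L² · 4`, `∑ G'² ≤ X L⁶`. For `m ∈ (X, 2X]`, `h = m - n`, `a = n + β`:
`cor M W F G a h = ∑_{s ∈ cls X β} wt (n+s) wt (m+s)` and the same for `F'`, `G'` with `md`. `E`: the pairs `(n, m)` with `∑_a |R₂ a (m - n)|² > X²/W³` or `|SR W R (dst n m) - SP z X (dst n m)| > L^{-A-2}`.
For each `n` the number of the first kind is at most `2δ²(X L⁷)/(X²/W³) ≤ X L⁸/W^{b-5} ≤ X/(2W^{A+1})`, of the second kind (MODE, two `m` for each `h`) at most `2 L^{A+2} X/√R ≤ X/(2W^{A+1})`. So `|E| ≤ X²/W^A`.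
For `(n, m) ∉ E`, `n ≢ m` mod 2: `Us = ∅`. Otherwise, for `β ∈ Us`, `v = vv W`, `c = |cls X β|`, `|c - X/W| ≤ 1`, `c ≥ X/(2W)`:
`c (B2 - v² SP) = (R₁ + R₂) + [∑ md md - (X/W) v² SR] + (X/W) v² (SR - SP) + (X/W - c) v² SP`, so
`∑_{Us} (B2 - v²SP)² ≤ 16 (W/X)² (2·100 X² L^{9-A'}/W + 2X²/W³ + |Us| 4 v⁴R⁸ + |Us| (X/W)² v⁴ L^{-2A-4} + |Us| v⁴ SP²)`, and with `|Us| ≥ W/z² ≥ W/L²`, `SP ≥ 1/2`, `v ≥ 1` each of the five terms is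
at most `(1/5) L^{-2A} v⁴ SP² |Us|`. -/
def S_H2 : Prop := S_ENG → S_MAJ → S_GS → S_MODB → S_MIN → S_MODA → S_MODC → S_MODE → S_US → S_PWB → ∀ A : ℕ, ∃ (b A' C₁ X₀ : ℕ), ∀ z X : ℕ, X₀ ≤ X →
  C₁ * Real.log (Real.log X) ≤ z → C₁ * (z : ℝ) ≤ Real.log X → MSq A' X (PW z ^ (b + 1)) →
  ∃ E : Finset (ℕ × ℕ), (E.card : ℝ) ≤ (X : ℝ) ^ 2 / (PW z : ℝ) ^ A ∧
    ∀ n ∈ Ioc X (2 * X), ∀ m ∈ Ioc X (2 * X), n ≠ m → (n, m) ∉ E →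
      ∑ β ∈ Us (n : ZMod (PW z)) (m : ZMod (PW z)), (B2 X n m β - vv (PW z) ^ 2 * SP z X (dst n m)) ^ 2 ≤
        (1 / Real.log X ^ A * vv (PW z) ^ 2 * SP z X (dst n m)) ^ 2 * (Us (n : ZMod (PW z)) (m : ZMod (PW z))).card

/-! ## Zeros -/

/-- **DL2**: `DL_re` (`W66/LA.lean`) for finitely many zeros at once (same proof; the sum over the multiset of zeros of `landau_re` dominates the sum
over a finset of zeros, because all terms have nonnegative real part and each zero occurs). -/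
def S_DL2 : Prop := ∃ K : ℝ, 0 < K ∧ ∀ (Q : ℕ) [NeZero Q] (χ : DirichletCharacter ℂ Q), χ ≠ 1 → ∀ t σ : ℝ, 1 < σ → σ ≤ 2 →
  ∀ S : Finset ℂ, (∀ ρ ∈ S, ρ ∈ closedBall (⟨2, t⟩ : ℂ) (3 / 2) ∧ χ.LFunction ρ = 0) →
  ∑ ρ ∈ S, (1 / ((⟨σ, t⟩ : ℂ) - ρ)).re - K * lq Q t ≤ (DX χ ⟨σ, t⟩).re

/-- **ZR**: classical zero-free region, all characters. Proof. `χ² ≠ 1`: `zfl`. Let `χ² = 1 ≠ χ`, `ρ = b + iγ` a zero, `γ ≠ 0`, `l = lq f γ`. Constants `K` (DL2, `D_re`) and small `δ`, then `a ≪ δ²`.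
(a) `|γ| ≥ δ/l`: `three_four_one_char χ`, `σ = 1 + a/l`: the third term is `∑_{(n,f)=1} Λ(n) n^{-σ} cos(2γ log n) ≤ Re(-ζ'/ζ(σ + 2iγ)) + ∑_{p | f} log p/(p^σ - 1) · 1 ≤ (σ-1)/((σ-1)² + 4γ²) + C l ≤ (a/(4δ²) + C) l` (prime
powers of `p | f` contribute at most `∑_{p|f} log p/(p-1) ≤ log f`-ish `≤ 2 l`). With DL2 for the single zero `ρ` (if `b ≥ 1/2`): `4/(σ - b) ≤ 3/(σ - 1) + C' l + (a/(4δ²)) l`, so with `b > 1 - c/l`: `4/(a + c) < 3/a + C' + a/(4δ²)`, false for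
`c ≤ a/7` if `a (C' + a/(4δ²)) < 1/2`. (b) `0 < |γ| < δ/l`: DL2 at `t = 0`, `σ = 1 + 2δ/l₀`, with the two zeros `ρ`, `ρ̄` (`χ` real: `L(ρ̄) = 0`; conjugation symmetry, e.g. through the Dirichlet series and the identity theorem, or
`LFunction` of `χ⁻¹ = χ`): `2 Re 1/(σ - ρ) - K l₀ ≤ Re DX χ σ = -∑ χ(n)Λ(n)n^{-σ} ≤ ∑ Λ(n) n^{-σ} ≤ 1/(σ-1) + C`. As `σ - b ≥ 2δ/l₀·(1 - o) ≥ 1.9 |γ|`, `2(σ - b)/((σ-b)² + γ²) ≥ 1.5/(σ - b) ≥ 1.5 l/(2δ + c)(..)`, while the right side is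
`l/(2δ) + (K + C) l`: false for `c ≤ δ/10`, `δ (K + C) ≤ 1/20` (`l` and `l₀ = lq f 0` differ by at most a factor `1 + O(1)/log`; since `|γ| ≤ δ ≤ 1`, `ell γ ≤ ell 0 + 1/3`; choose `σ = 1 + 2δ/l`). -/
def S_ZR : Prop := S_DL2 → ∃ c : ℝ, 0 < c ∧ ∀ (f : ℕ) [NeZero f] (χ : DirichletCharacter ℂ f), χ ≠ 1 → ∀ s : ℂ, χ.LFunction s = 0 →
  1 - c / lq f s.im < s.re → χ ^ 2 = 1 ∧ s.im = 0

/-- **PAGE** (Landau-Page). Proof. Let `ψ₁`, `ψ₂` be `χ₁`, `χ₂` lifted to the modulus `q = r₁r₂`; `ψ₁ψ₂ ≠ 1`. For `1 < σ ≤ 2`: `∑_{n} (1 + ψ₁(n))(1 + ψ₂(n)) Λ(n) n^{-σ} ≥ 0`, i.e.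
`-ζ'/ζ(σ) - Re DX ψ₁ σ - Re DX ψ₂ σ - Re DX (ψ₁ψ₂) σ ≥ 0` (`Λ`-series over all `n`; `1 + ψ` is `≥ 0`). `-ζ'/ζ(σ) ≤ 1/(σ-1) + C` (`D_re`), `Re DX ψ_i σ ≥ 1/(σ - β_i) - K lq q 0` (DL2 or `DL_re`; `L(β_i, ψ_i) = 0`
since `ψ_i` is induced by `χ_i`: Euler factors, `DirichletCharacter.LFunction_changeLevel`), `Re DX(ψ₁ψ₂) ≥ -K lq q 0`. With `l = log (r₁r₂) ≥ log 9`, `lq q 0 ≤ 2 l`: `1/(σ-β₁) + 1/(σ-β₂) ≤ 1/(σ-1) + C' l`. If both `β_i > 1 - c/l`, `σ = 1 + a/l`: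
`2/(a + c) < 1/a + C'`, false for `c ≤ a/2`, `a C' ≤ 1/4`. (`β_i ≤ 1/2` is trivial.) -/
def S_PAGE : Prop := S_DL2 → ∃ c : ℝ, 0 < c ∧ ∀ (r₁ r₂ : ℕ) [NeZero r₁] [NeZero r₂] (χ₁ : DirichletCharacter ℂ r₁) (χ₂ : DirichletCharacter ℂ r₂),
  χ₁ ^ 2 = 1 → χ₂ ^ 2 = 1 → χ₁ ≠ 1 → χ₂ ≠ 1 →
  DirichletCharacter.changeLevel (Nat.dvd_mul_right r₁ r₂) χ₁ ≠ DirichletCharacter.changeLevel (Nat.dvd_mul_left r₂ r₁) χ₂ →
  ∀ β₁ β₂ : ℝ, χ₁.LFunction β₁ = 0 → χ₂.LFunction β₂ = 0 → min β₁ β₂ ≤ 1 - c / Real.log ((r₁ : ℝ) * r₂)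

/-- **GOOD** (arbitrarily large levels without exceptional zeros; from ZR, PAGE). Proof. Let `c` be small compared with the constants of ZR, PAGE. Suppose that all `Q ≥ Q₀` fail. By ZR (`lq f ≤ lq Q`) the failure at `Q` gives a primitive real
`χ_Q ≠ 1` mod `r_Q ≤ Q` and a real zero `β_Q > 1 - c/lq Q 0 ≥ 1 - c / log Q`. For `Q' = Q²` both `β_Q, β_{Q'} > 1 - 2c/log Q'`, conductors `≤ Q'`: PAGE (constant `c_P > 4c`, `log (r r') ≤ 2 log Q'`) forces the two characters to have the same lift, hence (primitive) `r_Q = r_{Q'}` and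
`χ_Q = χ_{Q'}` (equal conductors; `changeLevel` is injective). So with `Q_k = Q₀^{2^k}` all characters are the same `χ`, and `β_{Q_k} → 1` are zeros of `L(s, χ)`: `L(1, χ) = 0` by continuity, a contradiction. (Work with the pair `(r, χ)` as an element of a sigma type.) -/
def S_GOOD : Prop := S_DL2 → S_ZR → S_PAGE → ∃ c : ℝ, 0 < c ∧ ∀ Q₀ : ℕ, ∃ Q : ℕ, Q₀ ≤ Q ∧ ∀ (f : ℕ) [NeZero f], 1 < f → f ≤ Q → ∀ χ : DirichletCharacter ℂ f, χ.IsPrimitive →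
  ∀ s : ℂ, χ.LFunction s = 0 → s.re ≤ 1 - c / lq Q s.im

/-- **SIEG**: Siegel's theorem for zeros. Proof. `Pool.Agent.H307R2.siegel : Siegel` gives `‖L(1, χ)‖ ≥ c f^{-ε/2}`. For `1 - 1/log f ≤ σ ≤ 1`: `|L'(σ, χ)| ≤ C (log f)²` (partial summation with `|∑_{n ≤ x} χ(n)| ≤ f`: terms
`n ≤ f` give `∑ (log n) n^{-σ} ≤ C log² f`, the tail `≤ C log f`; or Cauchy's formula on a circle of radius `1/log f` and `|L(s, χ)| ≤ C log f` for `Re s ≥ 1 - 2/log f`, `|s| ≤ 3`, which follows from `H307R2.LFunction_eq`, `TM_norm_le` with `N = f`). If `L(β, χ) = 0` and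
`β > 1 - 1/log f`: `c f^{-ε/2} ≤ |L(1) - L(β)| ≤ (1 - β) C log² f`, so `1 - β ≥ c' f^{-ε}`. Otherwise `1 - β ≥ 1/log f ≥ c' f^{-ε}`. -/
def S_SIEG : Prop := ∀ ε : ℝ, 0 < ε → ∃ c : ℝ, 0 < c ∧ ∀ (f : ℕ) [NeZero f] (χ : DirichletCharacter ℂ f), χ.IsPrimitive → χ ^ 2 = 1 → χ ≠ 1 →
  ∀ β : ℝ, χ.LFunction β = 0 → β ≤ 1 - c * (f : ℝ) ^ (-ε)

/-! ## Necessity -/

/-- **FEW** (few primes with `χ(p) = 1`). Proof. `σ = 1 + 1/Y`. `∑_p (1 + χ(p)) (log p) p^{-σ} ≤ ∑_n (1 + χ(n)) Λ(n) n^{-σ} + C log-free terms`: since `1 + χ(n) ≥ 0` for all `n`, simply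
`∑_p (1+χ(p)) (log p) p^{-σ} ≤ ∑_n (1 + χ(n))Λ(n) n^{-σ} = -ζ'/ζ(σ) - Re DX χ σ ≤ 1/(σ-1) + C - 1/(σ - β) + K lq r 0` (`D_re`, `DL_re`; `β ≥ 1/2` as `(1-β) Y ≤ 1/C`)
`≤ (1 - β) Y² + C' (log r + 1)` (`1/(σ-1) - 1/(σ-β) = (1-β)/((σ-1)(σ-β)) ≤ (1-β) Y²`). If the conclusion fails for every `X' = 3^j`, `Y/2 ≤ log X' ≤ Y - 2`, then each block `(X', 3X']` contributes at least
`2 · (ε X'/log X') · (log X')/(3X') e^{-1}` to the left side, and there are at least `Y/3` blocks (`Y` large): `(2ε/9) e^{-1} Y ≤ (1-β) Y² + C'(log r + 1) ≤ Y/C + C' Y/C`, false for `C` large. -/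
def S_FEW : Prop := ∀ ε : ℝ, 0 < ε → ∃ (C Y₀ : ℝ), 0 < C ∧ ∀ (r : ℕ) [NeZero r] (χ : DirichletCharacter ℂ r), χ ^ 2 = 1 → χ ≠ 1 → ∀ β Y : ℝ, Y₀ ≤ Y → χ.LFunction β = 0 → β < 1 →
  C * ((1 - β) * Y) ≤ 1 → C * (Real.log r + 1) ≤ Y →
  ∃ X : ℕ, Y / 2 ≤ Real.log X ∧ Real.log X ≤ Y ∧
    (((Ioc X (3 * X)).filter fun p : ℕ => p.Prime ∧ χ (p : ZMod r) = 1).card : ℝ) ≤ ε * X / Real.log X

/-- **SLOW** (lower bound for the singular series). Proof. `sing s = ∏_p loc s p` (convergence for injective `s` as in FAR). `p ≤ K`: `loc ≥ (1/p)(1 - 1/p)^{-K}`; `∏_{p ≤ K} (1 - 1/p)^{-K} ≥ (c log K)^K` (Mertens lower bound, e.g.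
`∏_{p ≤ K} (1 - 1/p)^{-1} ≥ ∑_{n ≤ K} 1/n ≥ log K`), `∏_{p ≤ K} 1/p ≥ 4^{-K}`. `K < p ≤ 2K`: `loc ≥ 1 - K/p ≥ 1/(2K)`, at most `C K/log K` primes (Chebyshev), so the product is `≥ (2K)^{-CK/log K} ≥ e^{-C'K}`.
`p > 2K`: `loc ≥ (1 - K/p)(1 - 1/p)^{-K} ≥ exp(-C K²/p²)` and `∑_{p > 2K} K²/p² ≤ K`. -/
def S_SLOW : Prop := ∃ c : ℝ, 0 < c ∧ ∀ (K : ℕ) (s : Fin K → ℕ), 2 ≤ K → Function.Injective s → Adm s → (c * Real.log K) ^ K ≤ sing s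

/-- **PADM** (lower bound for the number of admissible tuples). Proof. If all `s_i` are prime to `PW K` then `s` misses the class `0` mod every `p ≤ K`, and for `p > K` it cannot occupy all classes; so `s ∈ AT X K`. The number of `1 ≤ s ≤ X` prime to
`W = PW K` is at least `(X/W - 1) φ(W) ≥ (X/2)(φ(W)/W) ≥ c X/log K` (Mertens upper bound of `W/φ(W)`). -/
def S_PADM : Prop := ∃ c : ℝ, 0 < c ∧ ∀ X K : ℕ, 2 ≤ K → 2 * PW K ≤ X → (c / Real.log K * X) ^ K ≤ ((AT X K).card : ℝ)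

open Classical in
/-- **FM** (first moment of the tuples with many rare primes). Proof. Fix `n`. The map `s ↦ (n + s_i)_i` is injective into `((X, 3X])^K`. If at least `K/4` of the `n + s_i` lie in `P`, choose a set `I` of exactly `⌈K/4⌉` such indices: the number of `s` is at most
`∑_I |P|^{|I|} π(3X)^{K - |I|} ≤ 2^K (ε X/log X)^{⌈K/4⌉} (6X/log X)^{K - ⌈K/4⌉} ≤ (12 ε^{1/4} X/log X)^K` (`π(3X) ≤ 6X/log X` for large `X`, any constant in place of `6` is fine, `ε ≤ 1`). Sum over the `X` values of `n`. -/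
def S_FM : Prop := ∃ (C : ℝ) (X₀ : ℕ), 0 < C ∧ ∀ (X K : ℕ) (ε : ℝ) (P : Finset ℕ), X₀ ≤ X → 0 < ε → ε ≤ 1 → (P.card : ℝ) ≤ ε * X / Real.log X →
  ∑ s ∈ Fintype.piFinset (fun _ : Fin K => Icc 1 X),
    (((Ioc X (2 * X)).filter fun n => (∀ i, (n + s i).Prime) ∧ K ≤ 4 * (univ.filter fun i => n + s i ∈ P).card).card : ℝ) ≤
  X * (C * ε ^ (1 / 4 : ℝ) * X / Real.log X) ^ K

open Classical in
/-- **COIN** (every class sees many `χ = 1`). Proof. Let `W'` be the product of the primes `p ≤ K` not dividing `r`, `M = W' r`. Modulo `M` the coordinates of a uniform `s ∈ [1, X]^K` are independent, each uniform up to a factor `1 + θ`, `|θ| ≤ 2M/X`, so all counts below are those of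
the uniform law on `(ℤ/M)^K ≅ (ℤ/W')^K × (ℤ/r)^K` times `X^K`, up to factors between `(1 - 2M/X)^K ≥ 3/4` and `(1 + 2M/X)^K ≤ 3/2` (`16 (K+1) M ≤ X`). `s ∈ AT X K` iff `s` is admissible at all `p ≤ K` (as `nu s p ≤ K < p` for `p > K`): a condition on `s` mod `W'` (probability `P'`) and an
independent condition on `s` mod `r` (at the `p ≤ K` dividing `r`), the latter implied by: the event that all `n + s_i` are prime to `r` (the class `-n` is missed), which has probability `(φ(r)/r)^K`. So `|AT| ≥ (3/4) X^K P' (φ(r)/r)^K`. The event in question has probability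
`P' · (φ(r)/r)^K · P(Bin(K, 1/2) < K/4)`, since `χ` is `1` on exactly half of the units of `ℤ/r`; and `P(Bin(K,1/2) < K/4) ≤ e^{-K/8}` (Hoeffding: `E e^{-λ∑(x_i - 1/2)} ≤ e^{λ²K/8}`, `cosh (λ/2) ≤ e^{λ²/8}`, with `λ = 1`: `e^{K/8 - K/4}`). Total `≤ 2 e^{-K/8} |AT|`. -/
def S_COIN : Prop := ∀ (r : ℕ) [NeZero r] (χ : DirichletCharacter ℂ r), χ ^ 2 = 1 → χ ≠ 1 → ∀ X K n : ℕ, 16 * (K + 1) * (PW K * r) ≤ X →
  (((AT X K).filter fun s => (∀ i, (n + s i).Coprime r) ∧ 4 * (univ.filter fun i => χ ((n + s i : ℕ) : ZMod r) = 1).card < K).card : ℝ) ≤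
    2 * Real.exp (-((K : ℝ) / 8)) * (AT X K).card

end Pool.Agent.Q145.SZ
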