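import Pool.Agent.Q111.SZ.LAW1
import Pool.Agent.Q111.SZ.LOC
import Pool.Agent.Q111.SZ.CRT
import Pool.Agent.Q58.SZ.Law2
import Pool.Agent.Q98.SZ.MOM1
import Pool.Agent.Q58.SZ.Mom2
import Pool.Agent.Q58.SZ.Mbs
import Pool.Agent.Q111.SZ.SQ3
import Pool.Agent.Q261.SZ.HS
import Pool.Agent.Q145.SZ.SIEVE
import Pool.Agent.Q98.SZ.LM
import Pool.Agent.Q261.SZ.VAR
import Pool.Agent.Q261.SZ.FAR
import Pool.Agent.Q261.SZ.TAIL
import Pool.Agent.Q58.SZ.Trans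
import Pool.Agent.Q151.SZ.Ms
import Pool.Agent.Q151.SZ.Hyb
import Pool.Agent.Q151.SZ.Mbx
import Pool.Agent.Q151.SZ.Pxb
import Pool.Agent.Q151.SZ.Dxb
import Pool.Agent.Q151.SZ.Lsb
import Pool.Agent.Q151.SZ.Modb
import Pool.Agent.Q145.SZ.SHARP
import Pool.Agent.Q145.SZ.GS
import Pool.Agent.Q145.SZ.MODA
import Pool.Agent.Q190.SZ.ModC
import Pool.Agent.Q190.SZ.Eng
import Pool.Agent.Q98.SZ.H1
import Pool.Agent.Q111.SZ.PWB
import Pool.Agent.Q145.SZ.US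
import Pool.Agent.Q145.SZ.Dl2
import Pool.Agent.Q145.SZ.Zr
import Pool.Agent.Q145.SZ.Good
import Pool.Agent.Q177.SZ.SIEG
import Pool.Agent.Q177.SZ.FEW
import Pool.Agent.Q145.SZ.SLOW
import Pool.Agent.Q247.SZ.Fm
import Pool.Agent.Q247.SZ.Coin
import Pool.Agent.Q272.SZ.MIN
import Pool.Agent.Q272.SZ.MODE
import Pool.Agent.Q272.SZ.PWC
import Pool.Agent.Q272.SZ.MAJ
import Pool.Agent.Q14.SZ.H2T
import Pool.Agent.Q145.SZ.Nec4
import Pool.Agent.Q145.SZ.Dich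

/-!
# Project SZ: assembly of all parts
-/

set_option autoImplicit false

namespace Pool.Agent.Q145.SZ

open Finset Filter
open Pool.Agent.Q111.SZ Pool.Agent.Q58.SZ Pool.Agent.Q177.SZ

theorem pxb' : S_PXB' := t_PXB t_DXB

theorem ms' : S_MS' := t_MS t_HYB t_MBX pxb' t_LSB t_SHARP

theorem law2' : S_LAW2' := t_LAW2 (t_CRT t_LOC)

theorem hs' : S_HS' := t_HS t_SQ3

theorem tail' : S_TAIL' := t_TAIL t_VAR t_LM t_SQ3 t_FAR

theorem zr' : S_ZR' := t_ZR t_DL2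

theorem good' : ∃ c : ℝ, 0 < c ∧ ∀ Q₀ : ℕ, ∃ Q : ℕ, Q₀ ≤ Q ∧ GoodQ c Q := t_GOOD t_DL2 t_ZR t_PAGE

theorem suf' : S_SUF :=
  suf t_LAW1 law2' t_MOM1 t_MOM2 hs' t_SIEVE t_PWB t_PWC t_US t_MBS t_TRANS tail' ms' t_H1
    (t_H2 t_ENG t_MAJ t_GS t_MODB t_MIN t_MODA t_MODC t_MODE t_US t_PWB)

/-- convergence of the singular series -/
theorem series_conv (K : ℕ) (s : Fin K → ℕ) (hs : Function.Injective s) (h1 : ∀ i, 1 ≤ s i) (ha : Adm s) :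
    Tendsto (singP s) atTop (nhds (sing s)) ∧ 0 < sing s := by
  set X : ℕ := 3 + ∑ i, s i with hX
  have hsX : ∀ i, s i ≤ X := fun i => by
    have : s i ≤ ∑ i, s i := Finset.single_le_sum (f := s) (fun _ _ => Nat.zero_le _) (mem_univ i)
    omega
  obtain ⟨Y, hY⟩ := exists_nat_ge (max (8 * (K : ℝ) ^ 2) (8 * (K : ℝ) ^ 2 * Real.log X))
  have hY1 : 8 * K ^ 2 ≤ Y := by
    have := (le_max_left _ _).trans hY
    exact_mod_cast this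
  obtain ⟨-, h2, h3, -⟩ := t_FAR X Y K s (by omega) hY1 ((le_max_right _ _).trans hY) (fun i => ⟨h1 i, hsX i⟩) hs (fun p hp _ => ha p hp)
  exact ⟨h3, h2⟩

theorem lbp_of_hlk {κ' : ℝ} (hκ' : 0 < κ') (h : ∀ ε : ℝ, 0 < ε → ∀ᶠ X : ℕ in atTop, HLK X ⌊Real.log X ^ κ'⌋₊ ε) : LBP κ' := by
  classical
  refine ⟨2, 1 / 2, by norm_num, by norm_num, ?_⟩
  filter_upwards [h (1 / 2) (by norm_num), (K_tendsto hκ').eventually_ge_atTop 1, ll_tendsto.eventually_ge_atTop 64] with X h1 h2 h3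
  obtain ⟨hL1, hX1, -⟩ := ll_conseq (M := 64) (by norm_num) h3
  set K := ⌊Real.log X ^ κ'⌋₊ with hK
  unfold HLK at h1
  have hX0 : (0 : ℝ) < X := by linarith
  have hsub : (AT X K) ⊆ (AT X K).filter (fun s => ¬ (|cnt X s * Real.log X ^ K - sing s * X| ≤ 1 / 2 * (sing s * X))) ∪
      (AT X K).filter fun s => sing s * X ≤ 2 ^ K * (cnt X s * Real.log X ^ K) := by
    intro s hs
    by_cases h4 : |cnt X s * Real.log X ^ K - sing s * X| ≤ 1 / 2 * (sing s * X)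
    · apply mem_union_right
      refine mem_filter.2 ⟨hs, ?_⟩
      have h5 := (abs_le.1 h4).1
      have h6 : sing s * X ≤ 2 * (cnt X s * Real.log X ^ K) := by linarith
      have h7 : (0 : ℝ) ≤ cnt X s * Real.log X ^ K := by positivity
      have h8 : (2 : ℝ) ≤ 2 ^ K := by
        calc (2 : ℝ) = 2 ^ 1 := by norm_num
          _ ≤ 2 ^ K := pow_le_pow_right₀ (by norm_num) h2
      nlinarith
    · exact mem_union_left _ (mem_filter.2 ⟨hs, h4⟩)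
  have h4 := (card_le_card hsub).trans (card_union_le _ _)
  have h5 : ((AT X K).card : ℝ) ≤ (((AT X K).filter (fun s => ¬ (|cnt X s * Real.log X ^ K - sing s * X| ≤ 1 / 2 * (sing s * X)))).card : ℝ) +
      (((AT X K).filter fun s => sing s * X ≤ 2 ^ K * (cnt X s * Real.log X ^ K)).card : ℝ) := by exact_mod_cast h4
  have h6 : (((AT X K).filter (fun s => ¬ (|cnt X s * Real.log X ^ K - sing s * X| ≤ 1 / 2 * (sing s * X)))).card : ℝ) ≤ 1 / 2 * ((AT X K).card : ℝ) := by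
    convert h1 using 3
  linarith

theorem equiv (κ : ℝ) (hκ : 0 < κ) (hκ1 : κ ≤ 1) : List.TFAE [
    ∀ κ' : ℝ, 0 < κ' → κ' < κ → ∀ ε : ℝ, 0 < ε → ∀ᶠ X : ℕ in atTop, ∀ K : ℕ, (K : ℝ) ≤ Real.log X ^ κ' → HLK X K ε,
    ∀ κ' : ℝ, 0 < κ' → κ' < κ → ∀ ε : ℝ, 0 < ε → ∀ᶠ X : ℕ in atTop, HLK X ⌊Real.log X ^ κ'⌋₊ ε,
    ∀ κ' : ℝ, 0 < κ' → κ' < κ → LBP κ',
    RZ κ] := by
  tfae_have 1 → 2 := by
    intro h κ' h0 h1 ε hε
    filter_upwards [h κ' h0 h1 ε hε, log_tendsto.eventually_ge_atTop 0] with X h2 h3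
    exact h2 _ (Nat.floor_le (by positivity))
  tfae_have 2 → 3 := fun h κ' h0 h1 => lbp_of_hlk h0 (h κ' h0 h1)
  tfae_have 3 → 4 := fun h => nec t_COIN t_SLOW t_PADM t_FM t_FEW zr' t_PWB hκ hκ1 h
  tfae_have 4 → 1 := fun h κ' h0 h1 ε hε => case3 zr' t_PWB t_SIEG suf' hκ hκ1 h h0 h1 ε hε
  tfae_finish

end Pool.Agent.Q145.SZ
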