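import Pool.Agent.Q145.SZ.Case2

/-!
# Project SZ: the formula at `X` holds unless there is an exceptional zero
-/

set_option autoImplicit false

namespace Pool.Agent.Q145.SZ

open Finset Filter Complex
open Pool.Agent.W66 Pool.Agent.W66L

theorem dich (zr : S_ZR') (pb : S_PWB) (hs : S_SUF) :
    ∃ c C : ℝ, 0 < c ∧ 0 < C ∧ ∀ ε : ℝ, 0 < ε → ∀ᶠ X : ℕ in atTop,
      (∀ (r : ℕ) [NeZero r], 1 < r → (r : ℝ) ≤ Real.exp (Real.log X / Real.log (Real.log X)) → ∀ χ : DirichletCharacter ℂ r, χ.IsPrimitive → χ ^ 2 = 1 →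
        ∀ β : ℝ, χ.LFunction β = 0 → β ≤ 1 - C * (Real.log (Real.log X) / Real.log X)) →
      ∀ K : ℕ, (K : ℝ) ≤ c * (Real.log X / Real.log (Real.log X)) → HLK X K ε := by
  obtain ⟨B, C₀, hB, hC₀, hsuf⟩ := hs
  obtain ⟨c₁, hc₁, hzf⟩ := zf_of zr
  have hBr : (1 : ℝ) ≤ B := by exact_mod_cast hB
  set c₂ : ℝ := min (1 / (2 * B * C₀)) (c₁ / (140 * B * C₀)) with hc₂
  have hc₂0 : 0 < c₂ := by positivity
  have hc₂a : c₂ ≤ 1 / (2 * B * C₀) := min_le_left _ _
  have hc₂b : c₂ ≤ c₁ / (140 * B * C₀) := min_le_right _ _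
  refine ⟨c₂ / 32, C₀, by positivity, by linarith, ?_⟩
  intro ε hε
  obtain ⟨M, hM, hh⟩ := hsuf ε hε
  have e1 := ev_ll_rpow (4 * C₀ / c₂) (a := 1 / 4) (by norm_num)
  have e2 := ev_ll_rpow (8 / c₂) (a := 1 / 4) (by norm_num)
  filter_upwards [ll_tendsto.eventually_ge_atTop M, e1, e2, ll_tendsto.eventually_ge_atTop 64] with X h1 h2 h3 h4 hreal K hK
  obtain ⟨hL1, -, -⟩ := ll_conseq (M := 64) (by norm_num) h4
  set L := Real.log X with hL
  set l := Real.log L with hl
  have hL0 : 0 < L := by linarith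
  have hl0 : 0 < l := by linarith
  have hlL : l ≤ L := by
    have := Real.log_le_sub_one_of_pos hL0
    linarith
  -- L^{1/4} powers
  have hq : L ^ (1 / 4 : ℝ) * L ^ (1 / 4 : ℝ) = √L := by
    rw [Real.sqrt_eq_rpow, ← Real.rpow_add hL0]; norm_num
  have hsq : √L * √L = L := Real.mul_self_sqrt hL0.le
  have hq0 : 0 < L ^ (1 / 4 : ℝ) := Real.rpow_pos_of_pos hL0 _
  have hs0 : 0 < √L := Real.sqrt_pos.2 hL0
  have hq1 : 1 ≤ L ^ (1 / 4 : ℝ) := Real.one_le_rpow (by linarith) (by norm_num)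
  set y : ℝ := c₂ * (L / l) with hy
  have hy0 : 0 < y := by positivity
  -- √L ≤ y / 8
  have hy8 : 8 * √L ≤ y := by
    have h5 : 8 / c₂ * l ≤ √L := by
      refine h3.trans ?_
      rw [← hq]; nlinarith
    rw [hy, mul_div_assoc', le_div_iff₀ hl0]
    have h6 : c₂ * (8 / c₂ * l) ≤ c₂ * √L := by gcongr
    have e : c₂ * (8 / c₂ * l) = 8 * l := by field_simp
    rw [e] at h6
    nlinarith
  have hyl : 4 * C₀ * l ≤ y := by
    have h5 : 4 * C₀ / c₂ * l ≤ √L := by
      refine h2.trans ?_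
      rw [← hq]; nlinarith
    have h6 : c₂ * (4 * C₀ / c₂ * l) ≤ c₂ * √L := by gcongr
    have e : c₂ * (4 * C₀ / c₂ * l) = 4 * C₀ * l := by field_simp
    rw [e] at h6
    have h7 : c₂ * √L ≤ √L := by
      have : c₂ ≤ 1 := by
        refine hc₂a.trans ?_
        rw [div_le_one (by positivity)]
        nlinarith
      nlinarith
    linarith
  set z : ℕ := ⌊y⌋₊ with hz
  have hz1 : (z : ℝ) ≤ y := Nat.floor_le hy0.le
  have hz2 : y - 1 ≤ z := (Nat.sub_one_lt_floor _).le
  have hy1 : 512 ≤ y := by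
    have : 8 ≤ √L := by
      rw [show (8 : ℝ) = √64 by rw [show (64 : ℝ) = 8 ^ 2 by norm_num]; simp]
      exact Real.sqrt_le_sqrt hL1
    nlinarith
  have hz3 : y / 2 ≤ z := by linarith
  have hBz : 2 * (B : ℝ) * z ≤ L / l := by
    have h5 : 2 * (B : ℝ) * z ≤ 2 * B * (1 / (2 * B * C₀) * (L / l)) := by
      have : (z : ℝ) ≤ 1 / (2 * B * C₀) * (L / l) := hz1.trans (by rw [hy]; gcongr)
      gcongr
    have e : 2 * (B : ℝ) * (1 / (2 * B * C₀) * (L / l)) = (L / l) / C₀ := by field_simp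
    rw [e] at h5
    refine h5.trans ?_
    have : 0 ≤ L / l := by positivity
    exact div_le_self this (by linarith)
  set T : ℝ := Real.exp (120 * B * z + 6 * √L) with hT
  have hlogT : Real.log T = 120 * B * z + 6 * √L := by rw [hT, Real.log_exp]
  have hlogT3 : Real.log (T + 3) ≤ 120 * B * z + 6 * √L + 2 := by
    have hT1 : 1 ≤ T := by
      rw [hT]; exact Real.one_le_exp (by positivity)
    have h7 : Real.log (T + 3) ≤ Real.log (T * 4) := Real.log_le_log (by linarith) (by linarith)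
    rw [Real.log_mul (by linarith) (by norm_num), hlogT] at h7
    have h8 : Real.log 4 ≤ 2 := by
      rw [Real.log_le_iff_le_exp (by norm_num)]
      have := Real.add_one_le_exp (1 : ℝ)
      have e : Real.exp 2 = Real.exp 1 * Real.exp 1 := by rw [← Real.exp_add]; norm_num
      rw [e]; nlinarith
    linarith
  have hC₀0 : 0 < C₀ := by linarith
  refine hh z X (C₀ * (l / L)) T h1 ?_ ?_ (by positivity) ?_ ?_ (Real.exp_pos _) ?_ ?_ ?_ K ?_
  · nlinarith
  · -- C₀ z l ≤ L
    have h5 : (z : ℝ) * l ≤ c₂ * L := by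
      calc (z : ℝ) * l ≤ y * l := by gcongr
        _ = c₂ * L := by rw [hy]; field_simp
    have h6 : C₀ * c₂ ≤ 1 := by
      have : C₀ * c₂ ≤ C₀ * (1 / (2 * B * C₀)) := by gcongr
      refine this.trans ?_
      have e : C₀ * (1 / (2 * B * C₀)) = 1 / (2 * (B : ℝ)) := by field_simp
      rw [e, div_le_one (by positivity)]
      linarith
    calc C₀ * z * l = C₀ * (z * l) := by ring
      _ ≤ C₀ * (c₂ * L) := by gcongr
      _ = (C₀ * c₂) * L := by ring
      _ ≤ 1 * L := by gcongr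
      _ = L := one_mul L
  · -- ω ≤ 1/4
    rw [mul_div_assoc', div_le_iff₀ hL0]
    have h5 : 4 * C₀ * l ≤ L := by
      refine hyl.trans ?_
      rw [hy]
      have h6 : c₂ ≤ 1 := by
        refine hc₂a.trans ?_
        rw [div_le_one (by positivity)]
        nlinarith
      have h7 : L / l ≤ L := div_le_self hL0.le (by linarith)
      have h8 : 0 < L / l := by positivity
      nlinarith
    linarith
  · rw [mul_assoc, div_mul_cancel₀ _ hL0.ne']
  · rw [hlogT]; linarith [Real.sqrt_nonneg L]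
  · rw [hlogT]
    have : 0 ≤ 120 * (B : ℝ) * z := by positivity
    linarith
  · refine hzf _ T (C₀ * (l / L)) (C₀ * (l / L)) (by positivity) le_rfl ?_ ?_
    · have h7 := log_PW_pow_le pb z B
      have h9 : Real.log ((PW z ^ B : ℕ) : ℝ) + Real.log (T + 3) ≤ 140 * B * y := by
        have hzB : (B : ℝ) * z ≤ B * y := by gcongr
        have hyB : y ≤ B * y := by nlinarith
        nlinarith
      calc C₀ * (l / L) * (Real.log ((PW z ^ B : ℕ) : ℝ) + Real.log (T + 3)) ≤ C₀ * (l / L) * (140 * B * y) := by gcongr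
        _ = 140 * B * C₀ * c₂ := by rw [hy]; field_simp
        _ ≤ 140 * B * C₀ * (c₁ / (140 * B * C₀)) := by gcongr
        _ = c₁ := by field_simp
    · intro f _ hf hfF χ hχ hχ2 β hβ
      refine hreal f hf ?_ χ hχ hχ2 β hβ
      have hf0 : (0 : ℝ) < f := by positivity
      rw [← Real.log_le_iff_le_exp hf0]
      have h5 : Real.log f ≤ Real.log ((PW z ^ B : ℕ) : ℝ) := Real.log_le_log hf0 (by exact_mod_cast hfF)
      exact (h5.trans (log_PW_pow_le pb z B)).trans hBz
  · have h5 : (16 * K : ℝ) ≤ z := by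
      refine le_trans ?_ hz3
      have : (16 * K : ℝ) ≤ 16 * (c₂ / 32 * (L / l)) := by gcongr
      refine this.trans (le_of_eq ?_)
      rw [hy]; ring
    exact_mod_cast h5

end Pool.Agent.Q145.SZ
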