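import Pool.Agent.Q145.SZ.SufD

/-!
# Project SZ: sufficiency, from the variance to the formula
-/

set_option autoImplicit false

namespace Pool.Agent.Q145.SZ

open Finset Filter

lemma wc_bounds {X K : ℕ} (hX : 3 ≤ X) (s : Fin K → ℕ) (hs : ∀ i, s i ≤ X) :
    (cnt X s : ℝ) * Real.log X ^ K ≤ wc X s ∧ wc X s ≤ cnt X s * (Real.log (3 * X)) ^ K := by
  have hXr : (3 : ℝ) ≤ X := by exact_mod_cast hX
  have hL : 0 ≤ Real.log X := Real.log_nonneg (by linarith)
  have key : ∀ n ∈ Ioc X (2 * X), (if ∀ i, (n + s i).Prime then Real.log X ^ K else 0) ≤ ∏ i, wt (n + s i) ∧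
      ∏ i, wt (n + s i) ≤ (if ∀ i, (n + s i).Prime then Real.log (3 * X) ^ K else 0) := by
    intro n hn
    rw [mem_Ioc] at hn
    split_ifs with h
    · have hc : ∏ i, wt (n + s i) = ∏ i, Real.log ((n + s i : ℕ) : ℝ) := prod_congr rfl fun i _ => by
        unfold wt; rw [if_pos (h i)]
      have hpow : ∀ x : ℝ, x ^ K = ∏ _i : Fin K, x := fun x => by simp
      rw [hc, hpow, hpow]
      constructor
      · apply prod_le_prod (fun _ _ => hL)
        intro i _
        apply Real.log_le_log (by linarith)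
        have : X ≤ n + s i := by omega
        exact_mod_cast this
      · apply prod_le_prod (fun i _ => Real.log_natCast_nonneg _)
        intro i _
        apply Real.log_le_log
        · have : 0 < n + s i := by omega
          exact_mod_cast this
        · have : n + s i ≤ 3 * X := by have := hs i; omega
          exact_mod_cast this
    · push Not at h
      obtain ⟨i, hi⟩ := h
      have : ∏ i, wt (n + s i) = 0 := prod_eq_zero (mem_univ i) (by unfold wt; rw [if_neg hi])
      rw [this]
      exact ⟨le_rfl, le_rfl⟩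
  have e : ∀ x : ℝ, (cnt X s : ℝ) * x = ∑ n ∈ Ioc X (2 * X), (if ∀ i, (n + s i).Prime then x else 0) := by
    intro x
    unfold cnt
    rw [← sum_filter, sum_const, nsmul_eq_mul]
  rw [e, e]
  unfold wc
  exact ⟨sum_le_sum fun n hn => (key n hn).1, sum_le_sum fun n hn => (key n hn).2⟩

lemma final_num {N T S w e ε : ℝ} (he : 0 < e) (he1 : e ≤ 1 / 16) (heε : 16 * e ≤ ε) (hS : 0 < S)
    (h1 : |w - S| ≤ e * S) (h2 : |T - S| ≤ e * S) (hN : N ≤ w) (hw : w ≤ N * (1 + e)) : |N - T| ≤ ε * T := by
  rw [abs_le] at h1 h2 ⊢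
  have hT : S / 2 ≤ T := by nlinarith
  have hT0 : 0 < T := by linarith
  have hN0 : 0 ≤ N := by
    have : 0 ≤ w := by nlinarith
    by_contra h
    push Not at h
    nlinarith
  have hNS : N ≤ (1 + e) * S := by linarith
  have h16 : 16 * e * T ≤ ε * T := by gcongr
  constructor
  · -- T - N ≤ ε T
    have h3 : N ≥ w - e * N := by nlinarith
    have h4 : e * N ≤ e * ((1 + e) * S) := by gcongr
    nlinarith
  · nlinarith

/-- the conclusion of `var_bound` with a fixed `a` -/
def VB (a : ℕ) : Prop := ∀ η : ℝ, 0 < η → ∃ M : ℝ, 1 ≤ M ∧ ∀ z X K : ℕ, M ≤ Real.log (Real.log X) →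
      64 * Real.log (Real.log X) ≤ z → 64 * z * Real.log (Real.log X) ≤ Real.log X → 16 * K ≤ z →
      H1c (2 * a) z X → H2c (2 * a) z X →
      ∑ b ∈ Ad (PW z) K, (∑ s ∈ Sb X b, (wc X s / Mb X b - 1) ^ 2) / ((Sb X b).card : ℝ) ≤ η * ((Ad (PW z) K).card : ℝ)

open Classical in
lemma hlk_bound {a : ℕ} (vb : VB a) (mbs : S_MBS) (tr : S_TRANS) (tail : S_TAIL') (pb : S_PWB) :
    ∀ ε : ℝ, 0 < ε → ∃ M : ℝ, 1 ≤ M ∧ ∀ z X K : ℕ, M ≤ Real.log (Real.log X) →
      64 * Real.log (Real.log X) ≤ z → 64 * z * Real.log (Real.log X) ≤ Real.log X → 16 * K ≤ z →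
      H1c (2 * a) z X → H2c (2 * a) z X → HLK X K ε := by
  intro ε hε
  set e : ℝ := min ε 1 / 16 with he
  have hε1 : min ε 1 ≤ 1 := min_le_right _ _
  have hεε : min ε 1 ≤ ε := min_le_left _ _
  have hε0 : 0 < min ε 1 := by positivity
  have he0 : 0 < e := by positivity
  obtain ⟨M₁, hM₁, hvb⟩ := vb (e ^ 2 * (ε / 8)) (by positivity)
  obtain ⟨Ct, X₀, z₀, hCt, htail⟩ := tail e he0
  set M : ℝ := M₁ + X₀ + z₀ + Real.exp (8 * Ct / ε) + 1 / e + 3 with hM
  have q1 := Real.exp_pos (8 * Ct / ε)
  have q2 : (0 : ℝ) ≤ X₀ := by positivity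
  have q3 : (0 : ℝ) ≤ z₀ := by positivity
  have q4 : 0 < 1 / e := by positivity
  have hM1 : 1 ≤ M := by linarith
  refine ⟨M, hM1, ?_⟩
  intro z X K hX hz hzL hK H1 H2
  have hv := hvb z X K (by linarith) hz hzL hK H1 H2
  obtain ⟨hL0, hLM, hzM, hzL', hzl, hXe, hLe, hl1, hlL⟩ := elem (C := 64) le_rfl hM1 hX hz hzL
  have hM0 : 0 < M := by linarith
  have hz0 : (0 : ℝ) < z := by linarith
  have hzz : z₀ ≤ z := by
    have : (z₀ : ℝ) ≤ z := by linarith
    exact_mod_cast this
  have hXL : Real.log X ≤ X := by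
    have := Real.add_one_le_exp (Real.log X)
    rw [← hXe] at this; linarith
  have hXs : X₀ ≤ X := by
    have : (X₀ : ℝ) ≤ X := by linarith
    exact_mod_cast this
  have hX3 : 3 ≤ X := by
    have : (3 : ℝ) ≤ X := by linarith
    exact_mod_cast this
  have hX0 : (0 : ℝ) < X := by linarith
  have hWe : (PW z : ℝ) ≤ Real.exp (2 * z) := PW_le pb z
  have hlogz : 8 * Ct / ε ≤ Real.log z := by
    rw [Real.le_log_iff_exp_le hz0]; linarith
  have hlz0 : 0 < Real.log z := lt_of_lt_of_le (by positivity) hlogz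
  have hδ : Ct / Real.log z ≤ ε / 8 := by
    rw [div_le_iff₀ hlz0]
    rw [div_le_iff₀ hε] at hlogz
    linarith
  have hW2 : (PW z : ℝ) ^ 2 ≤ X := by
    calc (PW z : ℝ) ^ 2 ≤ (Real.exp (2 * z)) ^ 2 := by gcongr
      _ = Real.exp (4 * z) := by rw [← Real.exp_nat_mul]; ring_nf
      _ ≤ Real.exp (Real.log X) := Real.exp_le_exp.2 (by linarith)
      _ = X := hXe.symm
  have hKz : (16 : ℝ) * K ≤ z := by exact_mod_cast hK
  have h8 : 8 * (K + 1) * PW z ≤ X := by
    have : (8 * ((K : ℝ) + 1)) * PW z ≤ X := by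
      calc (8 * ((K : ℝ) + 1)) * PW z ≤ Real.exp z * Real.exp (2 * z) := by
            gcongr
            have : (z : ℝ) + 1 ≤ Real.exp z := Real.add_one_le_exp _
            have h2 : (z : ℝ) / 2 + 1 ≤ Real.exp (z / 2) := Real.add_one_le_exp _
            have h3 : Real.exp z = Real.exp (z / 2) * Real.exp (z / 2) := by rw [← Real.exp_add]; ring_nf
            rw [h3]
            nlinarith
        _ = Real.exp (3 * z) := by rw [← Real.exp_add]; ring_nf
        _ ≤ Real.exp (Real.log X) := Real.exp_le_exp.2 (by linarith)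
        _ = X := hXe.symm
    exact_mod_cast this
  have hpow : Real.log (3 * X) ^ K ≤ Real.log X ^ K * (1 + e) := by
    have h3 : Real.log (3 * X) ≤ Real.log X + 2 := by
      rw [Real.log_mul (by norm_num) hX0.ne']
      have := Real.log_le_sub_one_of_pos (by norm_num : (0 : ℝ) < 3)
      linarith
    have h4 : Real.log X + 2 = Real.log X * (1 + 2 / Real.log X) := by field_simp
    have h5 : (K : ℝ) * (2 / Real.log X) ≤ 1 / (64 * M) := by
      have h6 : 64 * M * K ≤ Real.log X / 2 := by
        have : 64 * M * ((K : ℝ)) ≤ 64 * M * (z / 16) := by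
          apply mul_le_mul_of_nonneg_left _ (by positivity)
          linarith
        have h7 : 64 * ((z : ℝ) * M) ≤ Real.log X := by
          have : (z : ℝ) * M ≤ z * Real.log (Real.log X) := by gcongr
          linarith
        nlinarith
      rw [← mul_div_assoc, div_le_div_iff₀ hL0 (by positivity)]
      nlinarith
    have h6 : 1 / (64 * M) ≤ e / 2 := by
      rw [div_le_div_iff₀ (by positivity) (by norm_num)]
      have h7 : 1 / e ≤ M := by linarith
      rw [div_le_iff₀ he0] at h7
      nlinarith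
    have he1 : e ≤ 1 := by rw [he]; linarith
    calc Real.log (3 * X) ^ K ≤ (Real.log X * (1 + 2 / Real.log X)) ^ K := by
          rw [← h4]
          have : 0 ≤ Real.log (3 * X) := Real.log_nonneg (by linarith)
          gcongr
      _ = Real.log X ^ K * (1 + 2 / Real.log X) ^ K := by rw [mul_pow]
      _ ≤ Real.log X ^ K * (1 + e) := by
          gcongr
          refine (one_add_pow_le (by positivity) (by linarith)).trans ?_
          linarith
  -- apply TRANS
  obtain ⟨E, hE⟩ : ∃ E : (Fin K → ℕ) → Prop, ∀ s, E s ↔ ¬ (|cnt X s * Real.log X ^ K - sing s * X| ≤ ε * (sing s * X)) :=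
    ⟨_, fun _ => Iff.rfl⟩
  have hfin : ∑ b ∈ Ad (PW z) K, (((Sb X b).filter fun s => E s).card : ℝ) /
      (Sb X b).card ≤ (ε / 4) * (Ad (PW z) K).card := by
    have hb : ∀ b ∈ Ad (PW z) K, (((Sb X b).filter fun s => E s).card : ℝ) /
        (Sb X b).card ≤ (e ^ 2)⁻¹ * ((∑ s ∈ Sb X b, (wc X s / Mb X b - 1) ^ 2) / ((Sb X b).card : ℝ)) + ε / 8 := by
      intro b hb
      rcases Nat.eq_zero_or_pos (Sb X b).card with h0 | h0
      · rw [h0]; simp; positivity
      have h0' : (0 : ℝ) < (Sb X b).card := by exact_mod_cast h0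
      have hsub : (Sb X b).filter (fun s => E s) ⊆
          (Sb X b).filter (fun s => e < |wc X s / Mb X b - 1|) ∪ (Sb X b).filter (fun s => ¬ (|sing s - singP s z| ≤ e * singP s z)) := by
        intro s hs
        rw [mem_filter] at hs
        obtain ⟨hs1, hs2⟩ := hs
        rw [hE] at hs2
        rw [mem_union, mem_filter, mem_filter]
        by_contra hcon
        push Not at hcon
        obtain ⟨c1, c2⟩ := hcon
        have c1 := c1 hs1
        have c2 := c2 hs1
        apply hs2
        have hsb : (fun i => ((s i : ℕ) : ZMod (PW z))) = b := by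
          funext i
          have := Fintype.mem_piFinset.1 hs1 i
          unfold cls at this
          exact (mem_filter.1 this).2
        have hsX : ∀ i, s i ≤ X := fun i => by
          have := Fintype.mem_piFinset.1 hs1 i
          unfold cls at this
          exact (mem_Icc.1 (mem_filter.1 this).1).2
        have hMb := (mbs z X K s).1
        rw [hsb] at hMb
        have hMb0 : 0 < Mb X b := by
          unfold Ad at hb
          rw [mem_filter] at hb
          have : (0 : ℝ) < (Gs b).card := by exact_mod_cast card_pos.2 hb.2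
          have hv := vv_pos z
          have hW : (0 : ℝ) < PW z := by exact_mod_cast PW_pos z
          unfold Mb
          exact mul_pos (div_pos (mul_pos hX0 this) hW) (pow_pos hv K)
        have hbd := wc_bounds hX3 s hsX
        have e1 : |wc X s - Mb X b| ≤ e * Mb X b := by
          have : wc X s - Mb X b = (wc X s / Mb X b - 1) * Mb X b := by field_simp
          rw [this, abs_mul, abs_of_pos hMb0]
          gcongr
        have e2 : |sing s * X - Mb X b| ≤ e * Mb X b := by
          rw [hMb]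
          have : sing s * X - X * singP s z = (sing s - singP s z) * X := by ring
          rw [this, abs_mul, abs_of_pos hX0]
          calc _ ≤ e * singP s z * X := by gcongr
            _ = _ := by ring
        apply final_num (w := wc X s) (e := e) (S := Mb X b) he0 (by rw [he]; linarith) (by rw [he]; linarith) hMb0 e1 e2 hbd.1
        calc wc X s ≤ cnt X s * Real.log (3 * X) ^ K := hbd.2
          _ ≤ cnt X s * (Real.log X ^ K * (1 + e)) := by gcongr
          _ = _ := by ring
      have hc1 : (((Sb X b).filter fun s => e < |wc X s / Mb X b - 1|).card : ℝ) ≤ (e ^ 2)⁻¹ * ∑ s ∈ Sb X b, (wc X s / Mb X b - 1) ^ 2 := by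
        rw [card_eq_sum_ones, Nat.cast_sum, mul_sum]
        push_cast
        refine le_trans ?_ (sum_le_sum_of_subset_of_nonneg (filter_subset (fun s => e < |wc X s / Mb X b - 1|) (Sb X b)) (fun s _ _ => by positivity))
        apply sum_le_sum
        intro s hs
        rw [mem_filter] at hs
        have h3 : e ^ 2 ≤ (wc X s / Mb X b - 1) ^ 2 := by
          rw [← sq_abs (wc X s / Mb X b - 1)]
          have := hs.2
          gcongr
        rw [inv_mul_eq_div, le_div_iff₀ (by positivity)]
        linarith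
      have hc2 := htail z X K hXs hzz (by omega) (by linarith) hW2 b
      have hc3 : (((Sb X b).filter fun s => E s).card : ℝ) ≤
          (e ^ 2)⁻¹ * ∑ s ∈ Sb X b, (wc X s / Mb X b - 1) ^ 2 + ε / 8 * (Sb X b).card := by
        have h3 := card_le_card hsub
        have h4 := h3.trans (card_union_le _ _)
        have h5 : (((Sb X b).filter fun s => E s).card : ℝ) ≤
          (((Sb X b).filter fun s => e < |wc X s / Mb X b - 1|).card : ℝ) + (((Sb X b).filter (fun s => ¬ (|sing s - singP s z| ≤ e * singP s z))).card : ℝ) := by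
          exact_mod_cast h4
        have h6 : Ct / Real.log z * ((Sb X b).card : ℝ) ≤ ε / 8 * (Sb X b).card := mul_le_mul_of_nonneg_right hδ (Nat.cast_nonneg _)
        linarith
      rw [div_le_iff₀ h0']
      refine hc3.trans (le_of_eq ?_)
      rw [add_mul, mul_assoc (e ^ 2)⁻¹, div_mul_cancel₀ _ h0'.ne']
    have hA0 : (0 : ℝ) ≤ ((Ad (PW z) K).card : ℝ) := Nat.cast_nonneg _
    have he2 : (0 : ℝ) ≤ (e ^ 2)⁻¹ := by positivity
    have hv2 := mul_le_mul_of_nonneg_left hv he2
    calc _ ≤ ∑ b ∈ Ad (PW z) K, ((e ^ 2)⁻¹ * ((∑ s ∈ Sb X b, (wc X s / Mb X b - 1) ^ 2) / ((Sb X b).card : ℝ)) + ε / 8) := sum_le_sum hb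
      _ = (e ^ 2)⁻¹ * ∑ b ∈ Ad (PW z) K, ((∑ s ∈ Sb X b, (wc X s / Mb X b - 1) ^ 2) / ((Sb X b).card : ℝ)) + ε / 8 * (Ad (PW z) K).card := by
        rw [sum_add_distrib, ← mul_sum, sum_const, nsmul_eq_mul]; ring
      _ ≤ (e ^ 2)⁻¹ * (e ^ 2 * (ε / 8) * ((Ad (PW z) K).card : ℝ)) + ε / 8 * (Ad (PW z) K).card := add_le_add hv2 le_rfl
      _ = _ := by
        have : (e ^ 2)⁻¹ * (e ^ 2 * (ε / 8) * ((Ad (PW z) K).card : ℝ)) = ε / 8 * ((Ad (PW z) K).card : ℝ) := by
          rw [← mul_assoc, ← mul_assoc, inv_mul_cancel₀ (by positivity), one_mul]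
        rw [this]; ring
  have ht := tr mbs z X K E (ε / 4) (by omega) h8 hfin
  have hAT : (0 : ℝ) ≤ ((AT X K).card : ℝ) := Nat.cast_nonneg _
  have ht2 : (((AT X K).filter fun s => E s).card : ℝ) ≤ ε * ((AT X K).card : ℝ) := by
    refine ht.trans ?_
    have := mul_nonneg hε.le hAT
    linarith
  unfold HLK
  have hfe : (AT X K).filter (fun s => ¬ (|cnt X s * Real.log X ^ K - sing s * X| ≤ ε * (sing s * X))) = (AT X K).filter fun s => E s :=
    filter_congr fun s _ => (hE s).symm
  rw [hfe]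
  exact ht2

end Pool.Agent.Q145.SZ
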