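import Pool.Agent.Q145.SZ.Stm3

/-!
# Project SZ (helper145), job US (helper91): classes modulo the primorial with two units
-/

set_option autoImplicit false

namespace Pool.Agent.Q145.SZ.US

open Finset Filter

/-! ### counting the classes -/

theorem Us_congr {W W' : ℕ} [NeZero W] [NeZero W'] (h : W = W') (n m : ℕ) :
    (Us (n : ZMod W) (m : ZMod W)).card = (Us (n : ZMod W') (m : ZMod W')).card := by
  subst h
  rfl

theorem mem_Us {W : ℕ} [NeZero W] {n m β : ZMod W} : β ∈ Us n m ↔ IsUnit (n + β) ∧ IsUnit (m + β) := by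
  unfold Us
  rw [mem_filter]
  exact ⟨fun h => h.2, fun h => ⟨mem_univ _, h⟩⟩

theorem Us_mul {M N : ℕ} [NeZero M] [NeZero N] [NeZero (M * N)] (h : M.Coprime N) (n m : ℕ) :
    (Us (n : ZMod (M * N)) (m : ZMod (M * N))).card =
      (Us (n : ZMod M) (m : ZMod M)).card * (Us (n : ZMod N) (m : ZMod N)).card := by
  rw [← card_product]
  refine Finset.card_equiv (ZMod.chineseRemainder h).toEquiv fun x => ?_
  rw [mem_product, mem_Us, mem_Us, mem_Us]
  have key : ∀ k : ℕ, IsUnit ((k : ZMod (M * N)) + x) ↔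
      IsUnit ((k : ZMod M) + (ZMod.chineseRemainder h x).1) ∧
      IsUnit ((k : ZMod N) + (ZMod.chineseRemainder h x).2) := by
    intro k
    rw [← MulEquiv.isUnit_map (ZMod.chineseRemainder h), map_add, map_natCast, Prod.isUnit_iff]
    rfl
  rw [key n, key m]
  constructor
  · rintro ⟨⟨a, b⟩, c, d⟩; exact ⟨⟨a, c⟩, b, d⟩
  · rintro ⟨⟨a, c⟩, b, d⟩; exact ⟨⟨a, b⟩, c, d⟩

theorem Us_prime {p : ℕ} [NeZero p] (hp : p.Prime) (n m : ℕ) :
    p - 2 ≤ (Us (n : ZMod p) (m : ZMod p)).card := by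
  classical
  haveI : Fact p.Prime := ⟨hp⟩
  have h1 : (univ : Finset (ZMod p)) ⊆ Us (n : ZMod p) (m : ZMod p) ∪ {-(n : ZMod p), -(m : ZMod p)} := by
    intro β _
    rw [mem_union, mem_Us, mem_insert, mem_singleton, isUnit_iff_ne_zero, isUnit_iff_ne_zero]
    by_cases h2 : (n : ZMod p) + β = 0
    · right; left; exact (neg_eq_of_add_eq_zero_right h2).symm
    · by_cases h3 : (m : ZMod p) + β = 0
      · right; right; exact (neg_eq_of_add_eq_zero_right h3).symm
      · left; exact ⟨h2, h3⟩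
  have h2 := card_le_card h1
  rw [card_univ, ZMod.card] at h2
  have h3 := card_union_le (Us (n : ZMod p) (m : ZMod p)) {-(n : ZMod p), -(m : ZMod p)}
  have h4 : ({-(n : ZMod p), -(m : ZMod p)} : Finset (ZMod p)).card ≤ 2 := card_le_two
  omega

theorem Us_two {n m : ℕ} (h : n % 2 = m % 2) : 1 ≤ (Us (n : ZMod 2) (m : ZMod 2)).card := by
  have h1 : (n : ZMod 2) = (m : ZMod 2) := (ZMod.natCast_eq_natCast_iff' n m 2).2 h
  rw [Nat.succ_le_iff, card_pos]
  refine ⟨1 - (n : ZMod 2), ?_⟩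
  rw [mem_Us, ← h1]
  have : (n : ZMod 2) + (1 - (n : ZMod 2)) = 1 := by ring
  rw [this]
  exact ⟨isUnit_one, isUnit_one⟩

theorem PW_two : PW 2 = 2 := by
  unfold PW
  have : (Icc 1 2).filter Nat.Prime = {2} := by decide
  rw [this, prod_singleton]

theorem PW_succ_prime {z : ℕ} (h : (z + 1).Prime) : PW (z + 1) = PW z * (z + 1) := by
  unfold PW
  have h1 : (Icc 1 (z + 1)).filter Nat.Prime = insert (z + 1) ((Icc 1 z).filter Nat.Prime) := by
    ext q
    simp only [mem_filter, mem_Icc, mem_insert]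
    constructor
    · rintro ⟨⟨a, b⟩, c⟩
      rcases Nat.lt_or_ge z q with hq | hq
      · left; omega
      · right; exact ⟨⟨a, hq⟩, c⟩
    · rintro (rfl | ⟨⟨a, b⟩, c⟩)
      · exact ⟨⟨by omega, le_rfl⟩, h⟩
      · exact ⟨⟨a, by omega⟩, c⟩
  rw [h1, prod_insert, mul_comm]
  simp

theorem PW_succ_not {z : ℕ} (h : ¬ (z + 1).Prime) : PW (z + 1) = PW z := by
  unfold PW
  congr 1
  ext q
  simp only [mem_filter, mem_Icc]
  constructor
  · rintro ⟨⟨a, b⟩, c⟩
    refine ⟨⟨a, ?_⟩, c⟩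
    rcases Nat.lt_or_ge z q with hq | hq
    · have : q = z + 1 := by omega
      rw [this] at c
      exact absurd c h
    · exact hq
  · rintro ⟨⟨a, b⟩, c⟩
    exact ⟨⟨a, by omega⟩, c⟩

theorem PW_coprime {z : ℕ} (h : (z + 1).Prime) : (PW z).Coprime (z + 1) := by
  unfold PW
  refine Nat.Coprime.prod_left fun q hq => ?_
  rw [mem_filter, mem_Icc] at hq
  exact (Nat.coprime_primes hq.2 h).2 (by omega)

theorem Us_ge {n m : ℕ} (h : n % 2 = m % 2) : ∀ z : ℕ, 2 ≤ z →
    PW z ≤ z * (z - 1) * (Us (n : ZMod (PW z)) (m : ZMod (PW z))).card := by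
  intro z hz
  induction z, hz using Nat.le_induction with
  | base =>
    rw [Us_congr PW_two n m]
    have := Us_two h
    rw [PW_two]
    omega
  | succ z hz ih =>
    by_cases hp : (z + 1).Prime
    · haveI : NeZero (PW z * (z + 1)) := ⟨by
        rw [← PW_succ_prime hp]; exact NeZero.ne _⟩
      rw [Us_congr (PW_succ_prime hp) n m, Us_mul (PW_coprime hp) n m, PW_succ_prime hp]
      have h1 := Us_prime hp n m
      have e1 : z + 1 - 2 = z - 1 := by omega
      rw [e1] at h1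
      have e2 : z + 1 - 1 = z := by omega
      rw [e2]
      calc PW z * (z + 1) ≤ (z * (z - 1) * (Us (n : ZMod (PW z)) (m : ZMod (PW z))).card) * (z + 1) :=
            Nat.mul_le_mul_right _ ih
        _ = (z + 1) * z * ((Us (n : ZMod (PW z)) (m : ZMod (PW z))).card * (z - 1)) := by ring
        _ ≤ _ := Nat.mul_le_mul_left _ (Nat.mul_le_mul_left _ h1)
    · rw [Us_congr (PW_succ_not hp) n m, PW_succ_not hp]
      refine ih.trans (Nat.mul_le_mul_right _ ?_)
      have e2 : z + 1 - 1 = z := by omega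
      rw [e2]
      exact Nat.mul_le_mul (by omega) (by omega)

theorem two_dvd_PW {z : ℕ} (hz : 2 ≤ z) : 2 ∣ PW z := by
  unfold PW
  exact dvd_prod_of_mem _ (mem_filter.2 ⟨mem_Icc.2 ⟨by norm_num, hz⟩, Nat.prime_two⟩)

theorem Us_empty {z n m : ℕ} (hz : 2 ≤ z) (h : n % 2 ≠ m % 2) :
    Us (n : ZMod (PW z)) (m : ZMod (PW z)) = ∅ := by
  rw [eq_empty_iff_forall_notMem]
  intro β hβ
  rw [mem_Us] at hβ
  obtain ⟨b, rfl⟩ : ∃ b : ℕ, β = (b : ZMod (PW z)) := ⟨β.val, (ZMod.natCast_zmod_val β).symm⟩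
  have h1 : ∀ k : ℕ, IsUnit ((k : ZMod (PW z)) + (b : ZMod (PW z))) → (k + b) % 2 = 1 := by
    intro k hk
    rw [← Nat.cast_add, ZMod.isUnit_iff_coprime] at hk
    have h2 := Nat.Coprime.coprime_dvd_right (two_dvd_PW hz) hk
    rw [Nat.coprime_comm, Nat.Prime.coprime_iff_not_dvd Nat.prime_two] at h2
    omega
  have h2 := h1 n hβ.1
  have h3 := h1 m hβ.2
  omega

/-! ### the singular series of pairs -/

theorem SP_succ_prime {z X h : ℕ} (hzX : z ≤ X) (hp : (X + 1).Prime) : SP z (X + 1) h =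
    SP z X h * (if (X + 1) ∣ h then ((X + 1 : ℕ) : ℝ) / (((X + 1 : ℕ) : ℝ) - 1) else 1 - 1 / (((X + 1 : ℕ) : ℝ) - 1) ^ 2) := by
  unfold SP
  have h1 : (Ioc z (X + 1)).filter Nat.Prime = insert (X + 1) ((Ioc z X).filter Nat.Prime) := by
    ext q
    simp only [mem_filter, mem_Ioc, mem_insert]
    constructor
    · rintro ⟨⟨a, b⟩, c⟩
      rcases Nat.lt_or_ge X q with hq | hq
      · left; omega
      · right; exact ⟨⟨a, hq⟩, c⟩
    · rintro (rfl | ⟨⟨a, b⟩, c⟩)
      · exact ⟨⟨by omega, le_rfl⟩, hp⟩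
      · exact ⟨⟨a, by omega⟩, c⟩
  rw [h1, prod_insert, mul_comm]
  simp

theorem SP_succ_not {z X h : ℕ} (hp : ¬ (X + 1).Prime) : SP z (X + 1) h = SP z X h := by
  unfold SP
  congr 1
  ext q
  simp only [mem_filter, mem_Ioc]
  constructor
  · rintro ⟨⟨a, b⟩, c⟩
    refine ⟨⟨a, ?_⟩, c⟩
    rcases Nat.lt_or_ge X q with hq | hq
    · have : q = X + 1 := by omega
      rw [this] at c
      exact absurd c hp
    · exact hq
  · rintro ⟨⟨a, b⟩, c⟩
    exact ⟨⟨a, by omega⟩, c⟩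

theorem SP_ge {z h : ℕ} (hz : 3 ≤ z) : ∀ X : ℕ, z ≤ X →
    2 / 3 * ((X : ℝ) / ((X : ℝ) - 1)) ≤ SP z X h := by
  intro X hX
  induction X, hX using Nat.le_induction with
  | base =>
    have h1 : SP z z h = 1 := by
      unfold SP
      simp
    rw [h1]
    have h2 : (3 : ℝ) ≤ z := by exact_mod_cast hz
    have h3 : (0 : ℝ) < (z : ℝ) - 1 := by linarith
    rw [← mul_div_assoc, div_le_one h3]
    linarith
  | succ X hX ih =>
    have h2 : (3 : ℝ) ≤ X := by exact_mod_cast hz.trans hX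
    have h3 : (0 : ℝ) < (X : ℝ) - 1 := by linarith
    have h0 : (0 : ℝ) < X := by linarith
    have e1 : ((X + 1 : ℕ) : ℝ) - 1 = X := by push_cast; ring
    by_cases hp : (X + 1).Prime
    · rw [SP_succ_prime hX hp]
      have h4 : 1 - 1 / (X : ℝ) ^ 2 ≤ (if (X + 1) ∣ h then ((X + 1 : ℕ) : ℝ) / (((X + 1 : ℕ) : ℝ) - 1)
          else 1 - 1 / (((X + 1 : ℕ) : ℝ) - 1) ^ 2) := by
        rw [e1]
        split_ifs
        · have h5 : 1 ≤ ((X + 1 : ℕ) : ℝ) / X := by
            rw [one_le_div h0]; push_cast; linarith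
          have h6 : 0 ≤ 1 / (X : ℝ) ^ 2 := by positivity
          linarith
        · exact le_rfl
      have h5 : 0 ≤ 1 - 1 / (X : ℝ) ^ 2 := by
        have : 1 / (X : ℝ) ^ 2 ≤ 1 := by
          rw [div_le_one (by positivity)]
          nlinarith
        linarith
      have h6 : 0 ≤ SP z X h := le_trans (by positivity) ih
      calc 2 / 3 * (((X + 1 : ℕ) : ℝ) / (((X + 1 : ℕ) : ℝ) - 1)) =
            2 / 3 * ((X : ℝ) / ((X : ℝ) - 1)) * (1 - 1 / (X : ℝ) ^ 2) := by
            rw [e1]; push_cast; field_simp; ring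
        _ ≤ SP z X h * (1 - 1 / (X : ℝ) ^ 2) := mul_le_mul_of_nonneg_right ih h5
        _ ≤ _ := mul_le_mul_of_nonneg_left h4 h6
    · rw [SP_succ_not hp]
      refine le_trans ?_ ih
      refine mul_le_mul_of_nonneg_left ?_ (by norm_num)
      rw [e1, div_le_div_iff₀ h0 h3]
      push_cast
      nlinarith

theorem SP_half {z X h : ℕ} (hz : 3 ≤ z) : 1 / 2 ≤ SP z X h := by
  rcases le_or_gt z X with hX | hX
  · have h1 := SP_ge (h := h) hz X hX
    have h2 : (3 : ℝ) ≤ X := by exact_mod_cast hz.trans hX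
    have h3 : (0 : ℝ) < (X : ℝ) - 1 := by linarith
    have h4 : 1 ≤ (X : ℝ) / ((X : ℝ) - 1) := by
      rw [one_le_div h3]; linarith
    linarith
  · have : SP z X h = 1 := by
      unfold SP
      rw [Ioc_eq_empty_of_le hX.le]
      simp
    rw [this]
    norm_num

end Pool.Agent.Q145.SZ.US

namespace Pool.Agent.Q145.SZ

open Finset Filter

theorem t_US : S_US := by
  refine ⟨fun z n m hz h => ?_, fun z n m hz h => US.Us_empty hz h, fun z X h hz => US.SP_half hz⟩
  have h1 := US.Us_ge h z hz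
  have h2 : (0 : ℝ) < z := by exact_mod_cast (by omega : 0 < z)
  rw [div_le_iff₀ (by positivity)]
  have h3 : PW z ≤ (Us (n : ZMod (PW z)) (m : ZMod (PW z))).card * z ^ 2 := by
    refine h1.trans ?_
    rw [mul_comm]
    refine Nat.mul_le_mul_left _ ?_
    rw [sq]
    exact Nat.mul_le_mul_left _ (Nat.sub_le _ _)
  exact_mod_cast h3

end Pool.Agent.Q145.SZ
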