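import Pool.Agent.Q145.SZ.ZP

/-!
# Project SZ: tuples of length `A log log X`, and the sufficiency in the equivalence
-/

set_option autoImplicit false

namespace Pool.Agent.Q145.SZ

open Finset Filter Complex
open Pool.Agent.W66 Pool.Agent.W66L

lemma ceil_le_add_one {x : ℝ} (h : 0 ≤ x) : (⌈x⌉₊ : ℝ) ≤ x + 1 := (Nat.ceil_lt_add_one h).le

/-- eventually `C L^a ≤ L^b` for `a < b` -/
lemma ev_rpow_rpow (C : ℝ) {a b : ℝ} (hab : a < b) : ∀ᶠ X : ℕ in atTop, C * Real.log X ^ a ≤ Real.log X ^ b := by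
  have h : ∀ᶠ x : ℝ in atTop, C * x ^ a ≤ x ^ b := by
    have h1 : Tendsto (fun x : ℝ => x ^ (b - a)) atTop atTop := tendsto_rpow_atTop (by linarith)
    filter_upwards [h1.eventually_ge_atTop C, eventually_gt_atTop 0] with x hx hx0
    have : x ^ b = x ^ (b - a) * x ^ a := by rw [← Real.rpow_add hx0]; ring_nf
    rw [this]
    have : 0 < x ^ a := Real.rpow_pos_of_pos hx0 _
    gcongr
  exact log_tendsto.eventually h

/-- all conductors `f ≤ F ≤ L^D e^E`, from Siegel's theorem -/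
lemma sieg_real (sg : S_SIEG) (pb : S_PWB) (B : ℕ) (z : ℕ → ℕ) (D : ℝ) (hD : 0 < D)
    (hz : ∀ᶠ X : ℕ in atTop, 2 * (B : ℝ) * z X ≤ D * Real.log (Real.log X) + D) :
    ∀ᶠ X : ℕ in atTop, ∀ (f : ℕ) [NeZero f], 1 < f → f ≤ PW (z X) ^ B → ∀ χ : DirichletCharacter ℂ f, χ.IsPrimitive → χ ^ 2 = 1 →
      ∀ β : ℝ, χ.LFunction β = 0 → β ≤ 1 - Real.log X ^ (-(1 / 2 : ℝ)) := by
  obtain ⟨c, hc, h⟩ := sg (1 / (4 * D)) (by positivity)
  have hev := ev_rpow_rpow (Real.exp (1 / 4) / c) (a := -(1 / 2)) (b := -(1 / 4)) (by norm_num)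
  filter_upwards [hz, ll_tendsto.eventually_ge_atTop 64, hev] with X h1 h2 h3
  obtain ⟨hL1, -, -⟩ := ll_conseq (M := 64) (by norm_num) h2
  have hL0 : 0 < Real.log X := by linarith
  intro f _ hf hfF χ hχ hχ2 β hβ
  have h4 := h f χ hχ hχ2 (prim_ne_one hf hχ) β hβ
  have hf0 : (0 : ℝ) < f := by positivity
  have hlogf : Real.log f ≤ D * Real.log (Real.log X) + D := by
    have : Real.log f ≤ Real.log ((PW (z X) ^ B : ℕ) : ℝ) := Real.log_le_log hf0 (by exact_mod_cast hfF)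
    exact (this.trans (log_PW_pow_le pb (z X) B)).trans h1
  have h5 : (f : ℝ) ^ (-(1 / (4 * D))) ≥ Real.exp (-(1 / 4)) * Real.log X ^ (-(1 / 4 : ℝ)) := by
    rw [Real.rpow_def_of_pos hf0, Real.rpow_def_of_pos hL0, ← Real.exp_add]
    apply Real.exp_le_exp.2
    have : Real.log f * (1 / (4 * D)) ≤ (D * Real.log (Real.log X) + D) * (1 / (4 * D)) := by gcongr
    have e : (D * Real.log (Real.log X) + D) * (1 / (4 * D)) = Real.log (Real.log X) / 4 + 1 / 4 := by field_simp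
    rw [e] at this
    linarith
  have h6 : Real.log X ^ (-(1 / 2 : ℝ)) ≤ c * (f : ℝ) ^ (-(1 / (4 * D))) := by
    have h7 : c * (Real.exp (-(1 / 4)) * Real.log X ^ (-(1 / 4 : ℝ))) ≤ c * (f : ℝ) ^ (-(1 / (4 * D))) := by gcongr
    refine le_trans ?_ h7
    have h8 : Real.exp (1 / 4) / c * Real.log X ^ (-(1 / 2 : ℝ)) ≤ Real.log X ^ (-(1 / 4 : ℝ)) := h3
    have h9 : c * (Real.exp (-(1 / 4)) * (Real.exp (1 / 4) / c * Real.log X ^ (-(1 / 2 : ℝ)))) = Real.log X ^ (-(1 / 2 : ℝ)) := by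
      have : Real.exp (-(1 / 4 : ℝ)) * Real.exp (1 / 4) = 1 := by rw [← Real.exp_add]; simp
      field_simp
      linear_combination this
    rw [← h9]
    gcongr
  linarith

theorem case1 (zr : S_ZR') (pb : S_PWB) (sg : S_SIEG) (hs : S_SUF) (A ε : ℝ) (hε : 0 < ε) :
    ∀ᶠ X : ℕ in atTop, ∀ K : ℕ, (K : ℝ) ≤ A * Real.log (Real.log X) → HLK X K ε := by
  obtain ⟨B, C₀, hB, hC₀, hsuf⟩ := hs
  set D₁ : ℝ := 16 * |A| + C₀ with hD₁
  have hD₁0 : 0 < D₁ := by have := abs_nonneg A; linarith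
  set z : ℕ → ℕ := fun X => ⌈D₁ * Real.log (Real.log X)⌉₊ with hz
  have hBr : (1 : ℝ) ≤ B := by exact_mod_cast hB
  have hzub : ∀ᶠ X : ℕ in atTop, (z X : ℝ) ≤ D₁ * Real.log (Real.log X) + 1 := by
    filter_upwards [ll_tendsto.eventually_ge_atTop 0] with X h
    exact ceil_le_add_one (by positivity)
  have h1 : ∀ᶠ X : ℕ in atTop, C₀ * Real.log (Real.log X) ≤ z X := by
    filter_upwards [ll_tendsto.eventually_ge_atTop 0] with X h
    refine le_trans ?_ (Nat.le_ceil _)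
    have : C₀ ≤ D₁ := by have := abs_nonneg A; linarith
    gcongr
  have h2 : ∀ᶠ X : ℕ in atTop, (z X : ℝ) ≤ Real.log X ^ (1 / 2 : ℝ) := by
    filter_upwards [hzub, ll_tendsto.eventually_ge_atTop 1, ev_ll_rpow (D₁ + 1) (a := 1 / 2) (by norm_num)] with X ha hb hc
    nlinarith
  have h3 := sieg_real sg pb B z (2 * B * D₁ + 2 * B) (by positivity) (by
    filter_upwards [hzub, ll_tendsto.eventually_ge_atTop 0] with X ha hb
    have : 2 * (B : ℝ) * z X ≤ 2 * B * (D₁ * Real.log (Real.log X) + 1) := by gcongr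
    have h5 : 0 ≤ 2 * (B : ℝ) * Real.log (Real.log X) := by positivity
    have h6 : 0 ≤ 2 * (B : ℝ) * D₁ := by positivity
    nlinarith)
  have h4 := uni zr pb hB hC₀ hsuf z (1 / 2) le_rfl (by norm_num) h1 h2 h3 ε hε
  filter_upwards [h4, ll_tendsto.eventually_ge_atTop 0] with X ha hb K hK
  apply ha
  have : (16 * K : ℝ) ≤ z X := by
    refine le_trans ?_ (Nat.le_ceil _)
    have : A * Real.log (Real.log X) ≤ |A| * Real.log (Real.log X) := by gcongr; exact le_abs_self A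
    have h5 : 0 ≤ C₀ * Real.log (Real.log X) := by positivity
    nlinarith
  exact_mod_cast this

end Pool.Agent.Q145.SZ
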