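import Pool.Agent.Q145.SZ.Case3

/-!
# Project SZ: tuples of length `c log X / log log X` for arbitrarily large `X`
-/

set_option autoImplicit false

namespace Pool.Agent.Q145.SZ

open Finset Filter Complex
open Pool.Agent.W66 Pool.Agent.W66L

/-- no exceptional zeros up to level `Q` -/
def GoodQ (c : ℝ) (Q : ℕ) : Prop := ∀ (f : ℕ) [NeZero f], 1 < f → f ≤ Q → ∀ χ : DirichletCharacter ℂ f, χ.IsPrimitive →
  ∀ s : ℂ, χ.LFunction s = 0 → s.re ≤ 1 - c / lq Q s.im

lemma logQ_tendsto : Tendsto (fun Q : ℕ => Real.log Q) atTop atTop := log_tendsto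

lemma case2a (pb : S_PWB) {B : ℕ} {C₀ : ℝ} (hB : 1 ≤ B) (hC₀ : 64 ≤ C₀) (hsuf : SUFc B C₀) {c : ℝ} (hc : 0 < c) (ε : ℝ) (hε : 0 < ε) :
    ∀ᶠ Q : ℕ in atTop, GoodQ c Q → ∀ X : ℕ, Real.log Q ≤ Real.log X → (62 * C₀ / c + C₀) * Real.log Q * Real.log (Real.log X) ≤ Real.log X →
      Real.log X ≤ Real.log Q ^ 2 → ∀ K : ℕ, (K : ℝ) ≤ 1 / (64 * B) * Real.log Q → HLK X K ε := by
  obtain ⟨M, hM, hh⟩ := hsuf ε hε
  have hBr : (1 : ℝ) ≤ B := by exact_mod_cast hB
  have e1 := log_tendsto.eventually (ev_log_rpow (2 * C₀ * (4 * B)) (a := 1) one_pos)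
  filter_upwards [ll_tendsto.eventually_ge_atTop M, log_tendsto.eventually_ge_atTop (4 * B), log_tendsto.eventually_ge_atTop (4 * c), e1]
    with Q h1 h2 h3 h4 hG X hX1 hX2 hX3 K hK
  obtain ⟨hlm1, -, -⟩ := ll_conseq (M := 64) (by norm_num) (by linarith : 64 ≤ Real.log (Real.log Q))
  set lam := Real.log Q with hlam
  rw [Real.rpow_one] at h4
  have hlam0 : 0 < lam := by linarith
  have hL0 : 0 < Real.log X := by linarith
  have hll : Real.log lam ≤ Real.log (Real.log X) := Real.log_le_log hlam0 hX1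
  have hll0 : 0 < Real.log (Real.log X) := by linarith
  have hll2 : Real.log (Real.log X) ≤ 2 * Real.log lam := by
    have := Real.log_le_log hL0 hX3
    rwa [Real.log_pow] at this
  have hQ0 : (0 : ℝ) < Q := by
    rcases Nat.eq_zero_or_pos Q with h | h
    · rw [hlam, h] at hlam0; simp at hlam0
    · exact_mod_cast h
  set z : ℕ := ⌊lam / (2 * B)⌋₊ with hz
  have hz1 : (z : ℝ) ≤ lam / (2 * B) := Nat.floor_le (by positivity)
  have hz2 : lam / (2 * B) - 1 ≤ z := (Nat.sub_one_lt_floor _).le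
  have hz3 : lam / (4 * B) ≤ z := by
    refine le_trans ?_ hz2
    have : lam / (2 * B) = lam / (4 * B) + lam / (4 * B) := by field_simp; norm_num
    rw [this]
    have : 1 ≤ lam / (4 * B) := by rw [le_div_iff₀ (by positivity)]; linarith
    linarith
  have hz4 : 2 * B * z ≤ lam := by
    rw [le_div_iff₀ (by positivity)] at hz1; linarith
  have hMc : 0 < 62 * C₀ / c := by positivity
  have hT : Real.log (Real.exp (60 * lam)) = 60 * lam := Real.log_exp _
  refine hh z X (c / (62 * lam)) (Real.exp (60 * lam)) (by linarith) ?_ ?_ (by positivity) ?_ ?_ (Real.exp_pos _) ?_ ?_ ?_ K ?_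
  · have : C₀ * Real.log (Real.log X) ≤ C₀ * (2 * Real.log lam) := by gcongr
    refine this.trans (le_trans ?_ hz3)
    rw [le_div_iff₀ (by positivity)]
    linarith
  · have h5 : C₀ * z * Real.log (Real.log X) ≤ C₀ * lam * Real.log (Real.log X) := by
      gcongr
      have : (z : ℝ) ≤ 2 * B * z := by
        have : (0 : ℝ) ≤ z := by positivity
        nlinarith
      linarith
    refine h5.trans (le_trans ?_ hX2)
    gcongr
    linarith
  · rw [div_le_div_iff₀ (by positivity) (by norm_num)]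
    linarith
  · have h5 : (62 * C₀ / c) * lam * Real.log (Real.log X) ≤ Real.log X := by
      refine le_trans ?_ hX2
      gcongr
      linarith
    rw [div_mul_eq_mul_div, le_div_iff₀ (by positivity)]
    have h6 := mul_le_mul_of_nonneg_left h5 hc.le
    have e : c * (62 * C₀ / c * lam * Real.log (Real.log X)) = C₀ * Real.log (Real.log X) * (62 * lam) := by field_simp
    rw [e] at h6
    exact h6
  · rw [hT]; linarith
  · rw [hT]
    have : √(Real.log X) ≤ lam := by
      rw [Real.sqrt_le_left hlam0.le]; exact hX3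
    linarith
  · intro f _ hf hfF χ hχ s hs him h0
    have hfQ : f ≤ Q := by
      have h5 : ((PW z ^ B : ℕ) : ℝ) ≤ Q := by
        rw [← Real.log_le_log_iff (by exact_mod_cast Nat.pow_pos (PW_pos z)) hQ0]
        exact (log_PW_pow_le pb z B).trans hz4
      exact hfF.trans (by exact_mod_cast h5)
    have h5 := hG f hf hfQ χ hχ s h0
    have : NeZero Q := ⟨by rintro rfl; simp at hQ0⟩
    have h6 : lq Q s.im ≤ 62 * lam := by
      have h7 := lq_le (f := Q) (F := Q) le_rfl him
      have h8 : Real.log (Real.exp (60 * lam) + 3) ≤ 60 * lam + 2 := by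
        have h9 : Real.exp (60 * lam) + 3 ≤ Real.exp (60 * lam) * 4 := by
          have : 1 ≤ Real.exp (60 * lam) := Real.one_le_exp (by positivity)
          linarith
        have h10 := Real.log_le_log (by positivity) h9
        rw [Real.log_mul (by positivity) (by norm_num), hT] at h10
        have h11 : Real.log 4 ≤ 2 := by
          rw [Real.log_le_iff_le_exp (by norm_num)]
          have := Real.add_one_le_exp (1 : ℝ)
          have e : Real.exp 2 = Real.exp 1 * Real.exp 1 := by rw [← Real.exp_add]; norm_num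
          rw [e]; nlinarith
        linarith
      linarith
    have h7 : c / (62 * lam) ≤ c / lq Q s.im := by
      have := lq_pos (f := Q) (s := s.im)
      gcongr
    linarith
  · have h5 : (16 * K : ℝ) ≤ z := by
      refine le_trans ?_ hz3
      have : (16 * K : ℝ) ≤ 16 * (1 / (64 * B) * lam) := by gcongr
      refine this.trans (le_of_eq ?_)
      field_simp; norm_num
    exact_mod_cast h5

theorem case2 (pb : S_PWB) (hs : S_SUF) (good : ∃ c : ℝ, 0 < c ∧ ∀ Q₀ : ℕ, ∃ Q : ℕ, Q₀ ≤ Q ∧ GoodQ c Q) :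
    ∃ c : ℝ, 0 < c ∧ ∀ ε : ℝ, 0 < ε → ∃ᶠ X : ℕ in atTop, ∀ K : ℕ, (K : ℝ) ≤ c * (Real.log X / Real.log (Real.log X)) → HLK X K ε := by
  obtain ⟨B, C₀, hB, hC₀, hsuf⟩ := hs
  obtain ⟨c, hc, hg⟩ := good
  have hBr : (1 : ℝ) ≤ B := by exact_mod_cast hB
  set M : ℝ := 62 * C₀ / c + C₀ with hM
  have hM0 : 0 < 62 * C₀ / c := by positivity
  have hM1 : 64 ≤ M := by linarith
  refine ⟨1 / (64 * B) / (3 * M), by positivity, ?_⟩
  intro ε hε
  have hev := case2a pb hB hC₀ hsuf hc ε hε
  have e1 := log_tendsto.eventually (ev_log_rpow (3 * M) (a := 1) one_pos)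
  rw [Filter.frequently_atTop]
  intro X₀
  obtain ⟨Q₀, hQ₀⟩ := eventually_atTop.1 (hev.and (e1.and ((ll_tendsto.eventually_ge_atTop 64).and (log_tendsto.eventually_ge_atTop (X₀ : ℝ)))))
  obtain ⟨Q, hQ, hgQ⟩ := hg Q₀
  obtain ⟨h1, h2, h3, h4⟩ := hQ₀ Q hQ
  obtain ⟨hlm1, -, -⟩ := ll_conseq (M := 64) (by norm_num) h3
  rw [Real.rpow_one] at h2
  set lam := Real.log Q with hlam
  have hlam0 : 0 < lam := by linarith
  have hll0 : 0 < Real.log lam := by linarith
  set y : ℝ := 2 * M * lam * Real.log lam with hy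
  have hy0 : 0 < y := by positivity
  have hylam : lam ≤ y := by
    rw [hy]
    have : 1 ≤ 2 * M * Real.log lam := by nlinarith
    nlinarith
  set X : ℕ := ⌈Real.exp y⌉₊ with hX
  have hX1 : Real.exp y ≤ X := Nat.le_ceil _
  have hX2 : (X : ℝ) ≤ Real.exp y + 1 := (Nat.ceil_lt_add_one (Real.exp_pos y).le).le
  have hX0 : (0 : ℝ) < X := lt_of_lt_of_le (Real.exp_pos y) hX1
  have hL1 : y ≤ Real.log X := by rw [Real.le_log_iff_exp_le hX0]; exact hX1
  have hL2 : Real.log X ≤ y + 1 := by
    rw [Real.log_le_iff_le_exp hX0, Real.exp_add]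
    have h5 : 1 ≤ Real.exp y := Real.one_le_exp hy0.le
    have h6 : 1 + 1 ≤ Real.exp 1 := Real.add_one_le_exp 1
    nlinarith
  have hylam2 : y + 1 ≤ lam ^ 2 := by
    rw [hy]
    have h5 : 2 * M * lam * Real.log lam = (2 / 3) * lam * (3 * M * Real.log lam) := by ring
    rw [h5]
    have h6 : (2 / 3) * lam * (3 * M * Real.log lam) ≤ (2 / 3) * lam * lam := by gcongr
    nlinarith
  have hlamL : lam ≤ Real.log X := by linarith
  have hL0 : 0 < Real.log X := by linarith
  have hllX : Real.log (Real.log X) ≤ 2 * Real.log lam := by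
    have := Real.log_le_log hL0 (hL2.trans hylam2)
    rwa [Real.log_pow] at this
  have hllX1 : Real.log lam ≤ Real.log (Real.log X) := Real.log_le_log hlam0 hlamL
  refine ⟨X, ?_, ?_⟩
  · have h5 : (X₀ : ℝ) ≤ X := by
      have := Real.add_one_le_exp y
      linarith
    exact_mod_cast h5
  · intro K hK
    refine h1 hgQ X hlamL ?_ (hL2.trans hylam2) K (hK.trans ?_)
    · calc M * lam * Real.log (Real.log X) ≤ M * lam * (2 * Real.log lam) := by gcongr
        _ = y := by rw [hy]; ring
        _ ≤ Real.log X := hL1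
    · have h5 : Real.log X / Real.log (Real.log X) ≤ 3 * M * lam := by
        rw [div_le_iff₀ (by linarith)]
        calc Real.log X ≤ y + 1 := hL2
          _ ≤ 3 * M * lam * Real.log lam := by
            rw [hy]
            have : 1 ≤ M * lam * Real.log lam := by
              have h6 : 1 ≤ M * lam := by nlinarith
              nlinarith
            nlinarith
          _ ≤ _ := by gcongr
      calc 1 / (64 * B) / (3 * M) * (Real.log X / Real.log (Real.log X)) ≤ 1 / (64 * B) / (3 * M) * (3 * M * lam) := by gcongr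
        _ = _ := by field_simp

end Pool.Agent.Q145.SZ
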