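import Pool.Agent.Q145.SZ.Case1

/-!
# Project SZ: sufficiency in the equivalence, and arbitrarily large `X`
-/

set_option autoImplicit false

namespace Pool.Agent.Q145.SZ

open Finset Filter Complex
open Pool.Agent.W66 Pool.Agent.W66L

/-- real zeros of primitive characters modulo `r` stay at distance `(log r)^(-A)` from `1`, for every `A > 1 / κ` -/
def RZ (κ : ℝ) : Prop := ∀ A : ℝ, 1 / κ < A → ∃ R : ℕ, ∀ (r : ℕ) [NeZero r], R ≤ r → ∀ χ : DirichletCharacter ℂ r, χ.IsPrimitive →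
  ∀ β : ℝ, χ.LFunction β = 0 → β ≤ 1 - Real.log r ^ (-A)

lemma real_of_RZ (sg : S_SIEG) (pb : S_PWB) {κ'' A θ : ℝ} (hκ'' : 0 < κ'') (hA : 0 < A) (hθ0 : 0 < θ) (hθ : κ'' * A < θ) (B : ℕ) (hB : 1 ≤ B)
    (h : ∃ R : ℕ, ∀ (r : ℕ) [NeZero r], R ≤ r → ∀ χ : DirichletCharacter ℂ r, χ.IsPrimitive →
      ∀ β : ℝ, χ.LFunction β = 0 → β ≤ 1 - Real.log r ^ (-A)) (z : ℕ → ℕ)
    (hz : ∀ᶠ X : ℕ in atTop, (z X : ℝ) ≤ Real.log X ^ κ'' + 1) :
    ∀ᶠ X : ℕ in atTop, ∀ (f : ℕ) [NeZero f], 1 < f → f ≤ PW (z X) ^ B → ∀ χ : DirichletCharacter ℂ f, χ.IsPrimitive → χ ^ 2 = 1 →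
      ∀ β : ℝ, χ.LFunction β = 0 → β ≤ 1 - Real.log X ^ (-θ) := by
  obtain ⟨R, hR⟩ := h
  obtain ⟨c, hc, hsg⟩ := sg 1 one_pos
  have hBr : (1 : ℝ) ≤ B := by exact_mod_cast hB
  have hev1 := ev_rpow_rpow ((4 * B) ^ A) (a := -θ) (b := -(κ'' * A)) (by linarith)
  have hev2 := ev_rpow_rpow (((R : ℝ) + 3) / c) (a := -θ) (b := 0) (by linarith)
  filter_upwards [hz, ll_tendsto.eventually_ge_atTop 64, hev1, hev2] with X h1 h2 h3 h4
  obtain ⟨hL1, -, -⟩ := ll_conseq (M := 64) (by norm_num) h2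
  have hL0 : 0 < Real.log X := by linarith
  intro f _ hf hfF χ hχ hχ2 β hβ
  have hf0 : (0 : ℝ) < f := by positivity
  rcases le_or_gt (R + 3) f with hfR | hfR
  · have h5 := hR f (by omega) χ hχ β hβ
    have hf3 : (3 : ℝ) ≤ f := by
      have : 3 ≤ f := by omega
      exact_mod_cast this
    have hlf0 : 0 < Real.log f := Real.log_pos (by linarith)
    have hlogf : Real.log f ≤ 4 * B * Real.log X ^ κ'' := by
      have h6 : Real.log f ≤ Real.log ((PW (z X) ^ B : ℕ) : ℝ) := Real.log_le_log hf0 (by exact_mod_cast hfF)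
      have h7 := h6.trans (log_PW_pow_le pb (z X) B)
      have h8 : 1 ≤ Real.log X ^ κ'' := Real.one_le_rpow (by linarith) hκ''.le
      have h9 : 2 * (B : ℝ) * z X ≤ 2 * B * (Real.log X ^ κ'' + 1) := by gcongr
      nlinarith
    have h6 : (4 * B * Real.log X ^ κ'') ^ (-A) ≤ Real.log f ^ (-A) :=
      Real.rpow_le_rpow_of_nonpos hlf0 hlogf (by linarith)
    have h7 : (4 * B * Real.log X ^ κ'') ^ (-A) = (4 * B : ℝ) ^ (-A) * Real.log X ^ (-(κ'' * A)) := by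
      rw [Real.mul_rpow (by positivity) (by positivity), ← Real.rpow_mul hL0.le]
      ring_nf
    have h8 : Real.log X ^ (-θ) ≤ (4 * B : ℝ) ^ (-A) * Real.log X ^ (-(κ'' * A)) := by
      have : (4 * (B : ℝ)) ^ (-A) * ((4 * B) ^ A * Real.log X ^ (-θ)) ≤ (4 * B : ℝ) ^ (-A) * Real.log X ^ (-(κ'' * A)) := by gcongr
      rw [← mul_assoc, ← Real.rpow_add (by positivity)] at this
      simpa using this
    linarith
  · have h5 := hsg f χ hχ hχ2 (prim_ne_one hf hχ) β hβ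
    have h6 : (R + 3 : ℝ)⁻¹ ≤ (f : ℝ) ^ (-(1 : ℝ)) := by
      rw [Real.rpow_neg_one]
      apply inv_anti₀ hf0
      have : f ≤ R + 3 := hfR.le
      exact_mod_cast this
    have h7 : Real.log X ^ (-θ) ≤ c * (R + 3 : ℝ)⁻¹ := by
      rw [Real.rpow_zero] at h4
      rw [div_mul_eq_mul_div, div_le_one hc] at h4
      rw [← div_eq_mul_inv, le_div_iff₀ (by positivity)]
      linarith
    have h8 : c * (R + 3 : ℝ)⁻¹ ≤ c * (f : ℝ) ^ (-(1 : ℝ)) := by gcongr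
    linarith

theorem case3 (zr : S_ZR') (pb : S_PWB) (sg : S_SIEG) (hs : S_SUF) {κ : ℝ} (hκ : 0 < κ) (hκ1 : κ ≤ 1) (h : RZ κ) {κ' : ℝ}
    (hκ'0 : 0 < κ') (hκ' : κ' < κ) (ε : ℝ) (hε : 0 < ε) :
    ∀ᶠ X : ℕ in atTop, ∀ K : ℕ, (K : ℝ) ≤ Real.log X ^ κ' → HLK X K ε := by
  obtain ⟨B, C₀, hB, hC₀, hsuf⟩ := hs
  set κ'' := (κ' + κ) / 2 with hκ''
  have hk1 : κ' < κ'' := by rw [hκ'']; linarith
  have hk2 : κ'' < κ := by rw [hκ'']; linarith
  have hk0 : 0 < κ'' := by linarith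
  set A := 2 / (κ'' + κ) with hA
  have hA0 : 0 < A := by positivity
  have hA1 : 1 / κ < A := by
    rw [hA, div_lt_div_iff₀ hκ (by linarith)]; linarith
  have hA2 : κ'' * A < 1 := by
    rw [hA, mul_div_assoc', div_lt_one (by linarith)]; linarith
  set θ := max (1 / 2) (max ((κ'' + 1) / 2) ((κ'' * A + 1) / 2)) with hθ
  have hθ1 : 1 / 2 ≤ θ := le_max_left _ _
  have hθ2 : (κ'' + 1) / 2 ≤ θ := (le_max_left _ _).trans (le_max_right _ _)
  have hθ3 : (κ'' * A + 1) / 2 ≤ θ := (le_max_right _ _).trans (le_max_right _ _)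
  have hθ4 : θ < 1 := by
    rw [hθ, max_lt_iff, max_lt_iff]
    refine ⟨by norm_num, by linarith, by linarith⟩
  have hθ0 : 0 < θ := by linarith
  set z : ℕ → ℕ := fun X => ⌈Real.log X ^ κ''⌉₊ with hz
  have hzub : ∀ᶠ X : ℕ in atTop, (z X : ℝ) ≤ Real.log X ^ κ'' + 1 := by
    filter_upwards [log_tendsto.eventually_ge_atTop 0] with X h
    exact ceil_le_add_one (by positivity)
  have h1 : ∀ᶠ X : ℕ in atTop, C₀ * Real.log (Real.log X) ≤ z X := by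
    filter_upwards [ev_ll_rpow C₀ hk0] with X h
    exact h.trans (Nat.le_ceil _)
  have h2 : ∀ᶠ X : ℕ in atTop, (z X : ℝ) ≤ Real.log X ^ θ := by
    filter_upwards [hzub, log_tendsto.eventually_ge_atTop 1, ev_rpow_rpow 2 (a := κ'') (b := θ) (by linarith)] with X ha hb hc
    have : 1 ≤ Real.log X ^ κ'' := Real.one_le_rpow hb hk0.le
    linarith
  have h3 := real_of_RZ sg pb hk0 hA0 hθ0 (by linarith : κ'' * A < θ) B hB (h A hA1) z hzub
  have h4 := uni zr pb hB hC₀ hsuf z θ hθ1 hθ4 h1 h2 h3 ε hε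
  filter_upwards [h4, ev_rpow_rpow 16 hk1] with X ha hb K hK
  apply ha
  have : (16 * K : ℝ) ≤ z X := by
    refine le_trans ?_ (Nat.le_ceil _)
    linarith
  exact_mod_cast this

end Pool.Agent.Q145.SZ
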