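import Pool.Agent.Q145.SZ.Stm3

/-!
# Project SZ: necessity
-/

set_option autoImplicit false

namespace Pool.Agent.Q145.SZ

open Finset Filter Complex
open Pool.Agent.W66 Pool.Agent.W66L

open Classical in
/-- tuples which admit a shift `n` with few `χ = 1` -/
noncomputable def BadT {r : ℕ} (χ : DirichletCharacter ℂ r) (X K : ℕ) : Finset (Fin K → ℕ) :=
  (AT X K).filter fun s => ∃ n : ℕ, (∀ i, (n + s i).Coprime r) ∧ 4 * (univ.filter fun i => χ ((n + s i : ℕ) : ZMod r) = 1).card < K

open Classical in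
lemma bad_card (coin : S_COIN) {r : ℕ} [NeZero r] (χ : DirichletCharacter ℂ r) (hχ2 : χ ^ 2 = 1) (hχ : χ ≠ 1) (X K : ℕ)
    (hX : 16 * (K + 1) * (PW K * r) ≤ X) :
    ((BadT χ X K).card : ℝ) ≤ r * (2 * Real.exp (-((K : ℝ) / 8)) * (AT X K).card) := by
  have hsub : BadT χ X K ⊆ (range r).biUnion fun n =>
      (AT X K).filter fun s => (∀ i, (n + s i).Coprime r) ∧ 4 * (univ.filter fun i => χ ((n + s i : ℕ) : ZMod r) = 1).card < K := by
    intro s hs
    unfold BadT at hs
    rw [mem_filter] at hs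
    obtain ⟨h1, n, h2, h3⟩ := hs
    rw [mem_biUnion]
    refine ⟨n % r, mem_range.2 (Nat.mod_lt _ (Nat.pos_of_ne_zero (NeZero.ne r))), ?_⟩
    rw [mem_filter]
    have hmod : ∀ i, ((n % r + s i : ℕ) : ZMod r) = ((n + s i : ℕ) : ZMod r) := fun i => by
      push_cast
      rw [ZMod.natCast_mod]
    refine ⟨h1, fun i => ?_, ?_⟩
    · have h4 := h2 i
      rw [← ZMod.isUnit_iff_coprime] at h4 ⊢
      rw [hmod i]; exact h4
    · simp only [hmod]
      exact h3
  have h1 : ((BadT χ X K).card : ℝ) ≤ ∑ n ∈ range r, (((AT X K).filter fun s => (∀ i, (n + s i).Coprime r) ∧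
      4 * (univ.filter fun i => χ ((n + s i : ℕ) : ZMod r) = 1).card < K).card : ℝ) := by
    have := (card_le_card hsub).trans card_biUnion_le
    exact_mod_cast this
  refine h1.trans ?_
  calc _ ≤ ∑ _n ∈ range r, 2 * Real.exp (-((K : ℝ) / 8)) * (AT X K).card := sum_le_sum fun n _ => coin r χ hχ2 hχ X K n hX
    _ = _ := by rw [sum_const, card_range, nsmul_eq_mul]

open Classical in
/-- the number of `n` with many `χ = 1` -/
noncomputable def cntP {K : ℕ} (X : ℕ) (P : Finset ℕ) (s : Fin K → ℕ) : ℕ :=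
  ((Ioc X (2 * X)).filter fun n => (∀ i, (n + s i).Prime) ∧ K ≤ 4 * (univ.filter fun i => n + s i ∈ P).card).card

open Classical in
lemma cnt_le_cntP {r : ℕ} [NeZero r] (χ : DirichletCharacter ℂ r) {X K : ℕ} (hrX : r ≤ X) {s : Fin K → ℕ} (hs : s ∈ AT X K)
    (hb : s ∉ BadT χ X K) :
    cnt X s ≤ cntP X ((Ioc X (3 * X)).filter fun p : ℕ => p.Prime ∧ χ (p : ZMod r) = 1) s := by
  unfold cnt cntP
  apply card_le_card
  intro n hn
  rw [mem_filter] at hn ⊢
  refine ⟨hn.1, hn.2, ?_⟩
  by_contra hcon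
  push Not at hcon
  apply hb
  unfold BadT
  rw [mem_filter]
  refine ⟨hs, n, fun i => ?_, ?_⟩
  · rw [Nat.Prime.coprime_iff_not_dvd (hn.2 i)]
    apply Nat.not_dvd_of_pos_of_lt (Nat.pos_of_ne_zero (NeZero.ne r))
    have := (mem_Ioc.1 hn.1).1
    omega
  · refine lt_of_le_of_lt ?_ hcon
    apply Nat.mul_le_mul_left
    apply card_le_card
    intro i hi
    rw [mem_filter] at hi ⊢
    refine ⟨mem_univ i, ?_⟩
    rw [mem_filter, mem_Ioc]
    have h1 := mem_Ioc.1 hn.1
    have h2 : s i ≤ X := by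
      unfold AT at hs
      exact (mem_Icc.1 (Fintype.mem_piFinset.1 (mem_filter.1 hs).1 i)).2
    exact ⟨⟨by omega, by omega⟩, hn.2 i, hi.2⟩

open Classical in
lemma noninj_card (X K : ℕ) :
    (((AT X K).filter fun s => ¬ Function.Injective s).card : ℝ) ≤ (K : ℝ) ^ 2 * (X : ℝ) ^ (K - 1) := by
  have hsub : (AT X K).filter (fun s => ¬ Function.Injective s) ⊆
      ((univ : Finset (Fin K × Fin K)).filter fun q => q.1 ≠ q.2).biUnion fun q =>
        (Fintype.piFinset fun _ : Fin K => Icc 1 X).filter fun s => s q.1 = s q.2 := by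
    intro s hs
    rw [mem_filter] at hs
    obtain ⟨h1, h2⟩ := hs
    unfold Function.Injective at h2
    push Not at h2
    obtain ⟨i, j, h3, h4⟩ := h2
    rw [mem_biUnion]
    refine ⟨(i, j), mem_filter.2 ⟨mem_univ _, h4⟩, ?_⟩
    unfold AT at h1
    exact mem_filter.2 ⟨(mem_filter.1 h1).1, h3⟩
  have hone : ∀ q ∈ ((univ : Finset (Fin K × Fin K)).filter fun q => q.1 ≠ q.2),
      ((Fintype.piFinset fun _ : Fin K => Icc 1 X).filter fun s => s q.1 = s q.2).card ≤ X ^ (K - 1) := by
    rintro ⟨i, j⟩ hq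
    rw [mem_filter] at hq
    have hij : i ≠ j := hq.2
    have hcard : (Fintype.piFinset fun _ : {k : Fin K // k ≠ j} => Icc 1 X).card = X ^ (K - 1) := by
      rw [Fintype.card_piFinset]
      simp [Fintype.card_subtype_compl]
    rw [← hcard]
    apply card_le_card_of_injOn (fun s (k : {k : Fin K // k ≠ j}) => s k)
    · intro s hs
      have hs := (mem_filter.1 hs).1
      apply Fintype.mem_piFinset.2
      intro k
      exact Fintype.mem_piFinset.1 hs k
    · intro s hs t ht hst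
      have e1 : s i = s j := (mem_filter.1 hs).2
      have e2 : t i = t j := (mem_filter.1 ht).2
      funext k
      by_cases hk : k = j
      · rw [hk, ← e1, ← e2]
        exact congrFun hst ⟨i, hij⟩
      · exact congrFun hst ⟨k, hk⟩
  have h1 := (card_le_card hsub).trans card_biUnion_le
  have h2 : ((AT X K).filter (fun s => ¬ Function.Injective s)).card ≤ K ^ 2 * X ^ (K - 1) := by
    refine h1.trans ((sum_le_sum hone).trans ?_)
    rw [sum_const, smul_eq_mul]
    apply Nat.mul_le_mul_right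
    refine (card_filter_le _ _).trans ?_
    simp [sq]
  exact_mod_cast h2

end Pool.Agent.Q145.SZ
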