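import Pool.Agent.Q145.SZ.Nec

/-!
# Project SZ: necessity (2)
-/

set_option autoImplicit false

namespace Pool.Agent.Q145.SZ

open Finset Filter Complex
open Pool.Agent.W66 Pool.Agent.W66L

open Classical in
/-- the core inequality -/
lemma nec_core (coin : S_COIN) {c₂ c₃ C₁ C ε₀ δ : ℝ} {X₁ : ℕ} (hc₂ : 0 < c₂) (hc₃ : 0 < c₃) (hC₁ : 0 < C₁) (hC : 0 < C) (hε₀ : 0 < ε₀)
    (hε₁ : ε₀ ≤ 1) (hsmall : C * C₁ * ε₀ ^ (1 / 4 : ℝ) ≤ c₂ * c₃ / 2)
    (slow : ∀ (K : ℕ) (s : Fin K → ℕ), 2 ≤ K → Function.Injective s → Adm s → (c₂ * Real.log K) ^ K ≤ sing s)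
    (padm : ∀ X K : ℕ, 2 ≤ K → 2 * PW K ≤ X → (c₃ / Real.log K * X) ^ K ≤ ((AT X K).card : ℝ))
    (fm : ∀ (X K : ℕ) (ε : ℝ) (P : Finset ℕ), X₁ ≤ X → 0 < ε → ε ≤ 1 → (P.card : ℝ) ≤ ε * X / Real.log X →
      ∑ s ∈ Fintype.piFinset (fun _ : Fin K => Icc 1 X), (cntP X P s : ℝ) ≤ X * (C₁ * ε ^ (1 / 4 : ℝ) * X / Real.log X) ^ K)
    {r : ℕ} [NeZero r] (χ : DirichletCharacter ℂ r) (hχ2 : χ ^ 2 = 1) (hχ : χ ≠ 1) (X K : ℕ) (hX₁ : X₁ ≤ X) (hX3 : 3 ≤ X) (hK : 2 ≤ K)
    (hX : 16 * (K + 1) * (PW K * r) ≤ X)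
    (hP : ((((Ioc X (3 * X)).filter fun p : ℕ => p.Prime ∧ χ (p : ZMod r) = 1)).card : ℝ) ≤ ε₀ * X / Real.log X)
    (hlb : δ * (AT X K).card ≤ (((AT X K).filter fun s => sing s * X ≤ C ^ K * (cnt X s * Real.log X ^ K)).card : ℝ)) :
    δ ≤ (1 / 2) ^ K + r * (2 * Real.exp (-((K : ℝ) / 8))) + (K : ℝ) ^ 2 * (Real.log K / c₃) ^ K / X := by
  have hXr : (3 : ℝ) ≤ X := by exact_mod_cast hX3
  have hX0 : (0 : ℝ) < X := by linarith
  have hL : 0 < Real.log X := Real.log_pos (by linarith)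
  have hKr : (2 : ℝ) ≤ K := by exact_mod_cast hK
  have hlK : 0 < Real.log K := Real.log_pos (by linarith)
  have hr1 : 1 ≤ r := Nat.pos_of_ne_zero (NeZero.ne r)
  have hPW1 : 1 ≤ PW K := Nat.pos_of_ne_zero (NeZero.ne _)
  have hrX : r ≤ X := by
    calc r = 1 * (1 * r) := by ring
      _ ≤ 16 * (K + 1) * (PW K * r) := by gcongr; omega
      _ ≤ X := hX
  have hPX : 2 * PW K ≤ X := by
    calc 2 * PW K = 2 * (PW K * 1) := by ring
      _ ≤ 16 * (K + 1) * (PW K * r) := by gcongr; omega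
      _ ≤ X := hX
  have hAT := padm X K hK hPX
  have hAT0 : 0 < (c₃ / Real.log K * X) ^ K := by positivity
  have hATpos : (0 : ℝ) < ((AT X K).card : ℝ) := lt_of_lt_of_le hAT0 hAT
  set P := (Ioc X (3 * X)).filter fun p : ℕ => p.Prime ∧ χ (p : ZMod r) = 1 with hPdef
  set G := (AT X K).filter fun s => sing s * X ≤ C ^ K * (cnt X s * Real.log X ^ K) with hG
  set NI := (AT X K).filter fun s => ¬ Function.Injective s with hNI
  set G' := (G \ BadT χ X K) \ NI with hG'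
  have hbad := bad_card coin χ hχ2 hχ X K hX
  have hni := noninj_card X K
  -- count of G'
  have hcard : (G.card : ℝ) ≤ G'.card + (BadT χ X K).card + NI.card := by
    have h1 : G ⊆ G' ∪ BadT χ X K ∪ NI := by
      intro s hs
      by_cases h2 : s ∈ NI
      · exact mem_union_right _ h2
      · by_cases h3 : s ∈ BadT χ X K
        · exact mem_union_left _ (mem_union_right _ h3)
        · exact mem_union_left _ (mem_union_left _ (by rw [hG', Finset.mem_sdiff, Finset.mem_sdiff]; exact ⟨⟨hs, h3⟩, h2⟩))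
    have h2 := (card_le_card h1).trans (card_union_le _ _)
    have h3 := card_union_le G' (BadT χ X K)
    have : G.card ≤ G'.card + (BadT χ X K).card + NI.card := by omega
    exact_mod_cast this
  -- the sum over G'
  have hG'1 : (G'.card : ℝ) * ((c₂ * Real.log K) ^ K * X) ≤
      C ^ K * Real.log X ^ K * (X * (C₁ * ε₀ ^ (1 / 4 : ℝ) * X / Real.log X) ^ K) := by
    calc (G'.card : ℝ) * ((c₂ * Real.log K) ^ K * X) = ∑ _s ∈ G', (c₂ * Real.log K) ^ K * X := by
          rw [sum_const, nsmul_eq_mul]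
      _ ≤ ∑ s ∈ G', C ^ K * Real.log X ^ K * (cntP X P s : ℝ) := by
          apply sum_le_sum
          intro s hs
          rw [hG', Finset.mem_sdiff, Finset.mem_sdiff] at hs
          obtain ⟨⟨hs1, hs2⟩, hs3⟩ := hs
          rw [hG, mem_filter] at hs1
          obtain ⟨hs4, hs5⟩ := hs1
          have hinj : Function.Injective s := by
            by_contra h
            exact hs3 (mem_filter.2 ⟨hs4, h⟩)
          have hadm : Adm s := by
            unfold AT at hs4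
            exact (mem_filter.1 hs4).2
          have h1 := slow K s hK hinj hadm
          have h2 : (cnt X s : ℝ) ≤ cntP X P s := by exact_mod_cast cnt_le_cntP χ hrX hs4 hs2
          calc (c₂ * Real.log K) ^ K * X ≤ sing s * X := by gcongr
            _ ≤ C ^ K * (cnt X s * Real.log X ^ K) := hs5
            _ ≤ C ^ K * (cntP X P s * Real.log X ^ K) := by gcongr
            _ = _ := by ring
      _ ≤ ∑ s ∈ Fintype.piFinset (fun _ : Fin K => Icc 1 X), C ^ K * Real.log X ^ K * (cntP X P s : ℝ) := by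
          apply sum_le_sum_of_subset_of_nonneg
          · intro s hs
            rw [hG', Finset.mem_sdiff, Finset.mem_sdiff] at hs
            have := hs.1.1
            rw [hG, mem_filter] at this
            have := this.1
            unfold AT at this
            exact (mem_filter.1 this).1
          · intro s _ _
            positivity
      _ = C ^ K * Real.log X ^ K * ∑ s ∈ Fintype.piFinset (fun _ : Fin K => Icc 1 X), (cntP X P s : ℝ) := by rw [mul_sum]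
      _ ≤ _ := by
          gcongr
          exact fm X K ε₀ P hX₁ hε₀ hε₁ hP
  have hG'2 : (G'.card : ℝ) ≤ (1 / 2) ^ K * (AT X K).card := by
    have h1 : C ^ K * Real.log X ^ K * (X * (C₁ * ε₀ ^ (1 / 4 : ℝ) * X / Real.log X) ^ K) =
        (C * C₁ * ε₀ ^ (1 / 4 : ℝ) * X) ^ K * X := by
      have e : Real.log X ^ K * (C₁ * ε₀ ^ (1 / 4 : ℝ) * X / Real.log X) ^ K = (C₁ * ε₀ ^ (1 / 4 : ℝ) * X) ^ K := by
        rw [← mul_pow]; congr 1; field_simp
      calc C ^ K * Real.log X ^ K * (X * (C₁ * ε₀ ^ (1 / 4 : ℝ) * X / Real.log X) ^ K)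
          = C ^ K * (Real.log X ^ K * (C₁ * ε₀ ^ (1 / 4 : ℝ) * X / Real.log X) ^ K) * X := by ring
        _ = C ^ K * (C₁ * ε₀ ^ (1 / 4 : ℝ) * X) ^ K * X := by rw [e]
        _ = (C * (C₁ * ε₀ ^ (1 / 4 : ℝ) * X)) ^ K * X := by rw [← mul_pow]
        _ = _ := by ring_nf
    rw [h1, ← mul_assoc] at hG'1
    have h2 := le_of_mul_le_mul_right hG'1 hX0
    have h3 : (C * C₁ * ε₀ ^ (1 / 4 : ℝ) * X) ^ K ≤ (c₂ * c₃ / 2 * X) ^ K := by gcongr
    have h4 : (c₂ * c₃ / 2 * X) ^ K = ((1 / 2) ^ K * (c₃ / Real.log K * X) ^ K) * (c₂ * Real.log K) ^ K := by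
      rw [← mul_pow, ← mul_pow]
      congr 1
      field_simp
    have h5 : (G'.card : ℝ) * (c₂ * Real.log K) ^ K ≤ ((1 / 2) ^ K * (c₃ / Real.log K * X) ^ K) * (c₂ * Real.log K) ^ K := by
      rw [← h4]; exact h2.trans h3
    have h6 := le_of_mul_le_mul_right h5 (by positivity)
    calc (G'.card : ℝ) ≤ (1 / 2) ^ K * (c₃ / Real.log K * X) ^ K := h6
      _ ≤ _ := by gcongr
  have hNI2 : (NI.card : ℝ) ≤ ((K : ℝ) ^ 2 * (Real.log K / c₃) ^ K / X) * (AT X K).card := by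
    have h1 : (K : ℝ) ^ 2 * (X : ℝ) ^ (K - 1) = ((K : ℝ) ^ 2 * (Real.log K / c₃) ^ K / X) * (c₃ / Real.log K * X) ^ K := by
      have h2 : (Real.log K / c₃) ^ K * (c₃ / Real.log K * X) ^ K = (X : ℝ) ^ K := by
        rw [← mul_pow]
        congr 1
        field_simp
      have h3 : (X : ℝ) ^ K = X ^ (K - 1) * X := by
        rw [← pow_succ]; congr 1; omega
      calc (K : ℝ) ^ 2 * (X : ℝ) ^ (K - 1) = (K : ℝ) ^ 2 * ((X : ℝ) ^ (K - 1) * X) / X := by field_simp
        _ = (K : ℝ) ^ 2 * ((Real.log K / c₃) ^ K * (c₃ / Real.log K * X) ^ K) / X := by rw [h2, h3]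
        _ = _ := by ring
    refine hni.trans ?_
    rw [h1]
    gcongr
  have hfin : δ * ((AT X K).card : ℝ) ≤ ((1 / 2) ^ K + r * (2 * Real.exp (-((K : ℝ) / 8))) + (K : ℝ) ^ 2 * (Real.log K / c₃) ^ K / X) * (AT X K).card := by
    calc δ * ((AT X K).card : ℝ) ≤ G.card := hlb
      _ ≤ G'.card + (BadT χ X K).card + NI.card := hcard
      _ ≤ (1 / 2) ^ K * (AT X K).card + r * (2 * Real.exp (-((K : ℝ) / 8)) * (AT X K).card) + ((K : ℝ) ^ 2 * (Real.log K / c₃) ^ K / X) * (AT X K).card := by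
        linarith
      _ = _ := by ring
  exact le_of_mul_le_mul_right hfin hATpos

end Pool.Agent.Q145.SZ
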