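import Pool.Agent.Q145.SZ.Nec2
import Pool.Agent.Q145.SZ.Case3

/-!
# Project SZ: necessity (3)
-/

set_option autoImplicit false

namespace Pool.Agent.Q145.SZ

open Finset Filter Complex
open Pool.Agent.W66 Pool.Agent.W66L

open Classical in
/-- a positive proportion of the admissible `K`-tuples, `K = ⌊log^κ' X⌋`, has at least `C^(-K)` times the expected number of points -/
def LBP (κ' : ℝ) : Prop := ∃ C δ : ℝ, 0 < C ∧ 0 < δ ∧ ∀ᶠ X : ℕ in atTop,
  δ * (AT X ⌊Real.log X ^ κ'⌋₊).card ≤ (((AT X ⌊Real.log X ^ κ'⌋₊).filter fun s =>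
    sing s * X ≤ C ^ ⌊Real.log X ^ κ'⌋₊ * (cnt X s * Real.log X ^ ⌊Real.log X ^ κ'⌋₊)).card : ℝ)

lemma asym1 {κ' θ : ℝ} (hκ' : 0 < κ') (hκ'1 : κ' < 1) (hθ : 0 < θ) (hθκ : θ < κ') (pb : S_PWB) :
    ∀ᶠ X : ℕ in atTop, ∀ r : ℕ, (r : ℝ) ≤ Real.exp (2 * Real.log X ^ θ) →
      16 * (⌊Real.log X ^ κ'⌋₊ + 1) * (PW ⌊Real.log X ^ κ'⌋₊ * r) ≤ X := by
  filter_upwards [ev_rpow_rpow 8 (a := κ') (b := 1) hκ'1, ll_tendsto.eventually_ge_atTop 64] with X h1 h2 r hr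
  obtain ⟨hL1, hX1, -⟩ := ll_conseq (M := 64) (by norm_num) h2
  set L := Real.log X with hL
  have hL0 : 0 < L := by linarith
  set K := ⌊L ^ κ'⌋₊ with hK
  have hK1 : (K : ℝ) ≤ L ^ κ' := Nat.floor_le (by positivity)
  have hone : 1 ≤ L ^ κ' := Real.one_le_rpow (by linarith) hκ'.le
  have hθle : L ^ θ ≤ L ^ κ' := Real.rpow_le_rpow_of_exponent_le (by linarith) hθκ.le
  rw [Real.rpow_one] at h1
  have h16 : (16 : ℝ) ≤ Real.exp 3 := by
    have e : Real.exp 3 = Real.exp 1 ^ 3 := by rw [← Real.exp_nat_mul]; norm_num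
    rw [e]
    have := Real.exp_one_gt_d9
    calc (16 : ℝ) ≤ 2.7182818283 ^ 3 := by norm_num
      _ ≤ _ := by gcongr
  have hX0 : (0 : ℝ) < X := by linarith
  have h3 : (16 * ((K : ℝ) + 1) * (PW K * r)) ≤ X := by
    calc (16 * ((K : ℝ) + 1) * (PW K * r)) ≤ Real.exp 3 * Real.exp K * (Real.exp (2 * K) * Real.exp (2 * L ^ θ)) := by
          have a1 := Real.add_one_le_exp (K : ℝ)
          have a2 := PW_le pb K
          gcongr
      _ = Real.exp (3 + K + (2 * K + 2 * L ^ θ)) := by rw [← Real.exp_add, ← Real.exp_add, ← Real.exp_add]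
      _ ≤ Real.exp L := Real.exp_le_exp.2 (by linarith)
      _ = X := Real.exp_log hX0
  exact_mod_cast h3

lemma asym2 {κ' θ δ : ℝ} (hθ : 0 < θ) (hθκ : θ < κ') (hδ : 0 < δ) :
    ∀ᶠ X : ℕ in atTop, ∀ r : ℕ, (r : ℝ) ≤ Real.exp (2 * Real.log X ^ θ) →
      r * (2 * Real.exp (-((⌊Real.log X ^ κ'⌋₊ : ℝ) / 8))) ≤ δ := by
  filter_upwards [ev_rpow_rpow (17 + 8 * |Real.log (δ / 2)|) hθκ, ll_tendsto.eventually_ge_atTop 64] with X h1 h2 r hr
  obtain ⟨hL1, hX1, -⟩ := ll_conseq (M := 64) (by norm_num) h2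
  set L := Real.log X with hL
  have hL0 : 0 < L := by linarith
  set K := ⌊L ^ κ'⌋₊ with hK
  have hK1 : L ^ κ' - 1 ≤ K := (Nat.sub_one_lt_floor _).le
  have hone : 1 ≤ L ^ θ := Real.one_le_rpow (by linarith) hθ.le
  have hd : Real.exp (-|Real.log (δ / 2)|) ≤ δ / 2 := by
    calc Real.exp (-|Real.log (δ / 2)|) ≤ Real.exp (Real.log (δ / 2)) := Real.exp_le_exp.2 (neg_abs_le _)
      _ = δ / 2 := Real.exp_log (by positivity)
  calc (r : ℝ) * (2 * Real.exp (-((K : ℝ) / 8))) ≤ Real.exp (2 * L ^ θ) * (2 * Real.exp (-((K : ℝ) / 8))) := by gcongr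
    _ = 2 * Real.exp (2 * L ^ θ - K / 8) := by rw [sub_eq_add_neg, Real.exp_add]; ring
    _ ≤ 2 * Real.exp (-|Real.log (δ / 2)|) := by
      gcongr
      have h3 : 0 ≤ |Real.log (δ / 2)| := abs_nonneg _
      nlinarith
    _ ≤ δ := by linarith

lemma asym3 {κ' c₃ δ : ℝ} (hκ' : 0 < κ') (hκ'1 : κ' < 1) (hc₃ : 0 < c₃) (hδ : 0 < δ) :
    ∀ᶠ X : ℕ in atTop, (⌊Real.log X ^ κ'⌋₊ : ℝ) ^ 2 * (Real.log ⌊Real.log X ^ κ'⌋₊ / c₃) ^ ⌊Real.log X ^ κ'⌋₊ / X ≤ δ := by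
  filter_upwards [ev_ll_rpow (2 / c₃ + 4) (a := 1 - κ') (by linarith), ll_tendsto.eventually_ge_atTop 64,
    log_tendsto.eventually_ge_atTop (2 * |Real.log δ|)] with X h1 h2 h3
  obtain ⟨hL1, hX1, -⟩ := ll_conseq (M := 64) (by norm_num) h2
  set L := Real.log X with hL
  have hL0 : 0 < L := by linarith
  set K := ⌊L ^ κ'⌋₊ with hK
  have hK1 : (K : ℝ) ≤ L ^ κ' := Nat.floor_le (by positivity)
  have hone : 1 ≤ L ^ κ' := Real.one_le_rpow (by linarith) hκ'.le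
  have hK0 : 1 ≤ K := by
    rw [hK]; exact Nat.one_le_floor_iff _ |>.2 hone
  have hK0r : (1 : ℝ) ≤ K := by exact_mod_cast hK0
  have hX0 : (0 : ℝ) < X := by linarith
  have hLκ : L ^ κ' ≤ L := by
    calc L ^ κ' ≤ L ^ (1 : ℝ) := Real.rpow_le_rpow_of_exponent_le (by linarith) hκ'1.le
      _ = L := Real.rpow_one _
  have hlogK : Real.log K ≤ Real.log L := Real.log_le_log (by linarith) (by linarith)
  have hlogK0 : 0 ≤ Real.log K := Real.log_nonneg hK0r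
  have hmul : L ^ κ' * L ^ (1 - κ') = L := by rw [← Real.rpow_add hL0]; simp
  have e1 : (K : ℝ) ^ 2 ≤ Real.exp (2 * K) := by
    have := Real.add_one_le_exp (K : ℝ)
    calc (K : ℝ) ^ 2 ≤ (Real.exp K) ^ 2 := by gcongr; linarith
      _ = _ := by rw [← Real.exp_nat_mul]; norm_num
  have e2 : (Real.log K / c₃) ^ K ≤ Real.exp (K * (Real.log L / c₃)) := by
    have h4 : Real.log K / c₃ ≤ Real.exp (Real.log L / c₃) := by
      have := Real.add_one_le_exp (Real.log L / c₃)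
      have h5 : Real.log K / c₃ ≤ Real.log L / c₃ := by gcongr
      linarith
    calc (Real.log K / c₃) ^ K ≤ (Real.exp (Real.log L / c₃)) ^ K := by gcongr
      _ = _ := by rw [← Real.exp_nat_mul]
  have hfin : 2 * (K : ℝ) + K * (Real.log L / c₃) - L ≤ -(L / 2) := by
    have h4 : (K : ℝ) * (2 + Real.log L / c₃) ≤ L ^ κ' * (2 + Real.log L / c₃) := by
      have : 0 ≤ 2 + Real.log L / c₃ := by positivity
      gcongr
    have h5 : 2 * (2 + Real.log L / c₃) ≤ L ^ (1 - κ') := by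
      refine le_trans ?_ h1
      have : 2 * (2 + Real.log L / c₃) = 4 + 2 / c₃ * Real.log L := by ring
      rw [this, add_mul]
      nlinarith
    have h6 : L ^ κ' * (2 * (2 + Real.log L / c₃)) ≤ L := by
      calc L ^ κ' * (2 * (2 + Real.log L / c₃)) ≤ L ^ κ' * L ^ (1 - κ') := by gcongr
        _ = L := hmul
    nlinarith
  have hXe : 1 / (X : ℝ) = Real.exp (-L) := by rw [Real.exp_neg, hL, Real.exp_log hX0, one_div]
  calc (K : ℝ) ^ 2 * (Real.log K / c₃) ^ K / X = (K : ℝ) ^ 2 * (Real.log K / c₃) ^ K * (1 / X) := by ring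
    _ ≤ Real.exp (2 * K) * Real.exp (K * (Real.log L / c₃)) * Real.exp (-L) := by
      rw [hXe]
      have : 0 ≤ (Real.log K / c₃) ^ K := by positivity
      gcongr
    _ = Real.exp (2 * K + K * (Real.log L / c₃) - L) := by rw [← Real.exp_add, ← Real.exp_add]; ring_nf
    _ ≤ Real.exp (-(L / 2)) := Real.exp_le_exp.2 hfin
    _ ≤ Real.exp (-|Real.log δ|) := Real.exp_le_exp.2 (by linarith)
    _ ≤ Real.exp (Real.log δ) := Real.exp_le_exp.2 (neg_abs_le _)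
    _ = δ := Real.exp_log hδ

lemma K_tendsto {κ' : ℝ} (hκ' : 0 < κ') : Tendsto (fun X : ℕ => ⌊Real.log X ^ κ'⌋₊) atTop atTop :=
  tendsto_nat_floor_atTop.comp ((tendsto_rpow_atTop hκ').comp log_tendsto)

end Pool.Agent.Q145.SZ
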