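import Mathlib

/-!
# Project SZ (helper145): long prime tuples and Siegel zeros. Part 1: definitions, moments, singular series, sieve

`N_s(X)` = number of `X < n ≤ 2X` with `n + s_1, ..., n + s_K` all prime. The project proves `N_s ~ 𝔖(s) X / log^K X` for almost all
admissible `s ∈ [1, X]^K`, for `K` up to `c log X / log log X` (arbitrarily large `X`) resp. `log^κ X` (equivalent to zero-free regions).

Every `S_...` below is a `Prop` with a complete proof in its docstring. A job = a theorem `Pool.Agent.Q145.SZ.t_... : S_...`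
in its own file, which imports this file (and whatever library file it uses) and nothing else of the project.
-/

set_option autoImplicit false

namespace Pool.Agent.Q145.SZ

open Finset Filter

/-! ## Definitions -/

/-- the number of classes modulo `p` occupied by the tuple -/
def nu {K : ℕ} (s : Fin K → ℕ) (p : ℕ) : ℕ := (univ.image fun i => s i % p).card

/-- admissible tuples -/
def Adm {K : ℕ} (s : Fin K → ℕ) : Prop := ∀ p : ℕ, p.Prime → nu s p < p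

/-- the factor of the singular series at `p` -/
noncomputable def loc {K : ℕ} (s : Fin K → ℕ) (p : ℕ) : ℝ := (1 - (nu s p : ℝ) / p) / (1 - 1 / (p : ℝ)) ^ K

/-- partial product of the singular series, primes `p ≤ w` -/
noncomputable def singP {K : ℕ} (s : Fin K → ℕ) (w : ℕ) : ℝ := ∏ p ∈ (Icc 1 w).filter Nat.Prime, loc s p

/-- the singular series -/
noncomputable def sing {K : ℕ} (s : Fin K → ℕ) : ℝ := limUnder atTop (singP s)

/-- the number of `X < n ≤ 2X` with all `n + s_i` prime -/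
def cnt {K : ℕ} (X : ℕ) (s : Fin K → ℕ) : ℕ := ((Ioc X (2 * X)).filter fun n => ∀ i, (n + s i).Prime).card

open Classical in
/-- the admissible tuples in `[1, X]^K` -/
noncomputable def AT (X K : ℕ) : Finset (Fin K → ℕ) := (Fintype.piFinset fun _ => Icc 1 X).filter Adm

/-- primes with weight `log` -/
noncomputable def wt (u : ℕ) : ℝ := if u.Prime then Real.log u else 0

/-- the weighted count -/
noncomputable def wc {K : ℕ} (X : ℕ) (s : Fin K → ℕ) : ℝ := ∑ n ∈ Ioc X (2 * X), ∏ i, wt (n + s i)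

/-- the product of the primes `≤ z` -/
def PW (z : ℕ) : ℕ := ∏ p ∈ (Icc 1 z).filter Nat.Prime, p

instance (z : ℕ) : NeZero (PW z) := ⟨by
  unfold PW
  exact Finset.prod_ne_zero_iff.2 fun p hp => (mem_filter.1 hp).2.pos.ne'⟩

/-- `W / φ(W)` -/
noncomputable def vv (W : ℕ) : ℝ := (W : ℝ) / (Nat.totient W : ℝ)

section classes

variable {W : ℕ} [NeZero W]

open Classical in
/-- the classes `x` with all `x + b_i` units -/
noncomputable def Gs {K : ℕ} (b : Fin K → ZMod W) : Finset (ZMod W) := univ.filter fun x => ∀ i, IsUnit (x + b i)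

open Classical in
/-- the classes `β` with `n + β`, `m + β` units -/
noncomputable def Us (n m : ZMod W) : Finset (ZMod W) := univ.filter fun β => IsUnit (n + β) ∧ IsUnit (m + β)

open Classical in
/-- the admissible tuples of classes -/
noncomputable def Ad (W : ℕ) [NeZero W] (K : ℕ) : Finset (Fin K → ZMod W) := univ.filter fun b => (Gs b).Nonempty

/-- the integers of `[1, X]` in a class -/
def cls (X : ℕ) (β : ZMod W) : Finset ℕ := (Icc 1 X).filter fun s => (s : ZMod W) = β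

/-- the tuples of `[1, X]^K` in given classes -/
def Sb {K : ℕ} (X : ℕ) (b : Fin K → ZMod W) : Finset (Fin K → ℕ) := Fintype.piFinset fun i => cls X (b i)

/-- mean of `wt (n + s)` over `s ≤ X`, `s ≡ β` -/
noncomputable def A1 (X n : ℕ) (β : ZMod W) : ℝ := (∑ s ∈ cls X β, wt (n + s)) / (cls X β).card

/-- mean of `wt (n + s) wt (m + s)` over `s ≤ X`, `s ≡ β` -/
noncomputable def B2 (X n m : ℕ) (β : ZMod W) : ℝ := (∑ s ∈ cls X β, wt (n + s) * wt (m + s)) / (cls X β).card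

/-- the expected number of points of a tuple with classes `b` -/
noncomputable def Mb {K : ℕ} (X : ℕ) (b : Fin K → ZMod W) : ℝ := X * ((Gs b).card : ℝ) / W * vv W ^ K

open Classical in
/-- the weight of the second moment -/
noncomputable def w2 {K : ℕ} (n m : ZMod W) (b : Fin K → ZMod W) : ℝ :=
  if n ∈ Gs b ∧ m ∈ Gs b then (((Gs b).card : ℝ) ^ 2)⁻¹ else 0

end classes

/-- `∏_{p | W} (1 + 18 / p)` -/
noncomputable def C18 (W : ℕ) : ℝ := ∏ p ∈ W.primeFactors, (1 + 18 / (p : ℝ))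

/-- the singular series of pairs, primes `z < p ≤ X` -/
noncomputable def SP (z X h : ℕ) : ℝ :=
  ∏ p ∈ (Ioc z X).filter Nat.Prime, (if p ∣ h then (p : ℝ) / (p - 1) else 1 - 1 / ((p : ℝ) - 1) ^ 2)

/-- distance of natural numbers -/
def dst (n m : ℕ) : ℕ := (n - m) + (m - n)

/-! ## Layer A: the moments -/

open Classical in
/-- **LAW1** (marginals of the first moment). Proof. Put `f(n, β) = ∑_b [n ∈ Gs b, b_i = β] / |Gs b|`. The bijection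
`b ↦ b + c` (all coordinates) satisfies `Gs (b + c) = Gs b - c`, so `f(n, β) = f(n - c, β + c)`; hence `f(n, β) = g(n + β)`. For a
unit `u` the bijection `b ↦ u b` satisfies `Gs (u b) = u Gs b`, so `f(u n, u β) = f(n, β)` and `g(u x) = g(x)`. If `n + β` is not a
unit then `f(n, β) = 0` (as `n ∈ Gs b` and `b_i = β` imply that `n + β` is a unit). For units `x = x · 1` gives `g(x) = g(1)`. Finally
`∑_{n, β} f(n, β) = ∑_b ∑_{n ∈ Gs b} 1 / |Gs b| = |Ad|`, while the left side is `W ∑_x g(x) = W φ(W) g(1)`. -/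
def S_LAW1 : Prop := ∀ (W : ℕ) [NeZero W] (K : ℕ) (i : Fin K) (n β : ZMod W),
  ∑ b : Fin K → ZMod W, (if n ∈ Gs b ∧ b i = β then ((Gs b).card : ℝ)⁻¹ else 0) =
    if IsUnit (n + β) then ((Ad W K).card : ℝ) / (W * Nat.totient W) else 0

/-- **LOC** (one prime). Proof. Let `S = Gs c`, `g = |S|`; `n, m ∈ S`. Let `ν = |{n, m}| ∈ {1, 2}` be the number of different classes among
`n, m`. In the field `ZMod p` a unit is a nonzero element, so `Us n m = {β : β ≠ -n, β ≠ -m}` has `p - ν` elements. For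
`β ∈ Us n m`: `Gs (cons β c) = S \ {-β}`, which has `g - 1` elements if `-β ∈ S` and `g` elements otherwise. The
`β ∈ Us n m` with `-β ∈ S` are those with `-β ∈ S \ {n, m}`: there are `g - ν` of them; the other `p - g` have weight `g`.
If `g = ν` all the weights are equal and the claim is `N · N g⁻⁴ ≤ (1 + 18/p) (N g⁻²)²`. Otherwise `g ≥ ν + 1 ≥ 2`. Write `N = p - ν`,
`θ = (g - ν) / N ∈ [0, 1]`, `1 + r = (g / (g - 1))²`, so `r = (2g - 1) / (g - 1)²`. After multiplication by `g⁴` the claim is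
`N · N (1 - θ + θ (1 + r)²) ≤ (1 + 18/p) (N (1 - θ + θ (1 + r)))²`, i.e. `1 + 2θr + θr² ≤ (1 + 18/p)(1 + θr)²`. Since
`(1 + θr)² ≥ 1 + 2θr` and `≥ 1` it is enough that `θ r² ≤ 18 / p`. Here `θ ≤ (g - 1)/(p - 1)` (as `g ≤ p`, `ν ≥ 1`), `2g - 1 ≤ 3 (g - 1)`, so
`θ r² ≤ (g - 1)/(p - 1) · 9 (g-1)²/(g - 1)⁴ = 9 / ((p - 1)(g - 1)) ≤ 9 / (p - 1) ≤ 18 / p`. -/
def S_LOC : Prop := ∀ (p : ℕ) [Fact p.Prime] (k : ℕ) (c : Fin k → ZMod p) (n m : ZMod p), n ∈ Gs c → m ∈ Gs c →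
  ((Us n m).card : ℝ) * ∑ β ∈ Us n m, (((Gs (Fin.cons β c : Fin (k + 1) → ZMod p)).card : ℝ) ^ 4)⁻¹ ≤
    (1 + 18 / (p : ℝ)) * (∑ β ∈ Us n m, (((Gs (Fin.cons β c : Fin (k + 1) → ZMod p)).card : ℝ) ^ 2)⁻¹) ^ 2

/-- **CRT** (from LOC to squarefree moduli). Proof: induction on `W` (e.g. `Nat.recOnPosPrimePosCoprime` or induction on the number of
prime factors). `W = 1`: `ZMod 1` has one element, which is a unit; both sides are `1`. `W` prime: LOC (`C18 p = 1 + 18/p`). `W = M N`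
with `M`, `N` coprime: the ring isomorphism `ZMod.chineseRemainder : ZMod (M * N) ≃+* ZMod M × ZMod N` maps units to pairs of
units, so `Gs c ≅ Gs c₁ ×ˢ Gs c₂` (`c₁`, `c₂` the two reductions), `Us n m ≅ Us n₁ m₁ ×ˢ Us n₂ m₂` and for `β = (β₁, β₂)`:
`|Gs (cons β c)| = |Gs (cons β₁ c₁)| |Gs (cons β₂ c₂)|`. All three sums factor, and `C18 (M N) = C18 M · C18 N`
(`Nat.Coprime.primeFactors_mul`, disjoint union). -/
def S_CRT : Prop := S_LOC → ∀ (W : ℕ) [NeZero W], Squarefree W → ∀ (k : ℕ) (c : Fin k → ZMod W) (n m : ZMod W), n ∈ Gs c → m ∈ Gs c →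
  ((Us n m).card : ℝ) * ∑ β ∈ Us n m, (((Gs (Fin.cons β c : Fin (k + 1) → ZMod W)).card : ℝ) ^ 4)⁻¹ ≤
    C18 W * (∑ β ∈ Us n m, (((Gs (Fin.cons β c : Fin (k + 1) → ZMod W)).card : ℝ) ^ 2)⁻¹) ^ 2

/-- the conclusion of `S_CRT` -/
def S_CRT' : Prop := ∀ (W : ℕ) [NeZero W], Squarefree W → ∀ (k : ℕ) (c : Fin k → ZMod W) (n m : ZMod W), n ∈ Gs c → m ∈ Gs c →
  ((Us n m).card : ℝ) * ∑ β ∈ Us n m, (((Gs (Fin.cons β c : Fin (k + 1) → ZMod W)).card : ℝ) ^ 4)⁻¹ ≤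
    C18 W * (∑ β ∈ Us n m, (((Gs (Fin.cons β c : Fin (k + 1) → ZMod W)).card : ℝ) ^ 2)⁻¹) ^ 2

/-- **LAW2** (replacement of the coordinates, from CRT'). Proof. For `T : Finset (Fin K)` put
`V_T = ∑_b w2 n m b ∏_{i ∈ T} (1 + η (b i))`. It is enough to show `V_{insert j T} ≤ (1 + δ √C18) V_T` for `j ∉ T`
(induction on `T`, then `T = univ`). Write `K = k + 1` and `b = Fin.insertNth j β c` (`Fin.insertNthEquiv`), `β = b j`. As sets
`Gs b = Gs (Fin.cons β c)`. If `n` or `m` is not in `Gs c` then `w2 n m b = 0` for every `β`. Otherwise `w2 n m b = 0` unless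
`β ∈ Us n m`, and for `β ∈ Us n m` it is `(|Gs (cons β c)|²)⁻¹ =: w(β)`. By Cauchy-Schwarz and CRT'
`∑_{β ∈ Us} w(β) η(β) ≤ (∑ w²)^{1/2} (∑_{Us} η²)^{1/2} ≤ (C18 (∑ w)² / |Us|)^{1/2} (δ² |Us|)^{1/2} = δ √C18 ∑ w`. Multiply by the nonnegative
factor `∏_{i ∈ T} (1 + η (b i))`, which does not depend on `β = b j`, and sum over `c`. (The terms with `b_i ∉ Us` for some `i` have
`w2 = 0`, so only `η ≥ -1` on `Us n m` is used.) -/
def S_LAW2 : Prop := S_CRT' → ∀ (W : ℕ) [NeZero W], Squarefree W → ∀ (K : ℕ) (n m : ZMod W) (η : ZMod W → ℝ) (δ : ℝ), 0 ≤ δ →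
  (∀ β ∈ Us n m, -1 ≤ η β) → ∑ β ∈ Us n m, η β ^ 2 ≤ δ ^ 2 * (Us n m).card →
  ∑ b : Fin K → ZMod W, w2 n m b * ∏ i, (1 + η (b i)) ≤ (1 + δ * √(C18 W)) ^ K * ∑ b : Fin K → ZMod W, w2 n m b

/-- the conclusion of `S_LAW2` -/
def S_LAW2' : Prop := ∀ (W : ℕ) [NeZero W], Squarefree W → ∀ (K : ℕ) (n m : ZMod W) (η : ZMod W → ℝ) (δ : ℝ), 0 ≤ δ →
  (∀ β ∈ Us n m, -1 ≤ η β) → ∑ β ∈ Us n m, η β ^ 2 ≤ δ ^ 2 * (Us n m).card →
  ∑ b : Fin K → ZMod W, w2 n m b * ∏ i, (1 + η (b i)) ≤ (1 + δ * √(C18 W)) ^ K * ∑ b : Fin K → ZMod W, w2 n m b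

open Classical in
/-- **MOM1** (first moment, from LAW1). Proof. For `b` with classes of `cls X (b i)` nonempty (`W ≤ X`),
`(∑_{s ∈ Sb X b} wc X s) / |Sb X b| = ∑_n ∏_i A1 X n (b i)` (`Finset.prod_univ_sum`, `Fintype.card_piFinset`). All `A1 ≥ 0`. With
`v = vv W > 0`: for reals `x_i ≥ 0`, `∏ x_i ≥ 1 - ∑ |x_i - 1|` (induction). So for `b ∈ Ad` and `n` with `(n : ZMod W) ∈ Gs b`,
`∏_i A1 X n (b i) / v^K ≥ 1 - ∑_i |A1 X n (b i) / v - 1|`, and `(1/|Sb|) ∑_s wc X s / Mb X b ≥ (W / (X |Gs b|)) ∑_{n ∈ (X, 2X], n ∈ Gs b} (...)`.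
The interval `(X, 2X]` has at least `X / W - 1` elements in each class, so the main term is at least `(W / (X |Gs b|)) |Gs b| (X / W - 1) =
1 - W / X`. The error, summed over `b ∈ Ad`, is `∑_n (W / X) ∑_i ∑_β ∑_b [n ∈ Gs b, b_i = β] |Gs b|⁻¹ |A1 X n β / v - 1|`, by LAW1 equal to
`∑_n (W / X) K ∑_{β : n + β unit} |Ad| / (W φ(W)) |A1 / v - 1| ≤ ∑_n (1 / X) K |Ad| ε₁ = K ε₁ |Ad|` (there are `X` values of `n`). -/
def S_MOM1 : Prop := S_LAW1 → ∀ (W : ℕ) [NeZero W] (X K : ℕ) (ε₁ : ℝ), W ≤ X →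
  (∀ n ∈ Ioc X (2 * X), ∑ β : ZMod W, |A1 X n β - (if IsUnit ((n : ZMod W) + β) then vv W else 0)| ≤ ε₁ * vv W * Nat.totient W) →
  (1 - (W : ℝ) / X - K * ε₁) * (Ad W K).card ≤
    ∑ b ∈ Ad W K, (∑ s ∈ Sb X b, wc X s / Mb X b) / (Sb X b).card

open Classical in
/-- **MOM2** (second moment, from LAW2'). Proof. `(∑_{s ∈ Sb} (wc X s)²) / |Sb| = ∑_{n, m} ∏_i B2 X n m (b i)` (`wc²` is a double sum of
products over `i` of `wt (n + s_i) wt (m + s_i)`; `Finset.prod_univ_sum`). Everything is `≥ 0`. By (H2') the product vanishes unless all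
`b_i ∈ Us n m`, i.e. unless `n, m ∈ Gs b`. So with `v = vv W`, dividing by `(Mb X b)² = (X |Gs b| v^K / W)²`:
`∑_{b ∈ Ad} E_b (wc/Mb)² = (W²/X²) ∑_{n, m} ∑_b w2 n m b ∏_i (B2 X n m (b i) / v²)` (`b ∉ Ad` has `w2 = 0`).
(a) `(n, m) ∉ E`, `n ≠ m`: put `η β = B2 X n m β / (v² S) - 1 ≥ -1`, `S = S n m`; (H2) says `∑_{Us} η² ≤ ε₂² |Us|`, so LAW2' bounds the
inner sum by `S^K (1 + ε₂ √C18)^K ∑_b w2 n m b`. The sum over `n, m` is split by the classes `c`, `d` of `n`, `m`; `∑_b w2 n m b`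
depends only on them; (HS) gives `≤ (W²/X²) (X/W)² (1 + δ) (1 + ε₂ √C18)^K ∑_{c, d} ∑_b w2 c d b` and
`∑_{c, d} w2 c d b = 1` for `b ∈ Ad`. (b) `(n, m) ∈ E`, `n ≠ m`: (H3) and `∑_b w2 n m b ≤ |Ad|` give
`≤ (W²/X²) C₀^K |Ad| ∑_E S^K ≤ W² C₀^K e₂ |Ad|`. (c) `n = m`: (H4), `v ≥ 1`: `≤ (W²/X²) X D₀^K |Ad|`. -/
def S_MOM2 : Prop := S_LAW2' → ∀ (W : ℕ) [NeZero W] (X K : ℕ) (ε₂ C₀ D₀ δ e₂ : ℝ) (S : ℕ → ℕ → ℝ) (E : Finset (ℕ × ℕ)),
  Squarefree W → W ≤ X → 0 ≤ ε₂ → 0 ≤ C₀ → 0 ≤ D₀ → 0 ≤ δ → 0 ≤ e₂ → (∀ n m, 0 < S n m) →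
  (∀ n ∈ Ioc X (2 * X), ∀ m ∈ Ioc X (2 * X), n ≠ m → (n, m) ∉ E →
    ∑ β ∈ Us (n : ZMod W) (m : ZMod W), (B2 X n m β - vv W ^ 2 * S n m) ^ 2 ≤
      (ε₂ * vv W ^ 2 * S n m) ^ 2 * (Us (n : ZMod W) (m : ZMod W)).card) →
  (∀ n ∈ Ioc X (2 * X), ∀ m ∈ Ioc X (2 * X), ∀ β : ZMod W, β ∉ Us (n : ZMod W) (m : ZMod W) → B2 X n m β = 0) →
  (∀ n ∈ Ioc X (2 * X), ∀ m ∈ Ioc X (2 * X), n ≠ m → ∀ β : ZMod W, B2 X n m β ≤ C₀ * vv W ^ 2 * S n m) →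
  (∀ n ∈ Ioc X (2 * X), ∀ β : ZMod W, B2 X n n β ≤ D₀) →
  (∀ c d : ZMod W, ∑ n ∈ (Ioc X (2 * X)).filter (fun n : ℕ => (n : ZMod W) = c),
    ∑ m ∈ (Ioc X (2 * X)).filter (fun m : ℕ => (m : ZMod W) = d ∧ m ≠ n), S n m ^ K ≤ ((X : ℝ) / W) ^ 2 * (1 + δ)) →
  (∑ q ∈ E.filter (fun q => q.1 ∈ Ioc X (2 * X) ∧ q.2 ∈ Ioc X (2 * X) ∧ q.1 ≠ q.2), S q.1 q.2 ^ K ≤ e₂ * (X : ℝ) ^ 2) →
  ∑ b ∈ Ad W K, (∑ s ∈ Sb X b, (wc X s / Mb X b) ^ 2) / (Sb X b).card ≤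
    ((1 + ε₂ * √(C18 W)) ^ K * (1 + δ) + (W : ℝ) ^ 2 * C₀ ^ K * e₂ + (W : ℝ) ^ 2 * D₀ ^ K / X) * (Ad W K).card

/-! ## Layer B: singular series and sieve -/

/-- **MBS** (the mean value and the singular series). Proof. `ZMod W ≅ ∏_{p | W} ZMod p` (or induction on the primes with
`ZMod.chineseRemainder`): `|Gs b| = ∏_{p ≤ z} |{x mod p : x + s_i ≠ 0 for all i}| = ∏ (p - nu s p)` (`x ↦ -x`: the classes `-s_i`
are `nu s p` in number). So `|Gs b| / W = ∏ (1 - nu s p / p)`, `vv W = ∏ (1 - 1/p)⁻¹` (`W` squarefree), which gives `Mb = X singP s z`; and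
`Gs b` is nonempty iff `nu s p < p` for all primes `p ≤ z`; for primes `p > z ≥ K` always `nu s p ≤ K < p`. -/
def S_MBS : Prop := ∀ (z X K : ℕ) (s : Fin K → ℕ),
  Mb X (fun i => (s i : ZMod (PW z))) = X * singP s z ∧
  (K ≤ z → (Adm s ↔ (Gs (fun i => (s i : ZMod (PW z)))).Nonempty))

/-- **SQ3**: `∑_{p > z} 1 / p³ ≤ C / (z² log z)`. Proof: Chebyshev `π(x) ≤ C x / log x` (in Mathlib or the library) on the blocks
`(2^j z, 2^{j+1} z]`: each contributes at most `C 2^{j+1} z / log z · (2^j z)⁻³`. -/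
def S_SQ3 : Prop := ∃ C : ℝ, 0 < C ∧ ∀ z w : ℕ, 2 ≤ z →
  ∑ p ∈ (Ioc z w).filter Nat.Prime, 1 / (p : ℝ) ^ 3 ≤ C / ((z : ℝ) ^ 2 * Real.log z)

open Classical in
/-- **HS** (from SQ3). Write `P` for the primes `z < p ≤ X`. For `1 ≤ h ≤ X`:
`SP z X h ^ K = c^K ∏_{p | h, p ∈ P} ((p - 1)/(p - 2))^K = c^K ∑_{e | h} g(e)`, `c = ∏_P (1 - 1/(p-1)²)`, where `e` runs over products of different
primes of `P` and `g(e) = ∏_{p | e} g(p)`, `g(p) = (1 + 1/(p - 2))^K - 1 ∈ [K/(p-2), K/(p-2) + K²/(p-2)²]` (because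
`K/(p-2) ≤ 1/7`, say, and `(1 + y)^K ≤ 1 + Ky + (Ky)²` for `Ky ≤ 1`). For fixed `n` in the class `c'` and `e` prime to `W = PW z` the number of
`m ∈ (X, 2X]`, `m ≡ d` mod `W`, `e | n - m` is at most `X / (W e) + 1`, and only `e ≤ X` occur (as `1 ≤ |n - m| < X`). The number of `n`
is at most `X / W + 1`. So the sum is at most `(X/W + 1) c^K (X/W ∑_e g(e)/e + ∑_{e ≤ X} g(e))`.
`c^K ∑_e g(e)/e ≤ ∏_P (1 - 1/(p-1)²)^K (1 + g(p)/p) ≤ exp(∑_P (-K/(p-1)² + K/(p(p-2)) + K²/(p (p-2)²)))`, and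
`1/(p(p-2)) - 1/(p-1)² = 1/(p(p-2)(p-1)²) ≤ 8/p⁴`; the exponent is at most `C' K² ∑_P p⁻³ ≤ C'' K²/(z² log z) ≤ C''/log z`.
`∑_{e ≤ X} g(e) ≤ ∏_P (1 + g(p)) ≤ exp(∑_P 2K/(p-2)) ≤ exp(4 K ∑_{p ≤ X} 1/p) ≤ (log X)^{8K}` (a crude Mertens bound
`∑_{p ≤ X} 1/p ≤ 2 log log X`, or simply `∑_{p ≤ X} 1/p ≤ log log X + C` from the library; any bound `(log X)^{14 K}` is enough). With
`W^4 (log X)^{16 K} ≤ X` the terms `+1` are negligible: `W/X ≤ 1/log z`, `(W/X)(log X)^{14K} ≤ 1/log z`. -/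
def S_HS : Prop := S_SQ3 → ∃ (C : ℝ) (z₀ : ℕ), 0 < C ∧ ∀ (z X K : ℕ), z₀ ≤ z → 8 * K ≤ z →
  (PW z : ℝ) ^ 4 * Real.log X ^ (16 * K + 4) ≤ X → ∀ c d : ZMod (PW z),
  ∑ n ∈ (Ioc X (2 * X)).filter (fun n : ℕ => (n : ZMod (PW z)) = c),
    ∑ m ∈ (Ioc X (2 * X)).filter (fun m : ℕ => (m : ZMod (PW z)) = d ∧ m ≠ n), SP z X (dst n m) ^ K ≤
      ((X : ℝ) / PW z) ^ 2 * (1 + C / Real.log z)

/-- **SIEVE** (upper bound for prime pairs in a residue class). Proof. If `dst n m` is odd and `z ≥ 2`, one of `n + s`, `m + s` is even and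
`> 2`, so the sum is `0`. If `β ∉ Us n m` the sum is `0` (a prime `> X ≥ W` is prime to `W`). Otherwise write `s = s₀ + W t`, `0 ≤ t ≤ X / W`; the
linear forms `n + s₀ + W t`, `m + s₀ + W t` have difference `n - m ≠ 0`; an upper bound sieve (e.g. `sys_fund` in
`Pool/Agent/H373R2/T7/Fund.lean`, `Pool/Agent/Q145/UM/PairSieve.lean` (`pairs_bd`, `prodP_bd`), or `Pool/Agent/Helper112/PairSieve.lean`) with the
primes `z < p ≤ X^{1/20}` (for `p ≤ z` no class has to be removed) bounds the number of `t` with both forms prime by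
`C (X / W) ∏_{z < p ≤ X^{1/20}} (1 - ν_p/p)`, `ν_p = 1` if `p | n - m` and `2` otherwise. As
`∏_{z < p ≤ y} (1 - 1/p)² ≤ C (vv W)² / (log y)²` (Mertens; `vv (PW z) = ∏_{p ≤ z} (1 - 1/p)⁻¹`) and `(1 - ν_p/p)(1 - 1/p)⁻²` is the factor of
`SP`, while the factors of `SP` for `X^{1/20} < p ≤ X` are `≥ 1 - 1/(p-1)²`, product `≥ 1/2`, we get
`≤ C (X/W) (vv W)² SP z X (dst n m) / (log X)²`; and `wt ≤ log (3X) ≤ 2 log X`. -/
def S_SIEVE : Prop := ∃ (C : ℝ) (X₀ : ℕ), 0 < C ∧ ∀ (z X : ℕ), X₀ ≤ X → 2 ≤ z → (PW z : ℝ) ^ 20 ≤ X →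
  ∀ n ∈ Ioc X (2 * X), ∀ m ∈ Ioc X (2 * X), n ≠ m → ∀ β : ZMod (PW z),
  ∑ s ∈ cls X β, wt (n + s) * wt (m + s) ≤ C * ((X : ℝ) / PW z) * vv (PW z) ^ 2 * SP z X (dst n m)

/-- the local second moment: `y_p(s) = loc s p - 1` has mean `0` and mean square `≤ 8 K² / p³` over `(ℤ/p)^K`.
**LM** Proof. Put `P(k) = ` probability. `1 - nu s p / p` is the probability that a random class `c` avoids the `s_i`, so its mean over
`s ∈ (ℤ/p)^K` is `(1 - 1/p)^K`; the mean of its square is the probability that two random classes `c`, `c'` are both avoided, which is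
`(1/p)(1 - 1/p)^K + (1 - 1/p)(1 - 2/p)^K`. Dividing by `(1 - 1/p)^{2K}` and using `(1 - 2/p)/(1 - 1/p)² = 1 - 1/(p-1)²`:
`E loc² = (1/p)(1 - 1/p)^{-K} + (1 - 1/p)(1 - 1/(p-1)²)^K`. With `x = K/(p-1) ≤ 1/4`: `(1 - 1/p)^{-K} = (1 + 1/(p-1))^K ≤ e^x ≤ 1 + x + x²` and
`(1 - 1/(p-1)²)^K ≤ exp(-x/(p-1)) ≤ 1 - x/(p-1) + x²/(p-1)²`. The linear terms cancel: `x/p - (1 - 1/p) x/(p-1) = 0`. So
`E loc² ≤ 1 + x²/p + x²/(p-1)² ≤ 1 + 8K²/p³`. In counting form: -/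
def S_LM : Prop := ∀ (p K : ℕ), p.Prime → 8 * K ≤ p →
  ∑ s ∈ Fintype.piFinset (fun _ : Fin K => range p), (loc s p - 1) = 0 ∧
  ∑ s ∈ Fintype.piFinset (fun _ : Fin K => range p), (loc s p - 1) ^ 2 ≤ 8 * (K : ℝ) ^ 2 / (p : ℝ) ^ 3 * (p : ℝ) ^ K

/-- **VAR** (from LM, SQ3): the truncated sum `T(s) = ∑_{z < p ≤ Y} (loc s p - 1)` has small mean square over `Sb X b`, for every `b`.
Proof. `s ∈ Sb X b` has independent coordinates, `s_i` uniform on `cls X (b i)`. For a modulus `q ≤ Y²` prime to `W = PW z` and every class `a`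
mod `q`: `|{s ∈ cls X β : s ≡ a mod q}| / |cls X β| = (1/q)(1 + θ)`, `|θ| ≤ 4 q W / X` (both counts are `X/(qW) + O(1)`, `X / W + O(1)`). So the law of
`(s mod q)` on `(ℤ/q)^K` has density between `(1 - 4qW/X)^K` and `(1 + 4qW/X)^K` with respect to the uniform law, i.e. `1 + O(8 K Y² W / X)`.
Also `|loc s p - 1| ≤ 1` for `p ≥ 8K` (`loc ≤ (1 - 1/p)^{-K} ≤ e^{1/4}`-ish `≤ 2`, `loc ≥ 0`). Hence for `p ≠ p'` (modulus `p p'`, exact
independence and mean `0` for the uniform law) `|E (loc s p - 1)(loc s p' - 1)| ≤ 8 K Y² W / X`, and `E (loc s p - 1)² ≤ 8K²/p³ + 8 K Y² W / X`.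
Sum over `p, p' ≤ Y`: `E T² ≤ 8 K² ∑_{p > z} p⁻³ + 8 K Y⁴ W / X ≤ C/log z + 8 K Y⁴ W / X`, and `K² ≤ z²/64`. -/
def S_VAR : Prop := S_LM → S_SQ3 → ∃ C : ℝ, 0 < C ∧ ∀ (z X Y K : ℕ), 2 ≤ z → 8 * K ≤ z → 16 * (K + 1) * (Y : ℝ) ^ 4 * PW z ≤ X →
  ∀ b : Fin K → ZMod (PW z),
  ∑ s ∈ Sb X b, (∑ p ∈ (Ioc z Y).filter Nat.Prime, (loc s p - 1)) ^ 2 ≤ (C / Real.log z + 16 * (K + 1) * (Y : ℝ) ^ 4 * PW z / X) * (Sb X b).card ∧
  ∑ s ∈ Sb X b, ∑ p ∈ (Ioc z Y).filter Nat.Prime, (loc s p - 1) ^ 2 ≤ (C / Real.log z + 16 * (K + 1) * (Y : ℝ) ^ 4 * PW z / X) * (Sb X b).card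

/-- **FAR**: the primes `p > Y`, for injective tuples. Proof. For `p > Y ≥ 8K²` put `κ_p = K - nu s p`; `κ_p ≤ ∑_{i<j} [p | s_i - s_j]`. Then
`|log loc s p| ≤ 2 κ_p / p + 2 K²/p²`. For `s` injective with `1 ≤ s_i ≤ X` only finitely many `p` have `κ_p > 0`, so `singP s w` converges (the
series of logarithms converges absolutely; `sing s` is the limit) and, if `loc s p > 0` for all `p ≤ Y`,
`|log (sing s / singP s Y)| ≤ ∑_{p > Y} (2κ_p/p + 2K²/p²)`. The last sum is `≤ 4K²/Y`. The mean over `Sb X b` of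
`∑_{p > Y} κ_p / p`: for each pair `i < j`, `∑_{p > Y, p | s_i - s_j} 1/p ≤ (1/Y) #{p > Y : p | s_i - s_j} ≤ log X/Y`. (No averaging is needed:
a nonzero integer `< X` in absolute value has at most `log X / log 2` prime factors.) So deterministically
`|log (sing s / singP s Y)| ≤ 2 K² · 2 log X / Y + 4 K²/Y ≤ 8 K² log X / Y`. -/
def S_FAR : Prop := ∀ (X Y K : ℕ) (s : Fin K → ℕ), 3 ≤ X → 8 * K ^ 2 ≤ Y → 8 * (K : ℝ) ^ 2 * Real.log X ≤ Y → (∀ i, 1 ≤ s i ∧ s i ≤ X) →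
  Function.Injective s → (∀ p : ℕ, p.Prime → p ≤ Y → nu s p < p) →
  0 < singP s Y ∧ 0 < sing s ∧ Tendsto (singP s) atTop (nhds (sing s)) ∧ |Real.log (sing s / singP s Y)| ≤ 8 * (K : ℝ) ^ 2 * Real.log X / Y

/-- **TAIL** (from VAR, FAR, SQ3 is inside VAR): `sing s` is close to `singP s z` for most `s ∈ Sb X b`. Proof. Take `Y = ⌈(log X)^4⌉`. The non injective
`s ∈ Sb X b` have proportion at most `K² · 2W/X`. If `singP s z = 0` then some `p ≤ z` has `nu s p = p` and `singP s w = 0` for all `w ≥ z`, so `sing s = 0`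
and the inequality holds. Otherwise all `nu s p < p` (`p ≤ z`, and `nu s p ≤ K < p` for `p > z`). For `z < p ≤ Y`, `|y_p| ≤ 1/2` where
`y_p = loc s p - 1` (as `8K ≤ z < p`: `loc ≤ (1 - 1/p)^{-K} ≤ exp(2K/p) ≤ e^{1/4}`, `loc ≥ (1 - K/p)(1 + K/(p-1)) ≥ 1/2`), so
`|log (1 + y_p) - y_p| ≤ y_p²` and `|log (singP s Y / singP s z)| ≤ |∑ y_p| + ∑ y_p²`. By VAR and Markov/Chebyshev, outside a proportion
`(C/log z + small)(16/ε² + 4/ε)` this is `≤ ε/2`; FAR gives `|log (sing s / singP s Y)| ≤ 8 K² log X / Y ≤ ε/4` (`K ≤ log X`, `X ≥ X₀(ε)`). And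
`|log r| ≤ 3ε/4 ≤ 3/4` implies `|r - 1| ≤ 2 · 3ε/4`; use `ε/2` in place of `ε` where needed. -/
def S_TAIL : Prop := S_VAR → S_LM → S_SQ3 → S_FAR → ∀ ε : ℝ, 0 < ε → ∃ (C : ℝ) (X₀ z₀ : ℕ), 0 < C ∧ ∀ (z X K : ℕ), X₀ ≤ X → z₀ ≤ z → 8 * K ≤ z →
  (z : ℝ) ≤ Real.log X → (PW z : ℝ) ^ 2 ≤ X → ∀ b : Fin K → ZMod (PW z),
  (((Sb X b).filter fun s => ¬ (|sing s - singP s z| ≤ ε * singP s z)).card : ℝ) ≤ C / Real.log z * (Sb X b).card

open Classical in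
/-- **TRANS** (from the classes to all admissible tuples). Proof. `AT X K` is the disjoint union of the `Sb X b`, `b ∈ Ad (PW z) K` (MBS, `K ≤ z`), and
`(X/W - 1)^K ≤ |Sb X b| ≤ (X/W + 1)^K` with `((X/W + 1)/(X/W - 1))^K ≤ 2` (`8 K W ≤ X`). So if `∑_{b ∈ Ad} |{s ∈ Sb b : E s}| / |Sb b| ≤ η |Ad|` then
`|{s ∈ AT : E s}| ≤ (X/W+1)^K η |Ad| ≤ 2 (X/W - 1)^K η |Ad| ≤ 2η |AT|`. -/
def S_TRANS : Prop := S_MBS → ∀ (z X K : ℕ) (E : (Fin K → ℕ) → Prop) (η : ℝ), K ≤ z → 8 * (K + 1) * PW z ≤ X →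
  ∑ b ∈ Ad (PW z) K, (((Sb X b).filter fun s => E s).card : ℝ) / (Sb X b).card ≤ η * (Ad (PW z) K).card →
  (((AT X K).filter fun s => E s).card : ℝ) ≤ 2 * η * (AT X K).card

end Pool.Agent.Q145.SZ
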