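import Pool.Agent.Q145.SZ.Stm
import Pool.Agent.W66.LG
import Pool.Agent.W66.PH
import Pool.Agent.H807R2.Dav1

/-!
# Project SZ (helper145). Part 2: the analytic input

Mean squares of prime character sums over all primitive characters of conductor `≤ F`, `F = exp (c log X / log log X)`, in very short
windows; exponential sums of the primes minus a model on the major arcs; the circle method in residue classes modulo `W = PW z`.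

Every `S_...` is a `Prop` with a proof in its docstring; theorem name `Pool.Agent.Q145.SZ.t_...`, own file, import this file.
The analytic base is the library of helper66 (`Pool/Agent/W66`, `L*.lean`: `DX`, `PX`, `TX`, `FX`, `bbC`, `zfl_bound`, `PX_bound`, `M_boundX`, `KTX`).
-/

set_option autoImplicit false

namespace Pool.Agent.Q145.SZ

open Finset Filter Complex MeasureTheory
open scoped Real FourierTransform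
open Pool.Agent.W66 Pool.Agent.W66L
open Pool.Agent.H807R2.Dav (ee)

/-- no zeros of primitive characters of conductor `1 < f ≤ F` in `Re s > 1 - ω`, `|Im s| ≤ T` -/
def ZF (F : ℕ) (ω T : ℝ) : Prop := ∀ (f : ℕ) [NeZero f], 1 < f → f ≤ F → ∀ χ : DirichletCharacter ℂ f, χ.IsPrimitive →
  ∀ s : ℂ, 1 - ω < s.re → |s.im| ≤ T → χ.LFunction s ≠ 0

open Classical in
/-- the primitive characters modulo `f` -/
noncomputable def prim (f : ℕ) : Finset (DirichletCharacter ℂ f) := univ.filter fun χ => χ.IsPrimitive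

/-! ## Mean squares of character sums -/

/-- **DXB**: the logarithmic derivative under a zero-free hypothesis (adapt `zfl_bound`, `W66/LB.lean`; `DX χ s = L'/L`). Proof. With
`t = z.im`, `landau` on the balls of centre `⟨2, t⟩` and radii `9/8 < 11/8 < 3/2 < 7/4` (constants from `LF_const`): a zero `ρ` in the closed
ball of radius `3/2` has `|ρ.im - t| ≤ 3/2`, so `|ρ.im| ≤ T` and `ρ.re ≤ 1 - ω`, hence `‖z - ρ‖ ≥ z.re - ρ.re ≥ ω/2`; the bound of `landau` is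
`K0 lq (1 + 2/ω) ≤ C lq / ω`. -/
def S_DXB : Prop := ∃ C : ℝ, 0 < C ∧ ∀ (Q : ℕ) [NeZero Q] (χ : DirichletCharacter ℂ Q), χ ≠ 1 → ∀ ω T : ℝ, 0 < ω → ω ≤ 1 / 4 →
  (∀ s : ℂ, 1 - ω < s.re → |s.im| ≤ T → χ.LFunction s ≠ 0) →
  ∀ z : ℂ, 1 - ω / 2 ≤ z.re → z.re ≤ 2 → |z.im| ≤ T - 2 → χ.LFunction z ≠ 0 ∧ ‖DX χ z‖ ≤ C * lq Q z.im / ω

/-- **PXB** (from DXB): copy the proof of `PX_bound` (`W66/LC.lean`) with `η = ω / 2` in place of `c / ℓ` and the bound of DXB in place of `zfl_bound`. -/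
def S_PXB : Prop := S_DXB → ∃ C : ℝ, 0 < C ∧ ∀ (Q : ℕ) [NeZero Q] (χ : DirichletCharacter ℂ Q), χ ≠ 1 → ∀ ω T : ℝ, 0 < ω → ω ≤ 1 / 4 →
  (∀ s : ℂ, 1 - ω < s.re → |s.im| ≤ T → χ.LFunction s ≠ 0) →
  ∀ u ξ₀ R : ℝ, 1 ≤ u → 1 ≤ R → |ξ₀| + R + 2 ≤ T →
    ‖PX χ u ξ₀‖ ≤ C * (lq Q (|ξ₀| + R) / ω * (Real.exp (-(ω * u / 2)) + 1 / R ^ 2) + u / R)

/-- conclusion of `S_PXB` -/
def S_PXB' : Prop := ∃ C : ℝ, 0 < C ∧ ∀ (Q : ℕ) [NeZero Q] (χ : DirichletCharacter ℂ Q), χ ≠ 1 → ∀ ω T : ℝ, 0 < ω → ω ≤ 1 / 4 →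
  (∀ s : ℂ, 1 - ω < s.re → |s.im| ≤ T → χ.LFunction s ≠ 0) →
  ∀ u ξ₀ R : ℝ, 1 ≤ u → 1 ≤ R → |ξ₀| + R + 2 ≤ T →
    ‖PX χ u ξ₀‖ ≤ C * (lq Q (|ξ₀| + R) / ω * (Real.exp (-(ω * u / 2)) + 1 / R ^ 2) + u / R)

/-- **MBX** (from PXB'): adapt `M_boundX` (`W66/LG.lean`) and `M_bound` (`W66/PH.lean`). Proof. `|ξ| ≤ Z^D / h = Z^D e^lam`: PXB' with `R = Z^D`;
`|2πξ| + R + 2 ≤ 11 Z^D e^lam ≤ e^{2 lam} ≤ T` (as `11 Z^D ≤ e^{√Z} ≤ e^lam`), `lq ≤ log Q + 2 lam + 2 ≤ 4 lam ≤ 4Z`, `1/ω ≤ u / (2(D+1) log Z) ≤ Z`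
(from `2 (D+1) log Z ≤ ω u`, `u ≤ Z + 4 ≤ 2Z`), `e^{-ωu/2} ≤ Z^{-(D+1)}`: total `≤ K (Z² Z^{-(D+1)} + Z² / Z^{2D} + Z / Z^D)`, and
`‖𝓕 (boxC h) ξ‖ ≤ 1`. `|ξ| > Z^D / h`: `PX_triv` and the decay of `𝓕 (boxC h)` as in `M_boundX`. -/
def S_MBX : Prop := S_PXB' → ∀ D : ℕ, ∃ K : ℝ, 0 < K ∧ ∀ (Q : ℕ) [NeZero Q] (χ : DirichletCharacter ℂ Q), χ ≠ 1 →
  ∀ Z lam h ω T u : ℝ, 20 ≤ Z → 11 * (Z ^ (D + 1) * Real.exp (-√Z)) ≤ 1 → √Z ≤ lam → lam ≤ Z → Real.log Q ≤ lam → h = Real.exp (-lam) →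
  0 < ω → ω ≤ 1 / 4 → Real.exp (3 * lam) ≤ T → (∀ s : ℂ, 1 - ω < s.re → |s.im| ≤ T → χ.LFunction s ≠ 0) →
  1 ≤ u → 2 * (D + 1) * Real.log Z ≤ ω * u → u ≤ Z + 4 → ∀ ξ : ℝ, ‖PX χ u (2 * π * ξ)‖ * ‖𝓕 (boxC h) ξ‖ ≤ K * (Z ^ 2 / Z ^ D)

/-- **LSB**: large sieve for the box sums over all primitive characters (replaces `bbC_sum`). Proof. Fix `x` and let `I` be the set of `l ∈ L` with
`c l ≠ 0`, `|x - log l| ≤ h/2`: it lies in an interval with at most `2 h e^x + 1` integers, and if it is nonempty `1 ≤ F² ≤ h l ≤ 2 h e^x`. The large sieve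
for primitive characters on the interval (the proof of `mult_large_sieve` in `Pool/Agent/Helper112/MultLS.lean`: `prim_bound`, `sum_units`, then
the additive large sieve `additive_large_sieve` / `ls_general`, which is invariant under shifts of the interval: `|∑ α_{n+M} e((n+M)ξ)| = |∑ α_{n+M} e(nξ)|`)
gives `∑_f (f/φ f) ∑_χ |∑_{l ∈ I} c_l χ(l) / h|² ≤ 6 (2he^x + 1 + F²) h⁻² ∑_I |c_l|² ≤ 60 (e^x / h) ∑_I |c_l|²`. Integrate over `x`: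
`∫_{|x - log l| ≤ h/2} e^x dx / h ≤ l e^{1/2}`. -/
def S_LSB : Prop := ∃ C : ℝ, 0 < C ∧ ∀ (F : ℕ) (h : ℝ) (L : Finset ℕ) (c : ℕ → ℂ), 0 < h → h ≤ 1 → (∀ l ∈ L, 0 < l) →
  (∀ l ∈ L, c l ≠ 0 → (F : ℝ) ^ 2 ≤ h * l) →
  ∑ f ∈ Icc 1 F, ((f : ℝ) / Nat.totient f) * ∑ χ ∈ prim f, ∫ x, ‖bbC h L (fun l => χ l * c l) x‖ ^ 2 ≤ C * ∑ l ∈ L, l * ‖c l‖ ^ 2

/-- **HYB** (from MBX, LSB): adapt `KTX` (`W66/LG.lean`). Parameters: `D = A + 8`, `h = e^{-lam}`, `w = ⌈F² / h⌉` (so `log w ≤ 2 log F + lam + 1 ≤ 3 lam`),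
`u0 = ⌈2 (D+1) log Z / ω⌉ ≤ Z/4 + 1` (`C₀ ≥ 8 (D+1)`), `U = ⌈Z + 2⌉`, `N' = ⌈exp (U + 1)⌉`. `KT_ineqX` for each `χ` (mod `f ≤ F`):
the error is at most `w F (48 (z+2) e^{-z}/h²) + u0 (1+u0) w F (48 e^{u0 - Z}/h²) ≤ exp (7 lam + Z/4 - Z + o(Z)) ≤ e^{-Z/2}` if `C₀ ≥ 100`; squared and
summed over at most `F²` characters with weights `f/φ(f) ≤ F` still negligible. The main part is `∑_{u0 ≤ u ≤ U} FX χ u h N' (Ioc 0 N') (χ aw_w/l)`; by Cauchy-Schwarz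
its square is at most `(U + 1) ∑_u |FX|²`, `dispersionX` and MBX give `∫ |FX|² ≤ (K Z² / Z^D)² ∫ |bbC|²`, LSB (the coefficient `aw w l / l` vanishes for `l ≤ w`,
and `w ≥ F²/h`) and `∑_{l ≤ N'} l (aw w l / l)² ≤ ∑ τ(l)²/l ≤ C Z⁴` (`aw_abs_le`, `aw_sum` in `W66/PH.lean`). `TX_indep` removes the dependence on `N`. -/
def S_HYB : Prop := S_MBX → S_PXB' → S_LSB → ∀ A : ℕ, ∃ (C₀ Z₀ : ℝ), 1 ≤ C₀ ∧ 1 ≤ Z₀ ∧ ∀ (F : ℕ) (Z lam h ω T : ℝ), Z₀ ≤ Z → √Z ≤ lam → C₀ * lam ≤ Z →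
  1 ≤ F → Real.log F ≤ lam → h = Real.exp (-lam) → 0 < ω → ω ≤ 1 / 4 → C₀ * Real.log Z ≤ ω * Z → Real.exp (3 * lam) ≤ T → ZF F ω T →
  ∀ N : ℕ, Real.exp (Z + 2) ≤ N →
  ∑ f ∈ Ioc 1 F, ((f : ℝ) / Nat.totient f) * ∑ χ ∈ prim f, ∫ z in Z..(Z + 1), ‖TX χ h N z‖ ^ 2 ≤ 1 / Z ^ A

/-- **SHARP**: from smoothed sums in short windows to sharp cut-offs, with an additive twist. Proof. Put `a_m = Λ(m) χ(m)` and
`G(β) = ∫_n^{n'} ee(y β) (TX χ h N (log y) - κ) dy = ∫_{log n}^{log n'} e^z ee(e^z β) (TX χ h N z - κ) dz`. Since `TX χ h N z = ∑ a_m/m tri h (z - log m)` and `∫ tri h = 1`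
(`integral_tri`), the coefficient of `a_m` in the first part is `k(m) = (1/m)∫_{log n}^{log n'} e^z ee(e^z β) tri h (z - log m) dz`. For `log n + h ≤ log m ≤ log n' - h`:
`|k(m) - ee(mβ)| ≤ max |e^z/m - 1| + 2π |e^z - m||β| ≤ C h (1 + X|β|)`; within `h` of an endpoint `|k(m)| ≤ 2`; elsewhere `k(m) = 0`. So
`|∑ a_m k(m) - ∑_{n < u ≤ n'} a_u ee(uβ)| ≤ C h (1 + X|β|) X log X + C (hX + 1) log X ≤ C h (1 + X|β|) X log X` (trivial bound `Λ ≤ log`, `1 ≤ h X`). And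
`|∫_n^{n'} ee(yβ) dy - ∑_{n<u≤n'} ee(uβ)| ≤ 2π |β| X · 3`. Hence `|∑_{n<u≤n'} (a_u - κ) ee(uβ)| ≤ |G(β)| + C h (1 + X|β|) X log X`. By Plancherel
(as in `dispersionX`, `W66/LD.lean`; `G` is the Fourier transform of a function supported on `[n, n']`)
`∫_{-B}^{B} |G|² ≤ ∫_n^{n'} |TX χ h N (log y) - κ|² dy = ∫_{log n}^{log n'} |TX - κ|² e^z dz ≤ 3X ∫`, and `|G(0)|² ≤ 2X ∫_n^{n'} |TX(log y) - κ|² dy ≤ 6X² ∫`. -/
def S_SHARP : Prop := ∃ C : ℝ, 0 < C ∧ ∀ (f : ℕ) (χ : DirichletCharacter ℂ f) (κ : ℂ) (X n n' N : ℕ) (B h : ℝ), ‖κ‖ ≤ 1 → 3 ≤ X → X ≤ n → n ≤ n' → n' ≤ 3 * X →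
  0 < h → h ≤ 1 / 4 → 1 ≤ h * X → 0 ≤ B → B ≤ 1 → Real.exp (Real.log X + 4) ≤ N →
  (∫ β in (-B)..B, ‖∑ u ∈ Ioc n n', (((ArithmeticFunction.vonMangoldt u : ℝ) : ℂ) * χ u - κ) * ee (u * β)‖ ^ 2 ≤
    C * X * (∫ z in (Real.log X)..(Real.log X + 2), ‖TX χ h N z - κ‖ ^ 2) + C * B * (h * X * (1 + X * B) * Real.log X) ^ 2) ∧
  ‖∑ u ∈ Ioc n n', (((ArithmeticFunction.vonMangoldt u : ℝ) : ℂ) * χ u - κ)‖ ^ 2 ≤
    C * (X : ℝ) ^ 2 * (∫ z in (Real.log X)..(Real.log X + 2), ‖TX χ h N z - κ‖ ^ 2) + C * (h * X * Real.log X) ^ 2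

/-- the character sum over an interval, with the main term for `f = 1` removed -/
noncomputable def DC {f : ℕ} (χ : DirichletCharacter ℂ f) (n n' : ℕ) (β : ℝ) : ℂ :=
  ∑ u ∈ Ioc n n', (((wt u : ℝ) : ℂ) * χ u - (if f = 1 then 1 else 0)) * ee (u * β)

/-- the conclusion of the mean square estimate: all primitive characters of conductor `≤ F` -/
def MSq (A X F : ℕ) : Prop := ∀ n n' : ℕ, X ≤ n → n ≤ n' → n' ≤ 3 * X →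
  (∑ f ∈ Icc 1 F, ((f : ℝ) / Nat.totient f) * ∑ χ ∈ prim f, ∫ β in (-((F : ℝ) / X))..((F : ℝ) / X), ‖DC χ n n' β‖ ^ 2 ≤ X / Real.log X ^ A) ∧
  ∑ f ∈ Icc 1 F, ((f : ℝ) / Nat.totient f) * ∑ χ ∈ prim f, ‖DC χ n n' 0‖ ^ 2 ≤ (X : ℝ) ^ 2 / Real.log X ^ A

/-- **MS** (from HYB, SHARP and `KT` of `W66/PH.lean`). Proof. `L = log X`. Use HYB on `[L, L+1]` and `[L+1, L+2]` with exponent `A + 3`, `lam = max (20 log F) (2√L) `, `h = e^{-lam}`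
(so `1 ≤ hX`), `T ≥ e^{3 lam}`; `KT (A + 3)` for `f = 1` (`TX` of the character modulo `1` is `TT`; `KT` needs `lam log Z ≤ c0 Z`, which is the
hypothesis `C₀ log F loglog X ≤ L` for `C₀` large; `√L log L ≪ L`). Then SHARP with `B = F / X`, `κ = 1` for `f = 1`, `κ = 0` otherwise: the error terms are
`C (F/X)(h X (1 + F) L)² ≤ X F⁴ L² h² ` per character, at most `F²` characters with weight `≤ F`: `≤ X F⁷ L² F^{-40}` if `F ≥ 2` (for `F = 1` the bound is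
`X L² e^{-4√L}·4`), which is `≤ X / (2 L^A)` (`h = e^{-lam} ≤ e^{-2√L}` beats powers of `L`, `h ≤ F^{-20}` beats powers of `F`). Replace `Λ` by `wt`: they differ on prime powers
`p^k`, `k ≥ 2`: `∑_{p^k ≤ 3X, k ≥ 2} log p ≤ C √X L`, contribution `≤ (F/X) F³ X L² C`, negligible. -/
def S_MS : Prop := S_HYB → S_MBX → S_PXB' → S_LSB → S_SHARP → ∀ A : ℕ, ∃ (C₀ : ℝ) (X₀ : ℕ), 1 ≤ C₀ ∧ ∀ (X F : ℕ) (ω T : ℝ), X₀ ≤ X → 1 ≤ F →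
  C₀ * Real.log F * Real.log (Real.log X) ≤ Real.log X → 0 < ω → ω ≤ 1 / 4 → C₀ * Real.log (Real.log X) ≤ ω * Real.log X →
  (F : ℝ) ^ 60 ≤ T → Real.exp (6 * √(Real.log X)) ≤ T → ZF F ω T → MSq A X F

/-! ## Major arcs -/

open Classical in
/-- **GS** (Gauss sums). Proof. For `u` prime, `u > n ≥ Q ≥ q`, `(r, q) = 1`: `e(ur/q) = (1/φ(q)) ∑_{χ mod q} τ(χ̄) χ(r) χ(u)`, `τ(χ̄) = ∑_a χ̄(a) e(a/q)`; `τ` of the
principal character is `μ(q)`. So the difference is `(1/φ(q)) ∑_χ τ(χ̄) χ(r) D_χ`, `D_χ = ∑_u (wt u χ(u) - [χ = 1]) ee(uβ)`, and the sum over `r` of its square is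
`(1/φ(q)) ∑_χ |τ(χ̄)|² |D_χ|²`. If `χ` is induced by the primitive `ξ` mod `f | q` then `|τ(χ̄)|² ≤ f` (`τ(χ) = μ(q/f) ξ(q/f) τ(ξ)`, `|τ(ξ)|² = f`) and `D_χ = DC ξ` (the `u` with
`wt u ≠ 0` are prime to `q`). Summing over `q ≤ Q`: each `ξ` mod `f` gets `f ∑_{f | q ≤ Q} 1/φ(q) ≤ (f/φ(f)) ∑_{g ≤ Q} 1/φ(g) ≤ (f/φ(f)) C (1 + log Q)`
(`φ(fg) ≥ φ(f)φ(g)`). -/
def S_GS : Prop := ∃ C : ℝ, 0 < C ∧ ∀ (Q n n' : ℕ) (β : ℝ), 1 ≤ Q → Q ≤ n →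
  ∑ q ∈ Icc 1 Q, ∑ r ∈ (range q).filter (fun r => r.Coprime q),
    ‖∑ u ∈ Ioc n n', ((wt u : ℝ) : ℂ) * ee (u * ((r : ℝ) / q + β)) -
      (((ArithmeticFunction.moebius q : ℤ) : ℂ) / (Nat.totient q : ℂ)) * ∑ u ∈ Ioc n n', ee (u * β)‖ ^ 2 ≤
  C * (1 + Real.log Q) * ∑ f ∈ Icc 1 Q, ((f : ℝ) / Nat.totient f) * ∑ χ ∈ prim f, ‖DC χ n n' β‖ ^ 2

/-- Ramanujan sums -/
noncomputable def rsum (q h : ℕ) : ℝ := ∑ d ∈ q.divisors.filter (fun d => d ∣ h), (d : ℝ) * ((ArithmeticFunction.moebius (q / d) : ℤ) : ℝ)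

/-- the model of the primes -/
noncomputable def md (W R u : ℕ) : ℝ := if u.Coprime W then
  vv W * ∑ q ∈ (Icc 1 R).filter (fun q => q.Coprime W), ((ArithmeticFunction.moebius q : ℤ) : ℝ) / (Nat.totient q : ℝ) * rsum q u else 0

/-- **MODB**: the model on the major arcs. Proof. `rsum q u = ∑_{r mod q, (r,q)=1} e(ur/q)` and, `W` squarefree, `[(u,W)=1] vv W = ∑_{V | W} (μ(V)/φ(V)) rsum V u`
(check on primes: `p/(p-1)` if `p ∤ u`, `0` if `p | u`: `1 - rsum p u/(p-1)`). So `md W R u = ∑_{V | W} ∑_{q'' ≤ R, (q'',W)=1} (μ(Vq'')/φ(Vq'')) ∑_{r' mod Vq''}^* e(u r'/(Vq''))`: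
a sum over reduced fractions `r'/D`, `D = V q'' ≤ W R`, with coefficients `μ(D)/φ(D)`. For `q ≤ R`, the fraction `-r/q` occurs iff `q = V q''` with `V | W`, `(q'', W) = 1`, which
holds if `q` is squarefree; if `q` is not squarefree either it does not occur or its coefficient is `0 = μ(q)/φ(q)`. This fraction gives the main term. For every other `r'/D`:
`‖r/q + r'/D‖ ≥ 1/(qD) ≥ 1/(W R²)`, so `‖β + r/q + r'/D‖ ≥ 1/(2WR²)` and the geometric sum over `u` is `≤ 1/(2·dist) ≤ W R²`; for each `D` the coefficients add up to at most `1`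
in absolute value, and there are at most `W R` values of `D` (`V ≤ W`, `q'' ≤ R`). Total `≤ W² R³`. -/
def S_MODB : Prop := ∀ (W R q r n n' : ℕ) (β : ℝ), Squarefree W → 1 ≤ R → 1 ≤ q → q ≤ R → r.Coprime q → 2 * W * (R : ℝ) ^ 2 * |β| ≤ 1 →
  ‖∑ u ∈ Ioc n n', ((md W R u : ℝ) : ℂ) * ee (u * ((r : ℝ) / q + β)) -
      (((ArithmeticFunction.moebius q : ℤ) : ℂ) / (Nat.totient q : ℂ)) * ∑ u ∈ Ioc n n', ee (u * β)‖ ≤ (W : ℝ) ^ 2 * (R : ℝ) ^ 3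

/-- the major arcs: `α` near a fraction with denominator `q W`, `q ≤ Q` -/
def Maj (Q W X : ℕ) : Set ℝ := {α | ∃ q : ℕ, 1 ≤ q ∧ q ≤ Q ∧ ∃ k : ℤ, |(q : ℝ) * W * α - k| ≤ (W : ℝ) * Q / X}

/-- **MODA**: the model outside the major arcs. Proof. Expand as in MODB: `∑_u md ee(uα) = ∑_{D = V q''} ∑_{r'} coef · G(α + r'/D)`, `G(θ) = ∑_{n<u≤n'} ee(uθ)`, `|G(θ)| ≤ min (n' - n) (1/(2‖θ‖))`.
The fractions `r'/D` (mod 1) are reduced, pairwise different, with denominators `≤ WR`, so different ones are at distance `≥ 1/(WR)²` mod 1; at most one is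
within `1/(2(WR)²)` of `-α`; all the others have `|G| ≤ (WR)²`; the coefficients for each `D` add up to `≤ 1`, at most `WR` values of `D`: `≤ (WR)³`. For the exceptional one,
`D = Vq''`, coefficient `≤ 1/φ(q'')`: if `q'' ≤ Q`, then `q'' W (α + r'/D)` differs from `q'' W α` by an integer, so `α ∉ Maj` gives
`q'' W ‖α + r'/D‖ ≥ WQ/X`, `|G| ≤ q'' X/(2Q)`; if `q'' > Q`, `|G| ≤ 2X ≤ 2X q''/Q`. So it contributes at most `2 (q''/φ(q'')) X/Q`, and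
`q''/φ(q'') ≤ 1 + log₂ q'' ≤ 2 + 2 log R` (`∏_{p | q} p/(p-1) ≤ ∏_{i=1}^{k} (i+1)/i = k + 1`, `k ≤ log₂ q` the number of prime factors). -/
def S_MODA : Prop := ∀ (W R Q X n n' : ℕ) (α : ℝ), Squarefree W → 1 ≤ R → 1 ≤ Q → 1 ≤ X → n ≤ n' → n' ≤ n + 2 * X → α ∉ Maj Q W X →
  ‖∑ u ∈ Ioc n n', ((md W R u : ℝ) : ℂ) * ee (u * α)‖ ≤ 4 * (1 + Real.log R) * X / Q + ((W : ℝ) * R) ^ 3

/-- the truncated singular series of the model -/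
noncomputable def SR (W R h : ℕ) : ℝ :=
  ∑ q ∈ (Icc 1 R).filter (fun q => q.Coprime W), ((ArithmeticFunction.moebius q : ℤ) : ℝ) ^ 2 / (Nat.totient q : ℝ) ^ 2 * rsum q h

open Classical in
/-- **MODC**: correlations of the model along a class (also `n = m`). Proof. If `β ∉ Us n m` both sides are `0` (`md` vanishes unless `n + s`, `m + s` are prime to `W`). Otherwise
`md (n+s) md (m+s) = v² ∑_{q₁,q₂} (μμ/φφ) ∑_{r₁,r₂}^* e((n+s) r₁/q₁ + (m+s) r₂/q₂)`, `v = vv W`. If `r₁/q₁ + r₂/q₂ ∈ ℤ` then `q₁ = q₂ = q`, `r₂ ≡ -r₁`: the sum over `s` and `r₁` is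
`|cls X β| rsum q (dst n m)`; these terms give `v² |cls| SR W R (dst n m)`, and `||cls| - X/W| ≤ 1`, `|SR| ≤ ∑_{q ≤ R} φ(q)/φ(q)² ≤ R`. Otherwise `s = s₀ + W t`, and
`W (r₁/q₁ + r₂/q₂)` is not an integer (`(W, q₁q₂) = 1`), so its distance to the integers is `≥ 1/(q₁q₂) ≥ 1/R²` and the sum over `s` is `≤ R²/2`; the coefficients
`1/(φ(q₁)φ(q₂))` times the number `φ(q₁)φ(q₂)` of pairs `(r₁, r₂)` add up to `R²`: total `≤ R⁴/2`. -/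
def S_MODC : Prop := ∀ (W : ℕ) [NeZero W] (R X n m : ℕ) (β : ZMod W), Squarefree W → 1 ≤ R → 1 ≤ X →
  |∑ s ∈ cls X β, md W R (n + s) * md W R (m + s) - (if β ∈ Us (n : ZMod W) (m : ZMod W) then (X : ℝ) / W * vv W ^ 2 * SR W R (dst n m) else 0)| ≤
    2 * vv W ^ 2 * (R : ℝ) ^ 4

/-- **MODE**: the truncated singular series is `SP z X h` on average. Proof. `1 + rsum p h/(p-1)²` is the factor of `SP` at `p` (`rsum p h = p - 1` if `p | h`, `-1` otherwise), so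
`SP z X h = ∑_q μ(q)² rsum q h/φ(q)²` over all `q` composed of primes in `(z, X]`. For `R ≤ X` the `q ≤ R` squarefree prime to `W = PW z` are among them. So the difference is at most
`∑_{q > R, squarefree} |rsum q h|/φ(q)²`; `|rsum q h| ≤ ∑_{d | (q,h)} d`, so `∑_{h ≤ X} |rsum q h| ≤ ∑_{d | q} d X/d = τ(q) X`; `τ(q)/φ(q)² ≤ C q^{-7/4}`
(`τ(q) ≤ C q^{1/8}`, `φ(q) ≥ c q^{15/16}`) and `∑_{q > R} C q^{-7/4} ≤ C' R^{-3/4} ≤ R^{-1/2}`. -/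
def S_MODE : Prop := ∃ R₀ : ℕ, ∀ (z X R : ℕ), R₀ ≤ R → R ≤ X → 2 ≤ z →
  ∑ h ∈ Icc 1 X, |SR (PW z) R h - SP z X h| ≤ X / √(R : ℝ)

/-- **MAJ** (from GS, MODB): mean square of primes minus model on the major arcs. Proof. `R = Q W = F`. If `α ∈ [0, 1] ∩ Maj Q W X`, `|qWα - k| ≤ WQ/X`, then `|α - k/(qW)| ≤ Q/(qX) ≤ F/X`; reduce
`k/(qW) = r/q'`, `q' ≤ F`, `0 ≤ k ≤ qW` (as `WQ/X < 1`), so `α = r/q' + β`, `|β| ≤ F/X`, `0 ≤ r ≤ q'`; `r = q'` only for `q' = 1`, where `ee(u(1 + β)) = ee(uβ)`. So the integral is at most twice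
`∑_{q' ≤ F} ∑_{r} ∫_{-F/X}^{F/X} |D(r/q' + β)|² dβ`, `D(α) = ∑_u (wt u - md W F u) ee(uα)`. Subtract and add `(μ(q')/φ(q')) ∑ ee(uβ)`: GS (integrated over `β`; `MSq A X F`) gives
`2 C (1 + log F) X / L^A`, and MODB (`2 W F² F/X ≤ 1`) gives `2 · F² · (2F/X) · W⁴ F⁶ ≤ X/L^A` as `F^{40} ≤ X`. -/
def S_MAJ : Prop := S_GS → S_MODB → ∃ (C : ℝ) (X₀ : ℕ), 0 < C ∧ ∀ (A W Q X : ℕ), X₀ ≤ X → Squarefree W → 1 ≤ Q → ((Q : ℝ) * W) ^ 40 ≤ X →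
  Real.log X ^ A ≤ X ^ (1 / 4 : ℝ) → MSq A X (Q * W) →
  ∀ n n' : ℕ, X ≤ n → n ≤ n' → n' ≤ 3 * X →
  ∫ α in Set.Icc (0 : ℝ) 1 ∩ Maj Q W X, ‖∑ u ∈ Ioc n n', (((wt u - md W (Q * W) u : ℝ)) : ℂ) * ee (u * α)‖ ^ 2 ≤
    C * (1 + Real.log ((Q : ℝ) * W)) * X / Real.log X ^ A

/-- **MIN**: minor arcs. Proof. Dirichlet: there is `1 ≤ q ≤ X/Q` and `c` prime to `q` with `|qα - c| ≤ Q/X`. If `q ≤ Q` then `|qWα - Wc| ≤ WQ/X`, so `α ∈ Maj`. So `q > Q`, and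
`|α - c/q| ≤ Q/(qX) ≤ 1/q²`. `vin_pow` (`Pool/Agent/Y883/T3/Vin.lean`) for `N = n` and `N = n'` (both in `[X, 3X]`) with `K = √Q/(2 log X)^8` gives `|∑_{m ≤ N} Λ(m) ee(mα)| ≤ 3X (2 log X)^8/√Q`;
prime powers contribute `≤ C √X log X`. -/
def S_MIN : Prop := ∃ X₀ : ℕ, ∀ (W Q X n n' : ℕ) (α : ℝ), X₀ ≤ X → 1 ≤ W → Real.log X ^ 30 ≤ Q → (Q : ℝ) ≤ (X : ℝ) ^ (1 / 10 : ℝ) →
  X ≤ n → n ≤ n' → n' ≤ 3 * X → α ∉ Maj Q W X →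
  ‖∑ u ∈ Ioc n n', ((wt u : ℝ) : ℂ) * ee (u * α)‖ ≤ X * Real.log X ^ 9 / √(Q : ℝ)

/-! ## The circle method in residue classes -/

/-- the transform of a function supported on `[0, M]` -/
noncomputable def ftr (M : ℕ) (F : ℕ → ℝ) (α : ℝ) : ℂ := ∑ u ∈ range (M + 1), ((F u : ℝ) : ℂ) * ee (u * α)

/-- correlation along a class modulo `W` -/
noncomputable def cor (M W : ℕ) (F G : ℕ → ℝ) (a : ZMod W) (h : ℤ) : ℝ :=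
  ∑ u ∈ (range (M + 1)).filter (fun u : ℕ => (u : ZMod W) = a), ∑ v ∈ (range (M + 1)).filter (fun v : ℕ => (v : ℤ) = u + h), F u * G v

/-- **ENG**: the engine of the circle method. Proof. For `a ∈ ZMod W` put `F_a(u) = F(u) [u ≡ a]`. `cor M W F G a h = ∫_0^1 ftr F_a(α) conj(ftr G_{a+h}(α)) ee(hα) dα` (orthogonality; only finite sums).
`ftr F_a(α) = (1/W) ∑_{j < W} ee(-aj/W) ftr F(α + j/W)`, so `∑_a |ftr F_a(α)|² = (1/W) ∑_j |ftr F(α + j/W)|²`. `E` is invariant under `α ↦ α + 1/W` (so also under `+1`). Put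
`R₁(a, h) = ∫_{[0,1] ∩ E} (ftr F_a conj(ftr G_{a+h}) - ftr F'_a conj(ftr G'_{a+h})) ee(hα)`, `R₂` the same over `[0,1] \ E`. Write the integrand of `R₁` as
`(F_a - F'_a)^ conj(G_{a+h}^) + F'_a^ conj((G - G')_{a+h}^)`; by Cauchy-Schwarz, Parseval `∫_0^1 |ftr G_a|² = ∑_{v ≡ a} G(v)² ≤ EG`, and
`∑_a ∫_{[0,1] ∩ E} |(F-F')_a^|² = (1/W) ∑_j ∫_{[0,1] ∩ E} |(F - F')^(α + j/W)|² dα = ∫_{[0,1] ∩ E} |(F - F')^|²` (periodicity and invariance):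
`∑_a |R₁|² ≤ 2 DF EG + 2 EF DG`. `R₂`: for each pair `(a, a')` the numbers `∫_{[0,1]\E} Φ ee(hα)`, `Φ = ftr F_a conj(ftr G_{a'})`, `h ∈ ℤ`, have square sum `≤ ∫_{[0,1] \ E} |Φ|²` (Bessel: Mathlib's
`hasSum_sq_fourierCoeff`/orthonormality, or directly: test against a finite combination `∑ c_h ee(-hα)`). Sum over `(a, a')`: `≤ ∫_{[0,1]\E} (∑_a |ftr F_a|²)(∑_{a'} |ftr G_{a'}|²) ≤
δ² ∑ G²`, because `α + j/W ∉ E` for `α ∉ E`. The same for `F'`, `G'`. -/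
def S_ENG : Prop := ∀ (M W : ℕ) [NeZero W] (F F' G G' : ℕ → ℝ) (E : Set ℝ) (δ DF DG EF EG : ℝ), MeasurableSet E →
  (∀ α : ℝ, α ∈ E ↔ α + 1 / (W : ℝ) ∈ E) → 0 ≤ δ →
  (∀ α ∉ E, ‖ftr M F α‖ ≤ δ ∧ ‖ftr M F' α‖ ≤ δ) →
  (∫ α in Set.Icc (0 : ℝ) 1 ∩ E, ‖ftr M (fun u => F u - F' u) α‖ ^ 2 ≤ DF) →
  (∫ α in Set.Icc (0 : ℝ) 1 ∩ E, ‖ftr M (fun u => G u - G' u) α‖ ^ 2 ≤ DG) →
  (∀ a : ZMod W, ∑ u ∈ (range (M + 1)).filter (fun u : ℕ => (u : ZMod W) = a), F' u ^ 2 ≤ EF) →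
  (∀ a : ZMod W, ∑ u ∈ (range (M + 1)).filter (fun u : ℕ => (u : ZMod W) = a), G u ^ 2 ≤ EG) →
  ∃ R₁ R₂ : ZMod W → ℤ → ℂ,
    (∀ a h, (((cor M W F G a h - cor M W F' G' a h : ℝ)) : ℂ) = R₁ a h + R₂ a h) ∧
    (∀ h, ∑ a : ZMod W, ‖R₁ a h‖ ^ 2 ≤ 2 * (DF * EG + EF * DG)) ∧
    ∀ H : Finset ℤ, ∑ h ∈ H, ∑ a : ZMod W, ‖R₂ a h‖ ^ 2 ≤
      2 * δ ^ 2 * (∑ u ∈ range (M + 1), G u ^ 2 + ∑ u ∈ range (M + 1), G' u ^ 2)

open Classical in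
/-- **H1** (first moment input, from `MSq`). Proof. `W = PW z`, `F ≥ W`. For `n ∈ (X, 2X]` and `a = n + β`: `|cls X β| A1 X n β = θ_a := ∑_{n < u ≤ n + X, u ≡ a} wt u`, which is `0` if `a` is not a unit (a prime `> X ≥ W`).
`∑_{a unit} (θ_a - X/φ(W))² = (1/φ(W)) ∑_{χ mod W} |∑_u wt u χ(u) - [χ=1] X|²`, and each `χ` is induced by a primitive `ξ` mod `f | W` with the same sum, so this is at most
`(1/φ(W)) ∑_{f ≤ F} (f/φ f) ∑_{prim} |DC ξ n (n+X) 0|² ≤ X²/(φ(W) L^A)`. Cauchy-Schwarz: `∑_a |θ_a - X/φ(W)| ≤ X/L^{A/2}`. With `|cls X β| = X/W + O(1)`: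
`∑_β |A1 - vv W [unit]| ≤ (2W/X)(X/L^{A/2}) + φ(W) · (2W/X) vv W`, and `vv W φ(W) = W`. -/
def S_H1 : Prop := ∀ (A z X F : ℕ), 3 ≤ X → (PW z : ℝ) ^ 4 ≤ X → PW z ≤ F → MSq (2 * A) X F → ∀ n ∈ Ioc X (2 * X),
  ∑ β : ZMod (PW z), |A1 X n β - (if IsUnit ((n : ZMod (PW z)) + β) then vv (PW z) else 0)| ≤
    (2 / Real.log X ^ A + 2 * PW z / X) * vv (PW z) * Nat.totient (PW z)

end Pool.Agent.Q145.SZ
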