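import Pool.Agent.Q145.SZ.Stm3

/-!
# Project SZ: sufficiency, assembly
-/

set_option autoImplicit false

namespace Pool.Agent.Q145.SZ

open Finset Filter

open Classical in
/-- the Hardy-Littlewood formula with precision `ε` holds for all but a proportion `ε` of the admissible `K`-tuples of `[1, X]` -/
def HLK (X K : ℕ) (ε : ℝ) : Prop :=
  (((AT X K).filter fun s => ¬ (|cnt X s * Real.log X ^ K - sing s * X| ≤ ε * (sing s * X))).card : ℝ) ≤ ε * (AT X K).card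

/-- conclusion of `S_MS` -/
def S_MS' : Prop := ∀ A : ℕ, ∃ (C₀ : ℝ) (X₀ : ℕ), 1 ≤ C₀ ∧ ∀ (X F : ℕ) (ω T : ℝ), X₀ ≤ X → 1 ≤ F →
  C₀ * Real.log F * Real.log (Real.log X) ≤ Real.log X → 0 < ω → ω ≤ 1 / 4 → C₀ * Real.log (Real.log X) ≤ ω * Real.log X →
  (F : ℝ) ^ 60 ≤ T → Real.exp (6 * √(Real.log X)) ≤ T → ZF F ω T → MSq A X F

open Classical in
/-- conclusion of `S_H2` -/
def S_H2' : Prop := ∀ A : ℕ, ∃ (b A' C₁ X₀ : ℕ), ∀ z X : ℕ, X₀ ≤ X →
  C₁ * Real.log (Real.log X) ≤ z → C₁ * (z : ℝ) ≤ Real.log X → MSq A' X (PW z ^ (b + 1)) →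
  ∃ E : Finset (ℕ × ℕ), (E.card : ℝ) ≤ (X : ℝ) ^ 2 / (PW z : ℝ) ^ A ∧
    ∀ n ∈ Ioc X (2 * X), ∀ m ∈ Ioc X (2 * X), n ≠ m → (n, m) ∉ E →
      ∑ β ∈ Us (n : ZMod (PW z)) (m : ZMod (PW z)), (B2 X n m β - vv (PW z) ^ 2 * SP z X (dst n m)) ^ 2 ≤
        (1 / Real.log X ^ A * vv (PW z) ^ 2 * SP z X (dst n m)) ^ 2 * (Us (n : ZMod (PW z)) (m : ZMod (PW z))).card

/-- conclusion of `S_HS` -/
def S_HS' : Prop := ∃ (C : ℝ) (z₀ : ℕ), 0 < C ∧ ∀ (z X K : ℕ), z₀ ≤ z → 8 * K ≤ z →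
  (PW z : ℝ) ^ 4 * Real.log X ^ (16 * K + 4) ≤ X → ∀ c d : ZMod (PW z),
  ∑ n ∈ (Ioc X (2 * X)).filter (fun n : ℕ => (n : ZMod (PW z)) = c),
    ∑ m ∈ (Ioc X (2 * X)).filter (fun m : ℕ => (m : ZMod (PW z)) = d ∧ m ≠ n), SP z X (dst n m) ^ K ≤
      ((X : ℝ) / PW z) ^ 2 * (1 + C / Real.log z)

/-- conclusion of `S_TAIL` -/
def S_TAIL' : Prop := ∀ ε : ℝ, 0 < ε → ∃ (C : ℝ) (X₀ z₀ : ℕ), 0 < C ∧ ∀ (z X K : ℕ), X₀ ≤ X → z₀ ≤ z → 8 * K ≤ z →
  (z : ℝ) ≤ Real.log X → (PW z : ℝ) ^ 2 ≤ X → ∀ b : Fin K → ZMod (PW z),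
  (((Sb X b).filter fun s => ¬ (|sing s - singP s z| ≤ ε * singP s z)).card : ℝ) ≤ C / Real.log z * (Sb X b).card

lemma msq_mono {A A' X F : ℕ} (hX : 3 ≤ X) (h : A ≤ A') (hM : MSq A' X F) : MSq A X F := by
  have hL : 1 ≤ Real.log X := by
    rw [Real.le_log_iff_exp_le (by positivity)]
    have : (3 : ℝ) ≤ X := by exact_mod_cast hX
    linarith [Real.exp_one_lt_d9]
  have hp : Real.log X ^ A ≤ Real.log X ^ A' := pow_le_pow_right₀ hL h
  have hp0 : 0 < Real.log X ^ A := by positivity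
  intro n n' h1 h2 h3
  obtain ⟨a, b⟩ := hM n n' h1 h2 h3
  refine ⟨a.trans ?_, b.trans ?_⟩
  · exact div_le_div_of_nonneg_left (by positivity) hp0 hp
  · exact div_le_div_of_nonneg_left (by positivity) hp0 hp

lemma PW_pos (z : ℕ) : 0 < PW z := Nat.pos_of_ne_zero (NeZero.ne _)

lemma PW_sqf (z : ℕ) : Squarefree (PW z) := by
  unfold PW
  have : ∀ T : Finset ℕ, (∀ p ∈ T, p.Prime) → Squarefree (∏ p ∈ T, p) := by
    intro T
    induction T using Finset.induction_on with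
    | empty => intro _; simp
    | insert p T hp ih =>
      intro h
      rw [Finset.prod_insert hp, Nat.squarefree_mul_iff]
      have hpp := h p (mem_insert_self p T)
      refine ⟨?_, hpp.squarefree, ih fun q hq => h q (mem_insert_of_mem hq)⟩
      rw [Nat.coprime_prod_right_iff]
      intro q hq
      rw [Nat.coprime_primes hpp (h q (mem_insert_of_mem hq))]
      rintro rfl
      exact hp hq
  exact this _ fun p hp => (mem_filter.1 hp).2

lemma ioc_class {W : ℕ} [NeZero W] {a b : ℕ} (hab : a ≤ b) (β : ZMod W) :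
    |((((Ioc a b).filter fun s : ℕ => (s : ZMod W) = β).card : ℕ) : ℝ) - ((b : ℝ) - a) / W| ≤ 1 := by
  have hW : 0 < W := Nat.pos_of_ne_zero (NeZero.ne W)
  have hWr : (0 : ℝ) < W := by exact_mod_cast hW
  have hk : ∀ k : ℕ, (k : ZMod W) = β ↔ k ≡ β.val [MOD W] := fun k => by
    rw [← ZMod.natCast_eq_natCast_iff, ZMod.natCast_zmod_val]
  have h1 : ((Ioc a b).filter fun s : ℕ => (s : ZMod W) = β) = (Ioc a b).filter (fun x => x ≡ β.val [MOD W]) := by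
    ext x; simp [hk]
  have h2 := Nat.Ioc_filter_modEq_card a b hW β.val
  rw [h1]
  set x : ℚ := ((b : ℚ) - (β.val : ℚ)) / (W : ℚ) with hx
  set y : ℚ := ((a : ℚ) - (β.val : ℚ)) / (W : ℚ) with hy
  have hxy : x - y = ((b : ℚ) - a) / W := by rw [hx, hy]; ring
  have hxy0 : y ≤ x := by
    have : (0 : ℚ) ≤ ((b : ℚ) - a) / W := by
      apply div_nonneg
      · have : (a : ℚ) ≤ b := by exact_mod_cast hab
        linarith
      · positivity
    linarith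
  have hfl : ⌊y⌋ ≤ ⌊x⌋ := Int.floor_le_floor hxy0
  have h3 : (((Ioc a b).filter (fun x => x ≡ β.val [MOD W])).card : ℤ) = ⌊x⌋ - ⌊y⌋ := by
    rw [h2]
    exact max_eq_left (by omega)
  have h4 : (((Ioc a b).filter (fun x => x ≡ β.val [MOD W])).card : ℚ) = (⌊x⌋ : ℚ) - ⌊y⌋ := by
    exact_mod_cast h3
  have h5 : |(((Ioc a b).filter (fun x => x ≡ β.val [MOD W])).card : ℚ) - ((b : ℚ) - a) / W| ≤ 1 := by
    rw [h4, ← hxy, abs_le]
    have a1 := Int.floor_le x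
    have a2 := Int.lt_floor_add_one x
    have a3 := Int.floor_le y
    have a4 := Int.lt_floor_add_one y
    constructor <;> linarith
  have h6 : (((|(((Ioc a b).filter (fun x => x ≡ β.val [MOD W])).card : ℚ) - ((b : ℚ) - a) / W| : ℚ)) : ℝ) ≤ ((1 : ℚ) : ℝ) := by
    exact_mod_cast h5
  push_cast at h6
  exact h6

lemma cls_card {W : ℕ} [NeZero W] (X : ℕ) (β : ZMod W) :
    |((cls X β).card : ℝ) - (X : ℝ) / W| ≤ 1 := by
  have h := ioc_class (W := W) (Nat.zero_le X) β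
  have e : cls X β = (Ioc 0 X).filter fun s : ℕ => (s : ZMod W) = β := rfl
  rw [e]
  simpa using h

/-- primes above `W` are units -/
lemma unit_of_prime {W u : ℕ} [NeZero W] (hu : u.Prime) (hW : W < u) : IsUnit (u : ZMod W) := by
  rw [ZMod.isUnit_iff_coprime]
  rw [Nat.Prime.coprime_iff_not_dvd hu]
  exact Nat.not_dvd_of_pos_of_lt (Nat.pos_of_ne_zero (NeZero.ne W)) hW

lemma wt_nonneg (u : ℕ) : 0 ≤ wt u := by
  unfold wt
  split_ifs
  · exact Real.log_natCast_nonneg u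
  · exact le_rfl

lemma B2_zero {W : ℕ} [NeZero W] {X n m : ℕ} (hWX : W ≤ X) (hn : n ∈ Ioc X (2 * X)) (hm : m ∈ Ioc X (2 * X))
    {β : ZMod W} (hβ : β ∉ Us (n : ZMod W) (m : ZMod W)) : B2 X n m β = 0 := by
  unfold B2
  rw [Finset.sum_eq_zero, zero_div]
  intro s hs
  unfold cls at hs
  rw [mem_filter, mem_Icc] at hs
  rw [mem_Ioc] at hn hm
  by_contra hcon
  have h1 : wt (n + s) ≠ 0 := left_ne_zero_of_mul hcon
  have h2 : wt (m + s) ≠ 0 := right_ne_zero_of_mul hcon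
  have p1 : (n + s).Prime := by
    by_contra h; exact h1 (by unfold wt; rw [if_neg h])
  have p2 : (m + s).Prime := by
    by_contra h; exact h2 (by unfold wt; rw [if_neg h])
  apply hβ
  unfold Us
  rw [mem_filter]
  refine ⟨mem_univ _, ?_, ?_⟩
  · have := unit_of_prime (W := W) p1 (by omega)
    rw [Nat.cast_add, hs.2] at this
    exact this
  · have := unit_of_prime (W := W) p2 (by omega)
    rw [Nat.cast_add, hs.2] at this
    exact this

end Pool.Agent.Q145.SZ
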