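import Pool.Agent.Q145.SZ.Suf

/-!
# Project SZ: sufficiency, elementary estimates
-/

set_option autoImplicit false

namespace Pool.Agent.Q145.SZ

open Finset Filter

/-- elementary consequences of `C log log X ≤ z`, `C z log log X ≤ log X` -/
lemma elem {z X : ℕ} {C M : ℝ} (hC : 64 ≤ C) (hM : 1 ≤ M) (hX : M ≤ Real.log (Real.log X))
    (h1 : C * Real.log (Real.log X) ≤ z) (h2 : C * z * Real.log (Real.log X) ≤ Real.log X) :
    0 < Real.log X ∧ M ≤ Real.log X ∧ 64 * M ≤ (z : ℝ) ∧ 64 * (z : ℝ) ≤ Real.log X ∧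
    64 * ((z : ℝ) * Real.log (Real.log X)) ≤ Real.log X ∧ (X : ℝ) = Real.exp (Real.log X) ∧
    Real.log X = Real.exp (Real.log (Real.log X)) ∧ 1 ≤ Real.log (Real.log X) ∧ Real.log (Real.log X) ≤ Real.log X := by
  set l := Real.log (Real.log X) with hl
  have hl1 : 1 ≤ l := hM.trans hX
  have hz64 : 64 * l ≤ z := by nlinarith
  have hz0 : (0 : ℝ) < z := by nlinarith
  have h2' : 64 * ((z : ℝ) * l) ≤ Real.log X := by nlinarith [mul_pos hz0 (by linarith : (0:ℝ) < l)]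
  have hL0 : 0 < Real.log X := by nlinarith [mul_pos hz0 (by linarith : (0:ℝ) < l)]
  have hX0 : (0 : ℝ) < X := by
    rcases Nat.eq_zero_or_pos X with h | h
    · rw [h] at hL0; simp at hL0
    · exact_mod_cast h
  have hzl : (z : ℝ) ≤ z * l := by nlinarith
  have hzL : 64 * (z : ℝ) ≤ Real.log X := by linarith
  refine ⟨hL0, by linarith, by linarith, hzL, h2', (Real.exp_log hX0).symm, (Real.exp_log hL0).symm, hl1, by linarith⟩

lemma exp_neg_le_inv {x : ℝ} (hx : 0 < x) : Real.exp (-x) ≤ 1 / x := by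
  rw [Real.exp_neg, one_div]
  have : x ≤ Real.exp x := by linarith [Real.add_one_le_exp x]
  exact inv_anti₀ hx this

lemma PW_le (h : S_PWB) (z : ℕ) : (PW z : ℝ) ≤ Real.exp (2 * z) := by
  refine (h.1 z).trans ?_
  have : (4 : ℝ) ≤ Real.exp 2 := by
    have := Real.add_one_le_exp (1 : ℝ)
    have e : Real.exp 2 = Real.exp 1 * Real.exp 1 := by rw [← Real.exp_add]; norm_num
    rw [e]; nlinarith
  calc (4 : ℝ) ^ z ≤ (Real.exp 2) ^ z := by gcongr
    _ = Real.exp (2 * z) := by rw [← Real.exp_nat_mul]; ring_nf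

lemma one_le_PW (z : ℕ) : (1 : ℝ) ≤ PW z := by exact_mod_cast PW_pos z

/-- `exp x ≤ 1 + 2 x` for `0 ≤ x ≤ 1` -/
lemma exp_le_two {x : ℝ} (h0 : 0 ≤ x) (h1 : x ≤ 1) : Real.exp x ≤ 1 + 2 * x := by
  have := Real.exp_bound' h0 h1 (n := 2) (by norm_num)
  norm_num [Finset.sum_range_succ] at this
  nlinarith

lemma one_add_pow_le {x : ℝ} {K : ℕ} (h0 : 0 ≤ x) (h1 : K * x ≤ 1) : (1 + x) ^ K ≤ 1 + 2 * (K * x) := by
  have h2 : 1 + x ≤ Real.exp x := by linarith [Real.add_one_le_exp x]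
  calc (1 + x) ^ K ≤ (Real.exp x) ^ K := by gcongr
    _ = Real.exp (K * x) := by rw [← Real.exp_nat_mul]
    _ ≤ 1 + 2 * (K * x) := exp_le_two (by positivity) h1

end Pool.Agent.Q145.SZ
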