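import Pool.Agent.Q145.SZ.SufA

/-!
# Project SZ: sufficiency, the variance
-/

set_option autoImplicit false

namespace Pool.Agent.Q145.SZ

open Finset Filter

open Classical in
/-- the conclusion of H1 at `(z, X)` -/
def H1c (A z X : ℕ) : Prop := ∀ n ∈ Ioc X (2 * X),
  ∑ β : ZMod (PW z), |A1 X n β - (if IsUnit ((n : ZMod (PW z)) + β) then vv (PW z) else 0)| ≤
    (2 / Real.log X ^ A + 2 * PW z / X) * vv (PW z) * Nat.totient (PW z)

open Classical in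
/-- the conclusion of H2 at `(z, X)` -/
def H2c (A z X : ℕ) : Prop := ∃ E : Finset (ℕ × ℕ), (E.card : ℝ) ≤ (X : ℝ) ^ 2 / (PW z : ℝ) ^ A ∧
    ∀ n ∈ Ioc X (2 * X), ∀ m ∈ Ioc X (2 * X), n ≠ m → (n, m) ∉ E →
      ∑ β ∈ Us (n : ZMod (PW z)) (m : ZMod (PW z)), (B2 X n m β - vv (PW z) ^ 2 * SP z X (dst n m)) ^ 2 ≤
        (1 / Real.log X ^ A * vv (PW z) ^ 2 * SP z X (dst n m)) ^ 2 * (Us (n : ZMod (PW z)) (m : ZMod (PW z))).card

lemma esum {z X K a : ℕ} (hpos : ∀ h, 0 ≤ SP z X h)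
    (hHS : ∀ c d : ZMod (PW z), ∑ n ∈ (Ioc X (2 * X)).filter (fun n : ℕ => (n : ZMod (PW z)) = c),
      ∑ m ∈ (Ioc X (2 * X)).filter (fun m : ℕ => (m : ZMod (PW z)) = d ∧ m ≠ n), SP z X (dst n m) ^ (2 * K) ≤
        ((X : ℝ) / PW z) ^ 2 * 2) (E : Finset (ℕ × ℕ)) (hE : (E.card : ℝ) ≤ (X : ℝ) ^ 2 / (PW z : ℝ) ^ (2 * a)) :
    ∑ q ∈ E.filter (fun q => q.1 ∈ Ioc X (2 * X) ∧ q.2 ∈ Ioc X (2 * X) ∧ q.1 ≠ q.2), SP z X (dst q.1 q.2) ^ K ≤
      2 / (PW z : ℝ) ^ a * (X : ℝ) ^ 2 := by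
  have hW0 : (0 : ℝ) < PW z := by exact_mod_cast PW_pos z
  set E' := E.filter (fun q => q.1 ∈ Ioc X (2 * X) ∧ q.2 ∈ Ioc X (2 * X) ∧ q.1 ≠ q.2) with hE'
  have h1 : (∑ q ∈ E', SP z X (dst q.1 q.2) ^ K) ^ 2 ≤ (E'.card : ℝ) * ∑ q ∈ E', (SP z X (dst q.1 q.2) ^ K) ^ 2 :=
    sq_sum_le_card_mul_sum_sq
  have h2 : ∑ q ∈ E', (SP z X (dst q.1 q.2) ^ K) ^ 2 ≤ 2 * (X : ℝ) ^ 2 := by
    have hsub : E' ⊆ (Ioc X (2 * X) ×ˢ Ioc X (2 * X)).filter (fun q => q.2 ≠ q.1) := by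
      intro q hq
      rw [hE', mem_filter] at hq
      rw [mem_filter, mem_product]
      exact ⟨⟨hq.2.1, hq.2.2.1⟩, fun h => hq.2.2.2 h.symm⟩
    have h3 := sum_le_sum_of_subset_of_nonneg (f := fun q : ℕ × ℕ => (SP z X (dst q.1 q.2) ^ K) ^ 2) hsub
      (fun q _ _ => by positivity)
    refine h3.trans ?_
    rw [sum_filter, sum_product]
    have h3' : ∀ n ∈ Ioc X (2 * X), (∑ m ∈ Ioc X (2 * X), if m ≠ n then (SP z X (dst n m) ^ K) ^ 2 else 0) =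
        ∑ m ∈ (Ioc X (2 * X)).filter (fun m => m ≠ n), (SP z X (dst n m) ^ K) ^ 2 := fun n _ => (sum_filter _ _).symm
    rw [sum_congr rfl h3']
    rw [← sum_fiberwise (Ioc X (2 * X)) (fun n : ℕ => (n : ZMod (PW z)))]
    have h4 : ∀ c : ZMod (PW z), ∑ n ∈ (Ioc X (2 * X)).filter (fun n : ℕ => (n : ZMod (PW z)) = c),
        ∑ m ∈ (Ioc X (2 * X)).filter (fun m => m ≠ n), (SP z X (dst n m) ^ K) ^ 2 ≤
          (PW z : ℝ) * (((X : ℝ) / PW z) ^ 2 * 2) := by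
      intro c
      have : ∀ n ∈ (Ioc X (2 * X)).filter (fun n : ℕ => (n : ZMod (PW z)) = c),
          ∑ m ∈ (Ioc X (2 * X)).filter (fun m => m ≠ n), (SP z X (dst n m) ^ K) ^ 2 =
          ∑ d : ZMod (PW z), ∑ m ∈ (Ioc X (2 * X)).filter (fun m : ℕ => (m : ZMod (PW z)) = d ∧ m ≠ n), SP z X (dst n m) ^ (2 * K) := by
        intro n _
        rw [← sum_fiberwise ((Ioc X (2 * X)).filter fun m => m ≠ n) (fun m : ℕ => (m : ZMod (PW z)))]
        refine sum_congr rfl fun d _ => ?_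
        rw [filter_filter]
        refine sum_congr ?_ fun m _ => ?_
        · ext m; simp only [mem_filter]; tauto
        · rw [← pow_mul, mul_comm K 2]
      rw [sum_congr rfl this, sum_comm]
      calc _ ≤ ∑ _d : ZMod (PW z), (((X : ℝ) / PW z) ^ 2 * 2) := sum_le_sum fun d _ => hHS c d
        _ = (PW z : ℝ) * (((X : ℝ) / PW z) ^ 2 * 2) := by
          rw [sum_const, card_univ, ZMod.card, nsmul_eq_mul]
    calc _ ≤ ∑ _c : ZMod (PW z), (PW z : ℝ) * (((X : ℝ) / PW z) ^ 2 * 2) := sum_le_sum fun c _ => h4 c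
      _ = 2 * (X : ℝ) ^ 2 := by
        rw [sum_const, card_univ, ZMod.card, nsmul_eq_mul]
        field_simp
  have h5 : (E'.card : ℝ) ≤ (X : ℝ) ^ 2 / (PW z : ℝ) ^ (2 * a) :=
    (by exact_mod_cast card_filter_le _ _ : (E'.card : ℝ) ≤ E.card).trans hE
  have h6 : (∑ q ∈ E', SP z X (dst q.1 q.2) ^ K) ^ 2 ≤ (2 / (PW z : ℝ) ^ a * (X : ℝ) ^ 2) ^ 2 := by
    calc _ ≤ (E'.card : ℝ) * ∑ q ∈ E', (SP z X (dst q.1 q.2) ^ K) ^ 2 := h1
      _ ≤ ((X : ℝ) ^ 2 / (PW z : ℝ) ^ (2 * a)) * (2 * (X : ℝ) ^ 2) := by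
        apply mul_le_mul h5 h2 (sum_nonneg fun _ _ => by positivity) (by positivity)
      _ = 2 * (((X : ℝ) ^ 2) / (PW z : ℝ) ^ a) ^ 2 := by
        rw [mul_comm 2 a, pow_mul]; field_simp
      _ ≤ 4 * (((X : ℝ) ^ 2) / (PW z : ℝ) ^ a) ^ 2 := by nlinarith [sq_nonneg (((X : ℝ) ^ 2) / (PW z : ℝ) ^ a)]
      _ = (2 / (PW z : ℝ) ^ a * (X : ℝ) ^ 2) ^ 2 := by ring
  exact abs_le_of_sq_le_sq' h6 (by positivity) |>.2

/-- the sieve bound for the means -/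
lemma B2_le {z X n m : ℕ} {Cs : ℝ} (hCs : 0 < Cs) (hS : 0 ≤ SP z X (dst n m)) (hW : 2 * (PW z : ℝ) ≤ X) {β : ZMod (PW z)}
    (h : ∑ s ∈ cls X β, wt (n + s) * wt (m + s) ≤ Cs * ((X : ℝ) / PW z) * vv (PW z) ^ 2 * SP z X (dst n m)) :
    B2 X n m β ≤ 2 * Cs * vv (PW z) ^ 2 * SP z X (dst n m) := by
  have hW0 : (0 : ℝ) < PW z := by exact_mod_cast PW_pos z
  have hc := cls_card (W := PW z) X β
  rw [abs_le] at hc
  have hx : 2 ≤ (X : ℝ) / PW z := by rw [le_div_iff₀ hW0]; exact hW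
  have hc2 : (X : ℝ) / PW z / 2 ≤ (cls X β).card := by linarith [hc.1]
  have hc0 : (0 : ℝ) < (cls X β).card := by linarith
  unfold B2
  rw [div_le_iff₀ hc0]
  refine h.trans ?_
  have h0 : 0 ≤ Cs * vv (PW z) ^ 2 * SP z X (dst n m) := by positivity
  calc Cs * ((X : ℝ) / PW z) * vv (PW z) ^ 2 * SP z X (dst n m)
      = (Cs * vv (PW z) ^ 2 * SP z X (dst n m)) * ((X : ℝ) / PW z) := by ring
    _ ≤ (Cs * vv (PW z) ^ 2 * SP z X (dst n m)) * (2 * (cls X β).card) := by gcongr; linarith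
    _ = _ := by ring

lemma wt_le {X u : ℕ} (hX : 3 ≤ X) (hu : u ≤ 3 * X) : wt u ≤ 2 * Real.log X := by
  have hXr : (3 : ℝ) ≤ X := by exact_mod_cast hX
  have hL : 0 ≤ Real.log X := Real.log_nonneg (by linarith)
  unfold wt
  split_ifs with h
  · have hu0 : (0 : ℝ) < u := by exact_mod_cast h.pos
    have : (u : ℝ) ≤ X ^ 2 := by
      have : (u : ℝ) ≤ 3 * X := by exact_mod_cast hu
      nlinarith
    calc Real.log u ≤ Real.log ((X : ℝ) ^ 2) := Real.log_le_log hu0 this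
      _ = 2 * Real.log X := by rw [Real.log_pow]; norm_num
  · linarith

lemma B2_diag {W : ℕ} [NeZero W] {X n : ℕ} (hX : 3 ≤ X) (hn : n ∈ Ioc X (2 * X)) (β : ZMod W) :
    B2 X n n β ≤ 4 * Real.log X ^ 2 := by
  have hL : 0 ≤ Real.log X := Real.log_natCast_nonneg X
  unfold B2
  apply div_le_of_le_mul₀ (by positivity) (by positivity)
  calc ∑ s ∈ cls X β, wt (n + s) * wt (n + s) ≤ ∑ _s ∈ cls X β, 4 * Real.log X ^ 2 := by
        apply sum_le_sum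
        intro s hs
        unfold cls at hs
        rw [mem_filter, mem_Icc] at hs
        rw [mem_Ioc] at hn
        have h := wt_le hX (u := n + s) (by omega)
        have h0 := wt_nonneg (n + s)
        nlinarith
    _ = 4 * Real.log X ^ 2 * (cls X β).card := by rw [sum_const, nsmul_eq_mul]; ring

end Pool.Agent.Q145.SZ
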