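import Pool.Agent.Q145.SZ.SufC

/-!
# Project SZ: sufficiency, the variance (3)
-/

set_option autoImplicit false

namespace Pool.Agent.Q145.SZ

open Finset Filter

/-- conclusion of `S_MOM1` -/
def S_MOM1' : Prop := ∀ (W : ℕ) [NeZero W] (X K : ℕ) (ε₁ : ℝ), W ≤ X →
  (∀ n ∈ Ioc X (2 * X), ∑ β : ZMod W, |A1 X n β - (open Classical in if IsUnit ((n : ZMod W) + β) then vv W else 0)| ≤ ε₁ * vv W * Nat.totient W) →
  (1 - (W : ℝ) / X - K * ε₁) * (Ad W K).card ≤
    ∑ b ∈ Ad W K, (∑ s ∈ Sb X b, wc X s / Mb X b) / (Sb X b).card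

open Classical in
lemma var_bound (h1 : S_LAW1) (h2 : S_LAW2') (m1 : S_MOM1) (m2 : S_MOM2) (hs : S_HS') (sv : S_SIEVE) (pb : S_PWB) (pc : S_PWC) (us : S_US) :
    ∃ a : ℕ, ∀ η : ℝ, 0 < η → ∃ M : ℝ, 1 ≤ M ∧ ∀ z X K : ℕ, M ≤ Real.log (Real.log X) →
      64 * Real.log (Real.log X) ≤ z → 64 * z * Real.log (Real.log X) ≤ Real.log X → 16 * K ≤ z →
      H1c (2 * a) z X → H2c (2 * a) z X →
      ∑ b ∈ Ad (PW z) K, (∑ s ∈ Sb X b, (wc X s / Mb X b - 1) ^ 2) / ((Sb X b).card : ℝ) ≤ η * ((Ad (PW z) K).card : ℝ) := by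
  obtain ⟨Cs, Xs, hCs, hsv⟩ := sv
  obtain ⟨Ch, zh, hCh, hhs⟩ := hs
  obtain ⟨Cc, hCc, hpc⟩ := pc
  obtain ⟨z₁, hz₁⟩ := pb.2
  obtain ⟨a₀, ha₀⟩ := exists_nat_ge (2 * Cs)
  refine ⟨a₀ + 6, ?_⟩
  intro η hη
  set η' := min η 1 with hη'
  have hη'0 : 0 < η' := by positivity
  have hη'1 : η' ≤ 1 := min_le_right _ _
  set M : ℝ := 1 + 64 / η' + 32 * (1 + Cc) / η' + 2 * (1 + Cc) + Real.exp (16 * Ch / η') + zh + z₁ + Xs with hM
  have p1 : 0 < 64 / η' := by positivity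
  have p2 : 0 < 32 * (1 + Cc) / η' := by positivity
  have p3 : 0 < 2 * (1 + Cc) := by positivity
  have p4 := Real.exp_pos (16 * Ch / η')
  have p5 : (0 : ℝ) ≤ zh := by positivity
  have p6 : (0 : ℝ) ≤ z₁ := by positivity
  have p7 : (0 : ℝ) ≤ Xs := by positivity
  have hM1 : 1 ≤ M := by linarith
  refine ⟨M, hM1, ?_⟩
  intro z X K hX hz hzL hK H1 H2
  obtain ⟨hL0, hLM, hzM, hzL', hzl, hXe, hLe, hl1, hlL⟩ := elem (C := 64) le_rfl hM1 hX hz hzL
  have hM0 : 0 < M := by linarith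
  have hz0 : (0 : ℝ) < z := by linarith
  have hzMM : M ≤ z := by linarith
  have hz1 : z₁ ≤ z := by
    have : (z₁ : ℝ) ≤ z := by linarith
    exact_mod_cast this
  have hzh : zh ≤ z := by
    have : (zh : ℝ) ≤ z := by linarith
    exact_mod_cast this
  have hz3 : 3 ≤ z := by
    have : (3 : ℝ) ≤ z := by linarith
    exact_mod_cast this
  have hXL : Real.log X ≤ X := by
    have := Real.add_one_le_exp (Real.log X)
    rw [← hXe] at this; linarith
  have hXs : Xs ≤ X := by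
    have : (Xs : ℝ) ≤ X := by linarith
    exact_mod_cast this
  have hX3 : 3 ≤ X := by
    have : (3 : ℝ) ≤ X := by linarith
    exact_mod_cast this
  have hX0 : (0 : ℝ) < X := by linarith
  set L := Real.log X with hL
  set l := Real.log L with hl
  have hW1 := one_le_PW z
  have hWe : (PW z : ℝ) ≤ Real.exp (2 * z) := PW_le pb z
  -- δ
  have hlogz : 16 * Ch / η' ≤ Real.log z := by
    rw [Real.le_log_iff_exp_le hz0]; linarith
  have hlz0 : 0 < Real.log z := lt_of_lt_of_le (by positivity) hlogz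
  have hδ : Ch / Real.log z ≤ η' / 16 := by
    rw [div_le_iff₀ hlz0]
    rw [div_le_iff₀ hη'0] at hlogz
    linarith
  have hδ0 : 0 ≤ Ch / Real.log z := by positivity
  have hδ1 : 1 + Ch / Real.log z ≤ 2 := by linarith
  -- conditions
  have hW20 : (PW z : ℝ) ^ 20 ≤ X := by
    calc (PW z : ℝ) ^ 20 ≤ (Real.exp (2 * z)) ^ 20 := by gcongr
      _ = Real.exp (40 * z) := by rw [← Real.exp_nat_mul]; ring_nf
      _ ≤ Real.exp L := Real.exp_le_exp.2 (by linarith)
      _ = X := hXe.symm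
  have hWX : (PW z : ℝ) * 2 ≤ X := by
    calc (PW z : ℝ) * 2 ≤ Real.exp (2 * z) * Real.exp z := by
          gcongr; linarith [Real.add_one_le_exp (z : ℝ)]
      _ = Real.exp (3 * z) := by rw [← Real.exp_add]; ring_nf
      _ ≤ Real.exp L := Real.exp_le_exp.2 (by linarith)
      _ = X := hXe.symm
  have hWXn : PW z ≤ X := by
    have : (PW z : ℝ) ≤ X := by linarith
    exact_mod_cast this
  have hLKe : ∀ j : ℕ, (j : ℝ) ≤ 2 * z + 4 → L ^ j ≤ Real.exp (L / 2) := by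
    intro j hj
    calc L ^ j = (Real.exp l) ^ j := by rw [← hLe]
      _ = Real.exp (j * l) := by rw [← Real.exp_nat_mul]
      _ ≤ Real.exp (L / 2) := by
        apply Real.exp_le_exp.2
        have : (j : ℝ) * l ≤ (2 * z + 4) * l := by gcongr
        nlinarith
  have hW4 : (PW z : ℝ) ^ 4 ≤ Real.exp (L / 2) := by
    calc (PW z : ℝ) ^ 4 ≤ (Real.exp (2 * z)) ^ 4 := by gcongr
      _ = Real.exp (8 * z) := by rw [← Real.exp_nat_mul]; ring_nf
      _ ≤ _ := Real.exp_le_exp.2 (by linarith)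
  have hKz : (16 : ℝ) * K ≤ z := by exact_mod_cast hK
  have hhs1 := hhs z X K hzh (by omega) (by
    calc (PW z : ℝ) ^ 4 * L ^ (16 * K + 4) ≤ Real.exp (L / 2) * Real.exp (L / 2) := by
          gcongr
          apply hLKe
          push_cast; linarith
      _ = Real.exp L := by rw [← Real.exp_add]; ring_nf
      _ = X := hXe.symm)
  have hhs2 := hhs z X (2 * K) hzh (by omega) (by
    calc (PW z : ℝ) ^ 4 * L ^ (16 * (2 * K) + 4) ≤ Real.exp (L / 2) * Real.exp (L / 2) := by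
          gcongr
          apply hLKe
          push_cast; linarith
      _ = Real.exp L := by rw [← Real.exp_add]; ring_nf
      _ = X := hXe.symm)
  have hSP : ∀ h, 1 / 2 ≤ SP z X h := fun h => us.2.2 z X h hz3
  have hSP0 : ∀ h, 0 < SP z X h := fun h => lt_of_lt_of_le (by norm_num) (hSP h)
  obtain ⟨E, hE, hEE⟩ := H2
  have hv := vv_pos z
  -- the first moment
  have f1 := m1 h1 (PW z) X K (2 / L ^ (2 * (a₀ + 6)) + 2 * PW z / X) hWXn H1
  -- the second moment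
  have f2 := m2 h2 (PW z) X K (1 / L ^ (2 * (a₀ + 6))) (2 * Cs) (4 * L ^ 2) (Ch / Real.log z) (2 / (PW z : ℝ) ^ (a₀ + 6))
    (fun n m => SP z X (dst n m)) E (PW_sqf z) hWXn (by positivity) (by positivity) (by positivity) hδ0 (by positivity)
    (fun n m => hSP0 _) hEE (fun n hn m hm β hβ => B2_zero hWXn hn hm hβ)
    (fun n hn m hm hnm β => B2_le hCs (hSP0 _).le (by rw [mul_comm]; exact hWX) (hsv z X hXs (by omega) hW20 n hn m hm hnm β))
    (fun n hn β => B2_diag hX3 hn β) hhs1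
    (esum (fun h => (hSP0 h).le) (fun c d => (hhs2 c d).trans (mul_le_mul_of_nonneg_left hδ1 (by positivity))) E hE)
  have hnum := num_part (a₀ := a₀) hη'0 hη'1 hM1 (by linarith) (by positivity : (0:ℝ) ≤ 2 * Cs) ha₀ hCc (by linarith) (by linarith) pb (hz₁ z hz1)
    (hpc z (by omega)).2 hX hz hzL hK hδ0 hδ
  have hcard : (0 : ℝ) ≤ ((Ad (PW z) K).card : ℝ) := Nat.cast_nonneg _
  refine split_sq.trans ?_
  have := mul_le_mul_of_nonneg_right hnum hcard
  have hηη : η' * ((Ad (PW z) K).card : ℝ) ≤ η * ((Ad (PW z) K).card : ℝ) := by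
    exact mul_le_mul_of_nonneg_right (min_le_left _ _) hcard
  refine le_trans ?_ hηη
  refine le_trans ?_ this
  have e : ∀ u v w : ℝ, (u - 2 * v + 1) * w = u * w - 2 * (v * w) + w := by intro u v w; ring
  rw [e]
  gcongr

end Pool.Agent.Q145.SZ
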