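import Pool.Agent.Q145.SZ.SufF

/-!
# Project SZ: zero-free regions
-/

set_option autoImplicit false

namespace Pool.Agent.Q145.SZ

open Finset Filter Complex
open Pool.Agent.W66 Pool.Agent.W66L

/-- conclusion of `S_ZR` -/
def S_ZR' : Prop := ∃ c : ℝ, 0 < c ∧ ∀ (f : ℕ) [NeZero f] (χ : DirichletCharacter ℂ f), χ ≠ 1 → ∀ s : ℂ, χ.LFunction s = 0 →
  1 - c / lq f s.im < s.re → χ ^ 2 = 1 ∧ s.im = 0

lemma prim_ne_one {f : ℕ} [NeZero f] (hf : 1 < f) {χ : DirichletCharacter ℂ f} (h : χ.IsPrimitive) : χ ≠ 1 := by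
  rintro rfl
  rw [DirichletCharacter.isPrimitive_def, DirichletCharacter.conductor_one] at h
  omega

lemma ell_mono {s t : ℝ} (h : |s| ≤ t) : ell s ≤ Real.log (t + 3) := by
  unfold ell
  apply Real.log_le_log (by positivity)
  linarith

lemma lq_le {f F : ℕ} [NeZero f] (h : f ≤ F) {s t : ℝ} (hs : |s| ≤ t) : lq f s ≤ Real.log F + Real.log (t + 3) := by
  unfold lq
  have hf : (0 : ℝ) < f := by exact_mod_cast Nat.pos_of_ne_zero (NeZero.ne f)
  have : Real.log f ≤ Real.log F := Real.log_le_log hf (by exact_mod_cast h)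
  have := ell_mono hs
  linarith

lemma lq_pos {f : ℕ} [NeZero f] {s : ℝ} : 0 < lq f s := by
  unfold lq ell
  have hf : (1 : ℝ) ≤ f := by exact_mod_cast Nat.pos_of_ne_zero (NeZero.ne f)
  have : 0 ≤ Real.log f := Real.log_nonneg hf
  have : 0 < Real.log (|s| + 3) := Real.log_pos (by linarith [abs_nonneg s])
  linarith

lemma zf_of (zr : S_ZR') : ∃ c : ℝ, 0 < c ∧ ∀ (F : ℕ) (T w ω : ℝ), 0 < ω → ω ≤ w →
    ω * (Real.log F + Real.log (T + 3)) ≤ c →
    (∀ (f : ℕ) [NeZero f], 1 < f → f ≤ F → ∀ χ : DirichletCharacter ℂ f, χ.IsPrimitive → χ ^ 2 = 1 →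
      ∀ β : ℝ, χ.LFunction β = 0 → β ≤ 1 - w) →
    ZF F ω T := by
  obtain ⟨c, hc, h⟩ := zr
  refine ⟨c, hc, ?_⟩
  intro F T w ω hω hωw hωc hreal f _ hf hfF χ hχ s hs him h0
  have hlq := lq_pos (f := f) (s := s.im)
  have h1 : 1 - c / lq f s.im < s.re := by
    have : ω ≤ c / lq f s.im := by
      rw [le_div_iff₀ hlq]
      calc ω * lq f s.im ≤ ω * (Real.log F + Real.log (T + 3)) := by
            gcongr; exact lq_le hfF him
        _ ≤ c := hωc
    linarith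
  obtain ⟨h2, h3⟩ := h f χ (prim_ne_one hf hχ) s h0 h1
  have hsr : s = ((s.re : ℝ) : ℂ) := by
    apply Complex.ext <;> simp [h3]
  rw [hsr] at h0
  have := hreal f hf hfF χ hχ h2 s.re h0
  linarith

lemma log_tendsto : Tendsto (fun X : ℕ => Real.log X) atTop atTop :=
  Real.tendsto_log_atTop.comp tendsto_natCast_atTop_atTop

lemma ll_tendsto : Tendsto (fun X : ℕ => Real.log (Real.log X)) atTop atTop :=
  Real.tendsto_log_atTop.comp log_tendsto

lemma ev_log_rpow (C : ℝ) {a : ℝ} (ha : 0 < a) : ∀ᶠ x : ℝ in atTop, C * Real.log x ≤ x ^ a := by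
  have h := isLittleO_log_rpow_atTop ha
  have hC : 0 < |C| + 1 := by positivity
  have h2 := h.bound (inv_pos.2 hC)
  filter_upwards [h2, eventually_ge_atTop 1] with x hx hx1
  have hl : 0 ≤ Real.log x := Real.log_nonneg hx1
  have hp : 0 ≤ x ^ a := by positivity
  rw [Real.norm_of_nonneg hl, Real.norm_of_nonneg hp, inv_mul_eq_div, le_div_iff₀ hC] at hx
  have : C ≤ |C| + 1 := by linarith [le_abs_self C]
  nlinarith

lemma ev_ll_rpow (C : ℝ) {a : ℝ} (ha : 0 < a) : ∀ᶠ X : ℕ in atTop, C * Real.log (Real.log X) ≤ Real.log X ^ a :=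
  log_tendsto.eventually (ev_log_rpow C ha)

/-- the inner part of `S_SUF` for fixed `B`, `C₀` -/
def SUFc (B : ℕ) (C₀ : ℝ) : Prop := ∀ ε : ℝ, 0 < ε → ∃ M : ℝ, C₀ ≤ M ∧
    ∀ (z X : ℕ) (ω T : ℝ), M ≤ Real.log (Real.log X) → C₀ * Real.log (Real.log X) ≤ z → C₀ * z * Real.log (Real.log X) ≤ Real.log X →
      0 < ω → ω ≤ 1 / 4 → C₀ * Real.log (Real.log X) ≤ ω * Real.log X → 0 < T → 120 * B * z ≤ Real.log T → 6 * √(Real.log X) ≤ Real.log T →
      ZF (PW z ^ B) ω T → ∀ K : ℕ, 16 * K ≤ z → HLK X K ε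

lemma log_PW_pow_le (pb : S_PWB) (z B : ℕ) : Real.log ((PW z ^ B : ℕ) : ℝ) ≤ 2 * B * z := by
  push_cast
  rw [Real.log_pow]
  have hW1 := one_le_PW z
  have : Real.log (PW z) ≤ 2 * z := by
    rw [Real.log_le_iff_le_exp (by linarith)]; exact PW_le pb z
  calc (B : ℝ) * Real.log (PW z) ≤ B * (2 * z) := by gcongr
    _ = _ := by ring

lemma uni (zr : S_ZR') (pb : S_PWB) {B : ℕ} {C₀ : ℝ} (hB : 1 ≤ B) (hC₀ : 64 ≤ C₀) (hsuf : SUFc B C₀)
    (z : ℕ → ℕ) (θ : ℝ) (hθ : 1 / 2 ≤ θ) (hθ1 : θ < 1)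
    (hz1 : ∀ᶠ X : ℕ in atTop, C₀ * Real.log (Real.log X) ≤ z X) (hz2 : ∀ᶠ X : ℕ in atTop, (z X : ℝ) ≤ Real.log X ^ θ)
    (hreal : ∀ᶠ X : ℕ in atTop, ∀ (f : ℕ) [NeZero f], 1 < f → f ≤ PW (z X) ^ B → ∀ χ : DirichletCharacter ℂ f, χ.IsPrimitive → χ ^ 2 = 1 →
      ∀ β : ℝ, χ.LFunction β = 0 → β ≤ 1 - Real.log X ^ (-θ)) (ε : ℝ) (hε : 0 < ε) :
    ∀ᶠ X : ℕ in atTop, ∀ K : ℕ, 16 * K ≤ z X → HLK X K ε := by
  obtain ⟨c, hc, hzf⟩ := zf_of zr
  obtain ⟨M, hM, hh⟩ := hsuf ε hε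
  have hBr : (1 : ℝ) ≤ B := by exact_mod_cast hB
  set c' : ℝ := min (1 / 4) (c / (130 * B)) with hc'
  have hc'0 : 0 < c' := by positivity
  have hc'4 : c' ≤ 1 / 4 := min_le_left _ _
  have hc'c : c' ≤ c / (130 * B) := min_le_right _ _
  have hθ' : 0 < 1 - θ := by linarith
  filter_upwards [hz1, hz2, hreal, ll_tendsto.eventually_ge_atTop M, ev_ll_rpow (C₀ / c') hθ'] with X h1 h2 h3 h4 h5
  have hl64 : 64 ≤ Real.log (Real.log X) := by linarith
  obtain ⟨hL1, -, -⟩ := ll_conseq (M := 64) (by norm_num) hl64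
  set L := Real.log X with hL
  set l := Real.log L with hl
  have hL0 : 0 < L := by linarith
  have hL1' : 1 ≤ L := by linarith
  have hLθ : 1 ≤ L ^ θ := Real.one_le_rpow hL1' (by linarith)
  have hLmul : L ^ θ * L ^ (1 - θ) = L := by rw [← Real.rpow_add hL0]; simp
  have hLneg : L ^ (-θ) * L = L ^ (1 - θ) := by
    nth_rewrite 2 [← Real.rpow_one L]
    rw [← Real.rpow_add hL0]; ring_nf
  have hLinv : L ^ (-θ) * L ^ θ = 1 := by rw [← Real.rpow_add hL0]; simp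
  have hneg0 : 0 < L ^ (-θ) := Real.rpow_pos_of_pos hL0 _
  have hneg1 : L ^ (-θ) ≤ 1 := by
    by_contra hcon
    push Not at hcon
    nlinarith
  have hl0 : 0 < l := by linarith
  have h5' : C₀ * l ≤ c' * L ^ (1 - θ) := by
    have := mul_le_mul_of_nonneg_left h5 hc'0.le
    have e : c' * (C₀ / c' * l) = C₀ * l := by field_simp
    rw [e] at this
    exact this
  have h6 : C₀ * l ≤ L ^ (1 - θ) := by
    refine h5'.trans ?_
    have : 0 < L ^ (1 - θ) := Real.rpow_pos_of_pos hL0 _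
    nlinarith
  intro K hK
  set T : ℝ := Real.exp (120 * B * z X + 6 * √L) with hT
  have hlogT : Real.log T = 120 * B * z X + 6 * √L := by rw [hT, Real.log_exp]
  have hsq : √L ≤ L ^ θ := by
    rw [Real.sqrt_eq_rpow]
    exact Real.rpow_le_rpow_of_exponent_le hL1' hθ
  have hlogT3 : Real.log (T + 3) ≤ (120 * B + 8) * L ^ θ := by
    have hT1 : 1 ≤ T := by
      rw [hT]; exact Real.one_le_exp (by positivity)
    have h7 : Real.log (T + 3) ≤ Real.log (T * 4) := Real.log_le_log (by linarith) (by linarith)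
    rw [Real.log_mul (by linarith) (by norm_num), hlogT] at h7
    have h8 : Real.log 4 ≤ 2 := by
      rw [Real.log_le_iff_le_exp (by norm_num)]
      have := Real.add_one_le_exp (1 : ℝ)
      have e : Real.exp 2 = Real.exp 1 * Real.exp 1 := by rw [← Real.exp_add]; norm_num
      rw [e]; nlinarith
    have h9 : 120 * (B : ℝ) * z X ≤ 120 * B * L ^ θ := by gcongr
    nlinarith
  refine hh (z X) X (c' * L ^ (-θ)) T h4 h1 ?_ (by positivity) ?_ ?_ (Real.exp_pos _) ?_ ?_ ?_ K hK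
  · calc C₀ * z X * l ≤ C₀ * L ^ θ * l := by gcongr
      _ = L ^ θ * (C₀ * l) := by ring
      _ ≤ L ^ θ * L ^ (1 - θ) := by gcongr
      _ = L := hLmul
  · nlinarith
  · calc C₀ * l ≤ c' * L ^ (1 - θ) := h5'
      _ = c' * L ^ (-θ) * L := by rw [mul_assoc, hLneg]
  · rw [hlogT]; linarith [Real.sqrt_nonneg L]
  · rw [hlogT]
    have : 0 ≤ 120 * (B : ℝ) * z X := by positivity
    linarith
  · refine hzf _ T (L ^ (-θ)) (c' * L ^ (-θ)) (by positivity) ?_ ?_ h3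
    · nlinarith
    · have h7 := log_PW_pow_le pb (z X) B
      have h8 : 2 * (B : ℝ) * z X ≤ 2 * B * L ^ θ := by gcongr
      have h9 : Real.log ((PW (z X) ^ B : ℕ) : ℝ) + Real.log (T + 3) ≤ 130 * B * L ^ θ := by
        nlinarith
      calc c' * L ^ (-θ) * (Real.log ((PW (z X) ^ B : ℕ) : ℝ) + Real.log (T + 3)) ≤ c' * L ^ (-θ) * (130 * B * L ^ θ) := by gcongr
        _ = c' * (130 * B) * (L ^ (-θ) * L ^ θ) := by ring
        _ = c' * (130 * B) := by rw [hLinv, mul_one]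
        _ ≤ c := by rw [le_div_iff₀ (by positivity)] at hc'c; exact hc'c

end Pool.Agent.Q145.SZ
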